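import Mathlib

/-!
# Project H740-BQ: every separable infinite-dimensional complex Banach space carries
`T = 1 + A` hypercyclic, spectrum `{1}`, `T ⊕ T` not cyclic.

This file only holds definitions and the task statements (as `Prop`s).
-/

set_option autoImplicit false

open Filter Topology

namespace Pool.Agent.H740R3.BQ

universe u

/-! ## Matrix part.  Dimension `D = 6d+6`, `m+1 = 3d+3`, `q = 2d+2`. -/

/-- shift matrix: `S e_k = e_{k+1}`, `S e_{D-1} = 0` -/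
def SM (D : ℕ) : Matrix (Fin D) (Fin D) ℂ := fun i k => if (i : ℕ) = k + 1 then 1 else 0

/-- truncated convolution -/
noncomputable def cv {D : ℕ} (u v : Fin D → ℂ) : Fin D → ℂ :=
  fun k => ∑ a : Fin D, ∑ b : Fin D, if (a : ℕ) + b = k then u a * v b else 0

/-- the Gram matrix `Γ(i,j) = L(H e_i * H e_j)` -/
noncomputable def Gam {D : ℕ} (L : Fin D → ℂ) (H : Matrix (Fin D) (Fin D) ℂ) :
    Matrix (Fin D) (Fin D) ℂ :=
  fun i j => ∑ k : Fin D, L k * cv (fun a => H a i) (fun a => H a j) k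

/-- first basis vector -/
def e0 (D : ℕ) : Fin D → ℂ := fun i => if (i : ℕ) = 0 then 1 else 0

/-- `δ_n(k) = C(n,k)/n^k - p_k/n^k` -/
noncomputable def dl (p : ℕ → ℂ) (n : ℕ) (k : ℕ) : ℂ :=
  (n.choose k : ℂ) / (n : ℂ) ^ k - p k / (n : ℂ) ^ k

/-- the limit of `dl p n` as `n → ∞` -/
noncomputable def dinf (p0 : ℂ) (k : ℕ) : ℂ := 1 / (k.factorial : ℂ) - (if k = 0 then p0 else 0)

/-- columns `e_k` (`k < 3d+3`), `S^j δ` at index `3d+3+j` (`j < 3d+3`) -/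
noncomputable def GM (d : ℕ) (δ : ℕ → ℂ) : Matrix (Fin (6 * d + 6)) (Fin (6 * d + 6)) ℂ :=
  fun i k => if (k : ℕ) < 3 * d + 3 then (if (i : ℕ) = k then 1 else 0)
    else (if (k : ℕ) - (3 * d + 3) ≤ i then δ ((i : ℕ) - ((k : ℕ) - (3 * d + 3))) else 0)

/-- convolution of a sequence with itself -/
noncomputable def cs (δ : ℕ → ℂ) (k : ℕ) : ℂ := ∑ j ∈ Finset.range (k + 1), δ j * δ (k - j)

/-- columns `e_k` (`k < 2d+2`), `S^j δ` at `2d+2+j`, `S^j (δ*δ)` at `4d+4+j` (`j < 2d+2`) -/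
noncomputable def KM (d : ℕ) (δ : ℕ → ℂ) : Matrix (Fin (6 * d + 6)) (Fin (6 * d + 6)) ℂ :=
  fun i k => if (k : ℕ) < 2 * d + 2 then (if (i : ℕ) = k then 1 else 0)
    else if (k : ℕ) < 4 * d + 4 then
      (if (k : ℕ) - (2 * d + 2) ≤ i then δ ((i : ℕ) - ((k : ℕ) - (2 * d + 2))) else 0)
    else (if (k : ℕ) - (4 * d + 4) ≤ i then cs δ ((i : ℕ) - ((k : ℕ) - (4 * d + 4))) else 0)

/-- the scaling exponents -/
def ex (d k : ℕ) : ℤ :=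
  if k < d then -(2 * d * k)
  else if k < 3 * d + 3 then ((k : ℤ) - d + 1) - 2 * d * k
  else ((k : ℤ) - (3 * d + 3) + 1) - 2 * d * ((k : ℤ) - (3 * d + 3))

/-- `H = G diag(ν^{ex})`, with `n = ν^{2d}` -/
noncomputable def HM (d : ℕ) (p : ℕ → ℂ) (ν : ℕ) : Matrix (Fin (6 * d + 6)) (Fin (6 * d + 6)) ℂ :=
  GM d (dl p (ν ^ (2 * d))) * Matrix.diagonal (fun k : Fin (6 * d + 6) => (ν : ℂ) ^ (ex d k))

/-- `B = n⁻¹ H⁻¹ S H`, `n = ν^{2d}` -/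
noncomputable def BM (d : ℕ) (p : ℕ → ℂ) (ν : ℕ) : Matrix (Fin (6 * d + 6)) (Fin (6 * d + 6)) ℂ :=
  ((ν : ℂ) ^ (2 * d))⁻¹ • ((HM d p ν)⁻¹ * SM (6 * d + 6) * HM d p ν)

/-- **T1a** power series independence: polynomials `P_j` (`j < r`) of degree `< N` with
`∑_{j<r} P_j e^{jX} ≡ 0 mod X^{rN}` are all zero. (Differentiate `N` times to kill `P_0`, the
congruence drops to mod `X^{(r-1)N}`, multiply by `e^{-X}`; the operator `P ↦ jP + P'` is injective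
and preserves the degree bound for `j ≠ 0`; induct on `r`, perhaps with general distinct
exponents.) -/
def T1a : Prop := ∀ (r N : ℕ) (P : ℕ → Polynomial ℂ), (∀ j, (P j).degree < N) →
  (PowerSeries.X : PowerSeries ℂ) ^ (r * N) ∣
    ∑ j ∈ Finset.range r, (P j : PowerSeries ℂ) * (PowerSeries.exp ℂ) ^ j →
  ∀ j, j < r → P j = 0

/-- **T1b** the limit matrix `G_∞` is invertible (from T1a with `r = 2`, `N = 3d+3`) -/
def T1b : Prop := T1a → ∀ (d : ℕ) (p0 : ℂ), (GM d (dinf p0)).det ≠ 0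

/-- **T1c** the limit matrix `K_∞` is invertible (from T1a with `r = 3`, `N = 2d+2`) -/
def T1c : Prop := T1a → ∀ (d : ℕ) (p0 : ℂ), (KM d (dinf p0)).det ≠ 0

/-- **T0** `δ_n → δ_∞` along `n = ν^{2d}` -/
def T0 : Prop := ∀ (d : ℕ) (p : ℕ → ℂ), 1 ≤ d → ∀ k : ℕ,
  Tendsto (fun ν : ℕ => dl p (ν ^ (2 * d)) k) atTop (𝓝 (dinf (p 0) k))

/-- **T2a** `G_ν` is eventually invertible and `W_ν = G_ν⁻¹ S G_ν` is bounded
(continuity of `det` and `adjugate`) -/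
def T2a : Prop := T0 → ∀ (d : ℕ) (p : ℕ → ℂ), 1 ≤ d → (GM d (dinf (p 0))).det ≠ 0 →
  ∃ C : ℝ, ∀ᶠ ν : ℕ in atTop, IsUnit (GM d (dl p (ν ^ (2 * d)))).det ∧
    ∀ i j : Fin (6 * d + 6), ‖((GM d (dl p (ν ^ (2 * d))))⁻¹ * SM (6 * d + 6) *
      GM d (dl p (ν ^ (2 * d)))) i j‖ ≤ C

/-- **T2** convergence of `B_ν`: `B[l,k] = W[l,k] ν^{ex k - ex l - 2d}`, and `W e_k = e_{k+1}` for
`k ≠ 3d+2, 6d+5`; all entries except `l = k+1 < d` tend to `0` as the exponents are negative. -/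
def T2 : Prop := T0 → T2a → ∀ (d : ℕ) (p : ℕ → ℂ), 1 ≤ d →
  (GM d (dinf (p 0))).det ≠ 0 →
  (∀ᶠ ν : ℕ in atTop, IsUnit (HM d p ν).det) ∧
  (∀ i j : Fin (6 * d + 6), Tendsto (fun ν : ℕ => BM d p ν i j) atTop
    (𝓝 (if (i : ℕ) = j + 1 ∧ (i : ℕ) < d then 1 else 0)))

/-- **T3a** the functionals `L_ν = ℓ K_ν⁻¹` -/
def T3a : Prop := T0 → ∀ (d : ℕ) (p c : ℕ → ℂ), 1 ≤ d → (∀ k, d ≤ k → c k = 0) →
  (KM d (dinf (p 0))).det ≠ 0 →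
  ∃ (L : ℕ → (Fin (6 * d + 6) → ℂ)) (C : ℝ), ∀ᶠ ν : ℕ in atTop,
    (∀ i, ‖L ν i‖ ≤ C * (ν : ℝ) ^ (2 * d * (d - 1))) ∧
    (∀ k : Fin (6 * d + 6), ∑ i, L ν i * KM d (dl p (ν ^ (2 * d))) i k =
      if (k : ℕ) < 2 * d + 2 then (ν : ℂ) ^ (2 * d * (k : ℕ)) * c k else 0)

/-- a shifted sequence, cut off at `D` -/
def shv (D a : ℕ) (δ : ℕ → ℂ) : Fin D → ℂ := fun i => if a ≤ (i : ℕ) then δ ((i : ℕ) - a) else 0

/-- convolution of sequences -/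
noncomputable def conv (δ η : ℕ → ℂ) (k : ℕ) : ℂ := ∑ j ∈ Finset.range (k + 1), δ j * η (k - j)

/-- **T3s** convolution of shifted sequences -/
def T3s : Prop := ∀ (D a b : ℕ) (δ η : ℕ → ℂ),
  cv (shv D a δ) (shv D b η) = shv D (a + b) (conv δ η)

/-- **T3** convergence of the Gram matrices. Put `L_ν` from T3a; the columns of `G_ν` are shifted
sequences (`e_k = shv k (1,0,0,…)`), their convolutions (T3s) are, up to the shift `a`, `e_a`,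
`S^a δ`, `S^a(δ*δ)`; for `a < 2d+2` the value of `L_ν` is exact (`n^a c_a` or `0`), for `a ≥ 2d+2`
it is `O(ν^{2d(d-1)})` and the exponent `ex i + ex j + 2d(d-1)` is negative. -/
def T3 : Prop := T0 → T3a → T3s → ∀ (d : ℕ) (p c : ℕ → ℂ), 1 ≤ d →
  (∀ k, d ≤ k → c k = 0) →
  (KM d (dinf (p 0))).det ≠ 0 →
  ∃ L : ℕ → (Fin (6 * d + 6) → ℂ),
    (∀ᶠ ν : ℕ in atTop, ∀ i j : Fin (6 * d + 6), (i : ℕ) = 0 → (j : ℕ) = 0 →
      Gam (L ν) (HM d p ν) i j = c 0) ∧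
    (∀ i j : Fin (6 * d + 6), Tendsto (fun ν : ℕ => Gam (L ν) (HM d p ν) i j) atTop
      (𝓝 (if (i : ℕ) < d ∧ (j : ℕ) < d then c (i + j) else 0)))

/-- **T4** algebra of `B = z H⁻¹ S H` -/
def T4 : Prop := ∀ (D : ℕ) (H : Matrix (Fin D) (Fin D) ℂ) (z : ℂ) (L : Fin D → ℂ), z ≠ 0 →
  IsUnit H.det → H.mulVec (e0 D) = e0 D →
  (z • (H⁻¹ * SM D * H)) ^ D = 0 ∧
  (Gam L H).transpose = Gam L H ∧
  (z • (H⁻¹ * SM D * H)).transpose * Gam L H = Gam L H * (z • (H⁻¹ * SM D * H)) ∧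
  (∀ v : Fin D → ℂ, ∃ q : ℕ → ℂ, v = ∑ k ∈ Finset.range D,
    q k • ((z • (H⁻¹ * SM D * H)) ^ k).mulVec (e0 D))

/-- **T5** the orbit vector: `(1+B)^n e_0 = ∑_{k<d} p_k e_k + ν⁻¹ e_{3d+3}` with `n = ν^{2d}` -/
def T5 : Prop := ∀ (d : ℕ) (p : ℕ → ℂ) (ν : ℕ), 1 ≤ d → (∀ k, d ≤ k → p k = 0) → 1 ≤ ν →
  IsUnit (HM d p ν).det →
  (HM d p ν).mulVec (e0 (6 * d + 6)) = e0 (6 * d + 6) ∧
  ((1 + BM d p ν) ^ (ν ^ (2 * d))).mulVec (e0 (6 * d + 6)) =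
    fun i : Fin (6 * d + 6) =>
      if (i : ℕ) < d then p i else if (i : ℕ) = 3 * d + 3 then (ν : ℂ)⁻¹ else 0

/-- the matrix stage lemma (from T1a-T5) -/
def Stage : Prop := ∀ (d : ℕ) (c p : ℕ → ℂ), 1 ≤ d → (∀ k, d ≤ k → c k = 0) →
  (∀ k, d ≤ k → p k = 0) → ∀ ε : ℝ, 0 < ε →
  ∃ (n : ℕ) (B Γ : Matrix (Fin (6 * d + 6)) (Fin (6 * d + 6)) ℂ),
    (∀ i j : Fin (6 * d + 6), ‖B i j - (if (i : ℕ) = j + 1 ∧ (i : ℕ) < d then 1 else 0)‖ < ε) ∧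
    (∀ i j : Fin (6 * d + 6),
      ‖Γ i j - (if (i : ℕ) < d ∧ (j : ℕ) < d then c (i + j) else 0)‖ < ε) ∧
    B ^ (6 * d + 6) = 0 ∧
    (∀ v : Fin (6 * d + 6) → ℂ, ∃ q : ℕ → ℂ, v = ∑ k ∈ Finset.range (6 * d + 6),
      q k • (B ^ k).mulVec (e0 (6 * d + 6))) ∧
    Γ.transpose = Γ ∧ B.transpose * Γ = Γ * B ∧
    (∀ i j : Fin (6 * d + 6), (i : ℕ) = 0 → (j : ℕ) = 0 → Γ i j = c 0) ∧
    (∀ i : Fin (6 * d + 6),
      ‖((1 + B) ^ n).mulVec (e0 (6 * d + 6)) i - (if (i : ℕ) < d then p i else 0)‖ < ε)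

/-! ## The Banach space part -/

section
variable {X : Type u} [NormedAddCommGroup X] [NormedSpace ℂ X]

/-- projection onto `span (e_0, …, e_{N-1})` -/
noncomputable def PN (e : ℕ → X) (g : ℕ → StrongDual ℂ X) (N : ℕ) : X →L[ℂ] X :=
  ∑ i ∈ Finset.range N, (g i).smulRight (e i)

/-- states of the construction -/
structure IsSt (e : ℕ → X) (g : ℕ → StrongDual ℂ X) (N : ℕ) (A : X →L[ℂ] X)
    (b : X →L[ℂ] X →L[ℂ] ℂ) : Prop where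
  pos : 1 ≤ N
  left : ∀ f, PN e g N (A f) = A f
  right : ∀ f, A (PN e g N f) = A f
  nil : A ^ N = 0
  cyc : ∀ f, PN e g N f = f → ∃ p : ℕ → ℂ, (∀ k, N ≤ k → p k = 0) ∧
    f = ∑ k ∈ Finset.range N, p k • (A ^ k) (e 0)
  bsymm : ∀ u v, b u v = b v u
  bP : ∀ u v, b (PN e g N u) v = b u v
  bA : ∀ u v, b (A u) v = b u (A v)
  b0 : b (e 0) (e 0) = 1

/-- a frame adapted to a state: `E_k = A^k e_0` for `k < N`, `E_k = e_k` for `k ≥ N`, with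
biorthogonal functionals `F_k` -/
structure IsFrame (e : ℕ → X) (g : ℕ → StrongDual ℂ X) (N : ℕ) (A : X →L[ℂ] X)
    (b : X →L[ℂ] X →L[ℂ] ℂ) (E : ℕ → X) (F : ℕ → StrongDual ℂ X) : Prop where
  Elt : ∀ k, k < N → E k = (A ^ k) (e 0)
  Ege : ∀ k, N ≤ k → E k = e k
  bio : ∀ i j, F i (E j) = if i = j then 1 else 0
  sumP : ∀ M, N ≤ M → ∀ f, ∑ k ∈ Finset.range M, F k f • E k = PN e g M f
  FP : ∀ M, N ≤ M → ∀ k, k < M → ∀ f, F k (PN e g M f) = F k f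
  AE : A = ∑ j ∈ Finset.range N, if j + 1 < N then (F j).smulRight (E (j + 1)) else 0
  bE : ∀ u v, b u v = ∑ i ∈ Finset.range N, ∑ j ∈ Finset.range N,
    F i u * F j v * (if i + j < N then b ((A ^ (i + j)) (e 0)) (e 0) else 0)
end

/-- **T6** existence of an adapted frame -/
def T6 : Prop := ∀ (X : Type u) [NormedAddCommGroup X] [NormedSpace ℂ X]
  (e : ℕ → X) (g : ℕ → StrongDual ℂ X), (∀ i j, g i (e j) = if i = j then 1 else 0) →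
  ∀ (N : ℕ) (A : X →L[ℂ] X) (b : X →L[ℂ] X →L[ℂ] ℂ), IsSt e g N A b →
  ∃ (E : ℕ → X) (F : ℕ → StrongDual ℂ X), IsFrame e g N A b E F

/-- **T7** the step on `X`: put `N' = 6N+6`, `A' = ∑ B_ij F_j ⊗ E_i`, `b'(u,v) = ∑ Γ_ij F_i(u) F_j(v)`
with `B, Γ` from `Stage` (with `d = N`, `c_k = b(A^k e_0, e_0)`, `y = ∑ p_k A^k e_0`) and `ε`
small. -/
def T7 : Prop := Stage → T6.{u} → ∀ (X : Type u) [NormedAddCommGroup X] [NormedSpace ℂ X]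
  (e : ℕ → X) (g : ℕ → StrongDual ℂ X), (∀ i j, g i (e j) = if i = j then 1 else 0) →
  ∀ (N : ℕ) (A : X →L[ℂ] X) (b : X →L[ℂ] X →L[ℂ] ℂ), IsSt e g N A b →
  ∀ y : X, PN e g N y = y → ∀ ε : ℝ, 0 < ε →
  ∃ (N' : ℕ) (A' : X →L[ℂ] X) (b' : X →L[ℂ] X →L[ℂ] ℂ), N < N' ∧ IsSt e g N' A' b' ∧
    ‖A' - A‖ ≤ ε ∧ ‖b' - b‖ ≤ ε ∧ ∃ n : ℕ, ‖((1 + A') ^ n) (e 0) - y‖ ≤ ε

/-- **T8** `1 + A` has spectrum `{1}` for quasinilpotent `A` -/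
def T8 : Prop := ∀ (X : Type u) [NormedAddCommGroup X] [NormedSpace ℂ X] [CompleteSpace X]
  [Nontrivial X] (A : X →L[ℂ] X), (∀ δ : ℝ, 0 < δ → ∃ m : ℕ, 1 ≤ m ∧ ‖A ^ m‖ ≤ δ ^ m) →
  spectrum ℂ (1 + A) = {1}

/-- **T9** a nonzero symmetric form for which `T` is symmetric makes `T ⊕ T` non-cyclic -/
def T9 : Prop := ∀ (X : Type u) [NormedAddCommGroup X] [NormedSpace ℂ X]
  (T : X →L[ℂ] X) (b : X →L[ℂ] X →L[ℂ] ℂ), (∀ u v, b u v = b v u) →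
  (∀ u v, b (T u) v = b u (T v)) → b ≠ 0 →
  ¬ ∃ x : X × X, Dense ((Submodule.span ℂ (Set.range (fun n : ℕ => ((T.prodMap T) ^ n) x)) :
    Submodule ℂ (X × X)) : Set (X × X))

/-- **T10** a biorthogonal sequence with dense span (cf. `Pool.Agent.H740R3.Biorth.exists_biorth`:
keep the infinitely many non-degenerate indices) -/
def T10 : Prop := ∀ (X : Type u) [NormedAddCommGroup X] [NormedSpace ℂ X]
  [TopologicalSpace.SeparableSpace X], ¬ FiniteDimensional ℂ X →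
  ∃ (e : ℕ → X) (g : ℕ → StrongDual ℂ X), (∀ i j, g i (e j) = if i = j then 1 else 0) ∧
    Dense (Submodule.span ℂ (Set.range e) : Set X)

/-- **T11** targets in the span -/
def T11 : Prop := ∀ (X : Type u) [NormedAddCommGroup X] [NormedSpace ℂ X]
  [TopologicalSpace.SeparableSpace X] (e : ℕ → X) (g : ℕ → StrongDual ℂ X),
  (∀ i j, g i (e j) = if i = j then 1 else 0) →
  Dense (Submodule.span ℂ (Set.range e) : Set X) →
  ∃ z : ℕ → X, ∀ v : X, ∀ δ : ℝ, 0 < δ → ∀ k0 : ℕ, ∃ k, k0 ≤ k ∧ ‖z k - v‖ < δ ∧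
    ∀ N, k ≤ N → PN e g N (z k) = z k

/-- **T12** limits of the states -/
def T12 : Prop := ∀ (Y : Type u) [NormedAddCommGroup Y] [CompleteSpace Y] (A : ℕ → Y) (ε : ℕ → ℝ),
  (∀ k, 0 < ε k) → (∀ k, ε (k + 1) ≤ ε k / 2) → (∀ k, ‖A (k + 1) - A k‖ ≤ ε k) →
  ∃ L : Y, Tendsto A atTop (𝓝 L) ∧ ∀ k, ‖L - A k‖ ≤ 2 * ε k

/-- **T13** the initial state -/
def T13 : Prop := ∀ (X : Type u) [NormedAddCommGroup X] [NormedSpace ℂ X]
  (e : ℕ → X) (g : ℕ → StrongDual ℂ X), (∀ i j, g i (e j) = if i = j then 1 else 0) →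
  ∃ b : X →L[ℂ] X →L[ℂ] ℂ, IsSt e g 1 (0 : X →L[ℂ] X) b

end Pool.Agent.H740R3.BQ
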