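import Mathlib

set_option autoImplicit false
set_option synthInstance.maxHeartbeats 400000

open Filter Topology
open scoped InnerProductSpace

namespace Pool.Agent.H740R3.AQ

/-- the Hilbert space `ℓ²(ℕ)` -/
abbrev H : Type := lp (fun _ : ℕ => ℂ) 2

/-- standard basis vectors -/
noncomputable def e (n : ℕ) : H := lp.single 2 n (1 : ℂ)

/-- the symmetric bilinear form `b x y = ∑ x_n y_n` -/
noncomputable def b (x y : H) : ℂ := ⟪star x, y⟫_ℂ

theorem inner_eq (x y : H) : ⟪x, y⟫_ℂ = ∑' n, ⟪x n, y n⟫_ℂ := lp.inner_eq_tsum x y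

theorem b_eq (x y : H) : b x y = ∑' n, x n * y n := by
  unfold b
  rw [inner_eq]
  congr 1
  ext n
  rw [lp.star_apply]
  simp [mul_comm]

theorem b_comm (x y : H) : b x y = b y x := by
  rw [b_eq, b_eq]
  congr 1
  ext n
  rw [mul_comm]

theorem b_add_right (x y z : H) : b x (y + z) = b x y + b x z := inner_add_right _ _ _
theorem b_sub_right (x y z : H) : b x (y - z) = b x y - b x z := inner_sub_right _ _ _
theorem b_smul_right (x y : H) (c : ℂ) : b x (c • y) = c * b x y := inner_smul_right _ _ _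
theorem b_sum_right {ι : Type} (s : Finset ι) (x : H) (f : ι → H) :
    b x (∑ i ∈ s, f i) = ∑ i ∈ s, b x (f i) := inner_sum _ _ _
theorem b_add_left (x y z : H) : b (x + y) z = b x z + b y z := by
  rw [b_comm, b_add_right, b_comm z, b_comm z]
theorem b_smul_left (x y : H) (c : ℂ) : b (c • x) y = c * b x y := by
  rw [b_comm, b_smul_right, b_comm y]
theorem b_sum_left {ι : Type} (s : Finset ι) (x : H) (f : ι → H) :
    b (∑ i ∈ s, f i) x = ∑ i ∈ s, b (f i) x := by
  rw [b_comm, b_sum_right]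
  exact Finset.sum_congr rfl (fun i _ => b_comm _ _)
theorem b_zero_right (x : H) : b x 0 = 0 := inner_zero_right _
theorem b_star (x : H) : b (star x) x = (‖x‖ : ℂ) ^ 2 := by
  unfold b
  rw [star_star]
  exact inner_self_eq_norm_sq_to_K x
theorem norm_b_le (x y : H) : ‖b x y‖ ≤ ‖x‖ * ‖y‖ := by
  unfold b
  have := norm_inner_le_norm (𝕜 := ℂ) (star x) y
  rwa [norm_star] at this

theorem e_apply (i n : ℕ) : (e i) n = if n = i then 1 else 0 := by
  unfold e
  rw [lp.single_apply]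
  by_cases h : n = i
  · subst h; simp
  · simp [Pi.single, Function.update, h]

theorem star_e (i : ℕ) : star (e i) = e i := by
  ext n
  rw [lp.star_apply, e_apply]
  split_ifs <;> simp

theorem b_e_left (i : ℕ) (x : H) : b (e i) x = x i := by
  rw [b_eq, tsum_eq_single i]
  · rw [e_apply]; simp
  · intro n hn
    rw [e_apply, if_neg hn, zero_mul]

theorem b_e_e (i j : ℕ) : b (e i) (e j) = if i = j then 1 else 0 := by
  rw [b_e_left, e_apply]

theorem inner_e_left (i : ℕ) (x : H) : ⟪e i, x⟫_ℂ = x i := by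
  have := b_e_left i x
  unfold b at this
  rwa [star_e] at this

theorem norm_e (i : ℕ) : ‖e i‖ = 1 := by
  unfold e
  rw [lp.norm_single (by norm_num)]
  simp

/-- the rank one operator `x ↦ b w x • u` -/
noncomputable def rk (u w : H) : H →L[ℂ] H := (innerSL ℂ (star w)).smulRight u

theorem rk_apply (u w x : H) : rk u w x = b w x • u := rfl

/-- the projection onto the span of the first `N` basis vectors -/
noncomputable def Pi (N : ℕ) : H →L[ℂ] H := ∑ i ∈ Finset.range N, rk (e i) (e i)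

theorem Pi_eq (N : ℕ) (x : H) : Pi N x = ∑ i ∈ Finset.range N, x i • e i := by
  unfold Pi
  rw [sum_apply]
  exact Finset.sum_congr rfl (fun i _ => by rw [rk_apply, b_e_left])

theorem Pi_apply (N : ℕ) (x : H) (n : ℕ) : (Pi N x) n = if n < N then x n else 0 := by
  rw [← b_e_left, Pi_eq, b_sum_right]
  simp_rw [b_smul_right, b_e_e]
  simp

theorem ext_b {x y : H} (h : ∀ n, b (e n) x = b (e n) y) : x = y := by
  ext n
  rw [← b_e_left, ← b_e_left, h]

theorem Pi_Pi (N M : ℕ) (x : H) : Pi N (Pi M x) = Pi (min N M) x := by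
  ext n
  rw [Pi_apply, Pi_apply, Pi_apply]
  by_cases h1 : n < N <;> by_cases h2 : n < M <;> simp [h1, h2]

theorem Pi_of_le {N M : ℕ} (h : N ≤ M) {x : H} (hx : Pi N x = x) : Pi M x = x := by
  rw [← hx, Pi_Pi, min_eq_right h]

theorem b_Pi (N : ℕ) (x y : H) : b (Pi N x) y = b x (Pi N y) := by
  rw [Pi_eq, Pi_eq, b_sum_left, b_sum_right]
  refine Finset.sum_congr rfl (fun i _ => ?_)
  rw [b_smul_left, b_smul_right, b_e_left, b_comm x, b_e_left, mul_comm]

theorem inner_Pi (N : ℕ) (x y : H) : ⟪Pi N x, y⟫_ℂ = ⟪x, Pi N y⟫_ℂ := by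
  rw [Pi_eq, Pi_eq, sum_inner, inner_sum]
  refine Finset.sum_congr rfl (fun i _ => ?_)
  rw [inner_smul_left, inner_smul_right, inner_e_left, ← inner_conj_symm x, inner_e_left, mul_comm]

theorem norm_Pi_le (N : ℕ) (x : H) : ‖Pi N x‖ ≤ ‖x‖ := by
  have h1 : ‖Pi N x‖ ^ 2 ≤ ‖Pi N x‖ * ‖x‖ := by
    have h2 : ((‖Pi N x‖ ^ 2 : ℝ) : ℂ) = ⟪Pi N x, x⟫_ℂ := by
      have h3 : Pi N (Pi N x) = Pi N x := by rw [Pi_Pi, min_self]
      have h4 := inner_Pi N (Pi N x) x
      rw [h3] at h4
      rw [h4]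
      push_cast
      exact (inner_self_eq_norm_sq_to_K (𝕜 := ℂ) (Pi N x)).symm
    have h5 := norm_inner_le_norm (𝕜 := ℂ) (Pi N x) x
    rw [← h2, Complex.norm_real, Real.norm_of_nonneg (by positivity)] at h5
    exact h5
  by_contra hcon
  push Not at hcon
  have : 0 ≤ ‖x‖ := norm_nonneg _
  nlinarith

theorem tendsto_Pi (x : H) : Tendsto (fun N => Pi N x) atTop (𝓝 x) := by
  have h := lp.hasSum_single (p := 2) (by norm_num) x
  have h2 := h.tendsto_sum_nat
  refine h2.congr (fun N => ?_)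
  rw [Pi_eq]
  refine Finset.sum_congr rfl (fun i _ => ?_)
  unfold e
  rw [← lp.single_smul]
  simp

end Pool.Agent.H740R3.AQ
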