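import Mathlib
import Pool.Agent.H740R3.AQ1

set_option autoImplicit false
set_option synthInstance.maxHeartbeats 400000

open Filter Topology
open scoped InnerProductSpace

namespace Pool.Agent.H740R3.AQ

/-- `u` is a `b`-orthonormal basis of the span of the first `N` basis vectors, made of
eigenvectors of `A`, and `A` vanishes on the other basis vectors -/
structure Dg (N : ℕ) (A : H →L[ℂ] H) {ι : Type} [Fintype ι] [DecidableEq ι] (u : ι → H) (α : ι → ℂ) :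
    Prop where
  orth : ∀ i j, b (u i) (u j) = if i = j then 1 else 0
  mem : ∀ i, Pi N (u i) = u i
  compl : ∀ f : H, ∑ i, b (u i) f • u i = Pi N f
  eig : ∀ f : H, A f = ∑ i, (α i * b (u i) f) • u i

/-- isometric copies `V p` of the span of the first `N` basis vectors inside the span of the first
`N * K` ones; `W p` is the adjoint of `V p` -/
structure VW (N K : ℕ) (V W : ℕ → H →L[ℂ] H) : Prop where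
  wv : ∀ p < K, ∀ q < K, ∀ x, W p (V q x) = if p = q then Pi N x else 0
  vw : ∀ x, ∑ p ∈ Finset.range K, V p (W p x) = Pi (N * K) x
  v_pi : ∀ p < K, ∀ x, V p (Pi N x) = V p x
  pi_w : ∀ p < K, ∀ x, Pi N (W p x) = W p x
  bsym : ∀ p < K, ∀ x y, b (V p x) y = b x (W (K - 1 - p) y)
  adj : ∀ p < K, ∀ x y, ⟪V p x, y⟫_ℂ = ⟪x, W p y⟫_ℂ
  sumv : ∀ x, Pi N x = x → ∑ p ∈ Finset.range K, V p x = ((Real.sqrt K : ℝ) : ℂ) • x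

/-- eigenvectors of the path graph -/
structure Path (K : ℕ) (φ : ℕ → ℕ → ℝ) (s κ : ℕ → ℝ) : Prop where
  row : ∀ j < K, ∀ l < K, ∑ k ∈ Finset.range K, φ j k * φ l k = if j = l then 1 else 0
  col : ∀ k < K, ∀ l < K, ∑ j ∈ Finset.range K, φ j k * φ j l = if k = l then 1 else 0
  zero : ∀ j < K, φ j K = 0
  rec0 : ∀ j < K, φ j 1 = s j * φ j 0
  recs : ∀ j < K, ∀ k, k + 1 < K → φ j (k + 2) + φ j k = s j * φ j (k + 1)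
  rev : ∀ j < K, ∀ k < K, φ j (K - 1 - k) = κ j * φ j k
  kap : ∀ j < K, κ j = 1 ∨ κ j = -1

def TaskVW : Prop := ∀ N K : ℕ, 1 ≤ K → ∃ V W : ℕ → H →L[ℂ] H, VW N K V W

def TaskPath : Prop := ∀ K : ℕ, 1 ≤ K → ∃ (φ : ℕ → ℕ → ℝ) (s κ : ℕ → ℝ), Path K φ s κ

def TaskExp : Prop :=
  ∀ (A : H →L[ℂ] H) (B : ℕ → H →L[ℂ] H) (C : ℝ), (∀ k, ‖B k‖ ≤ C) →
    ∀ (x : H) (xs : ℕ → H), Tendsto xs atTop (𝓝 x) →
    (∀ m : ℕ, Tendsto (fun k => (B k ^ m) x) atTop (𝓝 ((A ^ m) x))) →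
    ∀ j : ℕ, Tendsto (fun k => NormedSpace.exp ((j : ℂ) • B k) (xs k)) atTop
      (𝓝 (NormedSpace.exp ((j : ℂ) • A) x))

def TaskTransport : Prop :=
  ∀ (N : ℕ) (A : H →L[ℂ] H) (ι : Type) [Fintype ι] [DecidableEq ι] (u : ι → H) (α : ι → ℂ),
    Dg N A u α → (∀ i, (α i).re = 0) →
    ∀ x y : H, Pi N x = x → Pi N y = y → ∀ ε : ℝ, 0 < ε →
    ∃ (x' y' : H) (A' : ℕ → H →L[ℂ] H) (α' : ℕ → ι → ℂ), Pi N x' = x' ∧ ‖x' - x‖ < ε ∧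
      ‖y' - y‖ < ε ∧ (∀ n, 1 ≤ n → Dg N (A' n) u (α' n) ∧ (∀ i, α' n i ≠ 0) ∧
        NormedSpace.exp ((n : ℂ) • A' n) x' = y') ∧ Tendsto A' atTop (𝓝 A)

def TaskSpec : Prop :=
  ∀ A : H →L[ℂ] H, (∀ η : ℝ, 0 < η → ∃ m : ℕ, 1 ≤ m ∧ ‖A ^ m‖ ≤ η ^ m) →
    spectrum ℂ (NormedSpace.exp A) = {1}

def TaskNoncyc : Prop :=
  ∀ A : H →L[ℂ] H, (∀ x y, b (A x) y = b x (A y)) →
    ¬ ∃ z : H × H, Dense ((Submodule.span ℂ (Set.range (fun n : ℕ =>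
      (((NormedSpace.exp A).prodMap (NormedSpace.exp A)) ^ n) z)) : Submodule ℂ (H × H)) :
      Set (H × H))

def TaskFinal : Prop :=
  ∀ (A : ℕ → H →L[ℂ] H) (x : ℕ → H) (ε : ℕ → ℝ) (L : ℕ → ℕ) (d : ℕ → H),
    (∀ v : H, ∀ δ : ℝ, 0 < δ → ∀ k0 : ℕ, ∃ k, k0 ≤ k ∧ ‖d k - v‖ < δ) →
    (∀ k, 0 < ε k) → ε 0 ≤ 1 → (∀ k, ε (k + 1) ≤ ε k / 2) → (∀ k, L k < L (k + 1)) →
    (∀ k, ‖x (k + 1) - x k‖ < ε k) →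
    (∀ k, ∃ n : ℕ, n ≤ L (k + 1) ∧
      ‖NormedSpace.exp ((n : ℂ) • A (k + 1)) (x (k + 1)) - d k‖ < ε k) →
    (∀ k, ∀ f : H, Pi (L k) f = f → ‖A (k + 1) f - A k f‖ ≤ ε k * ‖f‖) →
    (∀ k, ∀ m : ℕ, m ≤ L k → ‖A (k + 1) ^ m‖ < ‖A k ^ m‖ + ε k) → 1 ≤ L 0 →
    (∀ k, ∀ j : ℕ, j ≤ L k → ‖NormedSpace.exp ((j : ℂ) • A (k + 1)) (x (k + 1)) -
      NormedSpace.exp ((j : ℂ) • A k) (x k)‖ < ε k) →
    (∀ k, ∃ m : ℕ, 1 ≤ m ∧ m ≤ L (k + 1) ∧ ‖A (k + 1) ^ m‖ < (ε k) ^ m ∧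
      ε (k + 1) ≤ (ε k) ^ m / 2) →
    (∀ k, ∀ f g : H, b (A k f) g = b f (A k g)) →
    ∃ A' : H →L[ℂ] H, (∀ f g, b (A' f) g = b f (A' g)) ∧
      (∀ η : ℝ, 0 < η → ∃ m : ℕ, 1 ≤ m ∧ ‖A' ^ m‖ ≤ η ^ m) ∧
      ∃ x' : H, Dense (Set.range (fun n : ℕ => NormedSpace.exp ((n : ℂ) • A') x'))

/-- the dilation of a diagonal operator with nonzero eigenvalues -/
def TaskDil : Prop :=
  ∀ (N K : ℕ), 1 ≤ K → ∀ (V W : ℕ → H →L[ℂ] H), VW N K V W →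
    ∀ (A : H →L[ℂ] H) (ι : Type) [Fintype ι] [DecidableEq ι] (u : ι → H) (α : ι → ℂ),
    Dg N A u α → (∀ i, α i ≠ 0) →
    ∃ (Q : H →L[ℂ] H) (B : ℝ → H →L[ℂ] H) (c : ℝ),
      (∀ m : ℕ, 1 ≤ m → ‖Q ^ m‖ ≤ ‖A ^ m‖) ∧
      (∀ f, Pi N f = f → ‖Q f - A f‖ ≤ ‖A‖ * ‖f‖ / Real.sqrt K) ∧
      Tendsto B (𝓝[>] 0) (𝓝 Q) ∧
      (∀ τ : ℝ, 0 < τ → ∃ (κ : Type) (_ : Fintype κ) (_ : DecidableEq κ) (w : κ → H) (β : κ → ℂ),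
        Dg (N * K) (B τ) w β ∧ ∀ i, (β i).re = 0 ∧ ‖β i‖ ≤ c * τ)

end Pool.Agent.H740R3.AQ
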