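import Mathlib
import Pool.Agent.H740R3.AQStmts

set_option autoImplicit false
set_option synthInstance.maxHeartbeats 400000
set_option maxHeartbeats 4000000

open Filter Topology
open scoped InnerProductSpace

namespace Pool.Agent.H740R3.AQ

theorem inner_self' (y : H) : ⟪y, y⟫_ℂ = ((‖y‖ ^ 2 : ℝ) : ℂ) := by
  rw [inner_self_eq_norm_sq_to_K (𝕜 := ℂ) y]
  push_cast
  rfl

section vw

variable {N K : ℕ} {V W : ℕ → H →L[ℂ] H}

theorem VW.norm_sum (h : VW N K V W) (S : Finset ℕ) (hS : ∀ p ∈ S, p < K) (g : ℕ → H) :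
    ‖∑ p ∈ S, V p (g p)‖ ^ 2 ≤ ∑ p ∈ S, ‖g p‖ ^ 2 := by
  have h1 : ⟪∑ p ∈ S, V p (g p), ∑ q ∈ S, V q (g q)⟫_ℂ = ∑ p ∈ S, ⟪g p, Pi N (g p)⟫_ℂ := by
    rw [sum_inner]
    refine Finset.sum_congr rfl (fun p hp => ?_)
    rw [h.adj p (hS p hp), map_sum, inner_sum, Finset.sum_eq_single p]
    · rw [h.wv p (hS p hp) p (hS p hp), if_pos rfl]
    · intro q hq hqp
      rw [h.wv p (hS p hp) q (hS q hq), if_neg (Ne.symm hqp), inner_zero_right]
    · intro hp'
      exact absurd hp hp'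
  have h2 : ((‖∑ p ∈ S, V p (g p)‖ ^ 2 : ℝ) : ℂ) = ∑ p ∈ S, ⟪g p, Pi N (g p)⟫_ℂ := by
    rw [← h1, inner_self']
  have h3 : ‖∑ p ∈ S, V p (g p)‖ ^ 2 = (∑ p ∈ S, ⟪g p, Pi N (g p)⟫_ℂ).re := by
    rw [← h2, Complex.ofReal_re]
  rw [h3, Complex.re_sum]
  refine Finset.sum_le_sum (fun p _ => ?_)
  refine (Complex.re_le_norm _).trans ((norm_inner_le_norm _ _).trans ?_)
  rw [sq]
  exact mul_le_mul_of_nonneg_left (norm_Pi_le N _) (norm_nonneg _)

theorem VW.sum_W (h : VW N K V W) (f : H) : ∑ p ∈ Finset.range K, ‖W p f‖ ^ 2 ≤ ‖f‖ ^ 2 := by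
  have h1 : ∑ p ∈ Finset.range K, ⟪W p f, W p f⟫_ℂ = ⟪Pi (N * K) f, f⟫_ℂ := by
    rw [← h.vw f, sum_inner]
    exact Finset.sum_congr rfl (fun p hp => (h.adj p (Finset.mem_range.1 hp) _ _).symm)
  have h2 : ((∑ p ∈ Finset.range K, ‖W p f‖ ^ 2 : ℝ) : ℂ) = ⟪Pi (N * K) f, f⟫_ℂ := by
    rw [← h1, Complex.ofReal_sum]
    exact Finset.sum_congr rfl (fun p _ => (inner_self' _).symm)
  have h3 : ∑ p ∈ Finset.range K, ‖W p f‖ ^ 2 = (⟪Pi (N * K) f, f⟫_ℂ).re := by
    rw [← h2, Complex.ofReal_re]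
  rw [h3]
  refine (Complex.re_le_norm _).trans ((norm_inner_le_norm _ _).trans ?_)
  rw [sq]
  exact mul_le_mul_of_nonneg_right (norm_Pi_le _ _) (norm_nonneg _)

/-- upper shift -/
noncomputable def up (K : ℕ) (V W : ℕ → H →L[ℂ] H) (m : ℕ) (X : H →L[ℂ] H) : H →L[ℂ] H :=
  ∑ p ∈ Finset.range (K - m), (V p).comp (X.comp (W (p + m)))

theorem up_apply (m : ℕ) (X : H →L[ℂ] H) (f : H) :
    up K V W m X f = ∑ p ∈ Finset.range (K - m), V p (X (W (p + m) f)) := by
  unfold up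
  rw [sum_apply]
  rfl

theorem VW.norm_up (h : VW N K V W) (m : ℕ) (X : H →L[ℂ] H) : ‖up K V W m X‖ ≤ ‖X‖ := by
  refine ContinuousLinearMap.opNorm_le_bound _ (norm_nonneg _) (fun f => ?_)
  rw [up_apply]
  have h1 := h.norm_sum (Finset.range (K - m)) (fun p hp => by
    have := Finset.mem_range.1 hp; omega) (fun p => X (W (p + m) f))
  have h2 : ∑ p ∈ Finset.range (K - m), ‖X (W (p + m) f)‖ ^ 2 ≤
      ‖X‖ ^ 2 * ∑ p ∈ Finset.range (K - m), ‖W (p + m) f‖ ^ 2 := by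
    rw [Finset.mul_sum]
    refine Finset.sum_le_sum (fun p _ => ?_)
    rw [← mul_pow]
    exact pow_le_pow_left₀ (norm_nonneg _) (X.le_opNorm _) 2
  have h3 : ∑ p ∈ Finset.range (K - m), ‖W (p + m) f‖ ^ 2 ≤ ∑ p ∈ Finset.range K, ‖W p f‖ ^ 2 := by
    rcases le_or_gt m K with hm | hm
    · have e1 : K = m + (K - m) := by omega
      conv_rhs => rw [e1, Finset.sum_range_add]
      have : ∑ p ∈ Finset.range (K - m), ‖W (p + m) f‖ ^ 2 =
          ∑ p ∈ Finset.range (K - m), ‖W (m + p) f‖ ^ 2 :=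
        Finset.sum_congr rfl (fun p _ => by rw [add_comm])
      rw [this]
      exact le_add_of_nonneg_left (Finset.sum_nonneg (fun _ _ => by positivity))
    · rw [Nat.sub_eq_zero_of_le hm.le, Finset.range_zero, Finset.sum_empty]
      exact Finset.sum_nonneg (fun _ _ => by positivity)
  have h4 := h.sum_W f
  have h5 : ‖∑ p ∈ Finset.range (K - m), V p (X (W (p + m) f))‖ ^ 2 ≤ (‖X‖ * ‖f‖) ^ 2 := by
    rw [mul_pow]
    refine h1.trans (h2.trans ?_)
    exact mul_le_mul_of_nonneg_left (h3.trans h4) (by positivity)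
  exact (pow_le_pow_iff_left₀ (norm_nonneg _) (by positivity) (by norm_num)).1 h5

theorem VW.up_mul (h : VW N K V W) (X Y : H →L[ℂ] H) (hY : ∀ f, Pi N (Y f) = Y f) (m : ℕ) (f : H) :
    up K V W 1 X (up K V W m Y f) = up K V W (m + 1) (X.comp Y) f := by
  rw [up_apply, up_apply, up_apply]
  have key : ∀ p ∈ Finset.range (K - 1), V p (X (W (p + 1)
      (∑ q ∈ Finset.range (K - m), V q (Y (W (q + m) f))))) =
      if p + 1 < K - m then V p (X (Y (W (p + 1 + m) f))) else 0 := by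
    intro p hp
    have hp' := Finset.mem_range.1 hp
    rw [map_sum]
    by_cases hc : p + 1 < K - m
    · rw [if_pos hc, Finset.sum_eq_single (p + 1)]
      · rw [h.wv (p + 1) (by omega) (p + 1) (by omega), if_pos rfl, hY]
      · intro q hq hqp
        have := Finset.mem_range.1 hq
        rw [h.wv (p + 1) (by omega) q (by omega), if_neg (Ne.symm hqp)]
      · intro hh
        exact absurd (Finset.mem_range.2 hc) hh
    · rw [if_neg hc, Finset.sum_eq_zero]
      · simp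
      · intro q hq
        have := Finset.mem_range.1 hq
        rw [h.wv (p + 1) (by omega) q (by omega), if_neg (by omega)]
  rw [Finset.sum_congr rfl key, ← Finset.sum_filter]
  have e1 : (Finset.range (K - 1)).filter (fun p => p + 1 < K - m) = Finset.range (K - (m + 1)) := by
    ext p
    simp only [Finset.mem_filter, Finset.mem_range]
    omega
  rw [e1]
  refine Finset.sum_congr rfl (fun p _ => ?_)
  rw [show p + 1 + m = p + (m + 1) by omega]
  rfl

theorem VW.up_pow (h : VW N K V W) (X : H →L[ℂ] H) (hX : ∀ f, Pi N (X f) = X f) (m : ℕ) (hm : 1 ≤ m) :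
    up K V W 1 X ^ m = up K V W m (X ^ m) := by
  induction m, hm using Nat.le_induction with
  | base => rw [pow_one, pow_one]
  | succ m hm ih =>
    ext1 f
    rw [pow_succ', mul_apply_eq_comp, ih, h.up_mul X (X ^ m) _ m f, pow_succ']
    · rfl
    · intro f
      obtain ⟨k, rfl⟩ : ∃ k, m = k + 1 := ⟨m - 1, by omega⟩
      rw [pow_succ', mul_apply_eq_comp, hX]

theorem VW.W_of (h : VW N K V W) {f : H} (hf : Pi N f = f) (q : ℕ) (hq : q < K) :
    ((Real.sqrt K : ℝ) : ℂ) • W q f = f := by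
  rw [← map_smul, ← h.sumv f hf, map_sum, Finset.sum_eq_single q]
  · rw [h.wv q hq q hq, if_pos rfl, hf]
  · intro p hp hpq
    rw [h.wv q hq p (Finset.mem_range.1 hp), if_neg (Ne.symm hpq)]
  · intro hh
    exact absurd (Finset.mem_range.2 hq) hh

theorem VW.norm_V (h : VW N K V W) (p : ℕ) (hp : p < K) (g : H) : ‖V p g‖ ≤ ‖g‖ := by
  have := h.norm_sum {p} (by simpa using hp) (fun _ => g)
  simp only [Finset.sum_singleton] at this
  exact (pow_le_pow_iff_left₀ (norm_nonneg _) (norm_nonneg _) (by norm_num)).1 this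

theorem VW.up_approx (h : VW N K V W) (hK : 1 ≤ K) (X : H →L[ℂ] H) (hX : ∀ f, Pi N (X f) = X f)
    {f : H} (hf : Pi N f = f) : ‖up K V W 1 X f - X f‖ ≤ ‖X‖ * ‖f‖ / Real.sqrt K := by
  have hK0 : (0:ℝ) < K := by exact_mod_cast hK
  have hs : 0 < Real.sqrt K := Real.sqrt_pos.2 hK0
  have hsc : ((Real.sqrt K : ℝ) : ℂ) ≠ 0 := by exact_mod_cast hs.ne'
  obtain ⟨k, rfl⟩ : ∃ k, K = k + 1 := ⟨K - 1, by omega⟩
  have h1 : ((Real.sqrt (k + 1 : ℕ) : ℝ) : ℂ) • up (k + 1) V W 1 X f =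
      ∑ p ∈ Finset.range k, V p (X f) := by
    rw [up_apply, Finset.smul_sum]
    refine Finset.sum_congr (by simp) (fun p hp => ?_)
    have hp' := Finset.mem_range.1 hp
    rw [← map_smul, ← map_smul, h.W_of hf (p + 1) (by omega)]
  have h2 := h.sumv (X f) (hX f)
  rw [Finset.sum_range_succ, ← h1] at h2
  have h3 : ((Real.sqrt (k + 1 : ℕ) : ℝ) : ℂ) • (up (k + 1) V W 1 X f - X f) = - V k (X f) := by
    rw [smul_sub, ← h2]
    abel
  have h4 := congrArg norm h3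
  rw [norm_smul, norm_neg, Complex.norm_real, Real.norm_of_nonneg hs.le] at h4
  have h5 : ‖V k (X f)‖ ≤ ‖X‖ * ‖f‖ := (h.norm_V k (by omega) _).trans (X.le_opNorm f)
  rw [le_div_iff₀ hs, mul_comm]
  rw [h4]
  exact h5

end vw

section dg

variable {N : ℕ} {A : H →L[ℂ] H} {ι : Type} [Fintype ι] [DecidableEq ι] {u : ι → H} {α : ι → ℂ}

theorem Dg.b_Pi_u (h : Dg N A u α) (i : ι) (f : H) : b (u i) (Pi N f) = b (u i) f := by
  rw [← b_Pi, h.mem]

theorem Dg.A_u (h : Dg N A u α) (i : ι) : A (u i) = α i • u i := by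
  rw [h.eig, Finset.sum_eq_single i]
  · rw [h.orth, if_pos rfl, mul_one]
  · intro j _ hj
    rw [h.orth, if_neg hj, mul_zero, zero_smul]
  · intro hh
    exact absurd (Finset.mem_univ i) hh

theorem Dg.Pi_A (h : Dg N A u α) (f : H) : Pi N (A f) = A f := by
  rw [h.eig, map_sum]
  exact Finset.sum_congr rfl (fun i _ => by rw [map_smul, h.mem])

theorem Dg.A_Pi (h : Dg N A u α) (f : H) : A (Pi N f) = A f := by
  rw [h.eig, h.eig f]
  exact Finset.sum_congr rfl (fun i _ => by rw [h.b_Pi_u])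

theorem Dg.bsymm (h : Dg N A u α) (f g : H) : b (A f) g = b f (A g) := by
  rw [h.eig, h.eig g, b_sum_left, b_sum_right]
  refine Finset.sum_congr rfl (fun i _ => ?_)
  rw [b_smul_left, b_smul_right, b_comm f (u i)]
  ring

end dg

end Pool.Agent.H740R3.AQ
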