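import Mathlib
import Pool.Agent.H740R3.AQ2

set_option autoImplicit false
set_option synthInstance.maxHeartbeats 400000
set_option maxHeartbeats 4000000

open Filter Topology
open scoped InnerProductSpace

namespace Pool.Agent.H740R3.AQ

/-- lower shift -/
noncomputable def dn (K : ℕ) (V W : ℕ → H →L[ℂ] H) (X : H →L[ℂ] H) : H →L[ℂ] H :=
  ∑ p ∈ Finset.range (K - 1), (V (p + 1)).comp (X.comp (W p))

theorem dn_apply {K : ℕ} {V W : ℕ → H →L[ℂ] H} (X : H →L[ℂ] H) (f : H) :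
    dn K V W X f = ∑ p ∈ Finset.range (K - 1), V (p + 1) (X (W p f)) := by
  unfold dn
  rw [sum_apply]
  rfl

variable {N : ℕ} {A : H →L[ℂ] H} {ι : Type} [Fintype ι] [DecidableEq ι] {u : ι → H} {α : ι → ℂ}

/-- the inverse on the range -/
noncomputable def Ai (u : ι → H) (α : ι → ℂ) : H →L[ℂ] H := ∑ i, (α i)⁻¹ • rk (u i) (u i)

theorem Ai_u (h : Dg N A u α) (i : ι) : Ai u α (u i) = (α i)⁻¹ • u i := by
  unfold Ai
  rw [sum_apply, Finset.sum_eq_single i]
  · rw [smul_apply, rk_apply, h.orth, if_pos rfl, one_smul]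
  · intro j _ hj
    rw [smul_apply, rk_apply, h.orth, if_neg hj, zero_smul, smul_zero]
  · intro hh
    exact absurd (Finset.mem_univ i) hh

variable {K : ℕ} {V W : ℕ → H →L[ℂ] H}

/-- vectors of `u i ⊗ ℂ^K` -/
noncomputable def vec (K : ℕ) (V : ℕ → H →L[ℂ] H) (x : ℕ → ℂ) (v : H) : H :=
  ∑ p ∈ Finset.range K, x p • V p v

theorem W_vec (h : VW N K V W) (x : ℕ → ℂ) {v : H} (hv : Pi N v = v) (q : ℕ) (hq : q < K) :
    W q (vec K V x v) = x q • v := by
  unfold vec
  rw [map_sum, Finset.sum_eq_single q]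
  · rw [map_smul, h.wv q hq q hq, if_pos rfl, hv]
  · intro p hp hpq
    rw [map_smul, h.wv q hq p (Finset.mem_range.1 hp), if_neg (Ne.symm hpq), smul_zero]
  · intro hh
    exact absurd (Finset.mem_range.2 hq) hh

theorem b_vec (h : VW N K V W) (x : ℕ → ℂ) (v f : H) :
    b (vec K V x v) f = ∑ p ∈ Finset.range K, x (K - 1 - p) * b v (W p f) := by
  unfold vec
  rw [b_sum_left, ← Finset.sum_range_reflect]
  refine Finset.sum_congr rfl (fun p hp => ?_)
  have hp' := Finset.mem_range.1 hp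
  rw [b_smul_left, h.bsym (K - 1 - p) (by omega)]
  rw [show K - 1 - (K - 1 - p) = p by omega]

theorem b_vec_vec (h : VW N K V W) (x y : ℕ → ℂ) (v : H) {v' : H} (hv' : Pi N v' = v') :
    b (vec K V x v) (vec K V y v') = (∑ p ∈ Finset.range K, x (K - 1 - p) * y p) * b v v' := by
  rw [b_vec h, Finset.sum_mul]
  refine Finset.sum_congr rfl (fun p hp => ?_)
  rw [W_vec h y hv' p (Finset.mem_range.1 hp), b_smul_right]
  ring

theorem Pi_V (h : VW N K V W) (p : ℕ) (hp : p < K) (x : H) : Pi (N * K) (V p x) = V p x := by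
  rw [← h.vw, Finset.sum_eq_single p]
  · rw [h.wv p hp p hp, if_pos rfl, h.v_pi p hp]
  · intro q hq hqp
    rw [h.wv q (Finset.mem_range.1 hq) p hp, if_neg hqp, map_zero]
  · intro hh
    exact absurd (Finset.mem_range.2 hp) hh

theorem W_Pi (h : VW N K V W) (p : ℕ) (hp : p < K) (x : H) : W p (Pi (N * K) x) = W p x := by
  rw [← h.vw, map_sum, Finset.sum_eq_single p]
  · rw [h.wv p hp p hp, if_pos rfl, h.pi_w p hp]
  · intro q hq hqp
    rw [h.wv p hp q (Finset.mem_range.1 hq), if_neg (Ne.symm hqp)]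
  · intro hh
    exact absurd (Finset.mem_range.2 hp) hh

/-- eigenvector computation -/
theorem B_vec (h : VW N K V W) (hK : 1 ≤ K) (hD : Dg N A u α) (i : ι) (x : ℕ → ℂ) (t lam : ℂ)
    (hxK : x K = 0) (h0 : α i * x 1 = lam * x 0)
    (h1 : ∀ p, p + 1 < K → α i * x (p + 2) - t * (α i)⁻¹ * x p = lam * x (p + 1)) :
    up K V W 1 A (vec K V x (u i)) - t • dn K V W (Ai u α) (vec K V x (u i)) =
      lam • vec K V x (u i) := by
  obtain ⟨k, rfl⟩ : ∃ k, K = k + 1 := ⟨K - 1, by omega⟩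
  have e1 : up (k + 1) V W 1 A (vec (k + 1) V x (u i)) =
      ∑ p ∈ Finset.range (k + 1), (α i * x (p + 1)) • V p (u i) := by
    rw [up_apply, Finset.sum_range_succ, hxK, mul_zero, zero_smul, add_zero]
    refine Finset.sum_congr (by simp) (fun p hp => ?_)
    have hp' := Finset.mem_range.1 hp
    rw [W_vec h x (hD.mem i) (p + 1) (by omega), map_smul, hD.A_u, smul_smul, map_smul, mul_comm]
  have e2 : dn (k + 1) V W (Ai u α) (vec (k + 1) V x (u i)) =
      ∑ p ∈ Finset.range k, ((α i)⁻¹ * x p) • V (p + 1) (u i) := by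
    rw [dn_apply]
    refine Finset.sum_congr (by simp) (fun p hp => ?_)
    have hp' := Finset.mem_range.1 hp
    rw [W_vec h x (hD.mem i) p (by omega), map_smul, Ai_u hD, smul_smul, map_smul, mul_comm]
  rw [e1, e2]
  unfold vec
  rw [Finset.sum_range_succ', Finset.sum_range_succ', smul_add, Finset.smul_sum, Finset.smul_sum,
    smul_smul, ← h0]
  have e3 : ∑ p ∈ Finset.range k, lam • x (p + 1) • V (p + 1) (u i) =
      ∑ p ∈ Finset.range k, (α i * x (p + 1 + 1)) • V (p + 1) (u i) -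
      ∑ p ∈ Finset.range k, t • ((α i)⁻¹ * x p) • V (p + 1) (u i) := by
    rw [← Finset.sum_sub_distrib]
    refine Finset.sum_congr rfl (fun p hp => ?_)
    have hp' := Finset.mem_range.1 hp
    rw [smul_smul, ← h1 p (by omega), smul_smul, ← sub_smul]
    congr 1
    ring
  rw [e3]
  simp only [zero_add]
  abel

section main

variable {φ : ℕ → ℕ → ℝ} {s κ : ℕ → ℝ}

/-- coefficients of the eigenvectors -/
noncomputable def cf (c g : ℂ) (φ : ℕ → ℕ → ℝ) (j p : ℕ) : ℂ := c * g⁻¹ ^ p * (φ j p : ℂ)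

theorem kap_sq (hp : Path K φ s κ) (j : ℕ) (hj : j < K) : (κ j : ℂ) * (κ j : ℂ) = 1 := by
  rcases hp.kap j hj with h | h <;> rw [h] <;> simp

theorem cf_orth (hp : Path K φ s κ) (hK : 1 ≤ K) (g : ℂ) (hg : g ≠ 0) (c : ℕ → ℂ)
    (hc : ∀ j < K, c j ^ 2 = g ^ (K - 1) * κ j) (j l : ℕ) (hj : j < K) (hl : l < K) :
    ∑ p ∈ Finset.range K, cf (c j) g φ j (K - 1 - p) * cf (c l) g φ l p =
      if j = l then 1 else 0 := by
  have h1 : ∀ p ∈ Finset.range K, cf (c j) g φ j (K - 1 - p) * cf (c l) g φ l p =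
      c j * c l * g⁻¹ ^ (K - 1) * κ j * ((φ j p * φ l p : ℝ) : ℂ) := by
    intro p hp'
    have := Finset.mem_range.1 hp'
    unfold cf
    rw [hp.rev j hj p this]
    have e : g⁻¹ ^ (K - 1) = g⁻¹ ^ (K - 1 - p) * g⁻¹ ^ p := by
      rw [← pow_add]; congr 1; omega
    rw [e]
    push_cast
    ring
  rw [Finset.sum_congr rfl h1, ← Finset.mul_sum, ← Complex.ofReal_sum, hp.row j hj l hl]
  split_ifs with h
  · subst h
    rw [← sq, hc j hj]
    have : g ^ (K - 1) * g⁻¹ ^ (K - 1) = 1 := by rw [← mul_pow, mul_inv_cancel₀ hg, one_pow]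
    calc g ^ (K - 1) * (κ j : ℂ) * g⁻¹ ^ (K - 1) * (κ j : ℂ) * ((1 : ℝ) : ℂ)
        = (g ^ (K - 1) * g⁻¹ ^ (K - 1)) * ((κ j : ℂ) * (κ j : ℂ)) := by push_cast; ring
      _ = 1 := by rw [this, kap_sq hp j hj, one_mul]
  · simp

theorem cf_compl (hp : Path K φ s κ) (hK : 1 ≤ K) (g : ℂ) (hg : g ≠ 0) (c : ℕ → ℂ)
    (hc : ∀ j < K, c j ^ 2 = g ^ (K - 1) * κ j) (p q : ℕ) (hp' : p < K) (hq : q < K) :
    ∑ j ∈ Finset.range K, cf (c j) g φ j (K - 1 - p) * cf (c j) g φ j q =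
      if p = q then 1 else 0 := by
  have h1 : ∀ j ∈ Finset.range K, cf (c j) g φ j (K - 1 - p) * cf (c j) g φ j q =
      g ^ (K - 1) * (g⁻¹ ^ (K - 1 - p) * g⁻¹ ^ q) * ((φ j p * φ j q : ℝ) : ℂ) := by
    intro j hj
    have hj' := Finset.mem_range.1 hj
    unfold cf
    rw [hp.rev j hj' p hp']
    calc c j * g⁻¹ ^ (K - 1 - p) * ((κ j * φ j p : ℝ) : ℂ) * (c j * g⁻¹ ^ q * (φ j q : ℂ))
        = c j ^ 2 * (κ j : ℂ) * (g⁻¹ ^ (K - 1 - p) * g⁻¹ ^ q) * ((φ j p * φ j q : ℝ) : ℂ) := by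
          push_cast; ring
      _ = g ^ (K - 1) * ((κ j : ℂ) * (κ j : ℂ)) * (g⁻¹ ^ (K - 1 - p) * g⁻¹ ^ q) *
          ((φ j p * φ j q : ℝ) : ℂ) := by rw [hc j hj']; ring
      _ = _ := by rw [kap_sq hp j hj', mul_one]
  rw [Finset.sum_congr rfl h1, ← Finset.mul_sum, ← Complex.ofReal_sum, hp.col p hp' q hq]
  split_ifs with h
  · subst h
    have e : g⁻¹ ^ (K - 1 - p) * g⁻¹ ^ p = g⁻¹ ^ (K - 1) := by
      rw [← pow_add]; congr 1; omega
    rw [e, ← mul_pow, mul_inv_cancel₀ hg, one_pow]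
    simp
  · simp

theorem dil_Dg (h : VW N K V W) (hK : 1 ≤ K) (hp : Path K φ s κ) (hD : Dg N A u α)
    (hα : ∀ i, α i ≠ 0) (τ : ℝ) (hτ : 0 < τ) :
    ∃ (w : ι × Fin K → H), Dg (N * K)
      (up K V W 1 A - ((τ ^ 2 : ℝ) : ℂ) • dn K V W (Ai u α)) w
      (fun ij => Complex.I * (τ : ℂ) * (s ij.2 : ℂ)) := by
  set g : ι → ℂ := fun i => α i / (Complex.I * τ) with hg
  have hIτ : Complex.I * (τ : ℂ) ≠ 0 :=
    mul_ne_zero Complex.I_ne_zero (by exact_mod_cast hτ.ne')
  have hg0 : ∀ i, g i ≠ 0 := fun i => div_ne_zero (hα i) hIτ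
  have hex : ∀ (i : ι) (j : ℕ), ∃ c : ℂ, c ^ 2 = g i ^ (K - 1) * κ j := fun i j =>
    IsAlgClosed.exists_pow_nat_eq _ (by norm_num)
  choose c hc using hex
  set w : ι × Fin K → H := fun ij => vec K V (cf (c ij.1 ij.2) (g ij.1) φ ij.2) (u ij.1) with hw
  set B := up K V W 1 A - ((τ ^ 2 : ℝ) : ℂ) • dn K V W (Ai u α) with hB
  have hBw : ∀ ij : ι × Fin K, B (w ij) = (Complex.I * (τ : ℂ) * (s ij.2 : ℂ)) • w ij := by
    rintro ⟨i, j⟩
    rw [hB, sub_apply, smul_apply]
    have hgi : α i = g i * (Complex.I * τ) := (div_mul_cancel₀ _ hIτ).symm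
    have hI2 : Complex.I ^ 2 = -1 := Complex.I_sq
    apply B_vec h hK hD i
    · unfold cf
      rw [hp.zero j j.2]
      simp
    · unfold cf
      rw [hp.rec0 j j.2, hgi]
      have : g i ≠ 0 := hg0 i
      push_cast
      field_simp
    · intro p hpK
      unfold cf
      have hrec := hp.recs j j.2 p hpK
      have h1 : (s j : ℂ) * (φ j (p + 1) : ℂ) = (φ j (p + 2) : ℂ) + (φ j p : ℂ) := by
        exact_mod_cast hrec.symm
      have h2 : g i ≠ 0 := hg0 i
      have h3 : (α i)⁻¹ = (g i)⁻¹ * (Complex.I * τ)⁻¹ := by rw [hgi, mul_inv]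
      have h4 : (Complex.I * (τ : ℂ))⁻¹ * (((τ ^ 2 : ℝ) : ℂ)) = - (Complex.I * τ) := by
        rw [inv_mul_eq_iff_eq_mul₀ hIτ]
        push_cast
        ring_nf
        rw [hI2]
        ring
      calc α i * (c i j * (g i)⁻¹ ^ (p + 2) * (φ j (p + 2) : ℂ)) -
            ((τ ^ 2 : ℝ) : ℂ) * (α i)⁻¹ * (c i j * (g i)⁻¹ ^ p * (φ j p : ℂ))
          = (g i * (g i)⁻¹) * (Complex.I * τ) * (c i j * (g i)⁻¹ ^ (p + 1) * (φ j (p + 2) : ℂ)) -
            ((Complex.I * (τ : ℂ))⁻¹ * (((τ ^ 2 : ℝ) : ℂ))) *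
              (c i j * (g i)⁻¹ ^ (p + 1) * (φ j p : ℂ)) := by
            rw [h3, hgi]; ring
        _ = Complex.I * τ * (c i j * (g i)⁻¹ ^ (p + 1) *
              ((φ j (p + 2) : ℂ) + (φ j p : ℂ))) := by
            rw [h4, mul_inv_cancel₀ h2]; ring
        _ = Complex.I * τ * (s j : ℂ) * (c i j * (g i)⁻¹ ^ (p + 1) * (φ j (p + 1) : ℂ)) := by
            rw [← h1]; ring
  have hcompl : ∀ f : H, ∑ ij, b (w ij) f • w ij = Pi (N * K) f := by
    intro f
    rw [Fintype.sum_prod_type]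
    have key : ∀ i : ι, ∑ j : Fin K, b (w (i, j)) f • w (i, j) =
        ∑ q ∈ Finset.range K, b (u i) (W q f) • V q (u i) := by
      intro i
      have h1 : ∀ j : Fin K, b (w (i, j)) f • w (i, j) =
          ∑ p ∈ Finset.range K, ∑ q ∈ Finset.range K,
            ((cf (c i j) (g i) φ j (K - 1 - p) * cf (c i j) (g i) φ j q) * b (u i) (W p f)) •
              V q (u i) := by
        intro j
        rw [hw]
        dsimp only
        rw [b_vec h, Finset.sum_smul]
        refine Finset.sum_congr rfl (fun p _ => ?_)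
        unfold vec
        rw [Finset.smul_sum]
        refine Finset.sum_congr rfl (fun q _ => ?_)
        rw [smul_smul]
        congr 1
        ring
      rw [Finset.sum_congr rfl (fun j _ => h1 j)]
      rw [Fin.sum_univ_eq_sum_range (fun j => ∑ p ∈ Finset.range K, ∑ q ∈ Finset.range K,
            ((cf (c i j) (g i) φ j (K - 1 - p) * cf (c i j) (g i) φ j q) * b (u i) (W p f)) •
              V q (u i)) K]
      rw [Finset.sum_comm]
      refine Finset.sum_congr rfl (fun p hp' => ?_)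
      have hpK := Finset.mem_range.1 hp'
      rw [Finset.sum_comm]
      have h2 : ∀ q ∈ Finset.range K, ∑ j ∈ Finset.range K,
            ((cf (c i j) (g i) φ j (K - 1 - p) * cf (c i j) (g i) φ j q) * b (u i) (W p f)) •
              V q (u i) = (if p = q then 1 else 0 : ℂ) • b (u i) (W p f) • V q (u i) := by
        intro q hq
        rw [← Finset.sum_smul, ← Finset.sum_mul,
          cf_compl hp hK (g i) (hg0 i) (c i) (fun j _ => hc i j) p q hpK (Finset.mem_range.1 hq),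
          smul_smul]
      rw [Finset.sum_congr rfl h2, Finset.sum_eq_single p]
      · rw [if_pos rfl, one_smul]
      · intro q _ hq
        rw [if_neg (Ne.symm hq), zero_smul]
      · intro hh
        exact absurd hp' hh
    rw [Finset.sum_congr rfl (fun i _ => key i), Finset.sum_comm, ← h.vw f]
    refine Finset.sum_congr rfl (fun q hq => ?_)
    have hqK := Finset.mem_range.1 hq
    have h5 : V q (W q f) = V q (∑ i, b (u i) (W q f) • u i) := by
      rw [hD.compl, h.pi_w q hqK]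
    rw [h5, map_sum]
    refine Finset.sum_congr rfl (fun i _ => ?_)
    rw [map_smul]
  refine ⟨w, ?_, ?_, hcompl, ?_⟩
  · rintro ⟨i, j⟩ ⟨i', j'⟩
    rw [hw]
    dsimp only
    rw [b_vec_vec h _ _ _ (hD.mem i'), hD.orth]
    by_cases hi : i = i'
    · subst hi
      rw [if_pos rfl, mul_one, cf_orth hp hK (g i) (hg0 i) (c i) (fun j _ => hc i j) j j' j.2 j'.2]
      by_cases hj : j = j'
      · subst hj; simp
      · rw [if_neg (fun hh => hj (Fin.ext hh)), if_neg (fun hh => hj (Prod.mk.inj hh).2)]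
    · rw [if_neg hi, mul_zero, if_neg (fun hh => hi (Prod.mk.inj hh).1)]
  · rintro ⟨i, j⟩
    rw [hw]
    dsimp only
    unfold vec
    rw [map_sum]
    refine Finset.sum_congr rfl (fun p hp' => ?_)
    rw [map_smul, Pi_V h p (Finset.mem_range.1 hp')]
  · intro f
    have hBP : B (Pi (N * K) f) = B f := by
      rw [hB, sub_apply, sub_apply, smul_apply, smul_apply, up_apply, up_apply, dn_apply, dn_apply]
      congr 1
      · refine Finset.sum_congr rfl (fun p hp' => ?_)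
        have := Finset.mem_range.1 hp'
        rw [W_Pi h (p + 1) (by omega)]
      · congr 1
        refine Finset.sum_congr rfl (fun p hp' => ?_)
        have := Finset.mem_range.1 hp'
        rw [W_Pi h p (by omega)]
    rw [← hBP, ← hcompl f, map_sum]
    refine Finset.sum_congr rfl (fun ij _ => ?_)
    rw [map_smul, hBw, smul_smul, mul_comm]

end main

theorem taskDil (hpath : TaskPath) : TaskDil := by
  intro N K hK V W h A ι _ _ u α hD hα
  obtain ⟨φ, s, κ, hp⟩ := hpath K hK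
  refine ⟨up K V W 1 A, fun τ => up K V W 1 A - ((τ ^ 2 : ℝ) : ℂ) • dn K V W (Ai u α),
    ∑ j ∈ Finset.range K, |s j|, ?_, ?_, ?_, ?_⟩
  · intro m hm
    rw [h.up_pow A hD.Pi_A m hm]
    exact h.norm_up m _
  · intro f hf
    exact h.up_approx hK A hD.Pi_A hf
  · have h1 : Tendsto (fun τ : ℝ => up K V W 1 A - ((τ ^ 2 : ℝ) : ℂ) • dn K V W (Ai u α)) (𝓝 0)
        (𝓝 (up K V W 1 A - (((0:ℝ) ^ 2 : ℝ) : ℂ) • dn K V W (Ai u α))) := by
      apply Continuous.tendsto
      fun_prop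
    have h2 : up K V W 1 A - (((0:ℝ) ^ 2 : ℝ) : ℂ) • dn K V W (Ai u α) = up K V W 1 A := by simp
    rw [h2] at h1
    exact h1.mono_left nhdsWithin_le_nhds
  · intro τ hτ
    obtain ⟨w, hw⟩ := dil_Dg h hK hp hD hα τ hτ
    refine ⟨ι × Fin K, inferInstance, inferInstance, w, _, hw, ?_⟩
    rintro ⟨i, j⟩
    refine ⟨?_, ?_⟩
    · simp
    · rw [norm_mul, norm_mul, Complex.norm_I, one_mul, Complex.norm_real, Complex.norm_real,
        Real.norm_of_nonneg hτ.le, Real.norm_eq_abs, mul_comm]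
      refine mul_le_mul_of_nonneg_right ?_ hτ.le
      exact Finset.single_le_sum (f := fun j => |s j|) (fun _ _ => abs_nonneg _)
        (Finset.mem_range.2 j.2)

end Pool.Agent.H740R3.AQ
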