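import Mathlib
import Pool.Agent.H740R3.AQ3

set_option autoImplicit false
set_option synthInstance.maxHeartbeats 400000
set_option maxHeartbeats 4000000

open Filter Topology
open scoped InnerProductSpace

namespace Pool.Agent.H740R3.AQ

/-- diagonalizable with imaginary eigenvalues -/
def IsIm (N : ℕ) (A : H →L[ℂ] H) : Prop :=
  ∃ (ι : Type) (_ : Fintype ι) (_ : DecidableEq ι) (u : ι → H) (α : ι → ℂ),
    Dg N A u α ∧ ∀ i, (α i).re = 0

theorem IsIm.enlarge {N : ℕ} {A : H →L[ℂ] H} (h : IsIm N A) {N' : ℕ} (hN : N ≤ N') : IsIm N' A := by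
  obtain ⟨ι, i1, i2, u, α, hD, hα⟩ := h
  obtain ⟨M, rfl⟩ : ∃ M, N' = N + M := ⟨N' - N, by omega⟩
  have hPe : ∀ k : ℕ, Pi N (e (N + k)) = 0 := by
    intro k
    rw [Pi_eq]
    refine Finset.sum_eq_zero (fun i hi => ?_)
    have := Finset.mem_range.1 hi
    rw [e_apply, if_neg (by omega), zero_smul]
  have hue : ∀ i k, b (u i) (e (N + k)) = 0 := by
    intro i k
    rw [← hD.mem i, b_Pi, hPe, b_zero_right]
  refine ⟨ι ⊕ Fin M, inferInstance, inferInstance, Sum.elim u (fun k => e (N + k)),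
    Sum.elim α (fun _ => 0), ⟨?_, ?_, ?_, ?_⟩, ?_⟩
  · rintro (i | i) (j | j)
    · simp [hD.orth]
    · simp [hue]
    · simp only [Sum.elim_inr, Sum.elim_inl, reduceCtorEq, if_false]
      rw [b_comm, hue]
    · simp only [Sum.elim_inr, b_e_e, Sum.inr.injEq]
      by_cases hij : i = j
      · simp [hij]
      · rw [if_neg hij, if_neg (fun hh => hij (Fin.ext (by omega)))]
  · rintro (i | i)
    · simp only [Sum.elim_inl]
      exact Pi_of_le (by omega) (hD.mem i)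
    · simp only [Sum.elim_inr]
      apply ext_b
      intro n
      rw [b_e_left, b_e_left, Pi_apply, e_apply]
      by_cases hn : n = N + i
      · have := i.2
        rw [if_pos (by omega)]
      · simp [hn]
  · intro f
    rw [Fintype.sum_sum_type]
    simp only [Sum.elim_inl, Sum.elim_inr]
    rw [hD.compl, Pi_eq, Pi_eq, Finset.sum_range_add]
    congr 1
    rw [Fin.sum_univ_eq_sum_range (fun k => b (e (N + k)) f • e (N + k)) M]
    exact Finset.sum_congr rfl (fun k _ => by rw [b_e_left])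
  · intro f
    rw [Fintype.sum_sum_type]
    simp only [Sum.elim_inl, Sum.elim_inr, zero_mul, zero_smul, Finset.sum_const_zero, add_zero]
    exact hD.eig f
  · rintro (i | i)
    · simp [hα]
    · simp

section

variable {N : ℕ} {A : H →L[ℂ] H} {ι : Type} [Fintype ι] [DecidableEq ι] {u : ι → H} {α : ι → ℂ}

theorem Dg.pow (h : Dg N A u α) (m : ℕ) (hm : 1 ≤ m) (f : H) :
    (A ^ m) f = ∑ i, (α i ^ m * b (u i) f) • u i := by
  induction m, hm using Nat.le_induction with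
  | base => simp only [pow_one]; exact h.eig f
  | succ m hm ih =>
    rw [pow_succ', mul_apply_eq_comp, ih, map_sum]
    refine Finset.sum_congr rfl (fun i _ => ?_)
    rw [map_smul, h.A_u, smul_smul]
    congr 1
    ring

theorem Dg.small_pow (h : Dg N A u α) {ε : ℝ} (hε : 0 < ε) (hα : ∀ i, ‖α i‖ ≤ ε / 2) :
    ∃ m : ℕ, 1 ≤ m ∧ ‖A ^ m‖ < ε ^ m := by
  set S : ℝ := ∑ i, ‖u i‖ * ‖u i‖ with hS
  have hS0 : 0 ≤ S := Finset.sum_nonneg (fun _ _ => by positivity)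
  have h1 : Tendsto (fun m : ℕ => (1 / 2 : ℝ) ^ m * S) atTop (𝓝 (0 * S)) :=
    (tendsto_pow_atTop_nhds_zero_of_lt_one (by norm_num) (by norm_num)).mul_const S
  rw [zero_mul] at h1
  obtain ⟨m, hm1, hm2⟩ := ((h1.eventually (gt_mem_nhds (show (0:ℝ) < 1 by norm_num))).and
    (eventually_ge_atTop 1)).exists
  refine ⟨m, hm2, ?_⟩
  have h2 : ‖A ^ m‖ ≤ (ε / 2) ^ m * S := by
    refine ContinuousLinearMap.opNorm_le_bound _ (by positivity) (fun f => ?_)
    rw [h.pow m hm2]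
    refine (norm_sum_le _ _).trans ?_
    rw [hS, Finset.mul_sum, Finset.sum_mul]
    refine Finset.sum_le_sum (fun i _ => ?_)
    rw [norm_smul, norm_mul, norm_pow]
    calc ‖α i‖ ^ m * ‖b (u i) f‖ * ‖u i‖ ≤ (ε / 2) ^ m * (‖u i‖ * ‖f‖) * ‖u i‖ := by
          apply mul_le_mul_of_nonneg_right _ (norm_nonneg _)
          exact mul_le_mul (pow_le_pow_left₀ (norm_nonneg _) (hα i) m) (norm_b_le _ _)
            (norm_nonneg _) (by positivity)
      _ = (ε / 2) ^ m * (‖u i‖ * ‖u i‖) * ‖f‖ := by ring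
  have h3 : (ε / 2) ^ m * S = ε ^ m * ((1 / 2 : ℝ) ^ m * S) := by
    rw [← mul_assoc, ← mul_pow]
    congr 2
    ring
  rw [h3] at h2
  have h4 : 0 < ε ^ m := by positivity
  calc ‖A ^ m‖ ≤ ε ^ m * ((1 / 2 : ℝ) ^ m * S) := h2
    _ < ε ^ m * 1 := mul_lt_mul_of_pos_left hm1 h4
    _ = ε ^ m := mul_one _

theorem Dg.Pi_pow (h : Dg N A u α) {x : H} (hx : Pi N x = x) (m : ℕ) :
    Pi N ((A ^ m) x) = (A ^ m) x := by
  rcases m with _ | m
  · simpa using hx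
  · rw [pow_succ', mul_apply_eq_comp, h.Pi_A]

/-- sequence form of the dilation -/
theorem dil_seq (hV : TaskVW) (hDil : TaskDil) (h : Dg N A u α) (hα : ∀ i, α i ≠ 0) :
    ∃ B : ℕ → H →L[ℂ] H, (∀ k, ∃ (κ : Type) (_ : Fintype κ) (_ : DecidableEq κ) (w : κ → H)
        (β : κ → ℂ), Dg (N * (k + 1)) (B k) w β ∧ ∀ i, (β i).re = 0 ∧ ‖β i‖ ≤ 1 / (k + 1)) ∧
      (∀ k, ‖B k‖ ≤ ‖A‖ + 1) ∧
      (∀ k, ∀ m : ℕ, m ≤ k → ‖B k ^ m‖ ≤ ‖A ^ m‖ + 1 / (k + 1)) ∧
      (∀ k, ∀ f, Pi N f = f → ‖B k f - A f‖ ≤ (1 / (k + 1) + ‖A‖ / Real.sqrt (k + 1)) * ‖f‖) := by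
  have key : ∀ k : ℕ, ∃ B : H →L[ℂ] H, (∃ (κ : Type) (_ : Fintype κ) (_ : DecidableEq κ)
      (w : κ → H) (β : κ → ℂ), Dg (N * (k + 1)) B w β ∧ ∀ i, (β i).re = 0 ∧
        ‖β i‖ ≤ 1 / (k + 1)) ∧ ‖B‖ ≤ ‖A‖ + 1 ∧
      (∀ m : ℕ, m ≤ k → ‖B ^ m‖ ≤ ‖A ^ m‖ + 1 / (k + 1)) ∧
      (∀ f, Pi N f = f → ‖B f - A f‖ ≤ (1 / (k + 1) + ‖A‖ / Real.sqrt (k + 1)) * ‖f‖) := by
    intro k
    obtain ⟨V, W, hVW⟩ := hV N (k + 1) (by omega)
    obtain ⟨Q, B, c, hQ1, hQ2, hB1, hB2⟩ := hDil N (k + 1) (by omega) V W hVW A ι u α h hα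
    have hk : (0:ℝ) < 1 / (k + 1) := by positivity
    have e1 : ∀ᶠ τ in 𝓝[>] (0:ℝ), ‖B τ - Q‖ < 1 / (k + 1) := by
      have := (hB1.sub_const Q).norm
      rw [sub_self, norm_zero] at this
      exact this.eventually (gt_mem_nhds hk)
    have e2 : ∀ᶠ τ in 𝓝[>] (0:ℝ), ∀ m ∈ Finset.range (k + 1), ‖B τ ^ m - Q ^ m‖ < 1 / (k + 1) := by
      rw [eventually_all_finset]
      intro m _
      have := ((hB1.pow m).sub_const (Q ^ m)).norm
      rw [sub_self, norm_zero] at this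
      exact this.eventually (gt_mem_nhds hk)
    have e3 : ∀ᶠ τ in 𝓝[>] (0:ℝ), c * τ ≤ 1 / (k + 1) := by
      have h1 : Tendsto (fun τ : ℝ => c * τ) (𝓝[>] 0) (𝓝 (c * 0)) :=
        (tendsto_id.const_mul c).mono_left nhdsWithin_le_nhds
      rw [mul_zero] at h1
      exact (h1.eventually (gt_mem_nhds hk)).mono (fun _ h => h.le)
    obtain ⟨τ, ⟨⟨h1, h2⟩, h3⟩, h4⟩ := (((e1.and e2).and e3).and self_mem_nhdsWithin).exists
    obtain ⟨κ, i1, i2, w, β, hw, hβ⟩ := hB2 τ h4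
    refine ⟨B τ, ⟨κ, i1, i2, w, β, hw, fun i => ⟨(hβ i).1, (hβ i).2.trans h3⟩⟩, ?_, ?_, ?_⟩
    · have h5 : ‖Q‖ ≤ ‖A‖ := by simpa using hQ1 1 le_rfl
      have h6 : ‖B τ‖ ≤ ‖B τ - Q‖ + ‖Q‖ := by simpa using norm_add_le (B τ - Q) Q
      have h7 : (1:ℝ) / (k + 1) ≤ 1 := by
        rw [div_le_one (by positivity)]
        have : (0:ℝ) ≤ k := Nat.cast_nonneg k
        linarith
      linarith
    · intro m hm
      have h5 := h2 m (Finset.mem_range.2 (by omega))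
      have h6 : ‖Q ^ m‖ ≤ ‖A ^ m‖ := by
        rcases Nat.eq_zero_or_pos m with h0 | h0
        · subst h0; simp
        · exact hQ1 m h0
      have h7 : ‖B τ ^ m‖ ≤ ‖B τ ^ m - Q ^ m‖ + ‖Q ^ m‖ := by
        simpa using norm_add_le (B τ ^ m - Q ^ m) (Q ^ m)
      linarith
    · intro f hf
      have h5 : ‖Q f - A f‖ ≤ ‖A‖ * ‖f‖ / Real.sqrt (k + 1 : ℕ) := hQ2 f hf
      have h6 : ‖B τ f - Q f‖ ≤ 1 / (k + 1) * ‖f‖ := by
        have := (B τ - Q).le_opNorm f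
        rw [sub_apply] at this
        exact this.trans (mul_le_mul_of_nonneg_right h1.le (norm_nonneg _))
      have h7 : ‖B τ f - A f‖ ≤ ‖B τ f - Q f‖ + ‖Q f - A f‖ := by
        simpa using norm_add_le (B τ f - Q f) (Q f - A f)
      have h8 : ‖A‖ * ‖f‖ / Real.sqrt (k + 1 : ℕ) = ‖A‖ / Real.sqrt (k + 1) * ‖f‖ := by
        push_cast
        ring
      rw [add_mul, ← h8]
      linarith
  choose B hB1 hB2 hB3 hB4 using key
  exact ⟨B, hB1, hB2, hB3, hB4⟩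

end

/-- the main step -/
theorem step (hT : TaskTransport) (hE : TaskExp) (hV : TaskVW) (hDil : TaskDil)
    (N : ℕ) (A : H →L[ℂ] H) (hA : IsIm N A) (x : H) (hx : Pi N x = x) (y : H) (ε : ℝ) (hε : 0 < ε)
    (L : ℕ) :
    ∃ (N' : ℕ) (A' : H →L[ℂ] H) (x' : H), IsIm N' A' ∧ Pi N' x' = x' ∧ ‖x' - x‖ < ε ∧
      (∃ n : ℕ, ‖NormedSpace.exp ((n : ℂ) • A') x' - y‖ < ε) ∧
      (∀ f : H, Pi L f = f → ‖A' f - A f‖ ≤ ε * ‖f‖) ∧
      (∀ m : ℕ, m ≤ L → ‖A' ^ m‖ < ‖A ^ m‖ + ε) ∧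
      (∀ j : ℕ, j ≤ L → ‖NormedSpace.exp ((j : ℂ) • A') x' - NormedSpace.exp ((j : ℂ) • A) x‖ < ε) ∧
      (∃ m : ℕ, 1 ≤ m ∧ ‖A' ^ m‖ < ε ^ m) := by
  -- approximate y
  obtain ⟨M, hM⟩ : ∃ M, ‖Pi M y - y‖ < ε / 4 := by
    have h1 := ((tendsto_Pi y).sub_const y).norm
    rw [sub_self, norm_zero] at h1
    exact (h1.eventually (gt_mem_nhds (show (0:ℝ) < ε / 4 by positivity))).exists
  set N1 := max N (max M L) with hN1
  have hNN1 : N ≤ N1 := le_max_left _ _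
  have hMN1 : M ≤ N1 := (le_max_left _ _).trans (le_max_right _ _)
  have hLN1 : L ≤ N1 := (le_max_right _ _).trans (le_max_right _ _)
  obtain ⟨ι, i1, i2, u, α, hD, hα⟩ := hA.enlarge hNN1
  have hx1 : Pi N1 x = x := Pi_of_le hNN1 hx
  have hy1 : Pi N1 (Pi M y) = Pi M y := by rw [Pi_Pi, min_eq_right hMN1]
  set E : ℝ := 1 + ∑ j ∈ Finset.range (L + 1), ‖NormedSpace.exp ((j : ℂ) • A)‖ with hE'
  have hE1 : 1 ≤ E := le_add_of_nonneg_right (Finset.sum_nonneg (fun _ _ => norm_nonneg _))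
  have hE0 : 0 < E := by linarith
  set ε' := ε / (4 * E) with hε'
  have hε'0 : 0 < ε' := by positivity
  have hε'1 : ε' ≤ ε / 4 := by
    rw [hε']
    apply div_le_div_of_nonneg_left hε.le (by norm_num)
    linarith
  obtain ⟨x', y', A1, α1, hx', hxx', hyy', hA1, hlim⟩ :=
    hT N1 A ι u α hD hα x (Pi M y) hx1 hy1 ε' hε'0
  -- choice of n
  have c1 : ∀ᶠ n in atTop, ‖A1 n - A‖ < ε / 4 := by
    have h1 := (hlim.sub_const A).norm
    rw [sub_self, norm_zero] at h1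
    exact h1.eventually (gt_mem_nhds (by positivity))
  have c2 : ∀ᶠ n in atTop, ∀ m ∈ Finset.range (L + 1), ‖A1 n ^ m - A ^ m‖ < ε / 4 := by
    rw [eventually_all_finset]
    intro m _
    have h1 := ((hlim.pow m).sub_const (A ^ m)).norm
    rw [sub_self, norm_zero] at h1
    exact h1.eventually (gt_mem_nhds (by positivity))
  have c3 : ∀ᶠ n in atTop, ∀ j ∈ Finset.range (L + 1),
      ‖NormedSpace.exp ((j : ℂ) • A1 n) x' - NormedSpace.exp ((j : ℂ) • A) x'‖ < ε / 4 := by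
    rw [eventually_all_finset]
    intro j _
    have h0 : Tendsto (fun n => NormedSpace.exp ((j : ℂ) • A1 n)) atTop
        (𝓝 (NormedSpace.exp ((j : ℂ) • A))) := by
      let _ : NormedAlgebra ℚ (H →L[ℂ] H) := NormedAlgebra.restrictScalars ℚ ℂ _
      exact (NormedSpace.exp_continuous.tendsto _).comp (hlim.const_smul (j : ℂ))
    have h1 : Tendsto (fun n => NormedSpace.exp ((j : ℂ) • A1 n) x') atTop
        (𝓝 (NormedSpace.exp ((j : ℂ) • A) x')) :=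
      ((ContinuousLinearMap.apply ℂ H x').continuous.tendsto _).comp h0
    have h2 := (h1.sub_const (NormedSpace.exp ((j : ℂ) • A) x')).norm
    rw [sub_self, norm_zero] at h2
    exact h2.eventually (gt_mem_nhds (by positivity))
  obtain ⟨n, ⟨⟨h1, h2⟩, h3⟩, hn⟩ := (((c1.and c2).and c3).and (eventually_ge_atTop 1)).exists
  obtain ⟨hDn, hαn, hexp⟩ := hA1 n hn
  obtain ⟨B, hB1, hB2, hB3, hB4⟩ := dil_seq hV hDil hDn hαn
  -- powers of B
  have hlim1 : Tendsto (fun k : ℕ => (1 / ((k : ℝ) + 1) + ‖A1 n‖ / Real.sqrt ((k : ℝ) + 1)))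
      atTop (𝓝 0) := by
    have t1 : Tendsto (fun k : ℕ => 1 / ((k : ℝ) + 1)) atTop (𝓝 0) :=
      tendsto_one_div_add_atTop_nhds_zero_nat
    have t2 : Tendsto (fun k : ℕ => ‖A1 n‖ / Real.sqrt ((k : ℝ) + 1)) atTop (𝓝 0) := by
      apply Tendsto.div_atTop tendsto_const_nhds
      apply Real.tendsto_sqrt_atTop.comp
      exact tendsto_atTop_add_const_right _ _ tendsto_natCast_atTop_atTop
    simpa using t1.add t2
  have hpow : ∀ m : ℕ, Tendsto (fun k => (B k ^ m) x') atTop (𝓝 ((A1 n ^ m) x')) := by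
    intro m
    induction m with
    | zero => simp
    | succ m ih =>
      have e1 : ∀ k, (B k ^ (m + 1)) x' - (A1 n ^ (m + 1)) x' =
          B k ((B k ^ m) x' - (A1 n ^ m) x') + (B k ((A1 n ^ m) x') - A1 n ((A1 n ^ m) x')) := by
        intro k
        rw [pow_succ', mul_apply_eq_comp, pow_succ', mul_apply_eq_comp, map_sub]
        abel
      rw [tendsto_iff_norm_sub_tendsto_zero]
      have e2 : Tendsto (fun k => (‖A1 n‖ + 1) * ‖(B k ^ m) x' - (A1 n ^ m) x'‖ +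
          (1 / ((k : ℝ) + 1) + ‖A1 n‖ / Real.sqrt ((k : ℝ) + 1)) * ‖(A1 n ^ m) x'‖) atTop
          (𝓝 ((‖A1 n‖ + 1) * 0 + 0 * ‖(A1 n ^ m) x'‖)) :=
        ((tendsto_iff_norm_sub_tendsto_zero.1 ih).const_mul _).add (hlim1.mul_const _)
      rw [mul_zero, zero_mul, add_zero] at e2
      refine squeeze_zero (fun _ => norm_nonneg _) (fun k => ?_) e2
      rw [e1]
      refine (norm_add_le _ _).trans (add_le_add ?_ ?_)
      · refine ((B k).le_opNorm _).trans ?_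
        exact mul_le_mul_of_nonneg_right (hB2 k) (norm_nonneg _)
      · exact hB4 k _ (hDn.Pi_pow hx' m)
  have hexpB : ∀ j : ℕ, Tendsto (fun k => NormedSpace.exp ((j : ℂ) • B k) x') atTop
      (𝓝 (NormedSpace.exp ((j : ℂ) • A1 n) x')) := fun j =>
    hE (A1 n) B (‖A1 n‖ + 1) hB2 x' (fun _ => x') tendsto_const_nhds hpow j
  have d1 : ∀ᶠ k : ℕ in atTop, (1 / ((k : ℝ) + 1) + ‖A1 n‖ / Real.sqrt ((k : ℝ) + 1)) < ε / 4 :=
    hlim1.eventually (gt_mem_nhds (by positivity))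
  have d2 : ∀ᶠ k : ℕ in atTop, ∀ j ∈ insert n (Finset.range (L + 1)),
      ‖NormedSpace.exp ((j : ℂ) • B k) x' - NormedSpace.exp ((j : ℂ) • A1 n) x'‖ < ε / 4 := by
    rw [eventually_all_finset]
    intro j _
    have h2 := ((hexpB j).sub_const (NormedSpace.exp ((j : ℂ) • A1 n) x')).norm
    rw [sub_self, norm_zero] at h2
    exact h2.eventually (gt_mem_nhds (by positivity))
  have d3 : ∀ᶠ k : ℕ in atTop, 1 / ((k : ℝ) + 1) < ε / 4 :=
    tendsto_one_div_add_atTop_nhds_zero_nat.eventually (gt_mem_nhds (by positivity))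
  obtain ⟨k, ⟨⟨g1, g2⟩, g3⟩, hk⟩ := (((d1.and d2).and d3).and (eventually_ge_atTop L)).exists
  obtain ⟨κ, j1, j2, w, β, hw, hβ⟩ := hB1 k
  have hxxε : ‖x' - x‖ < ε := by linarith
  refine ⟨N1 * (k + 1), B k, x', ⟨κ, j1, j2, w, β, hw, fun i => (hβ i).1⟩, ?_, hxxε, ⟨n, ?_⟩, ?_,
    ?_, ?_, ?_⟩
  · exact Pi_of_le (Nat.le_mul_of_pos_right _ (by omega)) hx'
  · have e1 := g2 n (Finset.mem_insert_self _ _)
    rw [hexp] at e1
    have e2 : ‖NormedSpace.exp ((n : ℂ) • B k) x' - y‖ ≤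
        ‖NormedSpace.exp ((n : ℂ) • B k) x' - y'‖ + ‖y' - Pi M y‖ + ‖Pi M y - y‖ := by
      have : NormedSpace.exp ((n : ℂ) • B k) x' - y = (NormedSpace.exp ((n : ℂ) • B k) x' - y') +
        (y' - Pi M y) + (Pi M y - y) := by abel
      rw [this]
      exact norm_add₃_le
    linarith
  · intro f hf
    have hf1 : Pi N1 f = f := Pi_of_le hLN1 hf
    have e1 := hB4 k f hf1
    have e2 : ‖A1 n f - A f‖ ≤ ε / 4 * ‖f‖ := by
      have := (A1 n - A).le_opNorm f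
      rw [sub_apply] at this
      exact this.trans (mul_le_mul_of_nonneg_right h1.le (norm_nonneg _))
    have e3 : ‖B k f - A f‖ ≤ ‖B k f - A1 n f‖ + ‖A1 n f - A f‖ := by
      simpa using norm_add_le (B k f - A1 n f) (A1 n f - A f)
    have e4 : (1 / ((k : ℝ) + 1) + ‖A1 n‖ / Real.sqrt ((k : ℝ) + 1)) * ‖f‖ ≤ ε / 4 * ‖f‖ :=
      mul_le_mul_of_nonneg_right g1.le (norm_nonneg _)
    have e5 : ε / 4 * ‖f‖ + ε / 4 * ‖f‖ ≤ ε * ‖f‖ := by
      have : 0 ≤ ε * ‖f‖ := by positivity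
      nlinarith
    linarith
  · intro m hm
    have e1 := hB3 k m (hm.trans hk)
    have e2 := h2 m (Finset.mem_range.2 (by omega))
    have e3 : ‖A1 n ^ m‖ ≤ ‖A1 n ^ m - A ^ m‖ + ‖A ^ m‖ := by
      simpa using norm_add_le (A1 n ^ m - A ^ m) (A ^ m)
    linarith
  · intro j hj
    have e1 := g2 j (Finset.mem_insert_of_mem (Finset.mem_range.2 (by omega)))
    have e2 := h3 j (Finset.mem_range.2 (by omega))
    have e3 : ‖NormedSpace.exp ((j : ℂ) • A) x' - NormedSpace.exp ((j : ℂ) • A) x‖ ≤ ε / 4 := by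
      rw [← map_sub]
      refine (ContinuousLinearMap.le_opNorm _ _).trans ?_
      have e4 : ‖NormedSpace.exp ((j : ℂ) • A)‖ ≤ E := by
        rw [hE']
        have := Finset.single_le_sum (f := fun j : ℕ => ‖NormedSpace.exp ((j : ℂ) • A)‖)
          (fun _ _ => norm_nonneg _) (Finset.mem_range.2 (show j < L + 1 by omega))
        linarith
      calc ‖NormedSpace.exp ((j : ℂ) • A)‖ * ‖x' - x‖ ≤ E * ε' :=
            mul_le_mul e4 hxx'.le (norm_nonneg _) hE0.le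
        _ = ε / 4 := by rw [hε']; field_simp
    have e5 : NormedSpace.exp ((j : ℂ) • B k) x' - NormedSpace.exp ((j : ℂ) • A) x =
        (NormedSpace.exp ((j : ℂ) • B k) x' - NormedSpace.exp ((j : ℂ) • A1 n) x') +
        (NormedSpace.exp ((j : ℂ) • A1 n) x' - NormedSpace.exp ((j : ℂ) • A) x') +
        (NormedSpace.exp ((j : ℂ) • A) x' - NormedSpace.exp ((j : ℂ) • A) x) := by abel
    rw [e5]
    refine norm_add₃_le.trans_lt ?_
    linarith
  · apply hw.small_pow hε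
    intro i
    refine (hβ i).2.trans ?_
    linarith

end Pool.Agent.H740R3.AQ
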