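import Mathlib
import Pool.Agent.H740R3.AQStmts

set_option autoImplicit false
set_option synthInstance.maxHeartbeats 400000

open Filter Topology
open scoped InnerProductSpace

namespace Pool.Agent.H740R3.AQ

/-- the series of the exponential of an operator at a vector -/
theorem tExp_hasSum (T : H →L[ℂ] H) (x : H) :
    HasSum (fun m : ℕ => ((m.factorial : ℂ)⁻¹) • (T ^ m) x) (NormedSpace.exp T x) := by
  have h := NormedSpace.exp_series_hasSum_exp' (𝕂 := ℂ) T
  have h2 := h.mapL (ContinuousLinearMap.apply ℂ H x)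
  simpa using h2

theorem tExp_pow (T : H →L[ℂ] H) (c : ℝ) (hc0 : 0 ≤ c) (hc : ‖T‖ ≤ c) (m : ℕ) :
    ∀ x : H, ‖(T ^ m) x‖ ≤ c ^ m * ‖x‖ := by
  induction m with
  | zero => intro x; simp
  | succ m ih =>
    intro x
    have e : (T ^ (m + 1)) x = (T ^ m) (T x) := by rw [pow_succ]; rfl
    rw [e]
    calc ‖(T ^ m) (T x)‖ ≤ c ^ m * ‖T x‖ := ih _
      _ ≤ c ^ m * (c * ‖x‖) := by
          gcongr
          exact (T.le_opNorm x).trans (mul_le_mul_of_nonneg_right hc (norm_nonneg _))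
      _ = c ^ (m + 1) * ‖x‖ := by ring

theorem tExp_norm_term (T : H →L[ℂ] H) (c : ℝ) (hc : ‖T‖ ≤ c) (x : H) (m : ℕ) :
    ‖((m.factorial : ℂ)⁻¹) • (T ^ m) x‖ ≤ (c ^ m / m.factorial) * ‖x‖ := by
  have hc0 : 0 ≤ c := (norm_nonneg _).trans hc
  rw [norm_smul, norm_inv, Complex.norm_natCast]
  have h1 : ‖(T ^ m) x‖ ≤ c ^ m * ‖x‖ := tExp_pow T c hc0 hc m x
  calc ((m.factorial : ℝ))⁻¹ * ‖(T ^ m) x‖ ≤ ((m.factorial : ℝ))⁻¹ * (c ^ m * ‖x‖) := by
        gcongr
    _ = (c ^ m / m.factorial) * ‖x‖ := by ring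

theorem tExp_bound (T : H →L[ℂ] H) (c : ℝ) (hc : ‖T‖ ≤ c) (x : H) :
    ‖NormedSpace.exp T x‖ ≤ Real.exp c * ‖x‖ := by
  rw [← (tExp_hasSum T x).tsum_eq]
  have hs : HasSum (fun m : ℕ => (c ^ m / m.factorial) * ‖x‖) (Real.exp c * ‖x‖) := by
    have := NormedSpace.expSeries_div_hasSum_exp (𝔸 := ℝ) c
    rw [← Real.exp_eq_exp_ℝ] at this
    exact this.mul_right _
  exact tsum_of_norm_bounded hs (fun m => tExp_norm_term T c hc x m)

theorem taskExp : TaskExp := by
  intro A B C hB x xs hxs hm j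
  have hC0 : 0 ≤ C := (norm_nonneg _).trans (hB 0)
  have hjB : ∀ k, ‖(j : ℂ) • B k‖ ≤ j * C := by
    intro k
    rw [norm_smul, Complex.norm_natCast]
    exact mul_le_mul_of_nonneg_left (hB k) (Nat.cast_nonneg j)
  have h1 : Tendsto (fun k => NormedSpace.exp ((j : ℂ) • B k) (xs k - x)) atTop (𝓝 0) := by
    have h0 : Tendsto (fun k => Real.exp (j * C) * ‖xs k - x‖) atTop (𝓝 0) := by
      have : Tendsto (fun k => ‖xs k - x‖) atTop (𝓝 0) :=
        tendsto_iff_norm_sub_tendsto_zero.1 hxs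
      simpa using this.const_mul (Real.exp (j * C))
    exact squeeze_zero_norm (fun k => tExp_bound _ _ (hjB k) _) h0
  have h2 : Tendsto (fun k => NormedSpace.exp ((j : ℂ) • B k) x) atTop
      (𝓝 (NormedSpace.exp ((j : ℂ) • A) x)) := by
    have e1 : (fun k => NormedSpace.exp ((j : ℂ) • B k) x) =
        fun k => ∑' m : ℕ, ((m.factorial : ℂ)⁻¹) • (((j : ℂ) • B k) ^ m) x := by
      funext k
      exact (tExp_hasSum _ x).tsum_eq.symm
    rw [e1, ← (tExp_hasSum ((j : ℂ) • A) x).tsum_eq]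
    have hs : Summable (fun m : ℕ => ((j * C) ^ m / m.factorial) * ‖x‖) := by
      have := NormedSpace.expSeries_div_hasSum_exp (𝔸 := ℝ) (j * C)
      exact (this.mul_right _).summable
    refine tendsto_tsum_of_dominated_convergence hs ?_ ?_
    · intro m
      have e2 : ∀ T : H →L[ℂ] H, (((j : ℂ) • T) ^ m) x = ((j : ℂ) ^ m) • (T ^ m) x := by
        intro T
        rw [smul_pow]
        rfl
      simp only [e2]
      exact ((hm m).const_smul _).const_smul _
    · exact Filter.Eventually.of_forall (fun k m => tExp_norm_term _ _ (hjB k) x m)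
  have e3 : (fun k => NormedSpace.exp ((j : ℂ) • B k) (xs k)) =
      fun k => NormedSpace.exp ((j : ℂ) • B k) (xs k - x) + NormedSpace.exp ((j : ℂ) • B k) x := by
    funext k
    rw [← map_add, sub_add_cancel]
  rw [e3]
  simpa using h1.add h2

end Pool.Agent.H740R3.AQ
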