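import Mathlib
import Pool.Agent.H740R3.BQStmts

set_option autoImplicit false
set_option maxHeartbeats 4000000
set_option synthInstance.maxHeartbeats 400000

open Filter Topology

namespace Pool.Agent.H740R3.BQ

universe u

/-- the conclusion of `T7` -/
def StepX (X : Type u) [NormedAddCommGroup X] [NormedSpace ℂ X]
    (e : ℕ → X) (g : ℕ → StrongDual ℂ X) : Prop :=
  ∀ (N : ℕ) (A : X →L[ℂ] X) (b : X →L[ℂ] X →L[ℂ] ℂ), IsSt e g N A b →
  ∀ y : X, PN e g N y = y → ∀ ε : ℝ, 0 < ε →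
  ∃ (N' : ℕ) (A' : X →L[ℂ] X) (b' : X →L[ℂ] X →L[ℂ] ℂ), N < N' ∧ IsSt e g N' A' b' ∧
    ‖A' - A‖ ≤ ε ∧ ‖b' - b‖ ≤ ε ∧ ∃ n : ℕ, ‖((1 + A') ^ n) (e 0) - y‖ ≤ ε

/-- bundled states -/
structure BSt (X : Type u) [NormedAddCommGroup X] [NormedSpace ℂ X]
    (e : ℕ → X) (g : ℕ → StrongDual ℂ X) where
  N : ℕ
  A : X →L[ℂ] X
  b : X →L[ℂ] X →L[ℂ] ℂ
  n : ℕ
  ε : ℝ
  st : IsSt e g N A b
  hε : 0 < ε

theorem bnext {X : Type u} [NormedAddCommGroup X] [NormedSpace ℂ X]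
    {e : ℕ → X} {g : ℕ → StrongDual ℂ X} (hstep : StepX X e g) (z : ℕ → X) (k : ℕ)
    (s : BSt X e g) : ∃ s' : BSt X e g,
    s.N < s'.N ∧ ‖s'.A - s.A‖ ≤ s.ε ∧ ‖s'.b - s.b‖ ≤ s.ε ∧ s'.ε ≤ s.ε / 2 ∧
    (PN e g s.N (z k) = z k → ∀ A' : X →L[ℂ] X, ‖A' - s'.A‖ ≤ 2 * s'.ε →
      ‖((1 + A') ^ s'.n) (e 0) - z k‖ ≤ 2 * s.ε) ∧
    (∀ A' : X →L[ℂ] X, ‖A' - s'.A‖ ≤ 2 * s'.ε → ‖A' ^ s'.N‖ ≤ s.ε ^ s'.N) := by
  classical
  obtain ⟨y, hy, hyz⟩ : ∃ y : X, PN e g s.N y = y ∧ (PN e g s.N (z k) = z k → y = z k) := by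
    by_cases h : PN e g s.N (z k) = z k
    · exact ⟨z k, h, fun _ => rfl⟩
    · exact ⟨0, map_zero _, fun h' => absurd h' h⟩
  obtain ⟨N', A', b', h1, h2, h3, h4, n, h5⟩ := hstep s.N s.A s.b s.st y hy s.ε s.hε
  -- continuity of the orbit vector
  have c1 : Continuous (fun B : X →L[ℂ] X => ((1 + B) ^ n) (e 0)) :=
    (ContinuousLinearMap.apply ℂ X (e 0)).continuous.comp
      ((continuous_const.add continuous_id).pow n)
  have c2 : Continuous (fun B : X →L[ℂ] X => B ^ N') := continuous_id.pow N'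
  obtain ⟨η1, hη1, k1⟩ := Metric.continuous_iff.1 c1 A' s.ε s.hε
  obtain ⟨η2, hη2, k2⟩ := Metric.continuous_iff.1 c2 A' (s.ε ^ N') (pow_pos s.hε N')
  have hη : 0 < min (min (η1 / 4) (η2 / 4)) (s.ε / 2) := by
    have := s.hε
    positivity
  refine ⟨⟨N', A', b', n, min (min (η1 / 4) (η2 / 4)) (s.ε / 2), h2, hη⟩, h1, h3, h4,
    min_le_right _ _, ?_, ?_⟩
  · intro hz B hB
    have hyz' := hyz hz
    subst hyz'
    have hB1 : dist B A' < η1 := by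
      rw [dist_eq_norm]
      have : min (min (η1 / 4) (η2 / 4)) (s.ε / 2) ≤ η1 / 4 :=
        (min_le_left _ _).trans (min_le_left _ _)
      dsimp only at hB
      linarith
    have := k1 B hB1
    rw [dist_eq_norm] at this
    calc ‖((1 + B) ^ n) (e 0) - z k‖
        = ‖(((1 + B) ^ n) (e 0) - ((1 + A') ^ n) (e 0)) + (((1 + A') ^ n) (e 0) - z k)‖ := by
          congr 1; abel
      _ ≤ ‖((1 + B) ^ n) (e 0) - ((1 + A') ^ n) (e 0)‖ + ‖((1 + A') ^ n) (e 0) - z k‖ :=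
          norm_add_le _ _
      _ ≤ 2 * s.ε := by linarith
  · intro B hB
    have hB1 : dist B A' < η2 := by
      rw [dist_eq_norm]
      have : min (min (η1 / 4) (η2 / 4)) (s.ε / 2) ≤ η2 / 4 :=
        (min_le_left _ _).trans (min_le_right _ _)
      dsimp only at hB
      linarith
    have := k2 B hB1
    have hnil := h2.nil
    simp only [hnil, dist_zero_right] at this
    exact this.le

/-- the main theorem, from the step and the small lemmas -/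
theorem main_of {X : Type u} [NormedAddCommGroup X] [NormedSpace ℂ X] [CompleteSpace X]
    [Nontrivial X] (h8 : T8.{u}) (h9 : T9.{u}) (h12 : T12.{u})
    {e : ℕ → X} {g : ℕ → StrongDual ℂ X} (hstep : StepX X e g)
    (z : ℕ → X) (hz : ∀ v : X, ∀ δ : ℝ, 0 < δ → ∀ k0 : ℕ, ∃ k, k0 ≤ k ∧ ‖z k - v‖ < δ ∧
      ∀ N, k ≤ N → PN e g N (z k) = z k)
    (b0 : X →L[ℂ] X →L[ℂ] ℂ) (hb0 : IsSt e g 1 (0 : X →L[ℂ] X) b0) :
    ∃ T : X →L[ℂ] X, (∃ x : X, Dense (Set.range (fun n : ℕ => (T ^ n) x))) ∧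
      (¬ ∃ x : X × X, Dense ((Submodule.span ℂ (Set.range (fun n : ℕ => ((T.prodMap T) ^ n) x)) :
        Submodule ℂ (X × X)) : Set (X × X))) ∧ spectrum ℂ T = {1} := by
  choose nx hnx using fun k s => bnext hstep z k s
  let s0 : BSt X e g := ⟨1, 0, b0, 0, 1 / 2, hb0, by norm_num⟩
  let S : ℕ → BSt X e g := fun k => Nat.rec s0 (fun k s => nx k s) k
  have hS : ∀ k, S (k + 1) = nx k (S k) := fun _ => rfl
  have p1 : ∀ k, (S k).N < (S (k + 1)).N := fun k => by rw [hS]; exact (hnx k (S k)).1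
  have p2 : ∀ k, ‖(S (k + 1)).A - (S k).A‖ ≤ (S k).ε := fun k => by
    rw [hS]; exact (hnx k (S k)).2.1
  have p3 : ∀ k, ‖(S (k + 1)).b - (S k).b‖ ≤ (S k).ε := fun k => by
    rw [hS]; exact (hnx k (S k)).2.2.1
  have p4 : ∀ k, (S (k + 1)).ε ≤ (S k).ε / 2 := fun k => by
    rw [hS]; exact (hnx k (S k)).2.2.2.1
  have p5 : ∀ k, PN e g (S k).N (z k) = z k → ∀ A' : X →L[ℂ] X,
      ‖A' - (S (k + 1)).A‖ ≤ 2 * (S (k + 1)).ε →
      ‖((1 + A') ^ (S (k + 1)).n) (e 0) - z k‖ ≤ 2 * (S k).ε := fun k => by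
    rw [hS]; exact (hnx k (S k)).2.2.2.2.1
  have p6 : ∀ k, ∀ A' : X →L[ℂ] X, ‖A' - (S (k + 1)).A‖ ≤ 2 * (S (k + 1)).ε →
      ‖A' ^ (S (k + 1)).N‖ ≤ (S k).ε ^ (S (k + 1)).N := fun k => by
    rw [hS]; exact (hnx k (S k)).2.2.2.2.2
  have hN : ∀ k, k ≤ (S k).N := by
    intro k
    induction k with
    | zero => exact Nat.zero_le _
    | succ k ih => have := p1 k; omega
  have hε : ∀ k, (S k).ε ≤ (1 / 2) ^ k := by
    intro k
    induction k with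
    | zero => show (1 / 2 : ℝ) ≤ _; norm_num
    | succ k ih =>
      have := p4 k
      rw [pow_succ]
      linarith
  obtain ⟨A, hA1, hA2⟩ := h12 (X →L[ℂ] X) (fun k => (S k).A) (fun k => (S k).ε)
    (fun k => (S k).hε) p4 p2
  obtain ⟨b, hb1, hb2⟩ := h12 (X →L[ℂ] X →L[ℂ] ℂ) (fun k => (S k).b) (fun k => (S k).ε)
    (fun k => (S k).hε) p4 p3
  -- pointwise limits
  have lA : ∀ u : X, Tendsto (fun k => (S k).A u) atTop (𝓝 (A u)) := fun u =>
    ((ContinuousLinearMap.apply ℂ X u).continuous.tendsto A).comp hA1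
  have lb : ∀ u v : X, Tendsto (fun k => (S k).b u v) atTop (𝓝 (b u v)) := fun u v =>
    ((ContinuousLinearMap.apply ℂ ℂ v).continuous.tendsto (b u)).comp
      (((ContinuousLinearMap.apply ℂ (X →L[ℂ] ℂ) u).continuous.tendsto b).comp hb1)
  have hsym : ∀ u v, b u v = b v u := fun u v => by
    refine tendsto_nhds_unique (lb u v) ?_
    have := lb v u
    refine this.congr fun k => ?_
    exact (S k).st.bsymm v u
  have happ : ∀ u v : X, Tendsto (fun k => (S k).b ((S k).A u) v) atTop (𝓝 (b (A u) v)) := by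
    intro u v
    have hc : Continuous (fun q : (X →L[ℂ] X →L[ℂ] ℂ) × X => q.1 q.2) :=
      isBoundedBilinearMap_apply.continuous
    have h1 : Tendsto (fun k => ((S k).b, (S k).A u)) atTop (𝓝 (b, A u)) :=
      hb1.prodMk_nhds (lA u)
    have h2 := (hc.tendsto (b, A u)).comp h1
    exact ((ContinuousLinearMap.apply ℂ ℂ v).continuous.tendsto _).comp h2
  have hAsym : ∀ u v, b (A u) v = b u (A v) := fun u v => by
    refine tendsto_nhds_unique (happ u v) ?_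
    have := happ v u
    rw [hsym] at this
    refine this.congr fun k => ?_
    rw [(S k).st.bsymm, ← (S k).st.bA]
  have hb00 : b (e 0) (e 0) = 1 := by
    refine tendsto_nhds_unique (lb (e 0) (e 0)) ?_
    refine tendsto_const_nhds.congr fun k => ?_
    exact (S k).st.b0.symm
  have hbne : b ≠ 0 := by
    rintro rfl
    simp at hb00
  refine ⟨1 + A, ⟨e 0, ?_⟩, h9 X (1 + A) b hsym ?_ hbne, h8 X A ?_⟩
  · rw [Metric.dense_iff]
    intro v r hr
    obtain ⟨k0, hk0⟩ : ∃ k0 : ℕ, ∀ k, k0 ≤ k → (1 / 2 : ℝ) ^ k < r / 4 := by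
      have := (tendsto_pow_atTop_nhds_zero_of_lt_one (r := (1 / 2 : ℝ)) (by norm_num)
        (by norm_num)).eventually (gt_mem_nhds (show (0 : ℝ) < r / 4 by positivity))
      exact eventually_atTop.1 this
    obtain ⟨k, hk, hzk, hzN⟩ := hz v (r / 2) (by positivity) k0
    have := p5 k (hzN _ (hN k)) A (hA2 (k + 1))
    refine ⟨((1 + A) ^ (S (k + 1)).n) (e 0), ?_, ⟨_, rfl⟩⟩
    rw [Metric.mem_ball, dist_eq_norm]
    have e1 := hε k
    have e2 := hk0 k hk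
    calc ‖((1 + A) ^ (S (k + 1)).n) (e 0) - v‖
        = ‖(((1 + A) ^ (S (k + 1)).n) (e 0) - z k) + (z k - v)‖ := by congr 1; abel
      _ ≤ ‖((1 + A) ^ (S (k + 1)).n) (e 0) - z k‖ + ‖z k - v‖ := norm_add_le _ _
      _ < r := by linarith
  · intro u v
    simp only [add_apply, one_apply_eq_self, map_add, hAsym]
  · intro δ hδ
    obtain ⟨k, hk⟩ : ∃ k : ℕ, (1 / 2 : ℝ) ^ k < δ := exists_pow_lt_of_lt_one hδ (by norm_num)
    refine ⟨(S (k + 1)).N, by have := p1 k; omega, ?_⟩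
    refine (p6 k A (hA2 (k + 1))).trans ?_
    exact pow_le_pow_left₀ (S k).hε.le ((hε k).trans hk.le) _

end Pool.Agent.H740R3.BQ
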