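import Pool.Agent.H740R3.BQStmts

/-! Task T4: algebra of `B = z H⁻¹ S H`. -/

set_option autoImplicit false

namespace Pool.Agent.H740R3.BQ

open Finset Matrix

theorem t4_SM_pow (D k : ℕ) (i j : Fin D) :
    (SM D ^ k) i j = if (i : ℕ) = j + k then 1 else 0 := by
  induction k generalizing i j with
  | zero =>
    simp only [pow_zero, Matrix.one_apply, add_zero, Fin.ext_iff]
  | succ k ih =>
    rw [pow_succ, Matrix.mul_apply]
    by_cases h : (i : ℕ) = j + (k + 1)
    · have hj : (j : ℕ) + 1 < D := by omega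
      rw [Finset.sum_eq_single (⟨(j : ℕ) + 1, hj⟩ : Fin D)]
      · rw [ih, if_pos h, if_pos (by simp only; omega)]
        simp [SM]
      · intro b _ hb
        have hb' : (b : ℕ) ≠ j + 1 := fun hc => hb (Fin.ext hc)
        simp [SM, hb']
      · intro hc
        exact absurd (Finset.mem_univ _) hc
    · rw [if_neg h]
      refine Finset.sum_eq_zero fun b _ => ?_
      rw [ih]
      unfold SM
      by_cases hb : (b : ℕ) = j + 1
      · rw [if_neg (by omega), zero_mul]
      · rw [if_neg hb, mul_zero]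

theorem t4_B_pow (D : ℕ) (H : Matrix (Fin D) (Fin D) ℂ) (z : ℂ) (hH : IsUnit H.det) (k : ℕ) :
    (z • (H⁻¹ * SM D * H)) ^ k = z ^ k • (H⁻¹ * SM D ^ k * H) := by
  induction k with
  | zero => simp [Matrix.nonsing_inv_mul H hH]
  | succ k ih =>
    rw [pow_succ, ih, Matrix.smul_mul, Matrix.mul_smul, smul_smul, ← pow_succ]
    congr 1
    calc H⁻¹ * SM D ^ k * H * (H⁻¹ * SM D * H) = H⁻¹ * SM D ^ k * (H * H⁻¹) * SM D * H := by
          simp only [Matrix.mul_assoc]
      _ = H⁻¹ * SM D ^ (k + 1) * H := by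
          rw [Matrix.mul_nonsing_inv H hH, Matrix.mul_one, pow_succ]
          simp only [Matrix.mul_assoc]

theorem t4_cv_comm {D : ℕ} (u v : Fin D → ℂ) : cv u v = cv v u := by
  funext k
  unfold cv
  rw [Finset.sum_comm]
  refine Finset.sum_congr rfl fun a _ => Finset.sum_congr rfl fun b _ => ?_
  by_cases h : (a : ℕ) + b = k
  · rw [if_pos h, if_pos (by omega), mul_comm]
  · rw [if_neg h, if_neg (by omega)]

theorem t4_cv_sum {D : ℕ} (u : Fin D → ℂ) (M : Fin D → Fin D → ℂ) (c : Fin D → ℂ) (k : Fin D) :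
    cv u (fun a => ∑ l, M a l * c l) k = ∑ l, cv u (fun a => M a l) k * c l := by
  unfold cv
  simp only [Finset.sum_mul]
  rw [Finset.sum_comm (s := (Finset.univ : Finset (Fin D))) (t := (Finset.univ : Finset (Fin D)))
    (f := fun l a => ∑ b : Fin D, (if (a : ℕ) + b = k then u a * M b l else 0) * c l)]
  refine Finset.sum_congr rfl fun a _ => ?_
  rw [Finset.sum_comm]
  refine Finset.sum_congr rfl fun b _ => ?_
  by_cases h : (a : ℕ) + b = k
  · simp only [if_pos h, Finset.mul_sum, mul_assoc]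
  · simp [if_neg h]

/-- the shifted vector -/
theorem t4_cv_shift {D : ℕ} (u v : Fin D → ℂ) (k : Fin D) :
    cv u ((SM D).mulVec v) k = ∑ a : Fin D, ∑ b : Fin D,
      if (a : ℕ) + b + 1 = k then u a * v b else 0 := by
  have h1 : (SM D).mulVec v = fun a => ∑ l, SM D a l * v l := rfl
  rw [h1, t4_cv_sum]
  unfold cv
  simp only [Finset.sum_mul]
  rw [Finset.sum_comm (s := (Finset.univ : Finset (Fin D))) (t := (Finset.univ : Finset (Fin D)))
    (f := fun l a => ∑ b : Fin D, (if (a : ℕ) + b = k then u a * SM D b l else 0) * v l)]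
  refine Finset.sum_congr rfl fun a _ => ?_
  refine Finset.sum_congr rfl fun l _ => ?_
  by_cases h : (a : ℕ) + l + 1 = k
  · have hl : (l : ℕ) + 1 < D := by omega
    rw [if_pos h, Finset.sum_eq_single (⟨(l : ℕ) + 1, hl⟩ : Fin D)]
    · rw [if_pos (by simp only; omega)]
      simp [SM]
    · intro b _ hb
      have hb' : (b : ℕ) ≠ l + 1 := fun hc => hb (Fin.ext hc)
      simp [SM, hb']
    · intro hc
      exact absurd (Finset.mem_univ _) hc
  · rw [if_neg h]
    refine Finset.sum_eq_zero fun b _ => ?_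
    by_cases hb : (b : ℕ) = l + 1
    · rw [if_neg (by omega), zero_mul]
    · simp [SM, hb]

theorem t4_cv_shift_symm {D : ℕ} (u v : Fin D → ℂ) (k : Fin D) :
    cv u ((SM D).mulVec v) k = cv v ((SM D).mulVec u) k := by
  rw [t4_cv_shift, t4_cv_shift, Finset.sum_comm]
  refine Finset.sum_congr rfl fun a _ => Finset.sum_congr rfl fun b _ => ?_
  by_cases h : (a : ℕ) + b + 1 = k
  · rw [if_pos h, if_pos (by omega), mul_comm]
  · rw [if_neg h, if_neg (by omega)]

theorem t4_Gam_mul {D : ℕ} (L : Fin D → ℂ) (H : Matrix (Fin D) (Fin D) ℂ) (z : ℂ)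
    (hH : IsUnit H.det) (i j : Fin D) :
    (Gam L H * (z • (H⁻¹ * SM D * H))) i j =
      z * ∑ k, L k * cv (fun a => H a i) ((SM D).mulVec (fun a => H a j)) k := by
  set B := z • (H⁻¹ * SM D * H) with hB
  have hHB : H * B = z • (SM D * H) := by
    rw [hB, Matrix.mul_smul, ← Matrix.mul_assoc, ← Matrix.mul_assoc,
      Matrix.mul_nonsing_inv H hH, Matrix.one_mul]
  rw [Matrix.mul_apply]
  unfold Gam
  simp only [Finset.sum_mul]
  rw [Finset.sum_comm, Finset.mul_sum]
  refine Finset.sum_congr rfl fun k _ => ?_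
  have h1 : ∑ l, L k * cv (fun a => H a i) (fun a => H a l) k * B l j =
      L k * cv (fun a => H a i) (fun a => ∑ l, H a l * B l j) k := by
    rw [t4_cv_sum, Finset.mul_sum]
    refine Finset.sum_congr rfl fun l _ => ?_
    ring
  rw [h1]
  have h2 : (fun a => ∑ l, H a l * B l j) = fun a => ∑ l, (SM D).mulVec (fun a => H a j) a *
      (if l = a then z else 0) := by
    funext a
    have h3 : ∑ l, H a l * B l j = (H * B) a j := by rw [Matrix.mul_apply]
    rw [h3, hHB]
    simp [Matrix.mul_apply, Matrix.mulVec, dotProduct, mul_comm]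
  have h4 : (fun a => ∑ l, H a l * B l j) = fun a => (SM D).mulVec (fun a => H a j) a * z := by
    rw [h2]
    funext a
    simp
  rw [h4]
  have h5 : cv (fun a => H a i) (fun a => (SM D).mulVec (fun a => H a j) a * z) k =
      cv (fun a => H a i) ((SM D).mulVec (fun a => H a j)) k * z := by
    unfold cv
    simp only [Finset.sum_mul]
    refine Finset.sum_congr rfl fun a _ => Finset.sum_congr rfl fun b _ => ?_
    split_ifs
    · ring
    · simp
  rw [h5]
  ring

theorem t4_SM_e0 (D k : ℕ) :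
    (SM D ^ k).mulVec (e0 D) = fun i : Fin D => if (i : ℕ) = k then (1 : ℂ) else 0 := by
  funext i
  have hD : 0 < D := i.pos
  have hexp : (SM D ^ k).mulVec (e0 D) i = ∑ j : Fin D, (SM D ^ k) i j * e0 D j := rfl
  rw [hexp, Finset.sum_eq_single (⟨0, hD⟩ : Fin D)]
  · rw [t4_SM_pow]
    simp [e0]
  · intro b _ hb
    have hb' : (b : ℕ) ≠ 0 := fun hc => hb (Fin.ext hc)
    simp [e0, hb']
  · intro hc
    exact absurd (Finset.mem_univ _) hc

theorem t4 : T4 := by
  intro D H z L hz hH he
  have hsymm : (Gam L H).transpose = Gam L H := by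
    ext i j
    unfold Gam
    simp only [Matrix.transpose_apply]
    refine Finset.sum_congr rfl fun k _ => ?_
    rw [t4_cv_comm]
  refine ⟨?_, hsymm, ?_, ?_⟩
  · rw [t4_B_pow D H z hH]
    have h0 : SM D ^ D = 0 := by
      ext i j
      rw [t4_SM_pow, if_neg (by omega)]
      rfl
    rw [h0]
    simp
  · have h1 : (z • (H⁻¹ * SM D * H)).transpose * Gam L H =
        (Gam L H * (z • (H⁻¹ * SM D * H))).transpose := by
      rw [Matrix.transpose_mul, hsymm]
    rw [h1]
    ext i j
    rw [Matrix.transpose_apply, t4_Gam_mul L H z hH, t4_Gam_mul L H z hH]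
    congr 1
    refine Finset.sum_congr rfl fun k _ => ?_
    rw [t4_cv_shift_symm]
  · intro v
    refine ⟨fun k => if h : k < D then (H.mulVec v) ⟨k, h⟩ / z ^ k else 0, ?_⟩
    have h1 : ∀ k : ℕ, ((z • (H⁻¹ * SM D * H)) ^ k).mulVec (e0 D) =
        z ^ k • (H⁻¹).mulVec (fun i : Fin D => if (i : ℕ) = k then (1 : ℂ) else 0) := by
      intro k
      rw [t4_B_pow D H z hH, Matrix.smul_mulVec, ← Matrix.mulVec_mulVec, he,
        ← Matrix.mulVec_mulVec, t4_SM_e0]
    simp only [h1]
    have h2 : v = (H⁻¹).mulVec (H.mulVec v) := by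
      rw [Matrix.mulVec_mulVec, Matrix.nonsing_inv_mul H hH, Matrix.one_mulVec]
    have h3 : H.mulVec v = ∑ k ∈ Finset.range D,
        (if h : k < D then (H.mulVec v) ⟨k, h⟩ else 0) • (fun i : Fin D => if (i : ℕ) = k then (1 : ℂ) else 0) := by
      funext i
      rw [Finset.sum_apply]
      rw [Finset.sum_eq_single (i : ℕ)]
      · simp
      · intro b _ hb
        simp [Ne.symm hb]
      · intro hc
        exact absurd (Finset.mem_range.mpr i.2) hc
    conv_lhs => rw [h2, h3]
    rw [Matrix.mulVec_sum]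
    refine Finset.sum_congr rfl fun k hk => ?_
    have hk' : k < D := Finset.mem_range.mp hk
    rw [dif_pos hk', dif_pos hk', Matrix.mulVec_smul, smul_smul]
    congr 1
    field_simp

end Pool.Agent.H740R3.BQ
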