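import Mathlib

set_option autoImplicit false

open Filter Topology

namespace Pool.Agent.H740R3.Biorth

universe u

variable (𝕜 : Type) [RCLike 𝕜] {X : Type u} [NormedAddCommGroup X] [NormedSpace 𝕜 X]

theorem exists_hd (z : X) : ∃ f : StrongDual 𝕜 X, (z ≠ 0 → f z = 1) ∧ (z = 0 → f = 0) := by
  by_cases h : z = 0
  · exact ⟨0, fun h' => absurd h h', fun _ => rfl⟩
  · obtain ⟨f, hf⟩ := SeparatingDual.exists_eq_one (R := 𝕜) h
    exact ⟨f, fun _ => hf, fun h' => absurd h' h⟩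

noncomputable def hd (z : X) : StrongDual 𝕜 X := Classical.choose (exists_hd 𝕜 z)

theorem hd_apply {z : X} (hz : z ≠ 0) : hd 𝕜 z z = 1 := (Classical.choose_spec (exists_hd 𝕜 z)).1 hz

theorem hd_zero : hd 𝕜 (0 : X) = 0 := (Classical.choose_spec (exists_hd 𝕜 (0 : X))).2 rfl

/-- one step of the construction of the projections -/
noncomputable def step (y : X) (P : X →L[𝕜] X) : X →L[𝕜] X :=
  P + ((hd 𝕜 (y - P y)).comp (ContinuousLinearMap.id 𝕜 X - P)).smulRight (y - P y)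

noncomputable def Pr (y : ℕ → X) : ℕ → (X →L[𝕜] X)
  | 0 => 0
  | n + 1 => step 𝕜 (y n) (Pr y n)

noncomputable def e (y : ℕ → X) (n : ℕ) : X := y n - Pr 𝕜 y n (y n)

noncomputable def g (y : ℕ → X) (n : ℕ) : StrongDual 𝕜 X :=
  (hd 𝕜 (e 𝕜 y n)).comp (ContinuousLinearMap.id 𝕜 X - Pr 𝕜 y n)

variable (y : ℕ → X)

theorem g_apply (n : ℕ) (x : X) : g 𝕜 y n x = hd 𝕜 (e 𝕜 y n) (x - Pr 𝕜 y n x) := rfl

theorem Pr_succ (n : ℕ) (x : X) : Pr 𝕜 y (n + 1) x = Pr 𝕜 y n x + g 𝕜 y n x • e 𝕜 y n := rfl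

theorem Pr_idem (n : ℕ) (x : X) : Pr 𝕜 y n (Pr 𝕜 y n x) = Pr 𝕜 y n x := by
  induction n generalizing x with
  | zero => simp [Pr]
  | succ n ih =>
    have h1 : Pr 𝕜 y n (e 𝕜 y n) = 0 := by
      rw [e, map_sub, ih, sub_self]
    have h2 : g 𝕜 y n (Pr 𝕜 y n x) = 0 := by
      rw [g_apply, ih, sub_self, map_zero]
    have h3 : g 𝕜 y n (e 𝕜 y n) • e 𝕜 y n = e 𝕜 y n := by
      by_cases h : e 𝕜 y n = 0
      · rw [h, smul_zero]
      · rw [g_apply, h1, sub_zero, hd_apply 𝕜 h, one_smul]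
    rw [Pr_succ, Pr_succ, map_add, map_add, ih, map_smul, h1, h2, map_smul, smul_zero,
      add_zero, zero_add, smul_eq_mul, mul_smul, h3]

theorem Pr_e_self (n : ℕ) : Pr 𝕜 y n (e 𝕜 y n) = 0 := by
  rw [e, map_sub, Pr_idem, sub_self]

theorem g_Pr_self (n : ℕ) (x : X) : g 𝕜 y n (Pr 𝕜 y n x) = 0 := by
  rw [g_apply, Pr_idem, sub_self, map_zero]

theorem g_e_self (n : ℕ) : g 𝕜 y n (e 𝕜 y n) = 1 ∨ (e 𝕜 y n = 0 ∧ g 𝕜 y n = 0) := by
  by_cases h : e 𝕜 y n = 0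
  · right
    refine ⟨h, ?_⟩
    ext x
    rw [g_apply, h, hd_zero]
    rfl
  · left
    rw [g_apply, Pr_e_self, sub_zero, hd_apply 𝕜 h]

theorem later (n k : ℕ) : Pr 𝕜 y (n + 1 + k) (e 𝕜 y n) = e 𝕜 y n ∧
    ∀ x, g 𝕜 y n (Pr 𝕜 y (n + 1 + k) x) = g 𝕜 y n x := by
  induction k with
  | zero =>
    constructor
    · rw [add_zero, Pr_succ, Pr_e_self, zero_add]
      rcases g_e_self 𝕜 y n with h | ⟨h, -⟩
      · rw [h, one_smul]
      · rw [h, smul_zero]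
    · intro x
      rw [add_zero, Pr_succ, map_add, g_Pr_self, zero_add, map_smul, smul_eq_mul]
      rcases g_e_self 𝕜 y n with h | ⟨-, h⟩
      · rw [h, mul_one]
      · simp [h]
  | succ k ih =>
    obtain ⟨ih1, ih2⟩ := ih
    have h1 : g 𝕜 y (n + 1 + k) (e 𝕜 y n) = 0 := by
      rw [g_apply, ih1, sub_self, map_zero]
    have h2 : g 𝕜 y n (e 𝕜 y (n + 1 + k)) = 0 := by
      rw [e, map_sub, ih2, sub_self]
    constructor
    · rw [← add_assoc, Pr_succ, ih1, h1, zero_smul, add_zero]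
    · intro x
      rw [← add_assoc, Pr_succ, map_add, ih2, map_smul, h2, smul_zero, add_zero]

theorem biorth {i j : ℕ} (h : i ≠ j) : g 𝕜 y i (e 𝕜 y j) = 0 := by
  rcases lt_or_gt_of_ne h with h | h
  · obtain ⟨k, rfl⟩ := Nat.exists_eq_add_of_lt h
    have h3 : i + k + 1 = i + 1 + k := by ring
    rw [h3]
    rw [e, map_sub, (later 𝕜 y i k).2, sub_self]
  · obtain ⟨k, rfl⟩ := Nat.exists_eq_add_of_lt h
    have h3 : j + k + 1 = j + 1 + k := by ring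
    rw [h3]
    rw [g_apply, (later 𝕜 y j k).1, sub_self, map_zero]

theorem Pr_mem (n : ℕ) (x : X) : Pr 𝕜 y n x ∈ Submodule.span 𝕜 (Set.range (e 𝕜 y)) := by
  induction n with
  | zero => simp [Pr]
  | succ n ih =>
    rw [Pr_succ]
    exact Submodule.add_mem _ ih (Submodule.smul_mem _ _ (Submodule.subset_span ⟨n, rfl⟩))

theorem y_mem (n : ℕ) : y n ∈ Submodule.span 𝕜 (Set.range (e 𝕜 y)) := by
  have h : y n = e 𝕜 y n + Pr 𝕜 y n (y n) := by rw [e]; abel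
  rw [h]
  exact Submodule.add_mem _ (Submodule.subset_span ⟨n, rfl⟩) (Pr_mem 𝕜 y n _)

/-- every separable normed space has a biorthogonal sequence with dense span (in which the pairs
may degenerate to zero) -/
theorem exists_biorth (X : Type u) [NormedAddCommGroup X] [NormedSpace 𝕜 X]
    [TopologicalSpace.SeparableSpace X] :
    ∃ (e : ℕ → X) (g : ℕ → StrongDual 𝕜 X), (∀ i j, i ≠ j → g i (e j) = 0) ∧
      (∀ i, g i (e i) = 1 ∨ (e i = 0 ∧ g i = 0)) ∧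
      Dense (Submodule.span 𝕜 (Set.range e) : Set X) := by
  obtain ⟨y, hy⟩ := TopologicalSpace.exists_dense_seq X
  refine ⟨e 𝕜 y, g 𝕜 y, fun i j h => biorth 𝕜 y h, g_e_self 𝕜 y, hy.mono ?_⟩
  rintro _ ⟨n, rfl⟩
  exact y_mem 𝕜 y n

end Pool.Agent.H740R3.Biorth
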