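import Mathlib
import Pool.Agent.H740R3.BQStmts
import Pool.Agent.H740R3.BQFinal
import Pool.Agent.H403R5.BQT0
import Pool.Agent.H318R3.BQ.T1a
import Pool.Agent.H833R3.BQ1b
import Pool.Agent.H298R3.BQ.T1c
import Pool.Agent.H711R5.BQ.T2a
import Pool.Agent.H320R4.BQT2
import Pool.Agent.H646R3.BQT3a
import Pool.Agent.H493R3.BQ.T3s
import Pool.Agent.H750R3.BQ.T3
import Pool.Agent.H740R3.BQT4
import Pool.Agent.H851R3.BQ.T5
import Pool.Agent.H421R3.BQ.Stage
import Pool.Agent.H253MB.BQ.T6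
import Pool.Agent.H66R3.BQ.T7
import Pool.Agent.H783R3.BQ.T8
import Pool.Agent.H154R5.BQ_T9
import Pool.Agent.H87R3.BQ.T10
import Pool.Agent.H773.BQ.T11
import Pool.Agent.H880R3.BQ.T12
import Pool.Agent.H545R3.BQ.T13

set_option autoImplicit false

open Filter Topology

namespace Pool.Agent.H740R3.BQ

universe u

/-- all the parts put together -/
theorem every (X : Type u) [NormedAddCommGroup X] [NormedSpace ℂ X] [CompleteSpace X]
    [TopologicalSpace.SeparableSpace X] (hX : ¬ FiniteDimensional ℂ X) :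
    ∃ T : X →L[ℂ] X, (∃ x : X, Dense (Set.range (fun n : ℕ => (T ^ n) x))) ∧
      (¬ ∃ x : X × X, Dense ((Submodule.span ℂ (Set.range (fun n : ℕ => ((T.prodMap T) ^ n) x)) :
        Submodule ℂ (X × X)) : Set (X × X))) ∧ spectrum ℂ T = {1} := by
  have hnt : Nontrivial X := by
    by_contra h
    rw [not_nontrivial_iff_subsingleton] at h
    exact hX inferInstance
  have hst : Stage := Pool.Agent.H421R3.BQ.stage Pool.Agent.H403R5.t0 t1a
    Pool.Agent.H833R3.BQ1b.t1b Pool.Agent.H298R3.BQ.t1c t2a Pool.Agent.H320R4.BQT2.t2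
    Pool.Agent.H646R3.BQT3a.t3a Pool.Agent.H493R3.BQ.t3s Pool.Agent.H750R3.BQ.t3
    t4 Pool.Agent.H851R3.BQT5.t5
  obtain ⟨e, g, hbi, hd⟩ := t10 X hX
  obtain ⟨z, hz⟩ := Pool.Agent.H773.BQ.t11 X e g hbi hd
  obtain ⟨b0, hb0⟩ := Pool.Agent.H545R3.BQ.t13 X e g hbi
  exact main_of Pool.Agent.H783R3.BQ.t8 Pool.Agent.H154R5.BQ.t9 Pool.Agent.H880R3.BQ.t12
    (fun N A b hs y hy ε hε => Pool.Agent.H66R3.BQ.t7 hst Pool.Agent.H253MB.BQ.t6 X e g hbi
      N A b hs y hy ε hε) z hz b0 hb0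

end Pool.Agent.H740R3.BQ
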