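import Mathlib

set_option autoImplicit false

open Filter Topology

namespace Pool.Agent.H740R3.CG

/-- the direction of the path at step `m` -/
def hor (m : ℕ) : Prop := Odd (Nat.log 1024 m)

instance : DecidablePred hor := fun m => inferInstanceAs (Decidable (Odd (Nat.log 1024 m)))

def xs (m : ℕ) : ℕ := ((Finset.range m).filter (fun k => hor k)).card
def ys (m : ℕ) : ℕ := ((Finset.range m).filter (fun k => ¬ hor k)).card

theorem xs_add_ys (m : ℕ) : xs m + ys m = m := by
  unfold xs ys
  rw [Finset.card_filter_add_card_filter_not]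
  simp

theorem xs_succ (m : ℕ) : xs (m + 1) = xs m + if hor m then 1 else 0 := by
  unfold xs
  rw [Finset.range_add_one, Finset.filter_insert]
  split_ifs
  · rw [Finset.card_insert_of_notMem (by simp)]
  · rfl

theorem ys_succ (m : ℕ) : ys (m + 1) = ys m + if hor m then 0 else 1 := by
  have h1 := xs_add_ys m
  have h2 := xs_add_ys (m + 1)
  have h3 := xs_succ m
  split_ifs at h3 ⊢ <;> omega

theorem ys_le {i m : ℕ} (hi : Even i) (hm : m ≤ 1024 ^ (i + 2)) : ys m ≤ 1024 ^ (i + 1) := by
  unfold ys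
  calc ((Finset.range m).filter (fun k => ¬ hor k)).card ≤ (Finset.range (1024 ^ (i + 1))).card := by
        apply Finset.card_le_card
        intro k hk
        rw [Finset.mem_filter, Finset.mem_range] at hk
        rw [Finset.mem_range]
        by_contra hcon
        push Not at hcon
        apply hk.2
        unfold hor
        have : Nat.log 1024 k = i + 1 := Nat.log_eq_of_pow_le_of_lt_pow hcon (lt_of_lt_of_le hk.1 hm)
        rw [this]
        exact hi.add_one
    _ = 1024 ^ (i + 1) := Finset.card_range _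

theorem xs_le {i m : ℕ} (hi : ¬ Even i) (hm : m ≤ 1024 ^ (i + 2)) : xs m ≤ 1024 ^ (i + 1) := by
  unfold xs
  calc ((Finset.range m).filter (fun k => hor k)).card ≤ (Finset.range (1024 ^ (i + 1))).card := by
        apply Finset.card_le_card
        intro k hk
        rw [Finset.mem_filter, Finset.mem_range] at hk
        rw [Finset.mem_range]
        by_contra hcon
        push Not at hcon
        have h1 : Nat.log 1024 k = i + 1 := Nat.log_eq_of_pow_le_of_lt_pow hcon (lt_of_lt_of_le hk.1 hm)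
        have h2 : Odd (i + 1) := by
          have := hk.2
          unfold hor at this
          rwa [h1] at this
        have h3 : Odd i := Nat.not_even_iff_odd.1 hi
        have h4 : Even (i + 1) := h3.add_one
        exact (Nat.not_even_iff_odd.2 h2) h4
    _ = 1024 ^ (i + 1) := Finset.card_range _

/-- the path -/
noncomputable def ze (m : ℕ) : ℂ := ⟨10 + xs m, 10 + ys m⟩

theorem ze_step (m : ℕ) : ‖ze (m + 1) - ze m‖ = 1 := by
  by_cases h : hor m
  · have h1 : ze (m + 1) - ze m = 1 := by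
      apply Complex.ext
      · simp only [ze, Complex.sub_re, xs_succ, if_pos h, Complex.one_re]; push_cast; ring
      · simp only [ze, Complex.sub_im, ys_succ, if_pos h, Complex.one_im]; push_cast; ring
    rw [h1, norm_one]
  · have h1 : ze (m + 1) - ze m = Complex.I := by
      apply Complex.ext
      · simp only [ze, Complex.sub_re, xs_succ, if_neg h, Complex.I_re]; push_cast; ring
      · simp only [ze, Complex.sub_im, ys_succ, if_neg h, Complex.I_im]; push_cast; ring
    rw [h1, Complex.norm_I]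

theorem ze_sum (m : ℕ) : (ze m).re + (ze m).im = 20 + m := by
  have h := xs_add_ys m
  have h2 : ((xs m : ℕ) : ℝ) + (ys m : ℕ) = m := by exact_mod_cast h
  simp only [ze]
  linarith

noncomputable def s (i : ℕ) : ℝ := 1024 ^ (i + 1)

theorem s_ge (i : ℕ) : 1024 ≤ s i := by
  unfold s
  rw [pow_succ]
  have : (1:ℝ) ≤ 1024 ^ i := one_le_pow₀ (by norm_num)
  linarith

theorem s_succ (i : ℕ) : s (i + 1) = 1024 * s i := by unfold s; ring

theorem s_mono {i j : ℕ} (h : i ≤ j) : s i ≤ s j :=
  pow_le_pow_right₀ (by norm_num) (by omega)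

theorem s_lt {i j : ℕ} (h : i < j) : 1024 * s i ≤ s j := by
  rw [← s_succ]; exact s_mono h

/-- slopes -/
noncomputable def t (i : ℕ) : ℝ := -1 + (((i / 2) % 257 : ℕ) : ℝ) / 128

theorem t_abs (i : ℕ) : |t i| ≤ 1 := by
  have h : (i / 2) % 257 ≤ 256 := by omega
  have h2 : (((i / 2) % 257 : ℕ) : ℝ) ≤ 256 := by exact_mod_cast h
  have h3 : (0:ℝ) ≤ (((i / 2) % 257 : ℕ) : ℝ) := Nat.cast_nonneg _
  unfold t
  rw [abs_le]
  constructor <;> linarith

theorem t_approx (t0 : ℝ) (h1 : -1 ≤ t0) (h2 : t0 ≤ 1) (J : ℕ) :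
    ∃ j, J ≤ j ∧ |t (2 * j) - t0| ≤ 1 / 128 ∧ |t (2 * j + 1) - t0| ≤ 1 / 128 := by
  set r := ⌊(t0 + 1) * 128⌋₊ with hr
  have h3 : (0:ℝ) ≤ (t0 + 1) * 128 := by nlinarith
  have h4 : (r : ℝ) ≤ (t0 + 1) * 128 := Nat.floor_le h3
  have h5 : (t0 + 1) * 128 < r + 1 := Nat.lt_floor_add_one _
  have h6 : r ≤ 256 := by
    have : (r : ℝ) ≤ 256 := by linarith
    exact_mod_cast this
  refine ⟨257 * J + r, by omega, ?_, ?_⟩
  · have h7 : (2 * (257 * J + r) / 2) % 257 = r := by omega
    unfold t
    rw [h7, abs_le]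
    constructor <;> linarith
  · have h7 : ((2 * (257 * J + r) + 1) / 2) % 257 = r := by omega
    unfold t
    rw [h7, abs_le]
    constructor <;> linarith

/-- the centres of the rooms -/
noncomputable def c (i : ℕ) : ℂ :=
  if Even i then ⟨t i * (32 * s i), 32 * s i⟩ else ⟨32 * s i, t i * (32 * s i)⟩

/-- the coordinate transversal to the path at scale `i` -/
noncomputable def off (i : ℕ) (u : ℂ) : ℝ := if Even i then u.im else u.re

theorem off_add (i : ℕ) (u v : ℂ) : off i (u + v) = off i u + off i v := by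
  unfold off; split_ifs <;> simp

theorem off_smul (i : ℕ) (r : ℝ) (u : ℂ) : off i (r • u) = r * off i u := by
  unfold off; split_ifs <;> simp

theorem off_le (i : ℕ) (u : ℂ) : |off i u| ≤ ‖u‖ := by
  unfold off; split_ifs
  · exact Complex.abs_im_le_norm u
  · exact Complex.abs_re_le_norm u

theorem off_c (i : ℕ) : off i (c i) = 32 * s i := by
  unfold off c; split_ifs <;> rfl

theorem c_re (i : ℕ) : |(c i).re| ≤ 32 * s i := by
  have h1 := t_abs i
  have h2 := s_ge i
  have h3 : (0:ℝ) ≤ 32 * s i := by linarith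
  unfold c; split_ifs
  · simp only
    rw [abs_mul, abs_of_nonneg h3]
    nlinarith
  · simp only
    rw [abs_of_nonneg h3]

theorem c_im (i : ℕ) : |(c i).im| ≤ 32 * s i := by
  have h1 := t_abs i
  have h2 := s_ge i
  have h3 : (0:ℝ) ≤ 32 * s i := by linarith
  unfold c; split_ifs
  · simp only
    rw [abs_of_nonneg h3]
  · simp only
    rw [abs_mul, abs_of_nonneg h3]
    nlinarith

theorem c_norm_le (i : ℕ) : ‖c i‖ ≤ 64 * s i := by
  have h1 := Complex.norm_le_abs_re_add_abs_im (c i)
  have := c_re i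
  have := c_im i
  linarith

theorem c_norm_ge (i : ℕ) : 32 * s i ≤ ‖c i‖ := by
  have h1 := off_le i (c i)
  rw [off_c] at h1
  exact (le_abs_self _).trans h1

/-- points of the path, or the origin -/
def Pt (l : ℂ) : Prop := l = 0 ∨ ∃ m, l = ze m

theorem Pt.re_nonneg {l : ℂ} (h : Pt l) : 0 ≤ l.re := by
  rcases h with rfl | ⟨m, rfl⟩
  · simp
  · simp only [ze]; positivity

theorem Pt.im_nonneg {l : ℂ} (h : Pt l) : 0 ≤ l.im := by
  rcases h with rfl | ⟨m, rfl⟩
  · simp
  · simp only [ze]; positivity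

theorem Pt.off_nonneg {l : ℂ} (h : Pt l) (i : ℕ) : 0 ≤ off i l := by
  unfold off; split_ifs
  · exact h.im_nonneg
  · exact h.re_nonneg

theorem Pt.off_le {l : ℂ} (h : Pt l) {i : ℕ} (hb : l.re + l.im ≤ 1024 * s i) : off i l ≤ 10 + s i := by
  rcases h with rfl | ⟨m, rfl⟩
  · have := s_ge i
    unfold off; split_ifs <;> simp <;> linarith
  · rw [ze_sum] at hb
    have hm : m ≤ 1024 ^ (i + 2) := by
      have h1 : (m : ℝ) ≤ 1024 ^ (i + 2) := by
        unfold s at hb
        have : (1024:ℝ) * 1024 ^ (i + 1) = 1024 ^ (i + 2) := by ring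
        linarith
      exact_mod_cast h1
    unfold off
    split_ifs with hi
    · have h2 := ys_le hi hm
      have h3 : ((ys m : ℕ) : ℝ) ≤ 1024 ^ (i + 1) := by exact_mod_cast h2
      simp only [ze, s]
      linarith
    · have h2 := xs_le hi hm
      have h3 : ((xs m : ℕ) : ℝ) ≤ 1024 ^ (i + 1) := by exact_mod_cast h2
      simp only [ze, s]
      linarith

/-- the basic impossibility -/
theorem impossible {l1 l2 z : ℂ} {i : ℕ} {κ : ℝ} (h1 : Pt l1) (h2 : Pt l2) (hz : ‖z‖ ≤ 4 * s i)
    (hκ : (1 ≤ κ ∧ κ ≤ 2) ∨ (κ ≤ -1 ∧ -2 ≤ κ)) (h : l1 + l2 + κ • c i + z = 0) : False := by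
  have hs := s_ge i
  have ho : off i l1 + off i l2 + κ * (32 * s i) + off i z = 0 := by
    have := congrArg (off i) h
    rw [off_add, off_add, off_add, off_smul, off_c] at this
    rw [this]
    unfold off; split_ifs <;> simp
  have hoz := off_le i z
  rw [abs_le] at hoz
  have ho1 := h1.off_nonneg i
  have ho2 := h2.off_nonneg i
  rcases hκ with ⟨hk1, hk2⟩ | ⟨hk1, hk2⟩
  · have : 32 * s i ≤ κ * (32 * s i) := by nlinarith
    linarith
  · have hre : l1.re + l2.re = -(κ * (c i).re) - z.re := by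
      have := congrArg Complex.re h
      simp at this
      linarith
    have him : l1.im + l2.im = -(κ * (c i).im) - z.im := by
      have := congrArg Complex.im h
      simp at this
      linarith
    have hzre := Complex.abs_re_le_norm z
    have hzim := Complex.abs_im_le_norm z
    rw [abs_le] at hzre hzim
    have hcre : |κ * (c i).re| ≤ 64 * s i := by
      rw [abs_mul]
      have : |κ| ≤ 2 := abs_le.2 ⟨by linarith, by linarith⟩
      have := c_re i
      have := abs_nonneg κ
      have := abs_nonneg (c i).re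
      nlinarith
    have hcim : |κ * (c i).im| ≤ 64 * s i := by
      rw [abs_mul]
      have : |κ| ≤ 2 := abs_le.2 ⟨by linarith, by linarith⟩
      have := c_im i
      have := abs_nonneg κ
      have := abs_nonneg (c i).im
      nlinarith
    rw [abs_le] at hcre hcim
    have p1 := h1.re_nonneg
    have p2 := h1.im_nonneg
    have p3 := h2.re_nonneg
    have p4 := h2.im_nonneg
    have q1 := h1.off_le (i := i) (by linarith)
    have q2 := h2.off_le (i := i) (by linarith)
    have : κ * (32 * s i) ≤ -(32 * s i) := by nlinarith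
    linarith

/-- the forbidden region -/
def InO (u : ℂ) : Prop :=
  (∃ m : ℕ, ‖u - ze m‖ < Real.sqrt m + 3) ∨
    (∃ l, Pt l ∧ ∃ (i : ℕ) (σ : ℝ), (σ = 1 ∨ σ = -1) ∧ ‖u - l - σ • c i‖ < s i)

theorem caseAA {v : ℂ} {m n : ℕ} (h1 : ‖v - ze m‖ < Real.sqrt m + 3)
    (h2 : ‖-v - ze n‖ < Real.sqrt n + 3) : False := by
  have e1 : ‖ze m + ze n‖ < Real.sqrt m + Real.sqrt n + 6 := by
    have : ze m + ze n = -((v - ze m) + (-v - ze n)) := by ring
    rw [this, norm_neg]
    have := norm_add_le (v - ze m) (-v - ze n)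
    linarith
  have e2 := Complex.abs_re_le_norm (ze m + ze n)
  have e3 := Complex.abs_im_le_norm (ze m + ze n)
  have e4 := ze_sum m
  have e5 := ze_sum n
  rw [Complex.add_re] at e2
  rw [Complex.add_im] at e3
  have e6 := le_abs_self ((ze m).re + (ze n).re)
  have e7 := le_abs_self ((ze m).im + (ze n).im)
  have sm : Real.sqrt m ^ 2 = m := Real.sq_sqrt (Nat.cast_nonneg m)
  have sn : Real.sqrt n ^ 2 = n := Real.sq_sqrt (Nat.cast_nonneg n)
  nlinarith [sq_nonneg (Real.sqrt m - 1), sq_nonneg (Real.sqrt n - 1)]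

theorem caseAB {v l : ℂ} {m i : ℕ} {σ : ℝ} (h1 : ‖v - ze m‖ < Real.sqrt m + 3) (hl : Pt l)
    (hσ : σ = 1 ∨ σ = -1) (h2 : ‖-v - l - σ • c i‖ < s i) : False := by
  have hs := s_ge i
  set z : ℂ := (v - ze m) + (-v - l - σ • c i) with hz
  have e0 : ze m + l + σ • c i + z = 0 := by rw [hz]; ring
  have hzn : ‖z‖ ≤ Real.sqrt m + 3 + s i := by
    have := norm_add_le (v - ze m) (-v - l - σ • c i)
    rw [hz]; linarith
  have sm : Real.sqrt m ^ 2 = m := Real.sq_sqrt (Nat.cast_nonneg m)
  have s0 : 0 ≤ Real.sqrt m := Real.sqrt_nonneg _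
  have hsq : Real.sqrt m ≤ 3 * s i - 3 := by
    by_contra hcon
    push Not at hcon
    have hre := congrArg Complex.re e0
    have him := congrArg Complex.im e0
    simp only [Complex.add_re, Complex.add_im, Complex.zero_re, Complex.zero_im,
      Complex.real_smul, Complex.mul_re, Complex.mul_im, Complex.ofReal_re, Complex.ofReal_im,
      zero_mul, sub_zero, add_zero] at hre him
    have e4 := ze_sum m
    have p3 := hl.re_nonneg
    have p4 := hl.im_nonneg
    have hzre := Complex.abs_re_le_norm z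
    have hzim := Complex.abs_im_le_norm z
    rw [abs_le] at hzre hzim
    have c1 := c_re i
    have c2 := c_im i
    rw [abs_le] at c1 c2
    have hb : (m : ℝ) ≤ 66 * s i + 2 * Real.sqrt m + 6 := by
      rcases hσ with rfl | rfl <;> linarith
    nlinarith
  exact impossible (Or.inr ⟨m, rfl⟩) hl (by linarith)
    (by rcases hσ with rfl | rfl <;> norm_num) e0

theorem caseBB {v l1 l2 : ℂ} {i j : ℕ} {σ τ : ℝ} (h1 : Pt l1) (h2 : Pt l2)
    (hσ : σ = 1 ∨ σ = -1) (hτ : τ = 1 ∨ τ = -1) (hij : j < i)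
    (e1 : ‖v - l1 - σ • c i‖ < s i) (e2 : ‖-v - l2 - τ • c j‖ < s j) : False := by
  have hs := s_ge i
  have hsj := s_lt hij
  set z : ℂ := (v - l1 - σ • c i) + (-v - l2 - τ • c j) + τ • c j with hz
  have e0 : l1 + l2 + σ • c i + z = 0 := by rw [hz]; ring
  have hzn : ‖z‖ ≤ 4 * s i := by
    have n1 := norm_add_le ((v - l1 - σ • c i) + (-v - l2 - τ • c j)) (τ • c j)
    have n2 := norm_add_le (v - l1 - σ • c i) (-v - l2 - τ • c j)
    have n3 : ‖τ • c j‖ ≤ 64 * s j := by
      rw [norm_smul]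
      have := c_norm_le j
      rcases hτ with rfl | rfl <;> simpa using this
    rw [hz]; linarith
  exact impossible h1 h2 hzn (by rcases hσ with rfl | rfl <;> norm_num) e0

theorem key {v : ℂ} (h1 : InO v) (h2 : InO (-v)) :
    ∃ (i : ℕ) (σ : ℝ), (σ = 1 ∨ σ = -1) ∧ ‖v - σ • c i‖ < 3 * s i := by
  rcases h1 with ⟨m, hm⟩ | ⟨l1, hl1, i, σ, hσ, e1⟩
  · rcases h2 with ⟨n, hn⟩ | ⟨l2, hl2, j, τ, hτ, e2⟩
    · exact (caseAA hm hn).elim
    · exact (caseAB hm hl2 hτ e2).elim
  · rcases h2 with ⟨n, hn⟩ | ⟨l2, hl2, j, τ, hτ, e2⟩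
    · exact (caseAB (v := -v) hn hl1 hσ (by rwa [neg_neg])).elim
    · rcases lt_trichotomy i j with hij | hij | hij
      · exact (caseBB (v := -v) hl2 hl1 hτ hσ hij e2 (by rwa [neg_neg])).elim
      · subst hij
        by_cases hst : σ = τ
        · subst hst
          exfalso
          set z : ℂ := (v - l1 - σ • c i) + (-v - l2 - σ • c i) with hz
          have e0 : l1 + l2 + (2 * σ) • c i + z = 0 := by rw [hz, mul_smul, two_smul]; ring
          have hzn : ‖z‖ ≤ 4 * s i := by
            have n2 := norm_add_le (v - l1 - σ • c i) (-v - l2 - σ • c i)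
            have := s_ge i
            rw [hz]; linarith
          exact impossible hl1 hl2 hzn (by rcases hσ with rfl | rfl <;> norm_num) e0
        · have hτσ : τ = -σ := by
            rcases hσ with rfl | rfl <;> rcases hτ with rfl | rfl <;> first | (exact absurd rfl hst) | norm_num
          refine ⟨i, σ, hσ, ?_⟩
          have hq : ‖l1 + l2‖ < 2 * s i := by
            have : l1 + l2 = -((v - l1 - σ • c i) + (-v - l2 - τ • c i)) := by
              rw [hτσ, neg_smul]; ring
            rw [this, norm_neg]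
            have n2 := norm_add_le (v - l1 - σ • c i) (-v - l2 - τ • c i)
            linarith
          have hl : ‖l1‖ ≤ ‖l1 + l2‖ := by
            have p1 := hl1.re_nonneg
            have p2 := hl1.im_nonneg
            have p3 := hl2.re_nonneg
            have p4 := hl2.im_nonneg
            rw [Complex.norm_def, Complex.norm_def]
            apply Real.sqrt_le_sqrt
            rw [Complex.normSq_apply, Complex.normSq_apply, Complex.add_re, Complex.add_im]
            nlinarith
          have : v - σ • c i = (v - l1 - σ • c i) + l1 := by ring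
          rw [this]
          have := norm_add_le (v - l1 - σ • c i) l1
          linarith
      · exact (caseBB hl1 hl2 hσ hτ hij e1 e2).elim

theorem not_InO_zero : ¬ InO 0 := by
  intro h
  obtain ⟨i, σ, hσ, h1⟩ := key h (by rwa [neg_zero])
  have h2 := c_norm_ge i
  have h3 := s_ge i
  have h4 : ‖(0:ℂ) - σ • c i‖ = ‖c i‖ := by
    rw [zero_sub, norm_neg, norm_smul]
    rcases hσ with rfl | rfl <;> simp
  rw [h4] at h1
  linarith

/-- multiples of any nonzero `z` enter the rooms -/
theorem enter (z : ℂ) (hz : z ≠ 0) (J : ℕ) : ∃ i, J ≤ i ∧ ∃ (k : ℕ) (σ : ℝ), (σ = 1 ∨ σ = -1) ∧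
    ‖(k : ℂ) * z - σ • c i‖ < s i / 2 := by
  -- general computation
  have calcA : ∀ (x y S t0 : ℝ), 0 < y → |x| ≤ y → 1024 ≤ S → 16 * y ≤ S →
      |t0 - x / y| ≤ 1 / 128 → ∃ k : ℕ, |k * x - t0 * (32 * S)| + |k * y - 32 * S| < S / 2 := by
    intro x y S t0 hy hxy hS hyS ht
    refine ⟨⌊32 * S / y⌋₊, ?_⟩
    set k := ⌊32 * S / y⌋₊ with hk
    have h1 : (k : ℝ) ≤ 32 * S / y := Nat.floor_le (by positivity)
    have h2 : 32 * S / y < k + 1 := Nat.lt_floor_add_one _
    rw [le_div_iff₀ hy] at h1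
    rw [div_lt_iff₀ hy] at h2
    have h3 : |k * y - 32 * S| ≤ y := by
      rw [abs_le]; constructor <;> linarith
    have h4 : k * x - t0 * (32 * S) = (x / y) * (k * y - 32 * S) - (t0 - x / y) * (32 * S) := by
      field_simp
      ring
    have h5 : |x / y| ≤ 1 := by
      rw [abs_div, abs_of_pos hy, div_le_one hy]; exact hxy
    have h6 : |k * x - t0 * (32 * S)| ≤ y + S / 4 := by
      rw [h4]
      refine (abs_sub _ _).trans ?_
      rw [abs_mul, abs_mul, abs_of_pos (show 0 < 32 * S by linarith)]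
      have := abs_nonneg (x / y)
      have := abs_nonneg (k * y - 32 * S)
      nlinarith
    linarith
  -- index large enough
  obtain ⟨J', hJ'⟩ : ∃ J' : ℕ, ∀ i, J' ≤ i → 16 * ‖z‖ ≤ s i := by
    obtain ⟨n, hn⟩ := pow_unbounded_of_one_lt (16 * ‖z‖) (show (1:ℝ) < 1024 by norm_num)
    refine ⟨n, fun i hi => hn.le.trans ?_⟩
    unfold s
    exact pow_le_pow_right₀ (by norm_num) (by omega)
  by_cases hcase : |z.re| ≤ |z.im|
  · -- steep direction, even index
    have him : z.im ≠ 0 := by
      intro h0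
      rw [h0, abs_zero] at hcase
      have : z.re = 0 := abs_eq_zero.1 (le_antisymm hcase (abs_nonneg _))
      exact hz (Complex.ext this h0)
    obtain ⟨σ, hσ, hpos⟩ : ∃ σ : ℝ, (σ = 1 ∨ σ = -1) ∧ 0 < σ * z.im := by
      rcases lt_or_gt_of_ne him with h | h
      · exact ⟨-1, Or.inr rfl, by linarith⟩
      · exact ⟨1, Or.inl rfl, by linarith⟩
    have hσabs : |σ| = 1 := by rcases hσ with rfl | rfl <;> simp
    have hσσ : σ * σ = 1 := by rcases hσ with rfl | rfl <;> norm_num
    have hx : |σ * z.re| ≤ σ * z.im := by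
      rw [abs_mul, hσabs, one_mul, ← abs_of_pos hpos, abs_mul, hσabs, one_mul]
      exact hcase
    have hslope : |σ * z.re / (σ * z.im)| ≤ 1 := by
      rw [abs_div, abs_of_pos hpos, div_le_one hpos]; exact hx
    rw [abs_le] at hslope
    obtain ⟨j, hj, hj1, -⟩ := t_approx _ hslope.1 hslope.2 (max J J')
    have hji : max J J' ≤ 2 * j := by omega
    have hS := hJ' (2 * j) ((le_max_right _ _).trans hji)
    have hyS : 16 * (σ * z.im) ≤ s (2 * j) := by
      have h1 : σ * z.im = |z.im| := by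
        rw [← abs_of_pos hpos, abs_mul, hσabs, one_mul]
      have h2 := Complex.abs_im_le_norm z
      rw [h1]; linarith
    obtain ⟨k, hk⟩ := calcA (σ * z.re) (σ * z.im) (s (2 * j)) (t (2 * j)) hpos hx (s_ge _) hyS hj1
    refine ⟨2 * j, (le_max_left _ _).trans hji, k, σ, hσ, ?_⟩
    have hc : c (2 * j) = ⟨t (2 * j) * (32 * s (2 * j)), 32 * s (2 * j)⟩ := by
      unfold c; rw [if_pos (even_two_mul j)]
    have hfac : (k : ℂ) * z - σ • c (2 * j) = σ • (⟨k * (σ * z.re) - t (2 * j) * (32 * s (2 * j)),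
        k * (σ * z.im) - 32 * s (2 * j)⟩ : ℂ) := by
      rw [hc]
      apply Complex.ext
      · simp
        linear_combination (-(k:ℝ) * z.re) * hσσ
      · simp
        linear_combination (-(k:ℝ) * z.im) * hσσ
    rw [hfac, norm_smul, Real.norm_eq_abs, hσabs, one_mul]
    exact lt_of_le_of_lt (Complex.norm_le_abs_re_add_abs_im _) hk
  · push Not at hcase
    have hre : z.re ≠ 0 := by
      intro h0
      rw [h0, abs_zero] at hcase
      exact absurd hcase (not_lt.2 (abs_nonneg _))
    obtain ⟨σ, hσ, hpos⟩ : ∃ σ : ℝ, (σ = 1 ∨ σ = -1) ∧ 0 < σ * z.re := by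
      rcases lt_or_gt_of_ne hre with h | h
      · exact ⟨-1, Or.inr rfl, by linarith⟩
      · exact ⟨1, Or.inl rfl, by linarith⟩
    have hσabs : |σ| = 1 := by rcases hσ with rfl | rfl <;> simp
    have hσσ : σ * σ = 1 := by rcases hσ with rfl | rfl <;> norm_num
    have hx : |σ * z.im| ≤ σ * z.re := by
      rw [abs_mul, hσabs, one_mul, ← abs_of_pos hpos, abs_mul, hσabs, one_mul]
      exact hcase.le
    have hslope : |σ * z.im / (σ * z.re)| ≤ 1 := by
      rw [abs_div, abs_of_pos hpos, div_le_one hpos]; exact hx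
    rw [abs_le] at hslope
    obtain ⟨j, hj, -, hj1⟩ := t_approx _ hslope.1 hslope.2 (max J J')
    have hji : max J J' ≤ 2 * j + 1 := by omega
    have hS := hJ' (2 * j + 1) ((le_max_right _ _).trans hji)
    have hyS : 16 * (σ * z.re) ≤ s (2 * j + 1) := by
      have h1 : σ * z.re = |z.re| := by
        rw [← abs_of_pos hpos, abs_mul, hσabs, one_mul]
      have h2 := Complex.abs_re_le_norm z
      rw [h1]; linarith
    obtain ⟨k, hk⟩ := calcA (σ * z.im) (σ * z.re) (s (2 * j + 1)) (t (2 * j + 1)) hpos hx (s_ge _) hyS hj1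
    refine ⟨2 * j + 1, (le_max_left _ _).trans hji, k, σ, hσ, ?_⟩
    have hc : c (2 * j + 1) = ⟨32 * s (2 * j + 1), t (2 * j + 1) * (32 * s (2 * j + 1))⟩ := by
      unfold c; rw [if_neg (by simp)]
    have hfac : (k : ℂ) * z - σ • c (2 * j + 1) = σ • (⟨k * (σ * z.re) - 32 * s (2 * j + 1),
        k * (σ * z.im) - t (2 * j + 1) * (32 * s (2 * j + 1))⟩ : ℂ) := by
      rw [hc]
      apply Complex.ext
      · simp
        linear_combination (-(k:ℝ) * z.re) * hσσ
      · simp
        linear_combination (-(k:ℝ) * z.im) * hσσ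
    rw [hfac, norm_smul, Real.norm_eq_abs, hσabs, one_mul]
    refine lt_of_le_of_lt (Complex.norm_le_abs_re_add_abs_im _) ?_
    rw [add_comm]
    exact hk

end Pool.Agent.H740R3.CG
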