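import Mathlib
import Pool.Agent.H740R3.CG1

set_option autoImplicit false

open Filter Topology

namespace Pool.Agent.H740R3.CG

/-- uniform approximability by polynomials on the disc of radius one half -/
def Appr (F : ℂ → ℂ) : Prop :=
  (∃ B : ℝ, ∀ z : ℂ, ‖z‖ ≤ 1 / 2 → ‖F z‖ ≤ B) ∧
    ∀ ε : ℝ, 0 < ε → ∃ q : Polynomial ℂ, ∀ z : ℂ, ‖z‖ ≤ 1 / 2 → ‖F z - q.eval z‖ ≤ ε

theorem Appr.const (a : ℂ) : Appr (fun _ => a) :=
  ⟨⟨‖a‖, fun _ _ => le_refl _⟩, fun ε hε => ⟨Polynomial.C a, fun z _ => by simpa using hε.le⟩⟩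

theorem Appr.id : Appr (fun z => z) :=
  ⟨⟨1 / 2, fun _ h => h⟩, fun ε hε => ⟨Polynomial.X, fun z _ => by simpa using hε.le⟩⟩

theorem Appr.add {F G : ℂ → ℂ} (hF : Appr F) (hG : Appr G) : Appr (fun z => F z + G z) := by
  obtain ⟨⟨B, hB⟩, hF⟩ := hF
  obtain ⟨⟨C, hC⟩, hG⟩ := hG
  refine ⟨⟨B + C, fun z hz => (norm_add_le _ _).trans (add_le_add (hB z hz) (hC z hz))⟩,
    fun ε hε => ?_⟩
  obtain ⟨q, hq⟩ := hF (ε / 2) (by positivity)
  obtain ⟨r, hr⟩ := hG (ε / 2) (by positivity)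
  refine ⟨q + r, fun z hz => ?_⟩
  rw [Polynomial.eval_add]
  have h1 : F z + G z - (q.eval z + r.eval z) = (F z - q.eval z) + (G z - r.eval z) := by ring
  rw [h1]
  have := norm_add_le (F z - q.eval z) (G z - r.eval z)
  have := hq z hz
  have := hr z hz
  linarith

theorem Appr.mul {F G : ℂ → ℂ} (hF : Appr F) (hG : Appr G) : Appr (fun z => F z * G z) := by
  obtain ⟨⟨B, hB⟩, hF⟩ := hF
  obtain ⟨⟨C, hC⟩, hG⟩ := hG
  have hB0 : 0 ≤ B := (norm_nonneg _).trans (hB 0 (by norm_num))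
  have hC0 : 0 ≤ C := (norm_nonneg _).trans (hC 0 (by norm_num))
  refine ⟨⟨B * C, fun z hz => by
    rw [norm_mul]
    exact mul_le_mul (hB z hz) (hC z hz) (norm_nonneg _) hB0⟩, fun ε hε => ?_⟩
  obtain ⟨r, hr⟩ := hG (ε / (2 * (B + 1))) (by positivity)
  obtain ⟨r', hr'⟩ := hG 1 one_pos
  obtain ⟨q, hq⟩ := hF (ε / (2 * (C + ε / (2 * (B + 1)) + 1))) (by positivity)
  refine ⟨q * r, fun z hz => ?_⟩
  rw [Polynomial.eval_mul]
  have h1 : F z * G z - q.eval z * r.eval z =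
      F z * (G z - r.eval z) + (F z - q.eval z) * r.eval z := by ring
  rw [h1]
  have e1 := hq z hz
  have e2 := hr z hz
  have e3 : ‖r.eval z‖ ≤ C + ε / (2 * (B + 1)) := by
    have : r.eval z = G z - (G z - r.eval z) := by ring
    rw [this]
    exact (norm_sub_le _ _).trans (add_le_add (hC z hz) e2)
  refine (norm_add_le _ _).trans ?_
  rw [norm_mul, norm_mul]
  have e4 : ‖F z‖ * ‖G z - r.eval z‖ ≤ ε / 2 := by
    calc ‖F z‖ * ‖G z - r.eval z‖ ≤ (B + 1) * (ε / (2 * (B + 1))) :=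
          mul_le_mul ((hB z hz).trans (by linarith)) e2 (norm_nonneg _) (by linarith)
      _ = ε / 2 := by field_simp
  have e5 : ‖F z - q.eval z‖ * ‖r.eval z‖ ≤ ε / 2 := by
    set D := C + ε / (2 * (B + 1)) with hD
    have hD0 : 0 ≤ D := by positivity
    calc ‖F z - q.eval z‖ * ‖r.eval z‖ ≤ (ε / (2 * (D + 1))) * (D + 1) :=
          mul_le_mul e1 (e3.trans (by linarith)) (norm_nonneg _) (by positivity)
      _ = ε / 2 := by field_simp
  linarith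

theorem Appr.poly {F : ℂ → ℂ} (hF : Appr F) (p : Polynomial ℂ) : Appr (fun z => p.eval (F z)) := by
  induction p using Polynomial.induction_on' with
  | add p q hp hq =>
    simp only [Polynomial.eval_add]
    exact hp.add hq
  | monomial n a =>
    simp only [Polynomial.eval_monomial]
    apply (Appr.const a).mul
    induction n with
    | zero => simpa using Appr.const 1
    | succ n ih =>
      simp only [pow_succ]
      exact ih.mul hF

theorem Appr.inv {c : ℂ} (hc : ‖c‖ = 1) : Appr (fun z => (1 - c * z)⁻¹) := by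
  have hne : ∀ z : ℂ, ‖z‖ ≤ 1 / 2 → 1 / 2 ≤ ‖1 - c * z‖ := by
    intro z hz
    have h1 : ‖(1:ℂ)‖ ≤ ‖1 - c * z‖ + ‖c * z‖ := by
      have : (1:ℂ) = (1 - c * z) + c * z := by ring
      conv_lhs => rw [this]
      exact norm_add_le _ _
    rw [norm_mul, hc, one_mul, norm_one] at h1
    linarith
  have hinv : ∀ z : ℂ, ‖z‖ ≤ 1 / 2 → ‖(1 - c * z)⁻¹‖ ≤ 2 := by
    intro z hz
    rw [norm_inv]
    have := hne z hz
    rw [inv_le_comm₀ (by linarith) (by norm_num)]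
    linarith
  refine ⟨⟨2, hinv⟩, fun ε hε => ?_⟩
  obtain ⟨n, hn⟩ := exists_pow_lt_of_lt_one (show 0 < ε / 2 by positivity) (show (1 / 2 : ℝ) < 1 by norm_num)
  refine ⟨∑ j ∈ Finset.range n, (Polynomial.C c * Polynomial.X) ^ j, fun z hz => ?_⟩
  have h1 : (∑ j ∈ Finset.range n, (Polynomial.C c * Polynomial.X) ^ j : Polynomial ℂ).eval z =
      ∑ j ∈ Finset.range n, (c * z) ^ j := by
    rw [Polynomial.eval_finsetSum]
    simp
  have h2 : (1 - c * z) ≠ 0 := by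
    intro h
    have := hne z hz
    rw [h, norm_zero] at this
    norm_num at this
  have h3 : (1 - c * z)⁻¹ - ∑ j ∈ Finset.range n, (c * z) ^ j = (c * z) ^ n * (1 - c * z)⁻¹ := by
    have h4 := mul_neg_geom_sum (c * z) n
    field_simp
    linear_combination (-1 : ℂ) * h4
  rw [h1, h3, norm_mul, norm_pow, norm_mul, hc, one_mul]
  calc ‖z‖ ^ n * ‖(1 - c * z)⁻¹‖ ≤ (1 / 2) ^ n * 2 :=
        mul_le_mul (pow_le_pow_left₀ (norm_nonneg _) hz n) (hinv z hz) (norm_nonneg _) (by positivity)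
    _ ≤ ε := by linarith

theorem push {a b : ℂ} (hab : ‖a - b‖ = 1) (p : Polynomial ℂ) {δ : ℝ} (hδ : 0 < δ) :
    ∃ q : Polynomial ℂ, ∀ u : ℂ, 2 ≤ ‖u - b‖ →
      ‖(u - b)⁻¹ * q.eval ((u - b)⁻¹) - (u - a)⁻¹ * p.eval ((u - a)⁻¹)‖ ≤ δ / ‖u - b‖ := by
  have hA : Appr (fun z => (1 - (a - b) * z)⁻¹ * p.eval (z * (1 - (a - b) * z)⁻¹)) :=
    (Appr.inv hab).mul ((Appr.id.mul (Appr.inv hab)).poly p)
  obtain ⟨q, hq⟩ := hA.2 δ hδ
  refine ⟨q, fun u hu => ?_⟩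
  have hb0 : u - b ≠ 0 := by
    intro h; rw [h, norm_zero] at hu; norm_num at hu
  have hz : ‖(u - b)⁻¹‖ ≤ 1 / 2 := by
    rw [norm_inv, one_div]
    exact inv_anti₀ (by norm_num) hu
  have h1 : (u - a)⁻¹ = (u - b)⁻¹ * (1 - (a - b) * (u - b)⁻¹)⁻¹ := by
    rw [← mul_inv]
    congr 1
    field_simp
    ring
  have h2 := hq _ hz
  have h3 : (u - b)⁻¹ * q.eval ((u - b)⁻¹) - (u - a)⁻¹ * p.eval ((u - a)⁻¹) =
      -((u - b)⁻¹ * ((1 - (a - b) * (u - b)⁻¹)⁻¹ * p.eval ((u - b)⁻¹ * (1 - (a - b) * (u - b)⁻¹)⁻¹) -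
        q.eval ((u - b)⁻¹))) := by
    rw [h1]; ring
  rw [h3, norm_neg, norm_mul, norm_inv]
  rw [div_eq_inv_mul]
  exact mul_le_mul_of_nonneg_left h2 (by positivity)

noncomputable def de (m : ℕ) : ℝ := (1 / 1000) * (1 / 2) ^ m / (1 + ‖ze (m + 1)‖)

theorem de_pos (m : ℕ) : 0 < de m := by unfold de; positivity

theorem step_exists (m : ℕ) (p : Polynomial ℂ) : ∃ q : Polynomial ℂ, ∀ u : ℂ, 2 ≤ ‖u - ze (m + 1)‖ →
      ‖(u - ze (m + 1))⁻¹ * q.eval ((u - ze (m + 1))⁻¹) - (u - ze m)⁻¹ * p.eval ((u - ze m)⁻¹)‖ ≤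
        de m / ‖u - ze (m + 1)‖ :=
  push (by rw [norm_sub_rev]; exact ze_step m) p (de_pos m)

noncomputable def pol : ℕ → Polynomial ℂ
  | 0 => 1
  | m + 1 => Classical.choose (step_exists m (pol m))

noncomputable def Rm (m : ℕ) (u : ℂ) : ℂ := (u - ze m)⁻¹ * (pol m).eval ((u - ze m)⁻¹)

noncomputable def dd (m : ℕ) (u : ℂ) : ℂ := Rm (m + 1) u - Rm m u

theorem dd_le {m : ℕ} {u : ℂ} (hu : 2 ≤ ‖u - ze (m + 1)‖) : ‖dd m u‖ ≤ de m / ‖u - ze (m + 1)‖ :=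
  Classical.choose_spec (step_exists m (pol m)) u hu

theorem dd_le' {m : ℕ} {u : ℂ} (hu : 2 ≤ ‖u - ze (m + 1)‖) :
    ‖dd m u‖ ≤ (1 / 1000) * (3 / 2) / (1 + ‖u‖) * (1 / 2) ^ m := by
  refine (dd_le hu).trans ?_
  unfold de
  have h1 : ‖u‖ ≤ ‖u - ze (m + 1)‖ + ‖ze (m + 1)‖ := by
    have : u = (u - ze (m + 1)) + ze (m + 1) := by ring
    conv_lhs => rw [this]
    exact norm_add_le _ _
  have h2 := norm_nonneg (ze (m + 1))
  have h3 := norm_nonneg u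
  have e1 : (1 / 1000) * (1 / 2 : ℝ) ^ m / (1 + ‖ze (m + 1)‖) / ‖u - ze (m + 1)‖ =
      (1 / 1000 * (1 / 2) ^ m) / ((1 + ‖ze (m + 1)‖) * ‖u - ze (m + 1)‖) := by rw [div_div]
  have e2 : (1 / 1000) * (3 / 2) / (1 + ‖u‖) * (1 / 2 : ℝ) ^ m =
      (1 / 1000 * (3 / 2) * (1 / 2) ^ m) / (1 + ‖u‖) := by ring
  rw [e1, e2, div_le_div_iff₀ (by positivity) (by positivity)]
  have h4 : 1 + ‖u‖ ≤ (3 / 2) * ((1 + ‖ze (m + 1)‖) * ‖u - ze (m + 1)‖) := by nlinarith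
  have h5 : (0:ℝ) ≤ 1 / 1000 * (1 / 2) ^ m := by positivity
  calc (1 / 1000 * (1 / 2) ^ m : ℝ) * (1 + ‖u‖)
      ≤ (1 / 1000 * (1 / 2) ^ m) * ((3 / 2) * ((1 + ‖ze (m + 1)‖) * ‖u - ze (m + 1)‖)) :=
        mul_le_mul_of_nonneg_left h4 h5
    _ = 1 / 1000 * (3 / 2) * (1 / 2) ^ m * ((1 + ‖ze (m + 1)‖) * ‖u - ze (m + 1)‖) := by ring

theorem ze_norm (m : ℕ) : (20 + m : ℝ) ≤ 2 * ‖ze m‖ := by
  have h1 := ze_sum m
  have h2 := (le_abs_self _).trans (Complex.abs_re_le_norm (ze m))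
  have h3 := (le_abs_self _).trans (Complex.abs_im_le_norm (ze m))
  linarith

theorem summable_bd (u : ℂ) (M : ℕ) :
    Summable (fun j : ℕ => (1 / 1000) * (3 / 2) / (1 + ‖u‖) * (1 / 2 : ℝ) ^ (M + j)) := by
  have : Summable (fun j : ℕ => (1 / 2 : ℝ) ^ j) := summable_geometric_of_lt_one (by norm_num) (by norm_num)
  have h := this.mul_left ((1 / 1000) * (3 / 2) / (1 + ‖u‖) * (1 / 2 : ℝ) ^ M)
  refine h.congr ?_
  intro j
  rw [pow_add]; ring

theorem tendsto_Rm {u : ℂ} {M : ℕ} (h : ∀ j, 2 ≤ ‖u - ze (M + j + 1)‖) :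
    Tendsto (fun m => Rm m u) atTop (𝓝 (Rm M u + ∑' j, dd (M + j) u)) := by
  have hs : Summable (fun j => dd (M + j) u) :=
    Summable.of_norm_bounded (summable_bd u M) (fun j => dd_le' (h j))
  have h1 := hs.hasSum.tendsto_sum_nat
  have h2 : ∀ n, ∑ j ∈ Finset.range n, dd (M + j) u = Rm (M + n) u - Rm M u := by
    intro n
    induction n with
    | zero => simp
    | succ n ih =>
      rw [Finset.sum_range_succ, ih]
      unfold dd
      rw [← add_assoc]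
      ring
  have h3 : Tendsto (fun n => Rm (n + M) u) atTop (𝓝 (Rm M u + ∑' j, dd (M + j) u)) := by
    have h4 := h1.const_add (Rm M u)
    refine h4.congr ?_
    intro n
    rw [h2, add_comm n M]
    ring
  exact (tendsto_add_atTop_iff_nat M).1 h3

/-- the entire function -/
noncomputable def f0 (u : ℂ) : ℂ := limUnder atTop (fun m => Rm m u)

theorem f0_eq {u : ℂ} {M : ℕ} (h : ∀ j, 2 ≤ ‖u - ze (M + j + 1)‖) :
    f0 u = Rm M u + ∑' j, dd (M + j) u := (tendsto_Rm h).limUnder_eq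

theorem far {r : ℝ} {u : ℂ} (hu : ‖u‖ ≤ r) {m : ℕ} (hm : 2 * (r + 2) ≤ m) : 2 ≤ ‖u - ze m‖ := by
  have h1 := ze_norm m
  have h2 : ‖ze m‖ ≤ ‖u - ze m‖ + ‖u‖ := by
    have : ze m = u - (u - ze m) := by ring
    conv_lhs => rw [this]
    have := norm_sub_le u (u - ze m)
    linarith
  linarith

theorem Rm_diff {m : ℕ} {u : ℂ} (hu : 2 ≤ ‖u - ze m‖) : DifferentiableAt ℂ (Rm m) u := by
  have h0 : u - ze m ≠ 0 := by
    intro h; rw [h, norm_zero] at hu; norm_num at hu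
  have h1 : DifferentiableAt ℂ (fun u : ℂ => (u - ze m)⁻¹) u :=
    (differentiableAt_id.sub (differentiableAt_const _)).inv h0
  have h2 : DifferentiableAt ℂ (fun u : ℂ => (pol m).eval ((u - ze m)⁻¹)) u :=
    DifferentiableAt.comp u (pol m).differentiable.differentiableAt h1
  exact h1.mul h2

theorem f0_entire : Differentiable ℂ f0 := by
  intro u0
  set r : ℝ := ‖u0‖ + 1 with hr
  obtain ⟨M, hM⟩ := exists_nat_ge (2 * (r + 2))
  have hfar : ∀ u ∈ Metric.ball (0:ℂ) r, ∀ m, M ≤ m → 2 ≤ ‖u - ze m‖ := by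
    intro u hu m hm
    rw [mem_ball_zero_iff] at hu
    have : (M : ℝ) ≤ m := by exact_mod_cast hm
    exact far hu.le (hM.trans this)
  have hopen : IsOpen (Metric.ball (0:ℂ) r) := Metric.isOpen_ball
  have hdiff : DifferentiableOn ℂ (fun u => Rm M u + ∑' j, dd (M + j) u) (Metric.ball (0:ℂ) r) := by
    apply DifferentiableOn.add
    · intro u hu
      exact (Rm_diff (hfar u hu M le_rfl)).differentiableWithinAt
    · apply Complex.differentiableOn_tsum_of_summable_norm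
        (u := fun j : ℕ => (1 / 1000) * (3 / 2) * (1 / 2 : ℝ) ^ (M + j)) _ _ hopen
      · intro j u hu
        rw [mem_ball_zero_iff] at hu
        have h1 := dd_le' (m := M + j) (u := u)
          (hfar u (mem_ball_zero_iff.2 hu) (M + j + 1) (by omega))
        refine h1.trans ?_
        apply mul_le_mul_of_nonneg_right _ (by positivity)
        rw [div_le_iff₀ (by positivity)]
        have := norm_nonneg u
        nlinarith
      · have := summable_bd 0 M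
        simpa using this
      · intro j u hu
        have h1 := Rm_diff (hfar u hu (M + j + 1) (by omega))
        have h2 := Rm_diff (hfar u hu (M + j) (by omega))
        exact (h1.sub h2).differentiableWithinAt
  have heq : ∀ u ∈ Metric.ball (0:ℂ) r, f0 u = Rm M u + ∑' j, dd (M + j) u :=
    fun u hu => f0_eq (fun j => hfar u hu _ (by omega))
  have hd2 : DifferentiableOn ℂ f0 (Metric.ball (0:ℂ) r) := hdiff.congr heq
  have hu0 : u0 ∈ Metric.ball (0:ℂ) r := by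
    rw [mem_ball_zero_iff]; linarith
  exact (hd2 u0 hu0).differentiableAt (hopen.mem_nhds hu0)

theorem f0_sub_le {u : ℂ} (h : ∀ m, 2 ≤ ‖u - ze m‖) :
    ‖f0 u - (u - ze 0)⁻¹‖ ≤ (3 / 1000) / (1 + ‖u‖) := by
  have h1 : f0 u = Rm 0 u + ∑' j, dd (0 + j) u := f0_eq (fun j => h _)
  have h2 : Rm 0 u = (u - ze 0)⁻¹ := by unfold Rm pol; simp
  rw [h1, h2]
  simp only [zero_add, add_sub_cancel_left]
  have h3 : HasSum (fun j : ℕ => (1 / 1000) * (3 / 2) / (1 + ‖u‖) * (1 / 2 : ℝ) ^ j)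
      ((1 / 1000) * (3 / 2) / (1 + ‖u‖) * 2) := hasSum_geometric_two.mul_left _
  have h4 := tsum_of_norm_bounded h3 (fun j => dd_le' (m := j) (h (j + 1)))
  refine h4.trans (le_of_eq ?_)
  ring

theorem f0_bound : ∃ C : ℝ, 0 < C ∧ ∀ u : ℂ, (∀ m, 2 ≤ ‖u - ze m‖) → ‖f0 u‖ ≤ C / (1 + ‖u‖) := by
  refine ⟨3 / 1000 + (3 / 2) * (1 + ‖ze 0‖), by positivity, fun u hu => ?_⟩
  have h1 := f0_sub_le hu
  have h2 : ‖(u - ze 0)⁻¹‖ ≤ (3 / 2) * (1 + ‖ze 0‖) / (1 + ‖u‖) := by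
    have h3 := hu 0
    rw [norm_inv, le_div_iff₀ (by positivity), inv_mul_le_iff₀ (by linarith)]
    have h4 : ‖u‖ ≤ ‖u - ze 0‖ + ‖ze 0‖ := by
      have : u = (u - ze 0) + ze 0 := by ring
      conv_lhs => rw [this]
      exact norm_add_le _ _
    have := norm_nonneg (ze 0)
    nlinarith
  have h5 : f0 u = (f0 u - (u - ze 0)⁻¹) + (u - ze 0)⁻¹ := by ring
  rw [h5, add_div]
  exact (norm_add_le _ _).trans (add_le_add h1 h2)

theorem f0_zero : f0 0 ≠ 0 := by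
  have hm : ∀ m, 2 ≤ ‖(0:ℂ) - ze m‖ := by
    intro m
    rw [zero_sub, norm_neg]
    have := ze_norm m
    have : (0:ℝ) ≤ m := Nat.cast_nonneg m
    linarith
  have h1 := f0_sub_le hm
  intro h
  rw [h, zero_sub, norm_neg, zero_sub, norm_inv, norm_neg, norm_zero] at h1
  have h2 : ‖ze 0‖ ≤ 20 := by
    refine (Complex.norm_le_abs_re_add_abs_im _).trans ?_
    have h3 : ze 0 = ⟨10, 10⟩ := by unfold ze xs ys; simp
    rw [h3]
    norm_num
  have h4 : (1 / 20 : ℝ) ≤ ‖ze 0‖⁻¹ := by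
    rw [one_div]
    apply inv_anti₀ _ h2
    have := ze_norm 0
    simp at this
    linarith
  linarith

end Pool.Agent.H740R3.CG
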