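import Mathlib
import Pool.Agent.H740R3.CG2

set_option autoImplicit false

open Filter Topology
open scoped ENNReal

namespace Pool.Agent.H740R3.CG

noncomputable abbrev Linf := lp (fun _ : ℂ => ℂ) ∞

noncomputable abbrev P := ℕ → Linf

def A (n : ℕ) : Set ℂ := {u | ∃ a, ¬ InO a ∧ ‖u - a‖ ≤ n}

theorem mem_A_of_not {a : ℂ} (h : ¬ InO a) (n : ℕ) : a ∈ A n :=
  ⟨a, h, by simp⟩

theorem A_shift {n m : ℕ} {u z : ℂ} (hu : u ∈ A n) (hz : ‖z‖ ≤ m) : u + z ∈ A (n + m) := by
  obtain ⟨a, ha, h⟩ := hu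
  refine ⟨a, ha, ?_⟩
  have : u + z - a = (u - a) + z := by ring
  rw [this]
  push_cast
  exact (norm_add_le _ _).trans (add_le_add h hz)

theorem f0_bdd (n : ℕ) : ∃ B : ℝ, 0 ≤ B ∧ ∀ u ∈ A n, ‖f0 u‖ ≤ B := by
  obtain ⟨C, hC, hf⟩ := f0_bound
  obtain ⟨B, hB⟩ := (isCompact_closedBall (0:ℂ) (22 + (n:ℝ) ^ 2)).exists_bound_of_continuousOn
    f0_entire.continuous.continuousOn
  refine ⟨max C B, le_max_of_le_left hC.le, fun u hu => ?_⟩
  by_cases h : ∀ m, 2 ≤ ‖u - ze m‖
  · refine (hf u h).trans (le_max_of_le_left ?_)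
    rw [div_le_iff₀ (by positivity)]
    have := norm_nonneg u
    nlinarith
  · push Not at h
    obtain ⟨m, hm⟩ := h
    obtain ⟨a, ha, hua⟩ := hu
    have h1 : Real.sqrt m + 3 ≤ ‖a - ze m‖ := by
      by_contra hcon
      push Not at hcon
      exact ha (Or.inl ⟨m, hcon⟩)
    have h2 : ‖a - ze m‖ ≤ ‖u - a‖ + ‖u - ze m‖ := by
      have : a - ze m = (u - ze m) - (u - a) := by ring
      rw [this]
      have := norm_sub_le (u - ze m) (u - a)
      linarith
    have h3 : Real.sqrt m ≤ n := by linarith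
    have h4 : (m : ℝ) ≤ (n:ℝ) ^ 2 := by
      have h5 : Real.sqrt m ^ 2 = m := Real.sq_sqrt (Nat.cast_nonneg m)
      rw [← h5]
      exact pow_le_pow_left₀ (Real.sqrt_nonneg _) h3 2
    have h5 : ‖ze m‖ ≤ 20 + m := by
      refine (Complex.norm_le_abs_re_add_abs_im _).trans ?_
      have hp : Pt (ze m) := Or.inr ⟨m, rfl⟩
      rw [abs_of_nonneg hp.re_nonneg, abs_of_nonneg hp.im_nonneg, ze_sum]
    have h6 : ‖u‖ ≤ ‖u - ze m‖ + ‖ze m‖ := by
      have : u = (u - ze m) + ze m := by ring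
      conv_lhs => rw [this]
      exact norm_add_le _ _
    refine (hB u ?_).trans (le_max_right _ _)
    rw [mem_closedBall_zero_iff]
    linarith

open Classical in
theorem Rfun_mem (S : Set ℂ) (z : ℂ) (g : Linf) :
    Memℓp (fun w : ℂ => if w ∈ S then g (w + z) else 0) ∞ := by
  apply memℓp_infty
  refine ⟨‖g‖, ?_⟩
  rintro _ ⟨w, rfl⟩
  dsimp only
  split_ifs
  · exact lp.norm_apply_le_norm (by simp) g (w + z)
  · simp

open Classical in
noncomputable def Rop (S : Set ℂ) (z : ℂ) : Linf →L[ℂ] Linf :=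
  LinearMap.mkContinuous
    { toFun := fun g => ⟨fun w => if w ∈ S then g (w + z) else 0, Rfun_mem S z g⟩
      map_add' := by
        intro g h
        apply lp.ext
        funext w
        show (if w ∈ S then (g + h : Linf) (w + z) else 0) =
          (if w ∈ S then g (w + z) else 0) + (if w ∈ S then h (w + z) else 0)
        split_ifs
        · rfl
        · simp
      map_smul' := by
        intro c g
        apply lp.ext
        funext w
        show (if w ∈ S then (c • g : Linf) (w + z) else 0) = c • (if w ∈ S then g (w + z) else 0)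
        split_ifs
        · rfl
        · simp } 1 (by
      intro g
      rw [one_mul]
      apply lp.norm_le_of_forall_le (norm_nonneg _)
      intro w
      show ‖(if w ∈ S then g (w + z) else 0)‖ ≤ ‖g‖
      split_ifs
      · exact lp.norm_apply_le_norm (by simp) g (w + z)
      · simp)

open Classical in
theorem Rop_apply (S : Set ℂ) (z : ℂ) (g : Linf) (w : ℂ) :
    Rop S z g w = if w ∈ S then g (w + z) else 0 := rfl

noncomputable def Top (z : ℂ) : P →L[ℂ] P :=
  ContinuousLinearMap.pi (fun n => (Rop (A n) z).comp (ContinuousLinearMap.proj (n + ⌈‖z‖⌉₊)))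

open Classical in
theorem Top_apply (z : ℂ) (F : P) (n : ℕ) (w : ℂ) :
    Top z F n w = if w ∈ A n then F (n + ⌈‖z‖⌉₊) (w + z) else 0 := rfl

open Classical in
/-- `F` represents the function `G` -/
def IsJ (F : P) (G : ℂ → ℂ) : Prop := ∀ n w, F n w = if w ∈ A n then G w else 0

theorem IsJ.unique {F F' : P} {G : ℂ → ℂ} (h : IsJ F G) (h' : IsJ F' G) : F = F' := by
  funext n
  apply lp.ext
  funext w
  rw [h n w, h' n w]

theorem IsJ.top {F : P} {G : ℂ → ℂ} (h : IsJ F G) (z : ℂ) : IsJ (Top z F) (fun w => G (w + z)) := by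
  classical
  intro n w
  rw [Top_apply]
  split_ifs with hw
  · rw [h, if_pos]
    exact A_shift hw (Nat.le_ceil _)
  · rfl

theorem IsJ.add {F F' : P} {G G' : ℂ → ℂ} (h : IsJ F G) (h' : IsJ F' G') :
    IsJ (F + F') (fun w => G w + G' w) := by
  classical
  intro n w
  have : (F + F') n w = F n w + F' n w := rfl
  rw [this, h n w, h' n w]
  split_ifs <;> simp

theorem IsJ.smul {F : P} {G : ℂ → ℂ} (h : IsJ F G) (c : ℂ) : IsJ (c • F) (fun w => c * G w) := by
  classical
  intro n w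
  have : (c • F) n w = c * F n w := rfl
  rw [this, h n w]
  split_ifs <;> simp

open Classical in
theorem ev_mem (v : ℂ) (n : ℕ) : Memℓp (fun w : ℂ => if w ∈ A n then f0 (w + v) else 0) ∞ := by
  obtain ⟨B, hB, hf⟩ := f0_bdd (n + ⌈‖v‖⌉₊)
  apply memℓp_infty
  refine ⟨B, ?_⟩
  rintro _ ⟨w, rfl⟩
  dsimp only
  split_ifs with hw
  · exact hf _ (A_shift hw (Nat.le_ceil _))
  · simpa using hB

open Classical in
noncomputable def ev (v : ℂ) : P := fun n => ⟨fun w => if w ∈ A n then f0 (w + v) else 0, ev_mem v n⟩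

theorem ev_isJ (v : ℂ) : IsJ (ev v) (fun w => f0 (w + v)) := fun _ _ => rfl

theorem Top_ev (z v : ℂ) : Top z (ev v) = ev (v + z) := by
  have h1 := (ev_isJ v).top z
  have h2 := ev_isJ (v + z)
  have h3 : (fun w => f0 (w + z + v)) = (fun w => f0 (w + (v + z))) := by
    funext w; congr 1; ring
  rw [h3] at h1
  exact h1.unique h2

noncomputable def Sp : Submodule ℂ P := Submodule.span ℂ (Set.range ev)

noncomputable def Msub : Submodule ℂ P := Sp.topologicalClosure

theorem Msub_closed : IsClosed (Msub : Set P) := Submodule.isClosed_topologicalClosure _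

theorem Sp_le : Sp ≤ Msub := Submodule.le_topologicalClosure _

theorem M_ind {S : Set P} (hS : IsClosed S) (h : ∀ F ∈ Sp, F ∈ S) : ∀ F ∈ Msub, F ∈ S := by
  intro F hF
  have : closure (Sp : Set P) ⊆ S := closure_minimal h hS
  exact this hF

theorem Sp_J {F : P} (hF : F ∈ Sp) : ∃ G : ℂ → ℂ, Differentiable ℂ G ∧ IsJ F G := by
  induction hF using Submodule.span_induction with
  | mem x hx =>
    obtain ⟨v, rfl⟩ := hx
    exact ⟨_, f0_entire.comp (differentiable_id.add (differentiable_const v)), ev_isJ v⟩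
  | zero => exact ⟨fun _ => 0, differentiable_const 0, fun n w => by simp⟩
  | add x y _ _ hx hy =>
    obtain ⟨G, hG, hx⟩ := hx
    obtain ⟨H, hH, hy⟩ := hy
    exact ⟨_, hG.add hH, hx.add hy⟩
  | smul c x _ hx =>
    obtain ⟨G, hG, hx⟩ := hx
    exact ⟨_, hG.const_mul c, hx.smul c⟩

theorem Top_Sp {F : P} (hF : F ∈ Sp) (z : ℂ) : Top z F ∈ Sp := by
  induction hF using Submodule.span_induction with
  | mem x hx =>
    obtain ⟨v, rfl⟩ := hx
    rw [Top_ev]
    exact Submodule.subset_span ⟨_, rfl⟩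
  | zero => rw [map_zero]; exact Submodule.zero_mem _
  | add x y _ _ hx hy => rw [map_add]; exact Submodule.add_mem _ hx hy
  | smul c x _ hx => rw [map_smul]; exact Submodule.smul_mem _ _ hx

theorem Top_M {F : P} (hF : F ∈ Msub) (z : ℂ) : Top z F ∈ Msub :=
  M_ind (S := {F | Top z F ∈ Msub}) (Msub_closed.preimage (Top z).continuous)
    (fun _ hF => Sp_le (Top_Sp hF z)) F hF

theorem Top_zero {F : P} (hF : F ∈ Msub) : Top 0 F = F := by
  refine M_ind (S := {F | Top 0 F = F}) (isClosed_eq (Top 0).continuous continuous_id) ?_ F hF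
  intro F hF
  obtain ⟨G, -, hG⟩ := Sp_J hF
  have h1 := hG.top 0
  simp only [add_zero] at h1
  exact h1.unique hG

theorem Top_add {F : P} (hF : F ∈ Msub) (z w : ℂ) : Top (z + w) F = Top z (Top w F) := by
  refine M_ind (S := {F | Top (z + w) F = Top z (Top w F)})
    (isClosed_eq (Top (z + w)).continuous ((Top z).continuous.comp (Top w).continuous)) ?_ F hF
  intro F hF
  obtain ⟨G, -, hG⟩ := Sp_J hF
  have h1 := hG.top (z + w)
  have h2 := (hG.top w).top z
  have h3 : (fun u => G (u + (z + w))) = (fun u => G (u + z + w)) := by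
    funext u; congr 1; ring
  rw [h3] at h1
  exact h1.unique h2

theorem eval_cont (n : ℕ) (w : ℂ) : Continuous (fun F : P => F n w) := by
  have h1 : Continuous (fun g : Linf => g w) := (lp.evalCLM ℂ (fun _ : ℂ => ℂ) ∞ w).continuous
  exact h1.comp (continuous_apply n)

theorem compat {F : P} (hF : F ∈ Msub) {n m : ℕ} {w : ℂ} (hn : w ∈ A n) (hm : w ∈ A m) :
    F n w = F m w := by
  refine M_ind (S := {F | F n w = F m w}) (isClosed_eq (eval_cont n w) (eval_cont m w)) ?_ F hF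
  intro F hF
  obtain ⟨G, -, hG⟩ := Sp_J hF
  show F n w = F m w
  rw [hG n w, hG m w, if_pos hn, if_pos hm]

/-- Cauchy estimate for the difference quotient -/
theorem quot_est {G : ℂ → ℂ} (hG : Differentiable ℂ G) {w : ℂ} {S : ℝ}
    (hS : ∀ ξ, ‖ξ - w‖ ≤ 2 → ‖G ξ‖ ≤ S) {h : ℂ} (h0 : h ≠ 0) (hh : ‖h‖ ≤ 1 / 2) :
    ‖h⁻¹ * (G (w + h) - G w) - deriv G w‖ ≤ 2 * S * ‖h‖ := by
  have hS0 : 0 ≤ S := (norm_nonneg _).trans (hS w (by simp))
  have hd : Differentiable ℂ (deriv G) := by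
    intro ξ
    exact (hG.analyticAt ξ).deriv.differentiableAt
  have h1 : ∀ ξ, ‖ξ - w‖ ≤ 1 → ‖deriv G ξ‖ ≤ S := by
    intro ξ hξ
    have := Complex.norm_deriv_le_of_forall_mem_sphere_norm_le (c := ξ) (R := 1) (C := S) one_pos
      hG.diffContOnCl (by
        intro η hη
        apply hS
        rw [mem_sphere_iff_norm] at hη
        have : η - w = (η - ξ) + (ξ - w) := by ring
        rw [this]
        exact (norm_add_le _ _).trans (by linarith))
    simpa using this
  have h2 : ∀ ξ, ‖ξ - w‖ ≤ 1 / 2 → ‖deriv (deriv G) ξ‖ ≤ 2 * S := by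
    intro ξ hξ
    have := Complex.norm_deriv_le_of_forall_mem_sphere_norm_le (c := ξ) (R := 1 / 2) (C := S)
      (by norm_num) hd.diffContOnCl (by
        intro η hη
        apply h1
        rw [mem_sphere_iff_norm] at hη
        have : η - w = (η - ξ) + (ξ - w) := by ring
        rw [this]
        exact (norm_add_le _ _).trans (by linarith))
    refine this.trans (le_of_eq ?_)
    ring
  have h3 : ∀ ξ, ‖ξ - w‖ ≤ ‖h‖ → ‖deriv G ξ - deriv G w‖ ≤ 2 * S * ‖h‖ := by
    intro ξ hξ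
    have := Convex.norm_image_sub_le_of_norm_deriv_le (f := deriv G) (C := 2 * S)
      (s := Metric.closedBall w (1 / 2)) (x := w) (y := ξ) (fun x _ => hd x)
      (fun x hx => h2 x (by rwa [mem_closedBall_iff_norm] at hx)) (convex_closedBall _ _)
      (Metric.mem_closedBall_self (by norm_num))
      (by rw [mem_closedBall_iff_norm]; linarith)
    refine this.trans ?_
    exact mul_le_mul_of_nonneg_left hξ (by positivity)
  have hφ : ∀ x : ℂ, HasDerivAt (fun ξ => G ξ - deriv G w * ξ) (deriv G x - deriv G w) x := by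
    intro x
    have h4 := (hG x).hasDerivAt.fun_sub ((hasDerivAt_id' x).const_mul (deriv G w))
    rwa [mul_one] at h4
  have h4 := Convex.norm_image_sub_le_of_norm_deriv_le (f := fun ξ => G ξ - deriv G w * ξ)
      (C := 2 * S * ‖h‖) (s := Metric.closedBall w ‖h‖) (x := w) (y := w + h)
      (fun x _ => (hφ x).differentiableAt)
      (fun x hx => by
        rw [(hφ x).deriv]
        exact h3 x (by rwa [mem_closedBall_iff_norm] at hx)) (convex_closedBall _ _)
      (Metric.mem_closedBall_self (norm_nonneg _))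
      (by rw [mem_closedBall_iff_norm]; simp)
  have h5 : h⁻¹ * (G (w + h) - G w) - deriv G w =
      h⁻¹ * ((G (w + h) - deriv G w * (w + h)) - (G w - deriv G w * w)) := by
    field_simp
    ring
  rw [h5, norm_mul, norm_inv]
  have h6 : 0 < ‖h‖ := norm_pos_iff.2 h0
  rw [inv_mul_le_iff₀ h6]
  refine h4.trans (le_of_eq ?_)
  rw [add_sub_cancel_left]
  ring

noncomputable def Q (h : ℂ) (F : P) : P := h⁻¹ • (Top h F - F)

theorem Q_cont (h : ℂ) : Continuous (Q h) := by
  show Continuous (fun F : P => h⁻¹ • (Top h F - F))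
  exact ((Top h).continuous.sub continuous_id).const_smul (h⁻¹ : ℂ)

theorem Q_est {F : P} (hF : F ∈ Msub) {h h' : ℂ} (h0 : h ≠ 0) (hh : ‖h‖ ≤ 1 / 2) (h0' : h' ≠ 0)
    (hh' : ‖h'‖ ≤ 1 / 2) (n : ℕ) :
    ‖(Q h F - Q h' F) n‖ ≤ 2 * (‖h‖ + ‖h'‖) * ‖F (n + 2)‖ := by
  refine M_ind (S := {F | ‖(Q h F - Q h' F) n‖ ≤ 2 * (‖h‖ + ‖h'‖) * ‖F (n + 2)‖}) ?_ ?_ F hF
  · apply isClosed_le
    · exact ((continuous_apply n).comp ((Q_cont h).sub (Q_cont h'))).norm
    · exact continuous_const.mul (continuous_apply (n + 2)).norm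
  · intro F hF
    obtain ⟨G, hG, hJ⟩ := Sp_J hF
    apply lp.norm_le_of_forall_le (by positivity)
    intro w
    have hq : ∀ k, (Q k F) n w = k⁻¹ * ((Top k F) n w - F n w) := fun k => rfl
    have hsub : (Q h F - Q h' F) n w = (Q h F) n w - (Q h' F) n w := rfl
    rw [hsub, hq, hq, hJ.top h n w, hJ.top h' n w, hJ n w]
    by_cases hw : w ∈ A n
    · rw [if_pos hw, if_pos hw, if_pos hw]
      have hS : ∀ ξ, ‖ξ - w‖ ≤ 2 → ‖G ξ‖ ≤ ‖F (n + 2)‖ := by
        intro ξ hξ
        have h1 : ξ ∈ A (n + 2) := by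
          have := A_shift (m := 2) hw (by exact_mod_cast hξ)
          rwa [add_sub_cancel] at this
        have h2 := hJ (n + 2) ξ
        rw [if_pos h1] at h2
        rw [← h2]
        exact lp.norm_apply_le_norm (by simp) _ _
      have e1 := quot_est hG hS h0 hh
      have e2 := quot_est hG hS h0' hh'
      have e3 : h⁻¹ * (G (w + h) - G w) - h'⁻¹ * (G (w + h') - G w) =
          (h⁻¹ * (G (w + h) - G w) - deriv G w) - (h'⁻¹ * (G (w + h') - G w) - deriv G w) := by ring
      rw [e3]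
      refine (norm_sub_le _ _).trans ?_
      linarith
    · rw [if_neg hw, if_neg hw, if_neg hw]
      simp
      positivity

theorem Q_lim {F : P} (hF : F ∈ Msub) : ∃ V ∈ Msub, Tendsto (fun h => Q h F) (𝓝[≠] (0:ℂ)) (𝓝 V) := by
  have hcoord : ∀ n, ∃ V : Linf, Tendsto (fun h => (Q h F) n) (𝓝[≠] (0:ℂ)) (𝓝 V) := by
    intro n
    apply cauchy_map_iff_exists_tendsto.1
    rw [Metric.cauchy_iff]
    refine ⟨inferInstance, fun ε hε => ?_⟩
    set δ : ℝ := min (1 / 2) (ε / (8 * (‖F (n + 2)‖ + 1))) with hδ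
    have hδ0 : 0 < δ := by positivity
    refine ⟨(fun h => (Q h F) n) '' {h : ℂ | h ≠ 0 ∧ ‖h‖ < δ}, ?_, ?_⟩
    · apply image_mem_map
      have h1 : {0}ᶜ ∩ Metric.ball (0:ℂ) δ ∈ 𝓝[≠] (0:ℂ) :=
        inter_mem_nhdsWithin _ (Metric.ball_mem_nhds _ hδ0)
      refine mem_of_superset h1 ?_
      rintro h ⟨h1, h2⟩
      exact ⟨h1, by simpa using h2⟩
    · rintro _ ⟨h, ⟨h0, hh⟩, rfl⟩ _ ⟨h', ⟨h0', hh'⟩, rfl⟩
      dsimp only
      rw [dist_eq_norm]
      have e1 := Q_est hF h0 (hh.le.trans (min_le_left _ _)) h0' (hh'.le.trans (min_le_left _ _)) n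
      have e2 : (Q h F) n - (Q h' F) n = (Q h F - Q h' F) n := rfl
      rw [e2]
      have e3 : δ ≤ ε / (8 * (‖F (n + 2)‖ + 1)) := min_le_right _ _
      have e4 : 0 ≤ ‖F (n + 2)‖ := norm_nonneg _
      have e5 : 2 * (‖h‖ + ‖h'‖) * ‖F (n + 2)‖ ≤ (4 * δ) * (‖F (n + 2)‖ + 1) := by
        apply mul_le_mul _ (by linarith) e4 (by positivity)
        linarith
      have e6 : (4 * δ) * (‖F (n + 2)‖ + 1) ≤ ε / 2 := by
        calc (4 * δ) * (‖F (n + 2)‖ + 1) ≤ 4 * (ε / (8 * (‖F (n + 2)‖ + 1))) * (‖F (n + 2)‖ + 1) := by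
              gcongr
          _ = ε / 2 := by field_simp; ring
      linarith
  choose V hV using hcoord
  have hT : Tendsto (fun h => Q h F) (𝓝[≠] (0:ℂ)) (𝓝 V) := tendsto_pi_nhds.2 hV
  refine ⟨V, ?_, hT⟩
  apply Msub_closed.mem_of_tendsto hT
  filter_upwards with h
  exact Msub.smul_mem _ (Msub.sub_mem (Top_M hF h) hF)

/-- decay along the rooms -/
theorem decay (n : ℕ) (v : ℂ) (ε : ℝ) (hε : 0 < ε) : ∃ I : ℕ, ∀ i, I ≤ i → ∀ σ : ℝ,
    (σ = 1 ∨ σ = -1) → ∀ w : ℂ, ‖w - σ • c i‖ < s i / 2 → ‖(Top w (ev v)) n‖ ≤ ε := by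
  classical
  obtain ⟨C, hC, hf⟩ := f0_bound
  obtain ⟨I, hI⟩ := pow_unbounded_of_one_lt (2 * (2 + n + ‖v‖ + C / ε)) (show (1:ℝ) < 1024 by norm_num)
  refine ⟨I, fun i hi σ hσ w hw => ?_⟩
  have hs : 2 * (2 + n + ‖v‖ + C / ε) ≤ s i := by
    refine hI.le.trans ?_
    unfold s
    exact pow_le_pow_right₀ (by norm_num) (by omega)
  have hCε : 0 < C / ε := by positivity
  rw [Top_ev]
  apply lp.norm_le_of_forall_le hε.le
  intro u
  rw [ev_isJ (v + w) n u]
  split_ifs with hu
  · obtain ⟨a, ha, hua⟩ := hu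
    have hσ' : -σ = 1 ∨ -σ = -1 := by
      rcases hσ with rfl | rfl
      · right; rfl
      · left; norm_num
    set x : ℂ := u + (v + w) with hx
    have hid : ∀ l : ℂ, a - l - (-σ) • c i = (x - l) - (u - a) - v - (w - σ • c i) := by
      intro l
      rw [neg_smul, hx]; ring
    have hbound : ∀ l : ℂ, Pt l → ‖x - l‖ ≤ s i / 2 - n - ‖v‖ → False := by
      intro l hl hxl
      apply ha
      refine Or.inr ⟨l, hl, i, -σ, hσ', ?_⟩
      rw [hid]
      have n1 := norm_sub_le ((x - l) - (u - a) - v) (w - σ • c i)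
      have n2 := norm_sub_le ((x - l) - (u - a)) v
      have n3 := norm_sub_le (x - l) (u - a)
      linarith
    have hfar : ∀ m, 2 ≤ ‖x - ze m‖ := by
      intro m
      by_contra hcon
      push Not at hcon
      exact hbound (ze m) (Or.inr ⟨m, rfl⟩) (by linarith)
    have hbig : s i / 2 - n - ‖v‖ ≤ ‖x‖ := by
      by_contra hcon
      push Not at hcon
      exact hbound 0 (Or.inl rfl) (by rw [sub_zero]; exact hcon.le)
    refine (hf x hfar).trans ?_
    rw [div_le_iff₀ (by positivity)]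
    have h1 : C / ε ≤ 1 + ‖x‖ := by linarith
    rw [div_le_iff₀ hε] at h1
    linarith
  · simpa using hε.le

end Pool.Agent.H740R3.CG
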