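import Mathlib
import Pool.Agent.H740R3.CG4

set_option autoImplicit false
set_option synthInstance.maxHeartbeats 400000

open Filter Topology MeasureTheory
open scoped ENNReal Pointwise

namespace Pool.Agent.H740R3.CG

/-- differences of points of `N` lie in a small disc or in a room -/
def Diff (N : Set ℂ) (R : ℝ) : Prop := ∀ w ∈ N, ∀ w' ∈ N, ‖w' - w‖ ≤ R ∨
  ∃ (i : ℕ) (σ : ℝ), (σ = 1 ∨ σ = -1) ∧ ‖w' - w - σ • c i‖ < 3 * s i

theorem sum_three (j : ℕ) : ∑ i ∈ Finset.range j, (2 * 3 ^ i : ℝ≥0∞) + 1 = 3 ^ j := by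
  induction j with
  | zero => simp
  | succ j ih =>
    rw [Finset.sum_range_succ, add_right_comm, ih, pow_succ]
    ring

theorem area {N : Set ℂ} {R : ℝ} (hN : Diff N R) (j : ℕ) : ∀ S ⊆ N,
    (∀ w ∈ S, ∀ w' ∈ S, ‖w' - w‖ < 29 * s j) →
    volume S ≤ 3 ^ j * volume (Metric.closedBall (0:ℂ) R) := by
  induction j using Nat.strong_induction_on with
  | _ j ih =>
    intro S hS hd
    rcases S.eq_empty_or_nonempty with rfl | ⟨w0, hw0⟩
    · simp
    have hcover : S ⊆ Metric.closedBall w0 R ∪ ⋃ i ∈ Finset.range j,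
        ((S ∩ Metric.ball (w0 + c i) (3 * s i)) ∪ (S ∩ Metric.ball (w0 - c i) (3 * s i))) := by
      intro w hw
      rcases hN w0 (hS hw0) w (hS hw) with h | ⟨i, σ, hσ, h⟩
      · left
        rwa [mem_closedBall_iff_norm]
      · right
        have hij : i < j := by
          by_contra hcon
          push Not at hcon
          have h1 := hd w0 hw0 w hw
          have h2 := s_mono hcon
          have h3 := c_norm_ge i
          have h4 : ‖σ • c i‖ = ‖c i‖ := by
            rw [norm_smul]; rcases hσ with rfl | rfl <;> simp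
          have h5 : ‖σ • c i‖ ≤ ‖w - w0‖ + ‖w - w0 - σ • c i‖ := by
            have : σ • c i = (w - w0) - (w - w0 - σ • c i) := by ring
            conv_lhs => rw [this]
            exact norm_sub_le _ _
          rw [h4] at h5
          linarith
        rw [Set.mem_iUnion₂]
        refine ⟨i, Finset.mem_range.2 hij, ?_⟩
        rcases hσ with rfl | rfl
        · left
          refine ⟨hw, ?_⟩
          rw [mem_ball_iff_norm]
          rw [one_smul] at h
          have : w - (w0 + c i) = w - w0 - c i := by ring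
          rwa [this]
        · right
          refine ⟨hw, ?_⟩
          rw [mem_ball_iff_norm]
          rw [neg_one_smul] at h
          have : w - (w0 - c i) = w - w0 - -c i := by ring
          rwa [this]
    have hpiece : ∀ i ∈ Finset.range j, ∀ a : ℂ, volume (S ∩ Metric.ball a (3 * s i)) ≤
        3 ^ i * volume (Metric.closedBall (0:ℂ) R) := by
      intro i hi a
      apply ih i (Finset.mem_range.1 hi)
      · exact Set.inter_subset_left.trans hS
      · rintro w ⟨-, hw⟩ w' ⟨-, hw'⟩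
        rw [mem_ball_iff_norm] at hw hw'
        have : w' - w = (w' - a) - (w - a) := by ring
        rw [this]
        have h1 := norm_sub_le (w' - a) (w - a)
        have := s_ge i
        linarith
    calc volume S ≤ volume (Metric.closedBall w0 R) + volume (⋃ i ∈ Finset.range j,
        ((S ∩ Metric.ball (w0 + c i) (3 * s i)) ∪ (S ∩ Metric.ball (w0 - c i) (3 * s i)))) :=
          (measure_mono hcover).trans (measure_union_le _ _)
      _ ≤ volume (Metric.closedBall w0 R) + ∑ i ∈ Finset.range j,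
        volume ((S ∩ Metric.ball (w0 + c i) (3 * s i)) ∪ (S ∩ Metric.ball (w0 - c i) (3 * s i))) := by
          gcongr
          exact measure_biUnion_finset_le _ _
      _ ≤ volume (Metric.closedBall (0:ℂ) R) + ∑ i ∈ Finset.range j,
        (2 * 3 ^ i) * volume (Metric.closedBall (0:ℂ) R) := by
          refine add_le_add (Measure.addHaar_closedBall_center volume w0 R).le
            (Finset.sum_le_sum (fun i hi => ?_))
          refine (measure_union_le _ _).trans ?_
          rw [mul_assoc, two_mul]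
          exact add_le_add (hpiece i hi _) (hpiece i hi _)
      _ = 3 ^ j * volume (Metric.closedBall (0:ℂ) R) := by
          rw [← sum_three j, add_mul, one_mul, Finset.sum_mul, add_comm]

theorem area_ball {N : Set ℂ} {R : ℝ} (hN : Diff N R) {k : ℕ} (hk : 1 ≤ k) :
    volume {w ∈ N | ‖w‖ ≤ 2 * k} ≤
      ENNReal.ofReal (Real.sqrt k) * volume (Metric.closedBall (0:ℂ) R) := by
  have h1 : 1024 ^ (Nat.log 1024 k) ≤ k := Nat.pow_log_le_self 1024 (by omega)
  have h2 : k < 1024 ^ (Nat.log 1024 k + 1) := Nat.lt_pow_succ_log_self (by norm_num) k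
  refine (area hN (Nat.log 1024 k) _ (Set.sep_subset _ _) ?_).trans ?_
  · rintro w ⟨-, hw⟩ w' ⟨-, hw'⟩
    have h3 : (k : ℝ) < 1024 ^ (Nat.log 1024 k + 1) := by exact_mod_cast h2
    have h4 := norm_sub_le w' w
    unfold s
    linarith
  · gcongr
    have h3 : (1024:ℝ) ^ (Nat.log 1024 k) ≤ k := by exact_mod_cast h1
    have h4 : (3:ℝ) ^ (Nat.log 1024 k) ≤ Real.sqrt k := by
      apply Real.le_sqrt_of_sq_le
      rw [← pow_mul, mul_comm, pow_mul]
      refine (pow_le_pow_left₀ (by norm_num) (by norm_num) _).trans h3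
    have h5 : (3 : ℝ≥0∞) ^ (Nat.log 1024 k) = ENNReal.ofReal ((3:ℝ) ^ (Nat.log 1024 k)) := by
      rw [ENNReal.ofReal_pow (by norm_num)]
      norm_num
    rw [h5]
    exact ENNReal.ofReal_le_ofReal h4

theorem exists_good {N : Set ℂ} {R : ℝ} (hN : Diff N R) :
    ∃ z : ℂ, z ≠ 0 ∧ ∃ K : ℕ, ∀ k : ℕ, K ≤ k → (k : ℂ) * z ∉ N := by
  set Z : Set ℂ := Metric.ball (3 / 2 : ℂ) (1 / 2) with hZ
  have hZn : ∀ z ∈ Z, 1 ≤ ‖z‖ ∧ ‖z‖ ≤ 2 := by
    intro z hz
    rw [hZ, mem_ball_iff_norm] at hz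
    have h1 : ‖(3 / 2 : ℂ)‖ = 3 / 2 := by norm_num
    have h2 : ‖(3 / 2 : ℂ)‖ ≤ ‖z‖ + ‖z - 3 / 2‖ := by
      have : (3 / 2 : ℂ) = z - (z - 3 / 2) := by ring
      conv_lhs => rw [this]
      exact norm_sub_le _ _
    have h3 : ‖z‖ ≤ ‖z - 3 / 2‖ + ‖(3 / 2 : ℂ)‖ := by
      have : z = (z - 3 / 2) + 3 / 2 := by ring
      conv_lhs => rw [this]
      exact norm_add_le _ _
    rw [h1] at h2 h3
    constructor <;> linarith
  set B : ℝ := (volume (Metric.closedBall (0:ℂ) R)).toReal with hB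
  have hBfin : volume (Metric.closedBall (0:ℂ) R) = ENNReal.ofReal B :=
    (ENNReal.ofReal_toReal measure_closedBall_lt_top.ne).symm
  have hB0 : 0 ≤ B := ENNReal.toReal_nonneg
  -- measure of the bad sets
  have hbad : ∀ k : ℕ, 1 ≤ k → volume {z ∈ Z | (k : ℂ) * z ∈ N} ≤
      ENNReal.ofReal (B * (k:ℝ) ^ (-(3:ℝ) / 2)) := by
    intro k hk
    have hk0 : (0:ℝ) < k := by exact_mod_cast hk
    have h1 : (k:ℝ) • {z ∈ Z | (k : ℂ) * z ∈ N} ⊆ {w ∈ N | ‖w‖ ≤ 2 * k} := by
      rintro _ ⟨z, ⟨hz1, hz2⟩, rfl⟩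
      have h3 : (k:ℝ) • z = (k : ℂ) * z := by
        rw [Complex.real_smul]; simp
      refine ⟨by show (k:ℝ) • z ∈ N; rw [h3]; exact hz2, ?_⟩
      show ‖(k:ℝ) • z‖ ≤ 2 * k
      rw [norm_smul, Real.norm_of_nonneg hk0.le]
      have := (hZn z hz1).2
      nlinarith
    have h2 := (measure_mono (μ := volume) h1).trans (area_ball hN hk)
    rw [Measure.addHaar_smul, Complex.finrank_real_complex, abs_of_pos (by positivity), hBfin,
      ← ENNReal.ofReal_mul (Real.sqrt_nonneg _)] at h2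
    have h4 : volume {z ∈ Z | (k : ℂ) * z ∈ N} =
        ENNReal.ofReal ((k:ℝ) ^ 2)⁻¹ * (ENNReal.ofReal ((k:ℝ) ^ 2) * volume {z ∈ Z | (k : ℂ) * z ∈ N}) := by
      rw [← mul_assoc, ← ENNReal.ofReal_mul (by positivity), inv_mul_cancel₀ (by positivity),
        ENNReal.ofReal_one, one_mul]
    rw [h4]
    refine (mul_le_mul_right h2 _).trans ?_
    rw [← ENNReal.ofReal_mul (by positivity)]
    apply ENNReal.ofReal_le_ofReal
    have h5 : (k:ℝ) ^ (-(3:ℝ) / 2) = ((k:ℝ) ^ 2)⁻¹ * Real.sqrt k := by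
      rw [Real.sqrt_eq_rpow, ← Real.rpow_natCast, ← Real.rpow_neg hk0.le, ← Real.rpow_add hk0]
      norm_num
    rw [h5]
    apply le_of_eq
    ring
  have hsum : Summable (fun k : ℕ => B * (k:ℝ) ^ (-(3:ℝ) / 2)) :=
    (Real.summable_nat_rpow.2 (by norm_num)).mul_left B
  have hvol : 0 < volume Z := Metric.measure_ball_pos _ _ (by norm_num)
  have hvolfin : volume Z ≠ ⊤ := measure_ball_lt_top.ne
  have hvr : 0 < (volume Z).toReal := ENNReal.toReal_pos hvol.ne' hvolfin
  have htail := tendsto_sum_nat_add (fun k : ℕ => B * (k:ℝ) ^ (-(3:ℝ) / 2))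
  obtain ⟨K, hK1, hK2⟩ := ((htail.eventually (gt_mem_nhds hvr)).and (eventually_ge_atTop 1)).exists
  have hU : volume (⋃ j : ℕ, {z ∈ Z | ((j + K : ℕ) : ℂ) * z ∈ N}) < volume Z := by
    calc volume (⋃ j : ℕ, {z ∈ Z | ((j + K : ℕ) : ℂ) * z ∈ N})
        ≤ ∑' j : ℕ, volume {z ∈ Z | ((j + K : ℕ) : ℂ) * z ∈ N} := measure_iUnion_le _
      _ ≤ ∑' j : ℕ, ENNReal.ofReal (B * ((j + K : ℕ):ℝ) ^ (-(3:ℝ) / 2)) :=
          ENNReal.tsum_le_tsum (fun j => hbad (j + K) (by omega))
      _ = ENNReal.ofReal (∑' j : ℕ, B * ((j + K : ℕ):ℝ) ^ (-(3:ℝ) / 2)) := by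
          rw [ENNReal.ofReal_tsum_of_nonneg]
          · intro j; positivity
          · exact (summable_nat_add_iff K).2 hsum
      _ < volume Z := by
          rw [ENNReal.ofReal_lt_iff_lt_toReal _ hvolfin]
          · exact hK1
          · exact tsum_nonneg (fun j => by positivity)
  obtain ⟨z, hz1, hz2⟩ : ∃ z ∈ Z, z ∉ ⋃ j : ℕ, {z ∈ Z | ((j + K : ℕ) : ℂ) * z ∈ N} := by
    by_contra hcon
    push Not at hcon
    exact absurd (measure_mono (μ := volume) hcon) (not_le.2 hU)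
  refine ⟨z, ?_, K, fun k hk hkN => hz2 ?_⟩
  · intro h0
    have := (hZn z hz1).1
    rw [h0, norm_zero] at this
    norm_num at this
  · rw [Set.mem_iUnion]
    refine ⟨k - K, hz1, ?_⟩
    rw [Nat.sub_add_cancel hk]
    exact hkN

theorem no_common (y : X) : ∃ z : ℂ, z ≠ 0 ∧ ¬ Dense (Set.range (fun n : ℕ => (⇑(T z))^[n] y)) := by
  classical
  obtain ⟨C, hC, hf⟩ := f0_bound
  have hz0 : 0 < ‖f0 0‖ := norm_pos_iff.2 f0_zero
  set U : Set X := {x | ‖((x : P) 0 : Linf) - ev 0 0‖ < ‖f0 0‖ / 4} with hU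
  have hUopen : IsOpen U := by
    have h1 : Continuous (fun x : X => ((x : P) 0 : Linf)) :=
      (continuous_apply 0).comp continuous_subtype_val
    exact isOpen_lt (h1.sub continuous_const).norm continuous_const
  have hUne : U.Nonempty := ⟨e 0, by
    show ‖(ev 0 0 : Linf) - ev 0 0‖ < ‖f0 0‖ / 4
    rw [sub_self, norm_zero]; positivity⟩
  set N : Set ℂ := {w | T w y ∈ U} with hNdef
  set R : ℝ := 4 * C / ‖f0 0‖ with hR
  have h0A : ∀ n, (0:ℂ) ∈ A n := fun n => mem_A_of_not not_InO_zero n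
  have hN1 : ∀ w ∈ N, ∀ w' ∈ N, ‖w' - w‖ ≤ R ∨ InO (w' - w) := by
    intro w hw w' hw'
    by_contra hcon
    push Not at hcon
    obtain ⟨hbig, hno⟩ := hcon
    set v := w' - w with hv
    have hvA : ∀ n, v ∈ A n := fun n => mem_A_of_not hno n
    -- value of the orbit at zero
    have hrel : (((T w' y : X) : P) 0 : Linf) 0 = (((T w y : X) : P) 0 : Linf) v := by
      have h1 : w' = v + w := by rw [hv]; ring
      rw [h1, T_add_apply, T_coe, Top_apply, if_pos (h0A 0), zero_add, zero_add]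
      exact compat (T w y).2 (hvA _) (hvA 0)
    have e1 : ‖(((T w y : X) : P) 0 : Linf) v - f0 v‖ < ‖f0 0‖ / 4 := by
      have h2 : (ev 0 0 : Linf) v = f0 v := by
        rw [ev_isJ 0 0 v, if_pos (hvA 0)]
        show f0 (v + 0) = f0 v
        rw [add_zero]
      have h3 : ‖(((T w y : X) : P) 0 : Linf) v - (ev 0 0 : Linf) v‖ < ‖f0 0‖ / 4 :=
        lt_of_le_of_lt
          (lp.norm_apply_le_norm (by simp) ((((T w y : X) : P) 0 : Linf) - ev 0 0) v) hw
      rwa [h2] at h3
    have e2 : ‖(((T w' y : X) : P) 0 : Linf) 0 - f0 0‖ < ‖f0 0‖ / 4 := by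
      have h2 : (ev 0 0 : Linf) 0 = f0 0 := by
        rw [ev_isJ 0 0 0, if_pos (h0A 0)]
        show f0 (0 + 0) = f0 0
        rw [add_zero]
      have h3 : ‖(((T w' y : X) : P) 0 : Linf) 0 - (ev 0 0 : Linf) 0‖ < ‖f0 0‖ / 4 :=
        lt_of_le_of_lt
          (lp.norm_apply_le_norm (by simp) ((((T w' y : X) : P) 0 : Linf) - ev 0 0) 0) hw'
      rwa [h2] at h3
    have e3 : ‖f0 v‖ ≤ ‖f0 0‖ / 4 := by
      have h3 : ∀ m, 2 ≤ ‖v - ze m‖ := by
        intro m
        by_contra hcon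
        push Not at hcon
        apply hno
        left
        refine ⟨m, ?_⟩
        have := Real.sqrt_nonneg (m : ℝ)
        linarith
      refine (hf v h3).trans ?_
      rw [div_le_div_iff₀ (by positivity) (by norm_num)]
      rw [hR, div_lt_iff₀ hz0] at hbig
      nlinarith
    rw [hrel] at e2
    set q := (((T w y : X) : P) 0 : Linf) v with hq
    have e4 : f0 0 = (q - f0 v) - (q - f0 0) + f0 v := by ring
    have e5 : ‖f0 0‖ ≤ ‖q - f0 v‖ + ‖q - f0 0‖ + ‖f0 v‖ := by
      conv_lhs => rw [e4]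
      have := norm_add_le ((q - f0 v) - (q - f0 0)) (f0 v)
      have := norm_sub_le (q - f0 v) (q - f0 0)
      linarith
    linarith
  have hN : Diff N R := by
    intro w hw w' hw'
    rcases hN1 w hw w' hw' with h | h
    · exact Or.inl h
    · rcases hN1 w' hw' w hw with h2 | h2
      · left; rwa [norm_sub_rev]
      · right
        exact key h (by rwa [neg_sub])
  obtain ⟨z, hz, K, hK⟩ := exists_good hN
  refine ⟨z, hz, fun hd => ?_⟩
  have hntX : Nontrivial X := by
    refine ⟨⟨e 0, 0, ?_⟩⟩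
    intro h
    have h1 : ev 0 = (0 : P) := congrArg Subtype.val h
    have h2 : (ev 0 0 : Linf) 0 = f0 0 := by
      rw [ev_isJ 0 0 0, if_pos (h0A 0)]
      show f0 (0 + 0) = f0 0
      rw [add_zero]
    rw [h1] at h2
    exact f0_zero h2.symm
  have hne : ∀ x : X, NeBot (𝓝[≠] x) := fun x => Module.punctured_nhds_neBot ℂ X x
  set Fin : Set X := (fun n : ℕ => (⇑(T z))^[n] y) '' (Set.Iio K) with hFin
  have hfin : Fin.Finite := (Set.finite_Iio K).image _
  have hd2 := hd.sdiff_finite hfin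
  obtain ⟨x, hxU, ⟨n, rfl⟩, hxn⟩ := hd2.inter_open_nonempty U hUopen hUne
  have hKn : K ≤ n := by
    by_contra hcon
    push Not at hcon
    exact hxn ⟨n, hcon, rfl⟩
  apply hK n hKn
  show T ((n : ℂ) * z) y ∈ U
  rw [← T_iter]
  exact hxU

end Pool.Agent.H740R3.CG
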