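import Mathlib
import Pool.Agent.H740R3.CG5

set_option autoImplicit false
set_option synthInstance.maxHeartbeats 400000

open Filter Topology
open scoped ENNReal

namespace Pool.Agent.H740R3.CG

theorem lcs : @LocallyConvexSpace ℝ X _ _ _ (Module.complexToReal X) _ := by
  have h1 : LocallyConvexSpace ℝ X := inferInstance
  have h2 : (Submodule.module' Msub : Module ℝ X) = Module.complexToReal X := by
    apply Module.ext'
    intro r m
    apply Subtype.ext
    funext n
    apply lp.ext
    funext w
    show r • ((m : P) n : Linf) w = (r : ℂ) • ((m : P) n : Linf) w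
    rw [Complex.real_smul, smul_eq_mul]
  rw [← h2]
  exact h1

end Pool.Agent.H740R3.CG
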