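import Mathlib

set_option autoImplicit false
set_option synthInstance.maxHeartbeats 400000

open Filter Topology
open scoped ENNReal

namespace Pool.Agent.H740R3.CS

abbrev Ix : Type := ℕ ⊕ (Unit ⊕ ((ℕ × ℕ) ⊕ (ℕ × ℕ)))

def iA (l : ℕ) : Ix := Sum.inl l
def iD : Ix := Sum.inr (Sum.inl ())
def iR (p : ℕ × ℕ) : Ix := Sum.inr (Sum.inr (Sum.inl p))
def iQ (p : ℕ × ℕ) : Ix := Sum.inr (Sum.inr (Sum.inr p))

noncomputable abbrev B : Type := lp (fun _ : Ix => ℂ) 1

noncomputable abbrev P : Type := ℕ → B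

noncomputable def ep (i : Ix) : B := lp.single 1 i (1 : ℂ)

theorem ep_apply (i j : Ix) : ep i j = if j = i then 1 else 0 := by
  unfold ep
  rw [lp.single_apply]
  split_ifs with h
  · subst h; simp
  · simp [h]

theorem ep_norm (i : Ix) : ‖ep i‖ = 1 := by
  unfold ep
  rw [lp.norm_single (by norm_num)]
  exact norm_one

/-- evaluation at a coordinate -/
noncomputable def co (i : Ix) : B →L[ℂ] ℂ := lp.evalCLM ℂ (fun _ : Ix => ℂ) 1 i

theorem co_apply (i : Ix) (b : B) : co i b = b i := rfl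

theorem co_ep (i j : Ix) : co i (ep j) = if i = j then 1 else 0 := ep_apply j i

theorem co_le (i : Ix) (b : B) : ‖co i b‖ ≤ ‖b‖ := lp.norm_apply_le_norm (by norm_num) b i

theorem sepB : TopologicalSpace.SeparableSpace B := by
  have h1 : TopologicalSpace.IsSeparable (Set.range ep) := (Set.countable_range ep).isSeparable
  have h2 := (h1.span (R := ℂ)).closure
  have h3 : closure (Submodule.span ℂ (Set.range ep) : Set B) = Set.univ := by
    apply Set.eq_univ_of_forall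
    intro b
    have h4 := lp.hasSum_single (E := fun _ : Ix => ℂ) (p := 1) (by norm_num) b
    refine mem_closure_of_tendsto h4 ?_
    filter_upwards with s
    apply Submodule.sum_mem
    intro i _
    have h5 : lp.single (E := fun _ : Ix => ℂ) 1 i (b i) = (b i) • ep i := by
      unfold ep
      apply lp.ext
      funext j
      rw [lp.coeFn_smul, Pi.smul_apply, lp.single_apply, lp.single_apply]
      by_cases h : j = i
      · subst h; simp
      · simp [h]
    rw [h5]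
    exact Submodule.smul_mem _ _ (Submodule.subset_span ⟨i, rfl⟩)
  rw [h3] at h2
  exact TopologicalSpace.isSeparable_univ_iff.1 h2

/-- admissible pairs -/
def PP (p : ℕ × ℕ) : Prop := 1 ≤ p.1 ∧ 1 ≤ p.2 ∧ p.2 ≤ 2 * p.1 ∧ p.1 ≤ p.2 ^ 2

instance : DecidablePred PP := fun p =>
  inferInstanceAs (Decidable (1 ≤ p.1 ∧ 1 ≤ p.2 ∧ p.2 ≤ 2 * p.1 ∧ p.1 ≤ p.2 ^ 2))

noncomputable def cR (z : ℂ) (p : ℕ × ℕ) : ℂ := if PP p then z ^ p.1 else 0
noncomputable def cQ (z : ℂ) (p : ℕ × ℕ) : ℂ := if PP p then (3 / z) ^ p.2 else 0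

theorem summ_A {z : ℂ} (hz : ‖z‖ < 3) : Summable (fun l : ℕ => ((z / 3) ^ l) • ep (iA l)) := by
  apply Summable.of_norm
  have : (fun l : ℕ => ‖((z / 3) ^ l) • ep (iA l)‖) = fun l => (‖z‖ / 3) ^ l := by
    funext l
    rw [norm_smul, ep_norm, mul_one, norm_pow, norm_div]
    norm_num
  rw [this]
  apply summable_geometric_of_lt_one (by positivity)
  rw [div_lt_one (by norm_num)]
  exact hz

theorem summ_cR {z : ℂ} (hz : ‖z‖ < 1) : Summable (fun p : ℕ × ℕ => ‖cR z p‖) := by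
  set q := Real.sqrt (Real.sqrt ‖z‖) with hq
  have hq0 : 0 ≤ q := Real.sqrt_nonneg _
  have hq4 : q ^ 4 = ‖z‖ := by
    have h1 : q ^ 2 = Real.sqrt ‖z‖ := Real.sq_sqrt (Real.sqrt_nonneg _)
    have h2 : Real.sqrt ‖z‖ ^ 2 = ‖z‖ := Real.sq_sqrt (norm_nonneg _)
    calc q ^ 4 = (q ^ 2) ^ 2 := by ring
      _ = ‖z‖ := by rw [h1, h2]
  have hq1 : q < 1 := by
    by_contra hcon
    push Not at hcon
    have := one_le_pow₀ hcon (n := 4)
    linarith
  have hg : Summable (fun n : ℕ => q ^ n) := summable_geometric_of_lt_one hq0 hq1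
  have hprod := hg.mul_of_nonneg hg (fun n => by positivity) (fun n => by positivity)
  refine Summable.of_nonneg_of_le (fun _ => norm_nonneg _) ?_ hprod
  rintro ⟨k, l⟩
  unfold cR
  split_ifs with h
  · obtain ⟨h1, h2, h3, h4⟩ := h
    simp only at h1 h2 h3 h4 ⊢
    rw [norm_pow, ← hq4, ← pow_mul]
    calc q ^ (4 * k) = q ^ (2 * k) * q ^ (2 * k) := by rw [← pow_add]; congr 1; ring
      _ ≤ q ^ k * q ^ l := by
        apply mul_le_mul
        · exact pow_le_pow_of_le_one hq0 hq1.le (by omega)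
        · exact pow_le_pow_of_le_one hq0 hq1.le h3
        · positivity
        · positivity
  · rw [norm_zero]; positivity

theorem summ_cQ {z : ℂ} (hz : 3 < ‖z‖) : Summable (fun p : ℕ × ℕ => ‖cQ z p‖) := by
  set t : ℝ := 3 / ‖z‖ with ht
  have ht0 : 0 ≤ t := by positivity
  have ht1 : t < 1 := by rw [ht, div_lt_one (by linarith)]; exact hz
  have hle : ∀ p : ℕ × ℕ, ‖cQ z p‖ ≤ if p.1 ≤ p.2 ^ 2 then t ^ p.2 else 0 := by
    intro p
    unfold cQ
    split_ifs with h1 h2 h2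
    · rw [norm_pow, norm_div]
      norm_num [ht]
    · exact absurd h1.2.2.2 h2
    · rw [norm_zero]; positivity
    · rw [norm_zero]
  refine Summable.of_nonneg_of_le (fun _ => norm_nonneg _) hle ?_
  rw [← (Equiv.prodComm ℕ ℕ).summable_iff]
  rw [summable_prod_of_nonneg (fun p => by simp only [Function.comp]; split_ifs <;> positivity)]
  constructor
  · intro l
    apply summable_of_ne_finset_zero (s := Finset.range (l ^ 2 + 1))
    intro k hk
    rw [Finset.mem_range] at hk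
    exact if_neg (show ¬ (k ≤ l ^ 2) by omega)
  · have hsum : ∀ l : ℕ, ∑' k : ℕ, ((fun p : ℕ × ℕ => if p.1 ≤ p.2 ^ 2 then t ^ p.2 else 0) ∘
        (Equiv.prodComm ℕ ℕ)) (l, k) = ((l : ℝ) ^ 2 + 1) * t ^ l := by
      intro l
      rw [tsum_eq_sum (s := Finset.range (l ^ 2 + 1))]
      · have : ∀ k ∈ Finset.range (l ^ 2 + 1), ((fun p : ℕ × ℕ => if p.1 ≤ p.2 ^ 2 then t ^ p.2 else 0) ∘
          (Equiv.prodComm ℕ ℕ)) (l, k) = t ^ l := by
          intro k hk
          rw [Finset.mem_range] at hk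
          exact if_pos (show k ≤ l ^ 2 by omega)
        rw [Finset.sum_congr rfl this, Finset.sum_const, Finset.card_range, nsmul_eq_mul]
        push_cast
        ring
      · intro k hk
        rw [Finset.mem_range] at hk
        exact if_neg (show ¬ (k ≤ l ^ 2) by omega)
    simp only [hsum]
    have h1 := summable_pow_mul_geometric_of_norm_lt_one 2 (r := t) (by rwa [Real.norm_of_nonneg ht0])
    have h2 : Summable (fun n : ℕ => t ^ n) := summable_geometric_of_lt_one ht0 ht1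
    refine (h1.add h2).congr ?_
    intro l
    ring

theorem summ_R {z : ℂ} (hz : ‖z‖ < 1) : Summable (fun p : ℕ × ℕ => cR z p • ep (iR p)) := by
  apply Summable.of_norm
  refine (summ_cR hz).congr ?_
  intro p
  rw [norm_smul, ep_norm, mul_one]

theorem summ_Q {z : ℂ} (hz : 3 < ‖z‖) : Summable (fun p : ℕ × ℕ => cQ z p • ep (iQ p)) := by
  apply Summable.of_norm
  refine (summ_cQ hz).congr ?_
  intro p
  rw [norm_smul, ep_norm, mul_one]

noncomputable def va (z : ℂ) : B := ∑' l : ℕ, ((z / 3) ^ l) • ep (iA l)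
noncomputable def vb (z : ℂ) : B := ep iD + ∑' p : ℕ × ℕ, cR z p • ep (iR p)
noncomputable def vc (z : ℂ) : B := ep iD + ∑' p : ℕ × ℕ, cQ z p • ep (iQ p)
noncomputable def vp (p : ℕ × ℕ) (z : ℂ) : B :=
  ep (iQ p) - (((3:ℂ)⁻¹) ^ p.2 * z ^ (p.1 + p.2)) • ep (iR p)

/-- a functional on `va` -/
theorem va_apply (f : B →L[ℂ] ℂ) {z : ℂ} (hz : ‖z‖ < 3) :
    HasSum (fun l : ℕ => (z / 3) ^ l * f (ep (iA l))) (f (va z)) := by
  have h := (summ_A hz).hasSum.mapL f
  unfold va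
  simpa only [map_smul, smul_eq_mul] using h

theorem vb_apply (f : B →L[ℂ] ℂ) {z : ℂ} (hz : ‖z‖ < 1) :
    HasSum (fun p : ℕ × ℕ => cR z p * f (ep (iR p))) (f (vb z) - f (ep iD)) := by
  have h := (summ_R hz).hasSum.mapL f
  have h2 : f (vb z) - f (ep iD) = f (∑' p : ℕ × ℕ, cR z p • ep (iR p)) := by
    unfold vb; rw [map_add]; ring
  rw [h2]
  simpa only [map_smul, smul_eq_mul] using h

theorem vc_apply (f : B →L[ℂ] ℂ) {z : ℂ} (hz : 3 < ‖z‖) :
    HasSum (fun p : ℕ × ℕ => cQ z p * f (ep (iQ p))) (f (vc z) - f (ep iD)) := by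
  have h := (summ_Q hz).hasSum.mapL f
  have h2 : f (vc z) - f (ep iD) = f (∑' p : ℕ × ℕ, cQ z p • ep (iQ p)) := by
    unfold vc; rw [map_add]; ring
  rw [h2]
  simpa only [map_smul, smul_eq_mul] using h

/-- the eigenvector sequence -/
noncomputable def ev (v : B) (z : ℂ) : P := fun j => z ^ j • v

theorem ev_apply (v : B) (z : ℂ) (j : ℕ) : ev v z j = z ^ j • v := rfl

/-- the shift -/
noncomputable def Sh : P →L[ℂ] P := ContinuousLinearMap.pi (fun j => ContinuousLinearMap.proj (j + 1))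

theorem Sh_apply (y : P) (j : ℕ) : Sh y j = y (j + 1) := rfl

theorem Sh_ev (v : B) (z : ℂ) : Sh (ev v z) = z • ev v z := by
  funext j
  rw [Sh_apply, Pi.smul_apply, ev_apply, ev_apply, smul_smul, pow_succ, mul_comm]

theorem Sh_pow (n : ℕ) (y : P) (j : ℕ) : (Sh ^ n) y j = y (j + n) := by
  induction n generalizing j with
  | zero => rfl
  | succ n ih =>
    rw [pow_succ', mul_apply_eq_comp, Sh_apply, ih]
    congr 1
    ring

/-- the small-eigenvalue family -/
def EE : Set P := {y | ∃ z : ℂ, ‖z‖ < 1 ∧ (y = ev (va z) z ∨ y = ev (vb z) z ∨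
  ∃ p, PP p ∧ y = ev (vp p z) z)}

/-- the large-eigenvalue family -/
def FF : Set P := {y | ∃ z : ℂ, 2 < ‖z‖ ∧ ((‖z‖ < 3 ∧ y = ev (va z) z) ∨
  (3 < ‖z‖ ∧ y = ev (vc z) z) ∨ (3 < ‖z‖ ∧ ∃ p, PP p ∧ y = ev (vp p z) z))}

/-- continuous functionals on the product depend on finitely many coordinates -/
theorem functional_finite (Φ : P →L[ℂ] ℂ) : ∃ m : ℕ, ∀ y : P, Φ y =
    ∑ j ∈ Finset.range m, Φ (Pi.single j (y j)) := by
  have h1 : {y : P | ‖Φ y‖ < 1} ∈ 𝓝 (0 : P) := by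
    apply (isOpen_lt Φ.continuous.norm continuous_const).mem_nhds
    show ‖Φ 0‖ < 1
    rw [map_zero, norm_zero]; exact one_pos
  rw [nhds_pi, Filter.mem_pi] at h1
  obtain ⟨I, hI, t, ht, hsub⟩ := h1
  obtain ⟨m, hm⟩ := hI.bddAbove
  have hzero : ∀ y : P, (∀ j ≤ m, y j = 0) → Φ y = 0 := by
    intro y hy
    by_contra hne
    have hpos : 0 < ‖Φ y‖ := norm_pos_iff.2 hne
    have h2 : ((‖Φ y‖⁻¹ : ℝ) : ℂ) • y ∈ {y : P | ‖Φ y‖ < 1} := by
      apply hsub
      intro j hj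
      have h3 : (((‖Φ y‖⁻¹ : ℝ) : ℂ) • y) j = 0 := by
        rw [Pi.smul_apply, hy j (hm hj), smul_zero]
      rw [h3]
      exact mem_of_mem_nhds (ht j)
    have h4 : ‖Φ (((‖Φ y‖⁻¹ : ℝ) : ℂ) • y)‖ < 1 := h2
    rw [map_smul, norm_smul, Complex.norm_real, norm_inv, norm_norm, inv_mul_cancel₀ hpos.ne'] at h4
    exact lt_irrefl _ h4
  refine ⟨m + 1, fun y => ?_⟩
  rw [← map_sum, ← sub_eq_zero, ← map_sub]
  apply hzero
  intro j hj
  rw [Pi.sub_apply, Finset.sum_apply]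
  rw [Finset.sum_eq_single j]
  · rw [Pi.single_eq_same, sub_self]
  · intro i _ hij
    rw [Pi.single_eq_of_ne (Ne.symm hij)]
  · intro hj'
    exact absurd (Finset.mem_range.2 (Nat.lt_succ_of_le hj)) hj'

/-- the coordinate functionals of `Φ` -/
noncomputable def ps (Φ : P →L[ℂ] ℂ) (j : ℕ) : B →L[ℂ] ℂ :=
  Φ.comp (ContinuousLinearMap.single ℂ (fun _ : ℕ => B) j)

theorem ps_apply (Φ : P →L[ℂ] ℂ) (j : ℕ) (b : B) : ps Φ j b = Φ (Pi.single j b) := rfl

theorem Φ_ev (Φ : P →L[ℂ] ℂ) {m : ℕ} (hm : ∀ y : P, Φ y = ∑ j ∈ Finset.range m, Φ (Pi.single j (y j)))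
    (v : B) (z : ℂ) : Φ (ev v z) = ∑ j ∈ Finset.range m, z ^ j * ps Φ j v := by
  rw [hm]
  apply Finset.sum_congr rfl
  intro j _
  rw [← ps_apply, ev_apply, map_smul, smul_eq_mul]

end Pool.Agent.H740R3.CS
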