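import Mathlib
import Pool.Agent.H740R3.CS1

set_option autoImplicit false
set_option synthInstance.maxHeartbeats 400000

open Filter Topology
open scoped ENNReal

namespace Pool.Agent.H740R3.CS

theorem entire_zero {g : ℂ → ℂ} (hg : Differentiable ℂ g) {z0 : ℂ} (h : ∀ᶠ z in 𝓝 z0, g z = 0) :
    ∀ z, g z = 0 := by
  have h1 : AnalyticOnNhd ℂ g Set.univ := fun z _ => hg.analyticAt z
  intro z
  exact h1.eqOn_zero_of_preconnected_of_eventuallyEq_zero isPreconnected_univ (Set.mem_univ z0) h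
    (Set.mem_univ z)

theorem va_diff (f : B →L[ℂ] ℂ) : DifferentiableOn ℂ (fun z => f (va z)) (Metric.ball (0:ℂ) 3) := by
  intro z0 hz0
  rw [mem_ball_zero_iff] at hz0
  set r : ℝ := (‖z0‖ + 3) / 2 with hr
  have hr3 : r < 3 := by rw [hr]; linarith
  have hr0 : 0 ≤ r := by have := norm_nonneg z0; rw [hr]; linarith
  have hz0r : z0 ∈ Metric.ball (0:ℂ) r := by rw [mem_ball_zero_iff, hr]; linarith
  have hd : DifferentiableOn ℂ (fun z : ℂ => ∑' l : ℕ, (z / 3) ^ l * f (ep (iA l))) (Metric.ball (0:ℂ) r) := by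
    apply Complex.differentiableOn_tsum_of_summable_norm (u := fun l : ℕ => (r / 3) ^ l * ‖f‖) _ _
      Metric.isOpen_ball
    · intro l z hz
      rw [mem_ball_zero_iff] at hz
      rw [norm_mul, norm_pow, norm_div]
      have h1 : ‖f (ep (iA l))‖ ≤ ‖f‖ := by
        have := f.le_opNorm (ep (iA l))
        rwa [ep_norm, mul_one] at this
      have h2 : ‖z‖ / ‖(3:ℂ)‖ ≤ r / 3 := by
        rw [Complex.norm_ofNat]
        linarith
      exact mul_le_mul (pow_le_pow_left₀ (by positivity) h2 l) h1 (norm_nonneg _) (by positivity)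
    · apply Summable.mul_right
      apply summable_geometric_of_lt_one (by positivity)
      rw [div_lt_one (by norm_num)]
      exact hr3
    · intro l
      fun_prop
  have heq : ∀ z ∈ Metric.ball (0:ℂ) r, f (va z) = ∑' l : ℕ, (z / 3) ^ l * f (ep (iA l)) := by
    intro z hz
    rw [mem_ball_zero_iff] at hz
    exact (va_apply f (hz.trans hr3)).tsum_eq.symm
  have h3 := (hd.congr heq) z0 hz0r
  exact (h3.differentiableAt (Metric.isOpen_ball.mem_nhds hz0r)).differentiableWithinAt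

section func

variable (Φ : P →L[ℂ] ℂ) (m : ℕ)

noncomputable def dd (z : ℂ) : ℂ := ∑ j ∈ Finset.range m, z ^ j * ps Φ j (ep iD)
noncomputable def rr (p : ℕ × ℕ) (z : ℂ) : ℂ := ∑ j ∈ Finset.range m, z ^ j * ps Φ j (ep (iR p))
noncomputable def qq (p : ℕ × ℕ) (z : ℂ) : ℂ := ∑ j ∈ Finset.range m, z ^ j * ps Φ j (ep (iQ p))
noncomputable def BB (z : ℂ) : ℂ := dd Φ m z +
  ∑ p ∈ ((Finset.range m) ×ˢ (Finset.range m)).filter PP, z ^ p.1 * rr Φ m p z

theorem dd_diff : Differentiable ℂ (dd Φ m) := by unfold dd; fun_prop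
theorem rr_diff (p : ℕ × ℕ) : Differentiable ℂ (rr Φ m p) := by unfold rr; fun_prop
theorem qq_diff (p : ℕ × ℕ) : Differentiable ℂ (qq Φ m p) := by unfold qq; fun_prop

theorem BB_diff : Differentiable ℂ (BB Φ m) := by
  unfold BB
  apply (dd_diff Φ m).add
  have h : ∀ p ∈ ((Finset.range m) ×ˢ (Finset.range m)).filter PP,
      Differentiable ℂ (fun z : ℂ => z ^ p.1 * rr Φ m p z) :=
    fun p _ => (differentiable_pow p.1).mul (rr_diff Φ m p)
  exact Differentiable.fun_sum h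

variable {Φ m} (hm : ∀ y : P, Φ y = ∑ j ∈ Finset.range m, Φ (Pi.single j (y j)))

include hm

theorem Φ_vp (p : ℕ × ℕ) (z w : ℂ) : Φ (ev (vp p w) z) =
    qq Φ m p z - ((3:ℂ)⁻¹) ^ p.2 * w ^ (p.1 + p.2) * rr Φ m p z := by
  rw [Φ_ev Φ hm]
  unfold vp qq rr
  rw [Finset.mul_sum, ← Finset.sum_sub_distrib]
  apply Finset.sum_congr rfl
  intro j _
  rw [map_sub, map_smul, smul_eq_mul]
  ring

theorem vp_entire {p : ℕ × ℕ} {z0 : ℂ} (h : ∀ᶠ z in 𝓝 z0, Φ (ev (vp p z) z) = 0) :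
    ∀ z, qq Φ m p z = ((3:ℂ)⁻¹) ^ p.2 * z ^ (p.1 + p.2) * rr Φ m p z := by
  have h1 : Differentiable ℂ (fun z => qq Φ m p z - ((3:ℂ)⁻¹) ^ p.2 * z ^ (p.1 + p.2) * rr Φ m p z) := by
    apply (qq_diff Φ m p).sub
    exact ((differentiable_pow _).const_mul _).mul (rr_diff Φ m p)
  have h2 : ∀ᶠ z in 𝓝 z0, qq Φ m p z - ((3:ℂ)⁻¹) ^ p.2 * z ^ (p.1 + p.2) * rr Φ m p z = 0 := by
    filter_upwards [h] with z hz
    rw [← Φ_vp hm]; exact hz
  intro z
  exact sub_eq_zero.1 (entire_zero h1 h2 z)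

theorem ga_zero {z0 : ℂ} (hz0 : ‖z0‖ < 3) (h : ∀ᶠ z in 𝓝 z0, Φ (ev (va z) z) = 0) :
    ∀ z, ‖z‖ < 3 → Φ (ev (va z) z) = 0 := by
  have hd : DifferentiableOn ℂ (fun z => Φ (ev (va z) z)) (Metric.ball (0:ℂ) 3) := by
    have h1 : (fun z => Φ (ev (va z) z)) = fun z => ∑ j ∈ Finset.range m, z ^ j * ps Φ j (va z) := by
      funext z; exact Φ_ev Φ hm _ _
    rw [h1]
    have h2 : ∀ j ∈ Finset.range m, DifferentiableOn ℂ (fun z => z ^ j * ps Φ j (va z)) (Metric.ball (0:ℂ) 3) :=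
      fun j _ => (differentiable_pow j).differentiableOn.mul (va_diff _)
    exact DifferentiableOn.fun_sum h2
  have h3 := hd.analyticOnNhd Metric.isOpen_ball
  have h4 := h3.eqOn_zero_of_preconnected_of_eventuallyEq_zero
    (convex_ball (0:ℂ) 3).isPreconnected (mem_ball_zero_iff.2 hz0) h
  intro z hz
  exact h4 (mem_ball_zero_iff.2 hz)

omit hm

theorem degree_zero {p : ℕ × ℕ} (hp : m ≤ p.1 + p.2)
    (h : ∀ z, qq Φ m p z = ((3:ℂ)⁻¹) ^ p.2 * z ^ (p.1 + p.2) * rr Φ m p z) (z : ℂ) :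
    rr Φ m p z = 0 := by
  set pq : Polynomial ℂ := ∑ j ∈ Finset.range m, Polynomial.monomial j (ps Φ j (ep (iQ p))) with hpq
  set pr : Polynomial ℂ := ∑ j ∈ Finset.range m, Polynomial.monomial j (ps Φ j (ep (iR p))) with hpr
  have eq : ∀ w, pq.eval w = qq Φ m p w := by
    intro w
    rw [hpq, Polynomial.eval_finsetSum]
    unfold qq
    apply Finset.sum_congr rfl
    intro j _
    rw [Polynomial.eval_monomial, mul_comm]
  have er : ∀ w, pr.eval w = rr Φ m p w := by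
    intro w
    rw [hpr, Polynomial.eval_finsetSum]
    unfold rr
    apply Finset.sum_congr rfl
    intro j _
    rw [Polynomial.eval_monomial, mul_comm]
  have hpoly : pq = Polynomial.C (((3:ℂ)⁻¹) ^ p.2) * (Polynomial.X ^ (p.1 + p.2) * pr) := by
    apply Polynomial.funext
    intro w
    rw [eq, h, ← er]
    simp only [Polynomial.eval_mul, Polynomial.eval_C, Polynomial.eval_pow, Polynomial.eval_X]
    ring
  have hc : ∀ n, m ≤ n → pq.coeff n = 0 := by
    intro n hn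
    rw [hpq, Polynomial.finsetSum_coeff]
    apply Finset.sum_eq_zero
    intro j hj
    rw [Polynomial.coeff_monomial, if_neg]
    have := Finset.mem_range.1 hj
    omega
  have hpr0 : pr = 0 := by
    ext n
    have h1 := hc (n + (p.1 + p.2)) (by omega)
    rw [hpoly, Polynomial.coeff_C_mul, Polynomial.coeff_X_pow_mul] at h1
    rw [Polynomial.coeff_zero]
    exact (mul_eq_zero.1 h1).resolve_left (pow_ne_zero _ (by norm_num))
  rw [← er, hpr0, Polynomial.eval_zero]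

variable (hrel : ∀ p, PP p → ∀ z, qq Φ m p z = ((3:ℂ)⁻¹) ^ p.2 * z ^ (p.1 + p.2) * rr Φ m p z)

include hm hrel

theorem gb_eq {z : ℂ} (hz : ‖z‖ < 1) : Φ (ev (vb z) z) = BB Φ m z := by
  have h1 : HasSum (fun p : ℕ × ℕ => ∑ j ∈ Finset.range m, z ^ j * (cR z p * ps Φ j (ep (iR p))))
      (∑ j ∈ Finset.range m, z ^ j * (ps Φ j (vb z) - ps Φ j (ep iD))) :=
    hasSum_sum (fun j _ => (vb_apply (ps Φ j) hz).mul_left _)
  have h2 : (fun p : ℕ × ℕ => ∑ j ∈ Finset.range m, z ^ j * (cR z p * ps Φ j (ep (iR p)))) =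
      fun p => cR z p * rr Φ m p z := by
    funext p
    unfold rr
    rw [Finset.mul_sum]
    apply Finset.sum_congr rfl
    intro j _
    ring
  rw [h2] at h1
  have h3 : HasSum (fun p : ℕ × ℕ => cR z p * rr Φ m p z)
      (∑ p ∈ ((Finset.range m) ×ˢ (Finset.range m)).filter PP, cR z p * rr Φ m p z) := by
    apply hasSum_sum_of_ne_finset_zero
    intro p hp
    by_cases hPP : PP p
    · have : m ≤ p.1 + p.2 := by
        by_contra hcon
        push Not at hcon
        apply hp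
        rw [Finset.mem_filter, Finset.mem_product, Finset.mem_range, Finset.mem_range]
        exact ⟨⟨by omega, by omega⟩, hPP⟩
      rw [degree_zero this (hrel p hPP), mul_zero]
    · unfold cR
      rw [if_neg hPP, zero_mul]
  have h4 := h1.unique h3
  rw [Φ_ev Φ hm]
  unfold BB dd
  have h5 : ∑ j ∈ Finset.range m, z ^ j * (ps Φ j (vb z) - ps Φ j (ep iD)) =
      (∑ j ∈ Finset.range m, z ^ j * ps Φ j (vb z)) - ∑ j ∈ Finset.range m, z ^ j * ps Φ j (ep iD) := by
    rw [← Finset.sum_sub_distrib]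
    apply Finset.sum_congr rfl
    intro j _
    ring
  rw [h5] at h4
  have h6 : ∑ p ∈ ((Finset.range m) ×ˢ (Finset.range m)).filter PP, cR z p * rr Φ m p z =
      ∑ p ∈ ((Finset.range m) ×ˢ (Finset.range m)).filter PP, z ^ p.1 * rr Φ m p z := by
    apply Finset.sum_congr rfl
    intro p hp
    unfold cR
    rw [if_pos (Finset.mem_filter.1 hp).2]
  rw [← h6, ← h4]
  ring

theorem gc_eq {z : ℂ} (hz : 3 < ‖z‖) : Φ (ev (vc z) z) = BB Φ m z := by
  have hz0 : z ≠ 0 := by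
    intro h; rw [h, norm_zero] at hz; norm_num at hz
  have h1 : HasSum (fun p : ℕ × ℕ => ∑ j ∈ Finset.range m, z ^ j * (cQ z p * ps Φ j (ep (iQ p))))
      (∑ j ∈ Finset.range m, z ^ j * (ps Φ j (vc z) - ps Φ j (ep iD))) :=
    hasSum_sum (fun j _ => (vc_apply (ps Φ j) hz).mul_left _)
  have h2 : (fun p : ℕ × ℕ => ∑ j ∈ Finset.range m, z ^ j * (cQ z p * ps Φ j (ep (iQ p)))) =
      fun p => cQ z p * qq Φ m p z := by
    funext p
    unfold qq
    rw [Finset.mul_sum]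
    apply Finset.sum_congr rfl
    intro j _
    ring
  rw [h2] at h1
  have h3 : HasSum (fun p : ℕ × ℕ => cQ z p * qq Φ m p z)
      (∑ p ∈ ((Finset.range m) ×ˢ (Finset.range m)).filter PP, cQ z p * qq Φ m p z) := by
    apply hasSum_sum_of_ne_finset_zero
    intro p hp
    by_cases hPP : PP p
    · have : m ≤ p.1 + p.2 := by
        by_contra hcon
        push Not at hcon
        apply hp
        rw [Finset.mem_filter, Finset.mem_product, Finset.mem_range, Finset.mem_range]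
        exact ⟨⟨by omega, by omega⟩, hPP⟩
      rw [hrel p hPP, degree_zero this (hrel p hPP), mul_zero, mul_zero]
    · unfold cQ
      rw [if_neg hPP, zero_mul]
  have h4 := h1.unique h3
  rw [Φ_ev Φ hm]
  unfold BB dd
  have h5 : ∑ j ∈ Finset.range m, z ^ j * (ps Φ j (vc z) - ps Φ j (ep iD)) =
      (∑ j ∈ Finset.range m, z ^ j * ps Φ j (vc z)) - ∑ j ∈ Finset.range m, z ^ j * ps Φ j (ep iD) := by
    rw [← Finset.sum_sub_distrib]
    apply Finset.sum_congr rfl
    intro j _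
    ring
  rw [h5] at h4
  have h6 : ∑ p ∈ ((Finset.range m) ×ˢ (Finset.range m)).filter PP, cQ z p * qq Φ m p z =
      ∑ p ∈ ((Finset.range m) ×ˢ (Finset.range m)).filter PP, z ^ p.1 * rr Φ m p z := by
    apply Finset.sum_congr rfl
    intro p hp
    have hPP := (Finset.mem_filter.1 hp).2
    unfold cQ
    rw [if_pos hPP, hrel p hPP, div_pow, pow_add, inv_pow]
    have h3' : (3:ℂ) ^ p.2 ≠ 0 := pow_ne_zero _ (by norm_num)
    have hz' : z ^ p.2 ≠ 0 := pow_ne_zero _ hz0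
    field_simp
  rw [← h6, ← h4]
  ring

end func

theorem open_small : ∀ᶠ z in 𝓝 (0:ℂ), ‖z‖ < 1 := by
  have : Metric.ball (0:ℂ) 1 ∈ 𝓝 (0:ℂ) := Metric.ball_mem_nhds _ one_pos
  filter_upwards [this] with z hz
  rwa [mem_ball_zero_iff] at hz

theorem open_mid : ∀ᶠ z in 𝓝 (5 / 2 : ℂ), 2 < ‖z‖ ∧ ‖z‖ < 3 := by
  have h1 : IsOpen {z : ℂ | 2 < ‖z‖ ∧ ‖z‖ < 3} :=
    (isOpen_lt continuous_const continuous_norm).inter (isOpen_lt continuous_norm continuous_const)
  apply h1.mem_nhds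
  show 2 < ‖(5 / 2 : ℂ)‖ ∧ ‖(5 / 2 : ℂ)‖ < 3
  norm_num

theorem open_large : ∀ᶠ z in 𝓝 (4 : ℂ), 3 < ‖z‖ := by
  have h1 : IsOpen {z : ℂ | 3 < ‖z‖} := isOpen_lt continuous_const continuous_norm
  apply h1.mem_nhds
  show 3 < ‖(4 : ℂ)‖
  norm_num

theorem fromE {Φ : P →L[ℂ] ℂ} (h : ∀ y ∈ EE, Φ y = 0) : ∀ y ∈ FF, Φ y = 0 := by
  obtain ⟨m, hm⟩ := functional_finite Φ
  have h1 : ∀ z, ‖z‖ < 3 → Φ (ev (va z) z) = 0 := by
    apply ga_zero hm (z0 := 0) (by simp)
    filter_upwards [open_small] with z hz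
    exact h _ ⟨z, hz, Or.inl rfl⟩
  have h2 : ∀ p, PP p → ∀ z, qq Φ m p z = ((3:ℂ)⁻¹) ^ p.2 * z ^ (p.1 + p.2) * rr Φ m p z := by
    intro p hp
    apply vp_entire hm (z0 := 0)
    filter_upwards [open_small] with z hz
    exact h _ ⟨z, hz, Or.inr (Or.inr ⟨p, hp, rfl⟩)⟩
  have h3 : ∀ z, BB Φ m z = 0 := by
    apply entire_zero (BB_diff Φ m) (z0 := 0)
    filter_upwards [open_small] with z hz
    rw [← gb_eq hm h2 hz]
    exact h _ ⟨z, hz, Or.inr (Or.inl rfl)⟩
  rintro y ⟨z, hz2, ⟨hz3, rfl⟩ | ⟨hz3, rfl⟩ | ⟨hz3, p, hp, rfl⟩⟩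
  · exact h1 z hz3
  · rw [gc_eq hm h2 hz3]; exact h3 z
  · rw [Φ_vp hm, h2 p hp]; ring

theorem fromF {Φ : P →L[ℂ] ℂ} (h : ∀ y ∈ FF, Φ y = 0) : ∀ y ∈ EE, Φ y = 0 := by
  obtain ⟨m, hm⟩ := functional_finite Φ
  have h1 : ∀ z, ‖z‖ < 3 → Φ (ev (va z) z) = 0 := by
    apply ga_zero hm (z0 := 5 / 2) (by norm_num)
    filter_upwards [open_mid] with z hz
    exact h _ ⟨z, hz.1, Or.inl ⟨hz.2, rfl⟩⟩
  have h2 : ∀ p, PP p → ∀ z, qq Φ m p z = ((3:ℂ)⁻¹) ^ p.2 * z ^ (p.1 + p.2) * rr Φ m p z := by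
    intro p hp
    apply vp_entire hm (z0 := 4)
    filter_upwards [open_large] with z hz
    exact h _ ⟨z, by linarith, Or.inr (Or.inr ⟨hz, p, hp, rfl⟩)⟩
  have h3 : ∀ z, BB Φ m z = 0 := by
    apply entire_zero (BB_diff Φ m) (z0 := 4)
    filter_upwards [open_large] with z hz
    rw [← gc_eq hm h2 hz]
    exact h _ ⟨z, by linarith, Or.inr (Or.inl ⟨hz, rfl⟩)⟩
  rintro y ⟨z, hz, rfl | rfl | ⟨p, hp, rfl⟩⟩
  · exact h1 z (by linarith)
  · rw [gb_eq hm h2 hz]; exact h3 z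
  · rw [Φ_vp hm, h2 p hp]; ring

/-- Hahn-Banach for subspaces of `P` -/
theorem mem_closure_of {M : Submodule ℂ P} {y : P}
    (h : ∀ Φ : P →L[ℂ] ℂ, (∀ x ∈ M, Φ x = 0) → Φ y = 0) : y ∈ M.topologicalClosure := by
  by_contra hy
  have hconv : Convex ℝ (M.topologicalClosure : Set P) := by
    intro x hx w hw a b _ _ _
    have e1 : ∀ (r : ℝ) (u : P), r • u = (r : ℂ) • u := by
      intro r u
      funext n
      apply lp.ext
      funext i
      show r • (u n : B) i = (r : ℂ) • (u n : B) i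
      rw [Complex.real_smul, smul_eq_mul]
    rw [e1, e1]
    exact M.topologicalClosure.add_mem (M.topologicalClosure.smul_mem _ hx)
      (M.topologicalClosure.smul_mem _ hw)
  obtain ⟨f, u, hf1, hf2⟩ := RCLike.geometric_hahn_banach_closed_point (𝕜 := ℂ) hconv
    (Submodule.isClosed_topologicalClosure M) hy
  have hu : 0 < u := by
    have := hf1 0 M.topologicalClosure.zero_mem
    simpa using this
  have hzero : ∀ x ∈ M, f x = 0 := by
    intro x hx
    by_contra hne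
    have h1 := hf1 ((((u:ℂ)) / f x) • x) (M.topologicalClosure.smul_mem _ (M.le_topologicalClosure hx))
    rw [map_smul, smul_eq_mul, div_mul_cancel₀ _ hne] at h1
    simp at h1
  have h2 := h f hzero
  rw [h2] at hf2
  simp at hf2
  linarith

noncomputable def ME : Submodule ℂ P := (Submodule.span ℂ EE).topologicalClosure

theorem ME_closed : IsClosed (ME : Set P) := Submodule.isClosed_topologicalClosure _

theorem EE_sub {y : P} (hy : y ∈ EE) : y ∈ ME :=
  Submodule.le_topologicalClosure _ (Submodule.subset_span hy)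

theorem FF_sub {y : P} (hy : y ∈ FF) : y ∈ ME := by
  apply mem_closure_of
  intro Φ hΦ
  exact fromE (fun x hx => hΦ x (Submodule.subset_span hx)) y hy

theorem ME_eq : (Submodule.span ℂ FF).topologicalClosure = ME := by
  apply le_antisymm
  · apply Submodule.topologicalClosure_minimal _ _ ME_closed
    rw [Submodule.span_le]
    intro y hy
    exact FF_sub hy
  · apply Submodule.topologicalClosure_minimal _ _ (Submodule.isClosed_topologicalClosure _)
    rw [Submodule.span_le]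
    intro y hy
    apply mem_closure_of
    intro Φ hΦ
    exact fromF (fun x hx => hΦ x (Submodule.subset_span hx)) y hy

end Pool.Agent.H740R3.CS
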