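import Mathlib
import Pool.Agent.H740R3.CS2

set_option autoImplicit false
set_option synthInstance.maxHeartbeats 400000

open Filter Topology MeasureTheory
open scoped ENNReal NNReal

namespace Pool.Agent.H740R3.CS

noncomputable abbrev X : Type := ↥ME

instance : CompleteSpace X := ME_closed.completeSpace_coe

instance : IsUniformAddGroup X := AddSubgroup.isUniformAddGroup ME.toAddSubgroup

instance : TopologicalSpace.MetrizableSpace X :=
  (Topology.IsEmbedding.subtypeVal : Topology.IsEmbedding (Subtype.val : X → P)).metrizableSpace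

theorem lcs : @LocallyConvexSpace ℝ X _ _ _ (Module.complexToReal X) _ := by
  have h1 : LocallyConvexSpace ℝ X :=
    Topology.IsInducing.locallyConvexSpace (𝕜 := ℝ) (f := ME.subtype.restrictScalars ℝ)
      Topology.IsInducing.subtypeVal
  have h2 : (Submodule.module' ME : Module ℝ X) = Module.complexToReal X := by
    apply Module.ext'
    intro r m
    apply Subtype.ext
    funext n
    apply lp.ext
    funext w
    show r • ((m : P) n : B) w = (r : ℂ) • ((m : P) n : B) w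
    rw [Complex.real_smul, smul_eq_mul]
  rw [← h2]
  exact h1

theorem sepX : TopologicalSpace.SeparableSpace X := by
  have := sepB
  have h2 : SecondCountableTopology B := UniformSpace.secondCountable_of_separable B
  have h3 : SecondCountableTopology P := inferInstance
  infer_instance

theorem span_Sh {S : Set P} (hS : ∀ y ∈ S, ∃ z : ℂ, Sh y = z • y) {y : P}
    (hy : y ∈ Submodule.span ℂ S) : Sh y ∈ Submodule.span ℂ S := by
  induction hy using Submodule.span_induction with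
  | mem x hx =>
    obtain ⟨z, hz⟩ := hS x hx
    rw [hz]
    exact Submodule.smul_mem _ _ (Submodule.subset_span hx)
  | zero => rw [map_zero]; exact Submodule.zero_mem _
  | add x y _ _ hx hy => rw [map_add]; exact Submodule.add_mem _ hx hy
  | smul c x _ hx => rw [map_smul]; exact Submodule.smul_mem _ _ hx

theorem EE_eig {y : P} (hy : y ∈ EE) : ∃ z : ℂ, ‖z‖ < 1 ∧ Sh y = z • y := by
  obtain ⟨z, hz, rfl | rfl | ⟨p, hp, rfl⟩⟩ := hy
  · exact ⟨z, hz, Sh_ev _ _⟩
  · exact ⟨z, hz, Sh_ev _ _⟩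
  · exact ⟨z, hz, Sh_ev _ _⟩

theorem FF_eig {y : P} (hy : y ∈ FF) : ∃ z : ℂ, 2 < ‖z‖ ∧ Sh y = z • y := by
  obtain ⟨z, hz, ⟨-, rfl⟩ | ⟨-, rfl⟩ | ⟨-, p, hp, rfl⟩⟩ := hy
  · exact ⟨z, hz, Sh_ev _ _⟩
  · exact ⟨z, hz, Sh_ev _ _⟩
  · exact ⟨z, hz, Sh_ev _ _⟩

theorem M_ind {S : Set P} (hS : IsClosed S) (h : ∀ y ∈ Submodule.span ℂ EE, y ∈ S) :
    ∀ y ∈ ME, y ∈ S := by
  intro y hy
  have : closure ((Submodule.span ℂ EE : Submodule ℂ P) : Set P) ⊆ S := closure_minimal h hS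
  exact this hy

theorem Sh_ME {y : P} (hy : y ∈ ME) : Sh y ∈ ME := by
  refine M_ind (S := {y | Sh y ∈ ME}) (ME_closed.preimage Sh.continuous) ?_ y hy
  intro y hy
  refine Submodule.le_topologicalClosure _ (span_Sh ?_ hy)
  intro w hw
  obtain ⟨z, -, hz⟩ := EE_eig hw
  exact ⟨z, hz⟩

theorem Sh_pow_ME {y : P} (hy : y ∈ ME) (n : ℕ) : (Sh ^ n) y ∈ ME := by
  induction n with
  | zero => simpa using hy
  | succ n ih => rw [pow_succ', mul_apply_eq_comp]; exact Sh_ME ih

noncomputable def T : X →L[ℂ] X :=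
  (Sh.comp ME.subtypeL).codRestrict ME (fun x => Sh_ME x.2)

theorem T_coe (x : X) : ((T x : X) : P) = Sh x := rfl

theorem T_pow_coe (n : ℕ) (x : X) : (((T ^ n) x : X) : P) = (Sh ^ n) (x : P) := by
  induction n with
  | zero => simp
  | succ n ih => rw [pow_succ', mul_apply_eq_comp, T_coe, ih, pow_succ', mul_apply_eq_comp]

theorem dense_lift {S : Set P} (hS : S ⊆ ME)
    (hcl : (Submodule.span ℂ S).topologicalClosure = ME) :
    Dense (Submodule.span ℂ {x : X | (x : P) ∈ S} : Set X) := by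
  have hmap : Submodule.map ME.subtype (Submodule.span ℂ {x : X | (x : P) ∈ S}) =
      Submodule.span ℂ S := by
    rw [Submodule.map_span]
    congr 1
    ext y
    constructor
    · rintro ⟨x, hx, rfl⟩
      exact hx
    · intro hy
      exact ⟨⟨y, hS hy⟩, hy, rfl⟩
  intro x
  rw [closure_subtype]
  have h1 : ((↑) '' (Submodule.span ℂ {x : X | (x : P) ∈ S} : Set X) : Set P) =
      (Submodule.span ℂ S : Set P) := by
    rw [← hmap]; rfl
  rw [h1]
  have h2 : (x : P) ∈ (Submodule.span ℂ S).topologicalClosure := by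
    rw [hcl]; exact x.2
  exact h2

theorem denseE (α : ℝ≥0) (h1 : 1 < α) :
    Dense ((Submodule.span ℂ {x : X | ∃ z : ℂ, ‖z‖₊ < α ∧ T x = z • x}) : Set X) := by
  refine (dense_lift (fun y hy => EE_sub hy) (rfl : _ = ME)).mono ?_
  apply Submodule.span_mono
  intro x hx
  obtain ⟨z, hz, hs⟩ := EE_eig hx
  refine ⟨z, ?_, ?_⟩
  · have : ‖z‖₊ < 1 := by
      rw [← NNReal.coe_lt_coe]
      simpa using hz
    exact this.trans h1
  · apply Subtype.ext
    rw [T_coe]
    exact hs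

theorem denseF (α : ℝ≥0) (h2 : α < 2) :
    Dense ((Submodule.span ℂ {x : X | ∃ z : ℂ, α < ‖z‖₊ ∧ T x = z • x}) : Set X) := by
  refine (dense_lift (fun y hy => FF_sub hy) ME_eq).mono ?_
  apply Submodule.span_mono
  intro x hx
  obtain ⟨z, hz, hs⟩ := FF_eig hx
  refine ⟨z, ?_, ?_⟩
  · have : 2 < ‖z‖₊ := by
      rw [← NNReal.coe_lt_coe]
      simpa using hz
    exact h2.trans this
  · apply Subtype.ext
    rw [T_coe]
    exact hs

/-! coordinates -/

theorem va_A {z : ℂ} (hz : ‖z‖ < 3) (l : ℕ) : co (iA l) (va z) = (z / 3) ^ l := by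
  have h := va_apply (co (iA l)) hz
  have h2 := hasSum_single (f := fun n : ℕ => (z / 3) ^ n * co (iA l) (ep (iA n))) l (by
    intro n hn
    rw [co_ep, if_neg, mul_zero]
    intro h
    exact hn (Sum.inl.inj h).symm)
  rw [h.unique h2, co_ep, if_pos rfl, mul_one]

theorem va_other {z : ℂ} (hz : ‖z‖ < 3) {i : Ix} (hi : ∀ n, i ≠ iA n) : co i (va z) = 0 := by
  have h := va_apply (co i) hz
  have h2 : (fun n : ℕ => (z / 3) ^ n * co i (ep (iA n))) = fun _ => 0 := by
    funext n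
    rw [co_ep, if_neg (hi n), mul_zero]
  rw [h2] at h
  exact h.unique hasSum_zero

theorem vb_R {z : ℂ} (hz : ‖z‖ < 1) (p : ℕ × ℕ) : co (iR p) (vb z) = cR z p := by
  have h := vb_apply (co (iR p)) hz
  have h2 := hasSum_single (f := fun q : ℕ × ℕ => cR z q * co (iR p) (ep (iR q))) p (by
    intro n hn
    rw [co_ep, if_neg, mul_zero]
    intro h
    exact hn (Sum.inl.inj (Sum.inr.inj (Sum.inr.inj h))).symm)
  have h3 := h.unique h2
  rw [co_ep, co_ep, if_pos rfl, mul_one, if_neg (by unfold iR iD; simp), sub_zero] at h3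
  exact h3

theorem vb_other {z : ℂ} (hz : ‖z‖ < 1) {i : Ix} (hi : ∀ p, i ≠ iR p) :
    co i (vb z) = co i (ep iD) := by
  have h := vb_apply (co i) hz
  have h2 : (fun p : ℕ × ℕ => cR z p * co i (ep (iR p))) = fun _ => 0 := by
    funext n
    rw [co_ep, if_neg (hi n), mul_zero]
  rw [h2] at h
  exact sub_eq_zero.1 (h.unique hasSum_zero)

theorem iA_ne_R (n : ℕ) (p : ℕ × ℕ) : iA n ≠ iR p := by unfold iA iR; simp
theorem iA_ne_Q (n : ℕ) (p : ℕ × ℕ) : iA n ≠ iQ p := by unfold iA iQ; simp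
theorem iA_ne_D (n : ℕ) : iA n ≠ iD := by unfold iA iD; simp
theorem iR_ne_D (p : ℕ × ℕ) : iR p ≠ iD := by unfold iR iD; simp
theorem iQ_ne_D (p : ℕ × ℕ) : iQ p ≠ iD := by unfold iQ iD; simp
theorem iR_ne_Q (p q : ℕ × ℕ) : iR p ≠ iQ q := by unfold iR iQ; simp
theorem iR_inj {p q : ℕ × ℕ} (h : iR p = iR q) : p = q := Sum.inl.inj (Sum.inr.inj (Sum.inr.inj h))
theorem iQ_inj {p q : ℕ × ℕ} (h : iQ p = iQ q) : p = q := Sum.inr.inj (Sum.inr.inj (Sum.inr.inj h))

theorem vp_co (p : ℕ × ℕ) (z : ℂ) (i : Ix) : co i (vp p z) =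
    (if i = iQ p then 1 else 0) - ((3:ℂ)⁻¹) ^ p.2 * z ^ (p.1 + p.2) * (if i = iR p then 1 else 0) := by
  unfold vp
  rw [map_sub, map_smul, co_ep, co_ep, smul_eq_mul]

theorem rel1 (l : ℕ) {y : P} (hy : y ∈ ME) : (3:ℂ) ^ l * co (iA l) (y 0) = co (iA 0) (y l) := by
  refine M_ind (S := {y | (3:ℂ) ^ l * co (iA l) (y 0) = co (iA 0) (y l)}) ?_ ?_ y hy
  · apply isClosed_eq
    · exact continuous_const.mul ((co (iA l)).continuous.comp (continuous_apply 0))
    · exact (co (iA 0)).continuous.comp (continuous_apply l)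
  · intro y hy
    show (3:ℂ) ^ l * co (iA l) (y 0) = co (iA 0) (y l)
    induction hy using Submodule.span_induction with
    | mem x hx =>
      obtain ⟨z, hz, rfl | rfl | ⟨p, hp, rfl⟩⟩ := hx
      · rw [ev_apply, ev_apply, map_smul, map_smul, va_A (by linarith), va_A (by linarith),
          pow_zero, pow_zero, one_smul, smul_eq_mul, mul_one, ← mul_pow]
        congr 1
        ring
      · rw [ev_apply, ev_apply, map_smul, map_smul, vb_other hz (iA_ne_R l), vb_other hz (iA_ne_R 0),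
          co_ep, co_ep, if_neg (iA_ne_D _), if_neg (iA_ne_D _)]
        simp
      · rw [ev_apply, ev_apply, map_smul, map_smul, vp_co, vp_co, if_neg (iA_ne_Q _ _),
          if_neg (iA_ne_R _ _), if_neg (iA_ne_Q _ _), if_neg (iA_ne_R _ _)]
        simp
    | zero => simp
    | add x y _ _ hx hy =>
      rw [Pi.add_apply, Pi.add_apply, map_add, map_add, mul_add, hx, hy]
    | smul c x _ hx =>
      rw [Pi.smul_apply, Pi.smul_apply, map_smul, map_smul, smul_eq_mul, smul_eq_mul, ← hx]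
      ring

theorem rel2 {k l : ℕ} (hkl : PP (k, l)) {y : P} (hy : y ∈ ME) :
    co iD (y k) = co (iR (k, l)) (y 0) + ((3:ℂ)⁻¹) ^ l * co (iQ (k, l)) (y (k + l)) := by
  refine M_ind (S := {y | co iD (y k) = co (iR (k, l)) (y 0) +
    ((3:ℂ)⁻¹) ^ l * co (iQ (k, l)) (y (k + l))}) ?_ ?_ y hy
  · apply isClosed_eq
    · exact (co iD).continuous.comp (continuous_apply k)
    · exact ((co (iR (k, l))).continuous.comp (continuous_apply 0)).add
        (continuous_const.mul ((co (iQ (k, l))).continuous.comp (continuous_apply (k + l))))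
  · intro y hy
    show co iD (y k) = co (iR (k, l)) (y 0) + ((3:ℂ)⁻¹) ^ l * co (iQ (k, l)) (y (k + l))
    induction hy using Submodule.span_induction with
    | mem x hx =>
      obtain ⟨z, hz, rfl | rfl | ⟨p, hp, rfl⟩⟩ := hx
      · rw [ev_apply, ev_apply, ev_apply, map_smul, map_smul, map_smul,
          va_other (by linarith) (fun n => (iA_ne_D n).symm),
          va_other (by linarith) (fun n => (iA_ne_R n _).symm),
          va_other (by linarith) (fun n => (iA_ne_Q n _).symm)]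
        simp
      · rw [ev_apply, ev_apply, ev_apply, map_smul, map_smul, map_smul,
          vb_other hz (fun p => (iR_ne_D p).symm), vb_R hz,
          vb_other hz (fun p => (iR_ne_Q p _).symm), co_ep, co_ep, if_pos rfl, if_neg (iQ_ne_D _)]
        unfold cR
        rw [if_pos hkl]
        simp
      · rw [ev_apply, ev_apply, ev_apply, map_smul, map_smul, map_smul, vp_co, vp_co, vp_co,
          if_neg (iQ_ne_D p).symm, if_neg (iR_ne_D p).symm, if_neg (iR_ne_Q _ _),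
          if_neg (iR_ne_Q _ _).symm]
        by_cases hpe : (k, l) = p
        · subst hpe
          simp only [if_true, smul_eq_mul, pow_zero]
          ring
        · rw [if_neg (fun h => hpe (iR_inj h)), if_neg (fun h => hpe (iQ_inj h))]
          simp
    | zero => simp
    | add x y _ _ hx hy =>
      rw [Pi.add_apply, Pi.add_apply, Pi.add_apply, map_add, map_add, map_add, hx, hy]
      ring
    | smul c x _ hx =>
      rw [Pi.smul_apply, Pi.smul_apply, Pi.smul_apply, map_smul, map_smul, map_smul, hx]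
      simp only [smul_eq_mul]
      ring

/-- the target -/
noncomputable def g0 : B := va 0 + vb 0

theorem g0_A0 : co (iA 0) g0 = 1 := by
  unfold g0
  rw [map_add, va_A (by simp), vb_other (by simp) (iA_ne_R 0), co_ep, if_neg (iA_ne_D _)]
  simp

theorem g0_A {l : ℕ} (hl : 1 ≤ l) : co (iA l) g0 = 0 := by
  unfold g0
  rw [map_add, va_A (by simp), vb_other (by simp) (iA_ne_R l), co_ep, if_neg (iA_ne_D _)]
  simp
  omega

theorem g0_D : co iD g0 = 1 := by
  unfold g0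
  rw [map_add, va_other (by simp) (fun n => (iA_ne_D n).symm),
    vb_other (by simp) (fun p => (iR_ne_D p).symm), co_ep, if_pos rfl, zero_add]

theorem g0_R {p : ℕ × ℕ} (hp : PP p) : co (iR p) g0 = 0 := by
  unfold g0
  rw [map_add, va_other (by simp) (fun n => (iA_ne_R n _).symm), vb_R (by simp), zero_add]
  unfold cR
  rw [if_pos hp]
  exact zero_pow (by have := hp.1; omega)

theorem g0_Q (p : ℕ × ℕ) : co (iQ p) g0 = 0 := by
  unfold g0
  rw [map_add, va_other (by simp) (fun n => (iA_ne_Q n _).symm),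
    vb_other (by simp) (fun q => (iR_ne_Q q _).symm), co_ep, if_neg (iQ_ne_D _), zero_add]

theorem g0_mem : ev (va 0) 0 + ev (vb 0) 0 ∈ ME :=
  ME.add_mem (EE_sub ⟨0, by simp, Or.inl rfl⟩) (EE_sub ⟨0, by simp, Or.inr (Or.inl rfl)⟩)

/-- a visit of the orbit -/
def Vis (x : P) (n : ℕ) (ω : ℝ) : Prop := ‖((ω : ℝ) : ℂ) • x n - g0‖ < 1 / 4

theorem Vis.coord {x : P} {n : ℕ} {ω : ℝ} (h : Vis x n ω) (i : Ix) :
    ‖(ω : ℂ) * co i (x n) - co i g0‖ < 1 / 4 := by
  have h1 := co_le i (((ω : ℝ) : ℂ) • x n - g0)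
  rw [map_sub, map_smul, smul_eq_mul] at h1
  exact lt_of_le_of_lt h1 h

theorem Vis.small {x : P} {n : ℕ} {ω : ℝ} (hω : 0 < ω) (h : Vis x n ω) {i : Ix}
    (hi : co i g0 = 0) : ω * ‖co i (x n)‖ < 1 / 4 := by
  have h1 := h.coord i
  rw [hi, sub_zero, norm_mul, Complex.norm_real, Real.norm_of_nonneg hω.le] at h1
  exact h1

theorem Vis.big {x : P} {n : ℕ} {ω : ℝ} (hω : 0 < ω) (h : Vis x n ω) {i : Ix}
    (hi : co i g0 = 1) : 3 / 4 < ω * ‖co i (x n)‖ ∧ ω * ‖co i (x n)‖ < 5 / 4 := by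
  have h1 := h.coord i
  rw [hi] at h1
  have h2 : ‖(ω : ℂ) * co i (x n)‖ = ω * ‖co i (x n)‖ := by
    rw [norm_mul, Complex.norm_real, Real.norm_of_nonneg hω.le]
  have h3 : ‖(1:ℂ)‖ ≤ ‖(ω : ℂ) * co i (x n)‖ + ‖(ω : ℂ) * co i (x n) - 1‖ := by
    have : (1:ℂ) = (ω : ℂ) * co i (x n) - ((ω : ℂ) * co i (x n) - 1) := by ring
    conv_lhs => rw [this]
    exact norm_sub_le _ _
  have h4 : ‖(ω : ℂ) * co i (x n)‖ ≤ ‖(ω : ℂ) * co i (x n) - 1‖ + ‖(1:ℂ)‖ := by
    have : (ω : ℂ) * co i (x n) = ((ω : ℂ) * co i (x n) - 1) + 1 := by ring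
    conv_lhs => rw [this]
    exact norm_add_le _ _
  rw [norm_one] at h3 h4
  rw [h2] at h3 h4
  constructor <;> linarith

theorem triple {x : P} (hx : x ∈ ME) {n k l : ℕ} (hkl : PP (k, l)) {ω1 ω2 ω3 : ℝ} (h1 : 0 < ω1)
    (h2 : 0 < ω2) (h3 : 0 < ω3) (h12 : ω2 ≤ ω1) (v1 : Vis x n ω1) (v2 : Vis x (n + k) ω2)
    (v3 : Vis x (n + k + l) ω3) : False := by
  have r1 := rel1 l (Sh_pow_ME hx (n + k))
  rw [Sh_pow, Sh_pow, zero_add] at r1
  have r2 := rel2 hkl (Sh_pow_ME hx n)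
  rw [Sh_pow, Sh_pow, Sh_pow, zero_add] at r2
  have e1 : l + (n + k) = n + k + l := by ring
  have e2 : k + n = n + k := by ring
  have e3 : k + l + n = n + k + l := by ring
  rw [e1] at r1
  rw [e2, e3] at r2
  set a2 := ‖co (iA l) (x (n + k))‖ with ha2
  set a3 := ‖co (iA 0) (x (n + k + l))‖ with ha3
  set d2 := ‖co iD (x (n + k))‖ with hd2
  set r := ‖co (iR (k, l)) (x n)‖ with hr
  set q := ‖co (iQ (k, l)) (x (n + k + l))‖ with hq
  have f1 : (3:ℝ) ^ l * a2 = a3 := by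
    rw [ha3, ← r1, norm_mul, norm_pow, Complex.norm_ofNat]
  have f2 : d2 ≤ r + ((3:ℝ) ^ l)⁻¹ * q := by
    rw [hd2, r2]
    refine (norm_add_le _ _).trans ?_
    rw [norm_mul, norm_pow, norm_inv, Complex.norm_ofNat, inv_pow]
  have g1 := v2.small h2 (g0_A hkl.2.1)
  have g2 := (v3.big h3 g0_A0).1
  have g3 := (v2.big h2 g0_D).1
  have g4 := v1.small h1 (g0_R hkl)
  have g5 := v3.small h3 (g0_Q (k, l))
  rw [← ha2] at g1
  rw [← ha3, ← f1] at g2
  rw [← hd2] at g3
  rw [← hr] at g4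
  rw [← hq] at g5
  have hL : (0:ℝ) < 3 ^ l := by positivity
  have ha2n : 0 ≤ a2 := norm_nonneg _
  have hrn : 0 ≤ r := norm_nonneg _
  have hqn : 0 ≤ q := norm_nonneg _
  -- ω3 * 3^l > 3 * ω2
  have s1 : 3 * ω2 < ω3 * 3 ^ l := by
    by_contra hcon
    push Not at hcon
    have : ω3 * (3 ^ l * a2) ≤ 3 * (ω2 * a2) := by
      calc ω3 * (3 ^ l * a2) = (ω3 * 3 ^ l) * a2 := by ring
        _ ≤ (3 * ω2) * a2 := mul_le_mul_of_nonneg_right hcon ha2n
        _ = 3 * (ω2 * a2) := by ring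
    linarith
  have s2 : ω2 * r ≤ 1 / 4 := by
    have : ω2 * r ≤ ω1 * r := mul_le_mul_of_nonneg_right h12 hrn
    linarith
  have s3 : ω2 * (((3:ℝ) ^ l)⁻¹ * q) ≤ 1 / 12 := by
    have h6 : ω2 * ((3:ℝ) ^ l)⁻¹ ≤ ω3 / 3 := by
      rw [← div_eq_mul_inv, div_le_div_iff₀ hL (by norm_num)]
      linarith
    calc ω2 * (((3:ℝ) ^ l)⁻¹ * q) = (ω2 * ((3:ℝ) ^ l)⁻¹) * q := by ring
      _ ≤ (ω3 / 3) * q := mul_le_mul_of_nonneg_right h6 hqn
      _ = (ω3 * q) / 3 := by ring
      _ ≤ 1 / 12 := by linarith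
  have s4 : ω2 * d2 ≤ ω2 * r + ω2 * (((3:ℝ) ^ l)⁻¹ * q) := by
    rw [← mul_add]
    exact mul_le_mul_of_nonneg_left f2 h2.le
  linarith

end Pool.Agent.H740R3.CS
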