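import Mathlib
import Pool.Agent.H740R3.CS3

set_option autoImplicit false
set_option synthInstance.maxHeartbeats 400000

open Filter Topology MeasureTheory
open scoped ENNReal NNReal

namespace Pool.Agent.H740R3.CS

/-- sparse small sets do not cover infinitely often -/
theorem good_r (S : ℕ → Set ℝ) (K : ℕ)
    (ha : ∀ n, 1 ≤ n → volume (S n) ≤ ENNReal.ofReal (1 / n))
    (hb : ∀ j n n' : ℕ, K ≤ n → n < n' → 2 ^ j ≤ n → n' < 2 ^ (j + 1) → (S n).Nonempty →
      (S n').Nonempty → (n' - n) ^ 2 < 2 ^ (j + 1)) :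
    ∃ r ∈ Set.Icc (0.6:ℝ) 0.9, ∃ N0 : ℕ, ∀ n, N0 ≤ n → r ∉ S n := by
  classical
  -- measure of one window
  have hwin : ∀ j : ℕ, K ≤ 2 ^ j →
      volume (⋃ n ∈ Set.Ico (2 ^ j) (2 ^ (j + 1)), S n) ≤ ENNReal.ofReal (3 * (3 / 4 : ℝ) ^ j) := by
    intro j hj
    by_cases hne : ∃ n, n ∈ Set.Ico (2 ^ j) (2 ^ (j + 1)) ∧ (S n).Nonempty
    · set m := Nat.find hne with hm
      obtain ⟨hm1, hm2⟩ := Nat.find_spec hne
      rw [← hm] at hm1 hm2
      set M := ⌈(3 / 2 : ℝ) ^ (j + 1)⌉₊ with hM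
      have hsub : (⋃ n ∈ Set.Ico (2 ^ j) (2 ^ (j + 1)), S n) ⊆ ⋃ i ∈ Finset.range M, S (m + i) := by
        intro r hr
        rw [Set.mem_iUnion₂] at hr
        obtain ⟨n, hn, hrn⟩ := hr
        have hmn : m ≤ n := Nat.find_min' hne ⟨hn, ⟨r, hrn⟩⟩
        rw [Set.mem_iUnion₂]
        refine ⟨n - m, ?_, ?_⟩
        · rw [Finset.mem_range]
          rcases eq_or_lt_of_le hmn with h | h
          · rw [← h, Nat.sub_self]
            exact Nat.ceil_pos.2 (by positivity)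
          · have h1 := hb j m n (hj.trans hm1.1) h hm1.1 hn.2 hm2 ⟨r, hrn⟩
            have h2 : ((n - m : ℕ) : ℝ) ^ 2 < ((3 / 2 : ℝ) ^ (j + 1)) ^ 2 := by
              have h3 : ((n - m : ℕ) : ℝ) ^ 2 < 2 ^ (j + 1) := by exact_mod_cast h1
              refine h3.trans_le ?_
              rw [← pow_mul, mul_comm, pow_mul]
              exact pow_le_pow_left₀ (by norm_num) (by norm_num) _
            have h4 : ((n - m : ℕ) : ℝ) < (3 / 2 : ℝ) ^ (j + 1) :=
              lt_of_pow_lt_pow_left₀ 2 (by positivity) h2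
            have h5 : ((n - m : ℕ) : ℝ) < (M : ℝ) := h4.trans_le (Nat.le_ceil _)
            exact_mod_cast h5
        · rwa [Nat.add_sub_cancel' hmn]
      have h2j : (0:ℝ) < 2 ^ j := by positivity
      calc volume (⋃ n ∈ Set.Ico (2 ^ j) (2 ^ (j + 1)), S n)
          ≤ volume (⋃ i ∈ Finset.range M, S (m + i)) := measure_mono hsub
        _ ≤ ∑ i ∈ Finset.range M, volume (S (m + i)) := measure_biUnion_finset_le _ _
        _ ≤ ∑ i ∈ Finset.range M, ENNReal.ofReal (1 / 2 ^ j) := by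
            apply Finset.sum_le_sum
            intro i _
            have h1 : 1 ≤ m + i := by
              have : 1 ≤ 2 ^ j := Nat.one_le_two_pow
              have := hm1.1
              omega
            refine (ha _ h1).trans (ENNReal.ofReal_le_ofReal ?_)
            apply one_div_le_one_div_of_le h2j
            have : 2 ^ j ≤ m + i := by have := hm1.1; omega
            exact_mod_cast this
        _ = ENNReal.ofReal (M * (1 / 2 ^ j)) := by
            rw [Finset.sum_const, Finset.card_range, nsmul_eq_mul, ENNReal.ofReal_mul (by positivity),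
              ENNReal.ofReal_natCast]
        _ ≤ ENNReal.ofReal (3 * (3 / 4 : ℝ) ^ j) := by
            apply ENNReal.ofReal_le_ofReal
            have h1 : (M : ℝ) < (3 / 2 : ℝ) ^ (j + 1) + 1 := Nat.ceil_lt_add_one (by positivity)
            have h2 : (1:ℝ) ≤ (3 / 2 : ℝ) ^ (j + 1) := one_le_pow₀ (by norm_num)
            have h3 : (M : ℝ) ≤ 3 * (3 / 2 : ℝ) ^ j := by
              rw [pow_succ] at h1 h2
              linarith
            have h4 : (3 / 4 : ℝ) ^ j = (3 / 2 : ℝ) ^ j * (1 / 2 ^ j) := by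
              rw [← one_div_pow, ← mul_pow]; norm_num
            rw [h4, ← mul_assoc]
            exact mul_le_mul_of_nonneg_right h3 (by positivity)
    · have : (⋃ n ∈ Set.Ico (2 ^ j) (2 ^ (j + 1)), S n) = ∅ := by
        apply Set.eq_empty_iff_forall_notMem.2
        intro r hr
        rw [Set.mem_iUnion₂] at hr
        obtain ⟨n, hn, hrn⟩ := hr
        exact hne ⟨n, hn, ⟨r, hrn⟩⟩
      rw [this, measure_empty]
      exact bot_le
  have hsum : Summable (fun j : ℕ => 3 * (3 / 4 : ℝ) ^ j) :=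
    (summable_geometric_of_lt_one (by norm_num) (by norm_num)).mul_left 3
  have htail := tendsto_sum_nat_add (fun j : ℕ => 3 * (3 / 4 : ℝ) ^ j)
  have hK : ∃ J0 : ℕ, K ≤ 2 ^ J0 := ⟨K, Nat.lt_two_pow_self.le⟩
  obtain ⟨J0, hJ0⟩ := hK
  obtain ⟨J, hJ1, hJ2⟩ := ((htail.eventually (gt_mem_nhds (show (0:ℝ) < 0.3 by norm_num))).and
    (eventually_ge_atTop J0)).exists
  have hKJ : ∀ j, K ≤ 2 ^ (j + J) := fun j =>
    hJ0.trans (Nat.pow_le_pow_right (by norm_num) (by omega))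
  have hU : volume (⋃ j : ℕ, ⋃ n ∈ Set.Ico (2 ^ (j + J)) (2 ^ (j + J + 1)), S n) <
      volume (Set.Icc (0.6:ℝ) 0.9) := by
    calc volume (⋃ j : ℕ, ⋃ n ∈ Set.Ico (2 ^ (j + J)) (2 ^ (j + J + 1)), S n)
        ≤ ∑' j : ℕ, volume (⋃ n ∈ Set.Ico (2 ^ (j + J)) (2 ^ (j + J + 1)), S n) :=
          measure_iUnion_le _
      _ ≤ ∑' j : ℕ, ENNReal.ofReal (3 * (3 / 4 : ℝ) ^ (j + J)) :=
          ENNReal.tsum_le_tsum (fun j => hwin (j + J) (hKJ j))
      _ = ENNReal.ofReal (∑' j : ℕ, 3 * (3 / 4 : ℝ) ^ (j + J)) := by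
          rw [ENNReal.ofReal_tsum_of_nonneg]
          · intro j; positivity
          · exact (summable_nat_add_iff J).2 hsum
      _ < volume (Set.Icc (0.6:ℝ) 0.9) := by
          rw [Real.volume_Icc]
          apply (ENNReal.ofReal_lt_ofReal_iff (by norm_num)).2
          refine hJ1.trans_le ?_
          norm_num
  obtain ⟨r, hr1, hr2⟩ : ∃ r ∈ Set.Icc (0.6:ℝ) 0.9,
      r ∉ ⋃ j : ℕ, ⋃ n ∈ Set.Ico (2 ^ (j + J)) (2 ^ (j + J + 1)), S n := by
    by_contra hcon
    push Not at hcon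
    exact absurd (measure_mono (μ := volume) hcon) (not_le.2 hU)
  refine ⟨r, hr1, 2 ^ J, fun n hn hrn => hr2 ?_⟩
  have hn0 : n ≠ 0 := by
    have : 1 ≤ 2 ^ J := Nat.one_le_two_pow
    omega
  have h1 : J ≤ Nat.log 2 n := Nat.le_log_of_pow_le (by norm_num) hn
  rw [Set.mem_iUnion]
  refine ⟨Nat.log 2 n - J, ?_⟩
  rw [Nat.sub_add_cancel h1, Set.mem_iUnion₂]
  exact ⟨n, ⟨Nat.pow_log_le_self 2 hn0, Nat.lt_pow_succ_log_self (by norm_num) n⟩, hrn⟩

theorem vis_measure (x : P) (n : ℕ) (hn : 1 ≤ n) :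
    volume {r : ℝ | r ∈ Set.Icc (0.6:ℝ) 0.9 ∧ Vis x n (r ^ n)} ≤ ENNReal.ofReal (1 / n) := by
  refine (Real.volume_le_diam _).trans ?_
  apply Metric.ediam_le
  have key : ∀ r ∈ {r : ℝ | r ∈ Set.Icc (0.6:ℝ) 0.9 ∧ Vis x n (r ^ n)},
      ∀ r' ∈ {r : ℝ | r ∈ Set.Icc (0.6:ℝ) 0.9 ∧ Vis x n (r ^ n)}, r ≤ r' → r' - r ≤ 1 / n := by
    rintro r ⟨⟨h1, h2⟩, hv⟩ r' ⟨⟨h1', h2'⟩, hv'⟩ hrr
    have hn0 : (0:ℝ) < n := by exact_mod_cast hn
    have hr0 : 0 < r := by linarith
    have hr0' : 0 < r' := by linarith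
    have b1 := (hv.big (by positivity) g0_D).1
    have b2 := (hv'.big (by positivity) g0_D).2
    set c := ‖co iD (x n)‖ with hc
    have hc0 : 0 < c := by
      by_contra hcon
      push Not at hcon
      have : c = 0 := le_antisymm hcon (norm_nonneg _)
      rw [this] at b1
      norm_num at b1
    have hratio : (r' / r) ^ n < 5 / 3 := by
      rw [div_pow, div_lt_iff₀ (by positivity)]
      by_contra hcon
      push Not at hcon
      have : 5 / 3 * r ^ n * c ≤ r' ^ n * c := mul_le_mul_of_nonneg_right hcon hc0.le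
      nlinarith
    have hbern := one_add_mul_le_pow (show (-2:ℝ) ≤ r' / r - 1 by
      have : 0 ≤ r' / r := by positivity
      linarith) n
    have e1 : 1 + (r' / r - 1) = r' / r := by ring
    rw [e1] at hbern
    have h3 : n * (r' / r - 1) < 2 / 3 := by linarith
    have h4 : r' / r - 1 = (r' - r) / r := by field_simp
    rw [h4] at h3
    rw [le_div_iff₀ hn0]
    have h5 : n * ((r' - r) / r) * r = (r' - r) * n := by field_simp
    have h6 : n * ((r' - r) / r) * r ≤ 2 / 3 * r := mul_le_mul_of_nonneg_right h3.le hr0.le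
    rw [h5] at h6
    linarith
  intro r hr r' hr'
  rw [edist_dist, Real.dist_eq]
  apply ENNReal.ofReal_le_ofReal
  rcases le_total r r' with h | h
  · have := key r hr r' hr' h
    rw [abs_sub_comm, abs_of_nonneg (by linarith)]
    exact this
  · have := key r' hr' r hr h
    rw [abs_of_nonneg (by linarith)]
    exact this

theorem no_common (x : X) (h : ∀ r : ℝ, r ∈ Set.Icc (0.6:ℝ) 0.9 →
    Dense (Set.range (fun n : ℕ => (((r : ℂ) • T) ^ n) x))) : False := by
  classical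
  set U : Set X := {y | ‖((y : P) 0 : B) - g0‖ < 1 / 4} with hU
  have hUopen : IsOpen U := by
    have h1 : Continuous (fun y : X => ((y : P) 0 : B)) :=
      (continuous_apply 0).comp continuous_subtype_val
    exact isOpen_lt (h1.sub continuous_const).norm continuous_const
  have hUne : U.Nonempty := ⟨⟨_, g0_mem⟩, by
    show ‖((ev (va 0) 0 + ev (vb 0) 0 : P) 0 : B) - g0‖ < 1 / 4
    have : (ev (va 0) 0 + ev (vb 0) 0 : P) 0 = g0 := by
      rw [Pi.add_apply, ev_apply, ev_apply, pow_zero, one_smul, one_smul]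
      rfl
    rw [this, sub_self, norm_zero]
    norm_num⟩
  have hpow : ∀ (r : ℝ) (n : ℕ), (((r : ℂ) • T) ^ n) x = ((r ^ n : ℝ) : ℂ) • (T ^ n) x := by
    intro r n
    induction n with
    | zero => simp
    | succ n ih =>
      rw [pow_succ', mul_apply_eq_comp, ih, smul_apply, map_smul, smul_smul, pow_succ' T,
        mul_apply_eq_comp]
      congr 1
      push_cast
      ring
  have hvis : ∀ (r : ℝ) (n : ℕ), (((r : ℂ) • T) ^ n) x ∈ U ↔ Vis (x : P) n (r ^ n) := by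
    intro r n
    rw [hpow]
    show ‖((((r ^ n : ℝ) : ℂ) • (((T ^ n) x : X) : P)) 0 : B) - g0‖ < 1 / 4 ↔ _
    rw [T_pow_coe, Pi.smul_apply, Sh_pow, zero_add]
    rfl
  -- first visit
  obtain ⟨n1, hn1⟩ : ∃ n1 : ℕ, Vis (x : P) n1 ((0.7:ℝ) ^ n1) := by
    obtain ⟨y, hyU, ⟨n, rfl⟩⟩ := (h 0.7 ⟨by norm_num, by norm_num⟩).inter_open_nonempty U hUopen hUne
    exact ⟨n, (hvis _ _).1 hyU⟩
  set ω1 : ℝ := (0.7:ℝ) ^ n1 with hω1
  have hω1pos : 0 < ω1 := by positivity
  obtain ⟨K0, hK0⟩ := exists_pow_lt_of_lt_one hω1pos (show (0.9:ℝ) < 1 by norm_num)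
  set S : ℕ → Set ℝ := fun n => {r : ℝ | r ∈ Set.Icc (0.6:ℝ) 0.9 ∧ Vis (x : P) n (r ^ n)} with hS
  obtain ⟨r, hr, N0, hN0⟩ := good_r S (max K0 (2 * n1 + 1)) (fun n hn => vis_measure x n hn) (by
    rintro j n n' hK hnn hj hj' ⟨r2, ⟨hr2a, hr2b⟩, hv2⟩ ⟨r3, ⟨hr3a, hr3b⟩, hv3⟩
    by_contra hcon
    push Not at hcon
    have hKa : K0 ≤ n := (le_max_left _ _).trans hK
    have hKb : 2 * n1 + 1 ≤ n := (le_max_right _ _).trans hK
    have hp : 2 ^ (j + 1) = 2 * 2 ^ j := by ring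
    have hPP : PP (n - n1, n' - n) := by
      refine ⟨by show 1 ≤ n - n1; omega, by show 1 ≤ n' - n; omega, ?_, ?_⟩
      · show n' - n ≤ 2 * (n - n1)
        omega
      · show n - n1 ≤ (n' - n) ^ 2
        have : n - n1 < 2 ^ (j + 1) := by omega
        omega
    have hpos2 : 0 < r2 ^ n := by positivity
    have hpos3 : 0 < r3 ^ n' := by positivity
    have hle : r2 ^ n ≤ ω1 := by
      calc r2 ^ n ≤ (0.9:ℝ) ^ n := pow_le_pow_left₀ (by linarith) hr2b n
        _ ≤ (0.9:ℝ) ^ K0 := pow_le_pow_of_le_one (by norm_num) (by norm_num) hKa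
        _ ≤ ω1 := hK0.le
    have en : n1 + (n - n1) = n := by omega
    have en' : n1 + (n - n1) + (n' - n) = n' := by omega
    exact triple x.2 hPP hω1pos hpos2 hpos3 hle hn1 (by rw [en]; exact hv2) (by rw [en']; exact hv3))
  have hd := h r hr
  have hntX : Nontrivial X := by
    refine ⟨⟨⟨_, g0_mem⟩, 0, ?_⟩⟩
    intro hh
    have h1 : (ev (va 0) 0 + ev (vb 0) 0 : P) = 0 := congrArg Subtype.val hh
    have h2 : (ev (va 0) 0 + ev (vb 0) 0 : P) 0 = g0 := by
      rw [Pi.add_apply, ev_apply, ev_apply, pow_zero, one_smul, one_smul]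
      rfl
    rw [h1] at h2
    have h3 := g0_D
    rw [← h2] at h3
    simp at h3
  have hne : ∀ y : X, NeBot (𝓝[≠] y) := fun y => Module.punctured_nhds_neBot ℂ X y
  set Fin : Set X := (fun n : ℕ => (((r : ℂ) • T) ^ n) x) '' (Set.Iio N0) with hFin
  have hfin : Fin.Finite := (Set.finite_Iio N0).image _
  have hd2 := hd.sdiff_finite hfin
  obtain ⟨y, hyU, ⟨n, rfl⟩, hyn⟩ := hd2.inter_open_nonempty U hUopen hUne
  have hKn : N0 ≤ n := by
    by_contra hcon
    push Not at hcon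
    exact hyn ⟨n, hcon, rfl⟩
  exact hN0 n hKn ⟨hr, (hvis r n).1 hyU⟩

end Pool.Agent.H740R3.CS
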