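import Mathlib

set_option autoImplicit false

open Filter Topology

namespace Pool.Agent.H740R3.Dust

/-- Data of one approximation task. -/
structure Task where
  u : ℕ → ℂ
  v : ℕ → ℂ
  L : ℕ
  hu : ∀ j, L ≤ j → u j = 0
  hv : ∀ j, L ≤ j → v j = 0
  M : ℝ
  hMu : ∀ j, ‖u j‖ ≤ M
  hMv : ∀ j, ‖v j‖ ≤ M
  θ : ℝ
  hθ : 0 < θ
  δ : ℝ
  hδ : 0 < δ
  hδ1 : δ ≤ 1

variable (t : Task)

theorem Task.M_nonneg : 0 ≤ t.M := (norm_nonneg _).trans (t.hMu 0)

/-- A block of the construction. -/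
def Blk (R : Set (ℝ × ℝ)) (n : ℕ) (p q : ℝ) (n' : ℕ) (p' q' : ℝ) : Prop :=
  n ≤ n' ∧ p ≤ p' ∧ q ≤ q' ∧ ∃ X Y : ℕ → ℂ,
    (∀ m, (m < n ∨ n' ≤ m) → X m = 0 ∧ Y m = 0) ∧
    (∀ m, ‖X m‖ ≤ t.θ * Real.exp (-p) ∧ ‖Y m‖ ≤ t.θ * Real.exp (-q)) ∧
    ∀ z ∈ R, ∃ k : ℕ, n ≤ k ∧ k + t.L ≤ n' ∧ z.1 * k ≤ p' + t.δ ∧ z.2 * k ≤ q' + t.δ ∧
      (∀ j < t.L, ‖((Real.exp (k * z.1) : ℝ) : ℂ) * X (j + k) - t.u j‖ ≤ 2 * t.δ * t.M ∧
        ‖((Real.exp (k * z.2) : ℝ) : ℂ) * Y (j + k) - t.v j‖ ≤ 2 * t.δ * t.M) ∧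
      (∀ j, t.L ≤ j → ‖((Real.exp (k * z.1) : ℝ) : ℂ) * X (j + k)‖ ≤ t.θ * Real.exp t.δ ∧
        ‖((Real.exp (k * z.2) : ℝ) : ℂ) * Y (j + k)‖ ≤ t.θ * Real.exp t.δ)

theorem Blk.mono {t : Task} {R R' : Set (ℝ × ℝ)} {n n' : ℕ} {p q p' q' : ℝ}
    (h : Blk t R n p q n' p' q') (hR : R' ⊆ R) : Blk t R' n p q n' p' q' := by
  obtain ⟨h1, h2, h3, X, Y, h4, h5, h6⟩ := h
  exact ⟨h1, h2, h3, X, Y, h4, h5, fun z hz => h6 z (hR hz)⟩

theorem Blk.move {n n' : ℕ} {p q p' q' : ℝ} (hn : n ≤ n') (hp : p ≤ p') (hq : q ≤ q') :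
    Blk t ∅ n p q n' p' q' := by
  refine ⟨hn, hp, hq, fun _ => 0, fun _ => 0, fun _ _ => ⟨rfl, rfl⟩, ?_, ?_⟩
  · intro m
    have := t.hθ
    constructor
    · simp only [norm_zero]; positivity
    · simp only [norm_zero]; positivity
  · intro z hz
    exact absurd hz (Set.notMem_empty z)

theorem norm_exp_mul (x : ℝ) (w : ℂ) : ‖((Real.exp x : ℝ) : ℂ) * w‖ = Real.exp x * ‖w‖ := by
  rw [norm_mul, Complex.norm_real, Real.norm_eq_abs, abs_of_pos (Real.exp_pos x)]

theorem Blk.comp {t : Task} {R R' : Set (ℝ × ℝ)} {n n' n'' : ℕ} {p q p' q' p'' q'' : ℝ}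
    (h : Blk t R n p q n' p' q') (h' : Blk t R' n' p' q' n'' p'' q'') :
    Blk t (R ∪ R') n p q n'' p'' q'' := by
  obtain ⟨h1, h2, h3, X, Y, h4, h5, h6⟩ := h
  obtain ⟨h1', h2', h3', X', Y', h4', h5', h6'⟩ := h'
  have hθ := t.hθ
  refine ⟨h1.trans h1', h2.trans h2', h3.trans h3', fun m => X m + X' m, fun m => Y m + Y' m,
    ?_, ?_, ?_⟩
  · rintro m (hm | hm)
    · obtain ⟨a1, a2⟩ := h4 m (Or.inl hm)
      obtain ⟨b1, b2⟩ := h4' m (Or.inl (lt_of_lt_of_le hm h1))
      simp [a1, a2, b1, b2]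
    · obtain ⟨a1, a2⟩ := h4 m (Or.inr (h1'.trans hm))
      obtain ⟨b1, b2⟩ := h4' m (Or.inr hm)
      simp [a1, a2, b1, b2]
  · intro m
    rcases lt_or_ge m n' with hm | hm
    · obtain ⟨b1, b2⟩ := h4' m (Or.inl hm)
      simp only [b1, b2, add_zero]
      exact h5 m
    · obtain ⟨a1, a2⟩ := h4 m (Or.inr hm)
      simp only [a1, a2, zero_add]
      obtain ⟨c1, c2⟩ := h5' m
      constructor
      · refine c1.trans (mul_le_mul_of_nonneg_left (Real.exp_le_exp.2 (by linarith)) hθ.le)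
      · refine c2.trans (mul_le_mul_of_nonneg_left (Real.exp_le_exp.2 (by linarith)) hθ.le)
  · intro z hz
    rcases hz with hz | hz
    · obtain ⟨k, k1, k2, k3, k4, k5, k6⟩ := h6 z hz
      refine ⟨k, k1, k2.trans h1', by linarith, by linarith, ?_, ?_⟩
      · intro j hj
        obtain ⟨b1, b2⟩ := h4' (j + k) (Or.inl (by omega))
        simp only [b1, b2, add_zero]
        exact k5 j hj
      · intro j hj
        rcases lt_or_ge (j + k) n' with hm | hm
        · obtain ⟨b1, b2⟩ := h4' (j + k) (Or.inl hm)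
          simp only [b1, b2, add_zero]
          exact k6 j hj
        · obtain ⟨a1, a2⟩ := h4 (j + k) (Or.inr hm)
          simp only [a1, a2, zero_add]
          obtain ⟨c1, c2⟩ := h5' (j + k)
          rw [norm_exp_mul, norm_exp_mul]
          constructor
          · calc Real.exp (k * z.1) * ‖X' (j + k)‖
                ≤ Real.exp (k * z.1) * (t.θ * Real.exp (-p')) :=
                  mul_le_mul_of_nonneg_left c1 (Real.exp_pos _).le
              _ = t.θ * Real.exp (k * z.1 - p') := by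
                  rw [Real.exp_sub, Real.exp_neg]; ring
              _ ≤ t.θ * Real.exp t.δ := by
                  apply mul_le_mul_of_nonneg_left _ hθ.le
                  apply Real.exp_le_exp.2
                  linarith
          · calc Real.exp (k * z.2) * ‖Y' (j + k)‖
                ≤ Real.exp (k * z.2) * (t.θ * Real.exp (-q')) :=
                  mul_le_mul_of_nonneg_left c2 (Real.exp_pos _).le
              _ = t.θ * Real.exp (k * z.2 - q') := by
                  rw [Real.exp_sub, Real.exp_neg]; ring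
              _ ≤ t.θ * Real.exp t.δ := by
                  apply mul_le_mul_of_nonneg_left _ hθ.le
                  apply Real.exp_le_exp.2
                  linarith
    · obtain ⟨k, k1, k2, k3, k4, k5, k6⟩ := h6' z hz
      refine ⟨k, h1.trans k1, k2, k3, k4, ?_, ?_⟩
      · intro j hj
        obtain ⟨a1, a2⟩ := h4 (j + k) (Or.inr (by omega))
        simp only [a1, a2, zero_add]
        exact k5 j hj
      · intro j hj
        obtain ⟨a1, a2⟩ := h4 (j + k) (Or.inr (by omega))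
        simp only [a1, a2, zero_add]
        exact k6 j hj

theorem exp_err {x δ : ℝ} (hx : |x| ≤ δ) (hδ : δ ≤ 1) : |Real.exp x - 1| ≤ 2 * δ := by
  have h1 : |x| ≤ 1 := hx.trans hδ
  have h2 := Real.abs_exp_sub_one_le h1
  linarith

theorem Blk.visit {n k : ℕ} {p q c l0 m0 : ℝ} (hn : n ≤ k) (hc0 : 0 ≤ c)
    (hc : t.M * Real.exp (-c) ≤ t.θ) (hp : p + c ≤ l0 * k) (hq : q + c ≤ m0 * k) :
    Blk t {z | |z.1 - l0| * k ≤ t.δ ∧ |z.2 - m0| * k ≤ t.δ} n p q (k + t.L) (l0 * k) (m0 * k) := by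
  have hM := t.M_nonneg
  have hθ := t.hθ
  have hδ := t.hδ
  refine ⟨by omega, by linarith, by linarith,
    fun m => if k ≤ m then ((Real.exp (-(l0 * k)) : ℝ) : ℂ) * t.u (m - k) else 0,
    fun m => if k ≤ m then ((Real.exp (-(m0 * k)) : ℝ) : ℂ) * t.v (m - k) else 0, ?_, ?_, ?_⟩
  · rintro m (hm | hm)
    · beta_reduce
      rw [if_neg (by omega), if_neg (by omega)]; exact ⟨rfl, rfl⟩
    · beta_reduce
      rw [if_pos (by omega), if_pos (by omega), t.hu _ (by omega), t.hv _ (by omega)]; simp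
  · intro m
    beta_reduce
    constructor
    · split_ifs
      · rw [norm_exp_mul]
        calc Real.exp (-(l0 * k)) * ‖t.u (m - k)‖ ≤ Real.exp (-(p + c)) * t.M := by
              apply mul_le_mul (Real.exp_le_exp.2 (by linarith)) (t.hMu _) (norm_nonneg _)
                (Real.exp_pos _).le
          _ = (t.M * Real.exp (-c)) * Real.exp (-p) := by
              rw [neg_add, Real.exp_add]; ring
          _ ≤ t.θ * Real.exp (-p) := mul_le_mul_of_nonneg_right hc (Real.exp_pos _).le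
      · rw [norm_zero]; positivity
    · split_ifs
      · rw [norm_exp_mul]
        calc Real.exp (-(m0 * k)) * ‖t.v (m - k)‖ ≤ Real.exp (-(q + c)) * t.M := by
              apply mul_le_mul (Real.exp_le_exp.2 (by linarith)) (t.hMv _) (norm_nonneg _)
                (Real.exp_pos _).le
          _ = (t.M * Real.exp (-c)) * Real.exp (-q) := by
              rw [neg_add, Real.exp_add]; ring
          _ ≤ t.θ * Real.exp (-q) := mul_le_mul_of_nonneg_right hc (Real.exp_pos _).le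
      · rw [norm_zero]; positivity
  · rintro z ⟨hz1, hz2⟩
    have hk0 : (0:ℝ) ≤ k := by positivity
    have e1 : |(z.1 - l0) * k| ≤ t.δ := by rw [abs_mul, abs_of_nonneg hk0]; exact hz1
    have e2 : |(z.2 - m0) * k| ≤ t.δ := by rw [abs_mul, abs_of_nonneg hk0]; exact hz2
    have f1 := (abs_le.1 e1).2
    have f2 := (abs_le.1 e2).2
    refine ⟨k, hn, le_rfl, by linarith, by linarith, ?_, ?_⟩
    · intro j _
      have g1 : j + k - k = j := by omega
      simp only [if_pos (show k ≤ j + k by omega), g1]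
      constructor
      · have : ((Real.exp (k * z.1) : ℝ) : ℂ) * (((Real.exp (-(l0 * k)) : ℝ) : ℂ) * t.u j) - t.u j
            = ((Real.exp ((z.1 - l0) * k) - 1 : ℝ) : ℂ) * t.u j := by
          rw [← mul_assoc, ← Complex.ofReal_mul, ← Real.exp_add]
          have : (k:ℝ) * z.1 + -(l0 * k) = (z.1 - l0) * k := by ring
          rw [this]
          push_cast
          ring
        rw [this, norm_mul, Complex.norm_real, Real.norm_eq_abs]
        exact mul_le_mul (exp_err e1 t.hδ1) (t.hMu j) (norm_nonneg _) (by positivity)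
      · have : ((Real.exp (k * z.2) : ℝ) : ℂ) * (((Real.exp (-(m0 * k)) : ℝ) : ℂ) * t.v j) - t.v j
            = ((Real.exp ((z.2 - m0) * k) - 1 : ℝ) : ℂ) * t.v j := by
          rw [← mul_assoc, ← Complex.ofReal_mul, ← Real.exp_add]
          have : (k:ℝ) * z.2 + -(m0 * k) = (z.2 - m0) * k := by ring
          rw [this]
          push_cast
          ring
        rw [this, norm_mul, Complex.norm_real, Real.norm_eq_abs]
        exact mul_le_mul (exp_err e2 t.hδ1) (t.hMv j) (norm_nonneg _) (by positivity)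
    · intro j hj
      have g1 : j + k - k = j := by omega
      simp only [if_pos (show k ≤ j + k by omega), g1]
      rw [t.hu j hj, t.hv j hj]
      simp only [mul_zero, norm_zero]
      constructor <;> positivity

end Pool.Agent.H740R3.Dust
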