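import Mathlib
import Pool.Agent.H740R3.Dust1

set_option autoImplicit false

open Filter Topology

namespace Pool.Agent.H740R3.Dust

/-- the linear Cantor set of ratio 1/4 -/
def K : Set ℝ := {x | ∃ ε : ℕ → Bool, x = ∑' m : ℕ, (if ε m then (3/4 : ℝ) * (1/4 : ℝ) ^ m else 0)}

theorem summ_geo : Summable (fun m : ℕ => (3/4 : ℝ) * (1/4 : ℝ) ^ m) :=
  (summable_geometric_of_lt_one (by norm_num) (by norm_num)).mul_left _

theorem term_nonneg (ε : ℕ → Bool) (m : ℕ) :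
    0 ≤ (if ε m then (3/4 : ℝ) * (1/4 : ℝ) ^ m else 0) := by
  split_ifs <;> positivity

theorem term_le (ε : ℕ → Bool) (m : ℕ) :
    (if ε m then (3/4 : ℝ) * (1/4 : ℝ) ^ m else 0) ≤ (3/4 : ℝ) * (1/4 : ℝ) ^ m := by
  split_ifs
  · exact le_rfl
  · positivity

theorem summ_term (ε : ℕ → Bool) :
    Summable (fun m : ℕ => (if ε m then (3/4 : ℝ) * (1/4 : ℝ) ^ m else 0)) :=
  Summable.of_nonneg_of_le (term_nonneg ε) (term_le ε) summ_geo

theorem K_bd {x : ℝ} (hx : x ∈ K) : 0 ≤ x ∧ x ≤ 1 := by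
  obtain ⟨ε, rfl⟩ := hx
  constructor
  · exact tsum_nonneg (term_nonneg ε)
  · calc ∑' m : ℕ, (if ε m then (3/4 : ℝ) * (1/4 : ℝ) ^ m else 0)
        ≤ ∑' m : ℕ, (3/4 : ℝ) * (1/4 : ℝ) ^ m :=
          Summable.tsum_le_tsum (term_le ε) (summ_term ε) summ_geo
      _ = 1 := by
          rw [tsum_mul_left, tsum_geometric_of_lt_one (by norm_num) (by norm_num)]
          norm_num

theorem K_self {x : ℝ} (hx : x ∈ K) : ∃ x' ∈ K, x = x' / 4 ∨ x = 3 / 4 + x' / 4 := by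
  obtain ⟨ε, rfl⟩ := hx
  refine ⟨_, ⟨fun m => ε (m + 1), rfl⟩, ?_⟩
  have h1 := (summ_term ε).tsum_eq_zero_add
  have h2 : ∑' m : ℕ, (if ε (m + 1) then (3/4 : ℝ) * (1/4 : ℝ) ^ (m + 1) else 0) =
      (∑' m : ℕ, (if ε (m + 1) then (3/4 : ℝ) * (1/4 : ℝ) ^ m else 0)) / 4 := by
    rw [← tsum_div_const]
    apply tsum_congr
    intro m
    split_ifs
    · rw [pow_succ]; ring
    · simp
  rw [h1, h2]
  by_cases h0 : ε 0 = true
  · right
    simp [h0]
  · left
    simp [h0]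

def Sq (l m s : ℝ) : Set (ℝ × ℝ) := {z | ∃ x ∈ K, ∃ y ∈ K, z = (l + s * x, m + s * y)}

theorem Sq_split (l m s : ℝ) : Sq l m s ⊆
    Sq l m (s / 4) ∪ (Sq (l + 3 * s / 4) m (s / 4) ∪ (Sq l (m + 3 * s / 4) (s / 4) ∪
      Sq (l + 3 * s / 4) (m + 3 * s / 4) (s / 4))) := by
  rintro z ⟨x, hx, y, hy, rfl⟩
  obtain ⟨x', hx', e1⟩ := K_self hx
  obtain ⟨y', hy', e2⟩ := K_self hy
  rcases e1 with e1 | e1 <;> rcases e2 with e2 | e2
  · left
    refine ⟨x', hx', y', hy', ?_⟩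
    rw [e1, e2]; ext <;> ring
  · right; right; left
    refine ⟨x', hx', y', hy', ?_⟩
    rw [e1, e2]; ext <;> simp only <;> ring
  · right; left
    refine ⟨x', hx', y', hy', ?_⟩
    rw [e1, e2]; ext <;> simp only <;> ring
  · right; right; right
    refine ⟨x', hx', y', hy', ?_⟩
    rw [e1, e2]; ext <;> simp only <;> ring

theorem mv {α m s : ℝ} (hα : 0 < α) (hm : α ≤ m) (hs : 0 ≤ s) (n : ℕ) :
    (m + s) * n ≤ m * (⌈(n:ℝ) * (1 + s / α)⌉₊ : ℝ) := by
  have h1 : (n:ℝ) * (1 + s / α) ≤ (⌈(n:ℝ) * (1 + s / α)⌉₊ : ℝ) := Nat.le_ceil _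
  have hm0 : 0 ≤ m := by linarith
  refine le_trans ?_ (mul_le_mul_of_nonneg_left h1 hm0)
  have h2 : s ≤ m * (s / α) := by
    rw [← mul_div_assoc, le_div_iff₀ hα, mul_comm]
    exact mul_le_mul_of_nonneg_right hm hs
  have h3 : (0:ℝ) ≤ n := by positivity
  nlinarith [mul_le_mul_of_nonneg_left h2 h3]

theorem mv_le (α s : ℝ) (hα : 0 < α) (hs : 0 ≤ s) (n : ℕ) :
    (⌈(n:ℝ) * (1 + s / α)⌉₊ : ℝ) ≤ Real.exp (s / α) * (n + 1) := by
  have h0 : 0 ≤ s / α := by positivity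
  have h1 : (⌈(n:ℝ) * (1 + s / α)⌉₊ : ℝ) < (n:ℝ) * (1 + s / α) + 1 :=
    Nat.ceil_lt_add_one (by positivity)
  have h2 : s / α + 1 ≤ Real.exp (s / α) := Real.add_one_le_exp _
  have h3 : (0:ℝ) ≤ n := by positivity
  nlinarith [mul_le_mul_of_nonneg_left h2 h3]

theorem n_le_mv (α s : ℝ) (hα : 0 < α) (hs : 0 ≤ s) (n : ℕ) : n ≤ ⌈(n:ℝ) * (1 + s / α)⌉₊ := by
  have h1 : (n:ℝ) * (1 + s / α) ≤ (⌈(n:ℝ) * (1 + s / α)⌉₊ : ℝ) := Nat.le_ceil _
  have h0 : 0 ≤ s / α := by positivity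
  have h3 : (0:ℝ) ≤ n := by positivity
  have h4 : (n:ℝ) ≤ (⌈(n:ℝ) * (1 + s / α)⌉₊ : ℝ) := by nlinarith
  exact_mod_cast h4

theorem st1 {P f a w : ℝ} (hP : 1 ≤ P) (hf : 1 ≤ f) (ha : a ≤ P * w) :
    f * (a + 1) ≤ (f * P) * (w + 1) := by
  have : f * (a + 1) ≤ f * (P * w + P) := mul_le_mul_of_nonneg_left (by linarith) (by linarith)
  nlinarith

theorem st2 {Q x b w B : ℝ} (hQ : 1 ≤ Q) (hx : 1 ≤ x) (hB : 0 ≤ B) (hb : b ≤ Q * w) :
    x * (b + B) ≤ (x * Q) * (w + B) := by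
  have h1 : B ≤ Q * B := by nlinarith
  have : x * (b + B) ≤ x * (Q * w + Q * B) := mul_le_mul_of_nonneg_left (by linarith) (by linarith)
  nlinarith

theorem mvA {m s n n' : ℝ} (h : (m + s) * n ≤ m * n') (hs : 0 ≤ s) (hn : 0 ≤ n) :
    (m + s / 4) * n ≤ m * n' := by
  have h1 : (m + s / 4) * n = (m + s) * n - 3 / 4 * (s * n) := by ring
  have h2 : 0 ≤ s * n := mul_nonneg hs hn
  linarith

theorem mvB {l s n n' : ℝ} (hl : 0 ≤ l) (hs : 0 ≤ s) (hn : 0 ≤ n) (h : n ≤ n') :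
    (l + s / 4) * n ≤ (l + 3 * s / 4) * n' := by
  apply mul_le_mul (by linarith) h hn (by positivity)

theorem mvC {m s n n' : ℝ} (h : (m + s) * n ≤ m * n') (hs : 0 ≤ s) (hn : 0 ≤ n') :
    (m + s) * n ≤ (m + 3 * s / 4) * n' := by
  have h1 : (m + 3 * s / 4) * n' = m * n' + 3 / 4 * (s * n') := by ring
  have h2 : 0 ≤ s * n' := mul_nonneg hs hn
  linarith

set_option maxHeartbeats 4000000 in
/-- Traversing a square with depth `r`. -/
theorem lemB (t : Task) {α c : ℝ} (hα : 0 < α) (hc0 : 0 ≤ c)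
    (hc : t.M * Real.exp (-c) ≤ t.θ) (g : ℕ) (hg : c ≤ α * g) (r : ℕ) :
    ∀ (l m s : ℝ) (n : ℕ) (cap : ℝ), α ≤ l → α ≤ m → 0 ≤ s →
      Real.exp (3 * r * s / α) * (n + ((4:ℝ) ^ r * (g + t.L + 1) - 1)) ≤ cap →
      s / 4 ^ r * cap ≤ t.δ →
      ∃ n' : ℕ, (n' : ℝ) ≤ Real.exp (3 * r * s / α) * (n + ((4:ℝ) ^ r * (g + t.L + 1) - 1)) ∧
        Blk t (Sq l m s) n (l * n) (m * n) n' ((l + s) * n') ((m + s) * n') := by
  induction r with
  | zero =>
    intro l m s n cap hl hm hs hcap hδ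
    have e0 : Real.exp (3 * ((0:ℕ):ℝ) * s / α) = 1 := by simp
    rw [e0, one_mul, pow_zero] at hcap
    rw [e0, one_mul, pow_zero]
    have hl0 : 0 < l := by linarith
    have hm0 : 0 < m := by linarith
    refine ⟨n + g + t.L, by push_cast; linarith, ?_⟩
    have hg0 : (0:ℝ) ≤ g := by positivity
    have hL0 : (0:ℝ) ≤ t.L := by positivity
    have hn0 : (0:ℝ) ≤ n := by positivity
    have hlg : c ≤ l * g := hg.trans (mul_le_mul_of_nonneg_right hl hg0)
    have hmg : c ≤ m * g := hg.trans (mul_le_mul_of_nonneg_right hm hg0)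
    have V := Blk.visit t (n := n) (k := n + g) (p := l * n) (q := m * n) (l0 := l) (m0 := m)
      (by omega) hc0 hc (by push_cast; linarith) (by push_cast; linarith)
    have W := V.comp (Blk.move t (n := n + g + t.L) (n' := n + g + t.L)
      (p' := (l + s) * ((n + g + t.L : ℕ) : ℝ)) (q' := (m + s) * ((n + g + t.L : ℕ) : ℝ)) le_rfl
      (by push_cast; nlinarith [mul_nonneg hl0.le hL0, mul_nonneg hs hn0, mul_nonneg hs hg0, mul_nonneg hs hL0])
      (by push_cast; nlinarith [mul_nonneg hm0.le hL0, mul_nonneg hs hn0, mul_nonneg hs hg0, mul_nonneg hs hL0]))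
    refine W.mono ?_
    rintro z ⟨x, hx, y, hy, rfl⟩
    left
    have hk : s * ((n + g : ℕ) : ℝ) ≤ t.δ := by
      refine le_trans ?_ hδ
      rw [pow_zero, div_one]
      apply mul_le_mul_of_nonneg_left _ hs
      push_cast
      linarith
    have hx' := K_bd hx
    have hy' := K_bd hy
    have hkn : (0:ℝ) ≤ ((n + g : ℕ) : ℝ) := by positivity
    constructor
    · simp only [add_sub_cancel_left]
      rw [abs_of_nonneg (mul_nonneg hs hx'.1)]
      calc s * x * ((n + g : ℕ) : ℝ) ≤ s * 1 * ((n + g : ℕ) : ℝ) := by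
            apply mul_le_mul_of_nonneg_right _ hkn
            exact mul_le_mul_of_nonneg_left hx'.2 hs
        _ ≤ t.δ := by rw [mul_one]; exact hk
    · simp only [add_sub_cancel_left]
      rw [abs_of_nonneg (mul_nonneg hs hy'.1)]
      calc s * y * ((n + g : ℕ) : ℝ) ≤ s * 1 * ((n + g : ℕ) : ℝ) := by
            apply mul_le_mul_of_nonneg_right _ hkn
            exact mul_le_mul_of_nonneg_left hy'.2 hs
        _ ≤ t.δ := by rw [mul_one]; exact hk
  | succ r ih =>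
    intro l m s n cap hl hm hs hcap hδ
    set x := Real.exp (3 * r * (s / 4) / α) with hx
    set f := Real.exp (s / α) with hf
    set B : ℝ := (4:ℝ) ^ r * (g + t.L + 1) - 1 with hB
    have hx1 : 1 ≤ x := by
      rw [hx]; apply Real.one_le_exp; positivity
    have hf1 : 1 ≤ f := by
      rw [hf]; apply Real.one_le_exp; positivity
    have hB0 : 0 ≤ B := by
      have h1 : (1:ℝ) ≤ (4:ℝ) ^ r := one_le_pow₀ (by norm_num)
      have h2 : (1:ℝ) ≤ g + t.L + 1 := by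
        have : (0:ℝ) ≤ g := by positivity
        have : (0:ℝ) ≤ t.L := by positivity
        linarith
      have := mul_le_mul h1 h2 (by norm_num) (by linarith)
      rw [hB]; linarith
    have hE : Real.exp (3 * ((r + 1 : ℕ):ℝ) * s / α) = x ^ 4 * f ^ 3 := by
      rw [hx, hf, ← Real.exp_nat_mul, ← Real.exp_nat_mul, ← Real.exp_add]
      congr 1
      push_cast
      field_simp
    have hB' : (4:ℝ) ^ (r + 1) * (g + t.L + 1) - 1 = 4 * B + 3 := by
      rw [hB, pow_succ]; ring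
    rw [hE, hB'] at hcap
    rw [hE, hB']
    have hn0 : (0:ℝ) ≤ n := by positivity
    have hδ' : s / 4 / 4 ^ r * cap ≤ t.δ := by
      refine le_trans (le_of_eq ?_) hδ
      rw [pow_succ]; field_simp
    have hs4 : 0 ≤ s / 4 := by positivity
    have hxf : 1 ≤ f * x := by nlinarith
    have hx0 : 0 ≤ x := by linarith
    have hf0 : 0 ≤ f := by linarith
    -- monotonicity of the bounds
    have mono : ∀ (P w : ℝ), 1 ≤ P → P ≤ x ^ 4 * f ^ 3 → 0 ≤ w → w ≤ n + (4 * B + 3) →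
        P * w ≤ cap := by
      intro P w hP hP2 hw0 hw
      refine le_trans ?_ hcap
      exact mul_le_mul hP2 hw hw0 (by positivity)
    have p1 : (1:ℝ) ≤ x ^ 2 := one_le_pow₀ hx1
    have p2 : (1:ℝ) ≤ x ^ 3 := one_le_pow₀ hx1
    have q1 : (1:ℝ) ≤ f ^ 2 := one_le_pow₀ hf1
    have q2 : (1:ℝ) ≤ f ^ 3 := one_le_pow₀ hf1
    -- first child
    have c1 : x * (n + B) ≤ cap := by
      apply mono x _ hx1 _ (by linarith) (by linarith)
      calc x = x * 1 := by ring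
        _ ≤ x * (x ^ 3 * f ^ 3) := by
          apply mul_le_mul_of_nonneg_left _ hx0
          nlinarith
        _ = x ^ 4 * f ^ 3 := by ring
    obtain ⟨n1, hn1, b1⟩ := ih l m (s / 4) n cap hl hm hs4 c1 hδ'
    have k1 : n1 ≤ ⌈(n1:ℝ) * (1 + s / α)⌉₊ := n_le_mv α s hα hs n1
    have k1r : (n1 : ℝ) ≤ (⌈(n1:ℝ) * (1 + s / α)⌉₊ : ℝ) := by exact_mod_cast k1
    have m1 := mv_le α s hα hs n1
    set n1' := ⌈(n1:ℝ) * (1 + s / α)⌉₊ with hn1'
    have u1 : (n1' : ℝ) ≤ (f * x) * (n + B + 1) := m1.trans (st1 hx1 hf1 hn1)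
    have n1nn : (0:ℝ) ≤ n1 := by positivity
    have mvb1 := Blk.move t (n := n1) (n' := n1') (p := (l + s / 4) * n1) (q := (m + s / 4) * n1)
      (p' := (l + 3 * s / 4) * n1') (q' := m * n1') k1
      (mvB (by linarith) hs n1nn k1r)
      (mvA (mv hα hm hs n1) hs n1nn)
    -- second child
    have u1' : x * ((n1':ℝ) + B) ≤ (x * (f * x)) * (n + B + 1 + B) := st2 hxf hx1 hB0 u1
    have c2 : x * (n1' + B) ≤ cap := by
      refine u1'.trans ?_
      apply mono _ _ _ _ (by linarith) (by linarith)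
      · nlinarith
      · calc x * (f * x) = (x ^ 2 * f) * 1 := by ring
          _ ≤ (x ^ 2 * f) * (x ^ 2 * f ^ 2) := by
            apply mul_le_mul_of_nonneg_left _ (by positivity)
            nlinarith
          _ = x ^ 4 * f ^ 3 := by ring
    obtain ⟨n2, hn2, b2⟩ := ih (l + 3 * s / 4) m (s / 4) n1' cap (by linarith) hm hs4 c2 hδ'
    have hn2' : (n2 : ℝ) ≤ (x * (f * x)) * (n + B + 1 + B) := hn2.trans u1'
    have k2 : n2 ≤ ⌈(n2:ℝ) * (1 + s / α)⌉₊ := n_le_mv α s hα hs n2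
    have k2r : (n2 : ℝ) ≤ (⌈(n2:ℝ) * (1 + s / α)⌉₊ : ℝ) := by exact_mod_cast k2
    have m2 := mv_le α s hα hs n2
    set n2' := ⌈(n2:ℝ) * (1 + s / α)⌉₊ with hn2'd
    have hxfx : 1 ≤ x * (f * x) := by nlinarith
    have u2 : (n2' : ℝ) ≤ (f * (x * (f * x))) * (n + B + 1 + B + 1) := m2.trans (st1 hxfx hf1 hn2')
    have n2nn : (0:ℝ) ≤ n2 := by positivity
    have mvb2 := Blk.move t (n := n2) (n' := n2') (p := (l + 3 * s / 4 + s / 4) * n2)
      (q := (m + s / 4) * n2)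
      (p' := l * n2') (q' := (m + 3 * s / 4) * n2') k2
      (by
        have e : (l + 3 * s / 4 + s / 4) * (n2:ℝ) = (l + s) * n2 := by ring
        rw [e]; exact mv hα hl hs n2)
      (mvB (by linarith) hs n2nn k2r)
    -- third child
    have hQ2 : 1 ≤ f * (x * (f * x)) := by nlinarith
    have u2' : x * ((n2':ℝ) + B) ≤ (x * (f * (x * (f * x)))) * (n + B + 1 + B + 1 + B) :=
      st2 hQ2 hx1 hB0 u2
    have c3 : x * (n2' + B) ≤ cap := by
      refine u2'.trans ?_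
      apply mono _ _ _ _ (by linarith) (by linarith)
      · nlinarith
      · calc x * (f * (x * (f * x))) = (x ^ 3 * f ^ 2) * 1 := by ring
          _ ≤ (x ^ 3 * f ^ 2) * (x * f) := by
            apply mul_le_mul_of_nonneg_left _ (by positivity)
            nlinarith
          _ = x ^ 4 * f ^ 3 := by ring
    obtain ⟨n3, hn3, b3⟩ := ih l (m + 3 * s / 4) (s / 4) n2' cap hl (by linarith) hs4 c3 hδ'
    have hn3' := hn3.trans u2'
    have k3 : n3 ≤ ⌈(n3:ℝ) * (1 + s / α)⌉₊ := n_le_mv α s hα hs n3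
    have k3r : (n3 : ℝ) ≤ (⌈(n3:ℝ) * (1 + s / α)⌉₊ : ℝ) := by exact_mod_cast k3
    have m3 := mv_le α s hα hs n3
    set n3' := ⌈(n3:ℝ) * (1 + s / α)⌉₊ with hn3'd
    have hQ3 : 1 ≤ x * (f * (x * (f * x))) := by nlinarith
    have u3 := m3.trans (st1 hQ3 hf1 hn3')
    have n3nn : (0:ℝ) ≤ n3 := by positivity
    have n3'nn : (0:ℝ) ≤ n3' := by positivity
    have mvb3 := Blk.move t (n := n3) (n' := n3') (p := (l + s / 4) * n3)
      (q := (m + 3 * s / 4 + s / 4) * n3)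
      (p' := (l + 3 * s / 4) * n3') (q' := (m + 3 * s / 4) * n3') k3
      (mvB (by linarith) hs n3nn k3r)
      (by
        have e : (m + 3 * s / 4 + s / 4) * (n3:ℝ) = (m + s) * n3 := by ring
        rw [e]
        exact mvC (mv hα hm hs n3) hs n3'nn)
    -- fourth child
    have hQ4 : 1 ≤ f * (x * (f * (x * (f * x)))) := by nlinarith
    have u3' := st2 hQ4 hx1 hB0 u3
    have c4 : x * (n3' + B) ≤ cap := by
      refine u3'.trans ?_
      refine le_trans (le_of_eq ?_) hcap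
      ring
    obtain ⟨n4, hn4, b4⟩ := ih (l + 3 * s / 4) (m + 3 * s / 4) (s / 4) n3' cap
      (by linarith) (by linarith) hs4 c4 hδ'
    refine ⟨n4, ?_, ?_⟩
    · refine (hn4.trans u3').trans (le_of_eq ?_)
      ring
    · have tot := (((((b1.comp mvb1).comp b2).comp mvb2).comp b3).comp mvb3).comp b4
      have e1 : (l + 3 * s / 4 + s / 4) * (n4:ℝ) = (l + s) * n4 := by ring
      have e2 : (m + 3 * s / 4 + s / 4) * (n4:ℝ) = (m + s) * n4 := by ring
      rw [e1, e2] at tot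
      refine tot.mono ?_
      intro z hz
      have := Sq_split l m s hz
      simp only [Set.mem_union] at this ⊢
      tauto

end Pool.Agent.H740R3.Dust
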