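import Mathlib
import Pool.Agent.H740R3.Dust2

set_option autoImplicit false

open Filter Topology

namespace Pool.Agent.H740R3.Dust

/-- Direct processing of a small square from the worst possible state. -/
theorem direct (t : Task) {α c a b h : ℝ} (hα : 0 < α) (ha : α ≤ a) (hb : α ≤ b) (hh : 0 ≤ h)
    (hc0 : 0 ≤ c) (hc : t.M * Real.exp (-c) ≤ t.θ) (g : ℕ) (hg : c ≤ α * g)
    (H : ℕ) (hH : h ≤ α * H) (c1 : ℕ) (hc1 : 3 * ((H : ℝ) + (g + t.L) + 2) ≤ 4 ^ c1)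
    (R : ℕ) (l m s : ℝ) (n : ℕ) (hn : (n : ℝ) ≤ 4 ^ R) (hs : 0 ≤ s)
    (hl : a ≤ l) (hl' : l + s ≤ a + h) (hm : b ≤ m) (hm' : m + s ≤ b + h)
    (h1 : 3 * R * s / α ≤ 1) (h2 : 3 * s * (H + (g + t.L) + 2) ≤ t.δ) :
    ∃ n' : ℕ, (n' : ℝ) ≤ 4 ^ (R + c1) ∧
      Blk t (Sq l m s) n ((a + h) * n) ((b + h) * n) n' ((a + h) * n') ((b + h) * n') := by
  have hn0 : (0:ℝ) ≤ n := by positivity
  have hH0 : (0:ℝ) ≤ H := by positivity
  have hg0 : (0:ℝ) ≤ g := by positivity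
  have hL0 : (0:ℝ) ≤ t.L := by positivity
  have h4 : (0:ℝ) < 4 ^ R := by positivity
  have hexp : Real.exp (3 * R * s / α) ≤ 3 := by
    calc Real.exp (3 * R * s / α) ≤ Real.exp 1 := Real.exp_le_exp.2 h1
      _ ≤ 3 := by have := Real.exp_one_lt_d9; linarith
  set n1 : ℕ := (1 + H) * n with hn1
  have hn1r : (n1 : ℝ) = (1 + H) * n := by rw [hn1]; push_cast; ring
  have hbd : (n1 : ℝ) + ((4:ℝ) ^ R * (g + t.L + 1) - 1) ≤ (H + (g + t.L) + 2) * 4 ^ R := by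
    rw [hn1r]
    have : (1 + (H:ℝ)) * n ≤ (1 + H) * 4 ^ R := mul_le_mul_of_nonneg_left hn (by linarith)
    nlinarith
  have hbd0 : 0 ≤ (n1 : ℝ) + ((4:ℝ) ^ R * (g + t.L + 1) - 1) := by
    have h5 : (1:ℝ) ≤ (4:ℝ) ^ R := one_le_pow₀ (by norm_num)
    have : (1:ℝ) * 1 ≤ (4:ℝ) ^ R * (g + t.L + 1) := mul_le_mul h5 (by linarith) (by norm_num) (by linarith)
    have : (0:ℝ) ≤ n1 := by positivity
    linarith
  have hcap : Real.exp (3 * R * s / α) * (n1 + ((4:ℝ) ^ R * (g + t.L + 1) - 1)) ≤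
      3 * ((H + (g + t.L) + 2) * 4 ^ R) :=
    mul_le_mul hexp hbd hbd0 (by norm_num)
  have hδ : s / 4 ^ R * (3 * ((H + (g + t.L) + 2) * 4 ^ R)) ≤ t.δ := by
    refine le_trans (le_of_eq ?_) h2
    field_simp
  obtain ⟨n', hn', B⟩ := lemB t hα hc0 hc g hg R l m s n1 _ (ha.trans hl) (hb.trans hm) hs hcap hδ
  have hl0 : 0 ≤ l := by linarith
  have hm0 : 0 ≤ m := by linarith
  have hnle : n ≤ n1 := by rw [hn1]; nlinarith
  refine ⟨n', ?_, ?_⟩
  · refine (hn'.trans hcap).trans ?_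
    rw [pow_add]
    have := mul_le_mul_of_nonneg_left hc1 h4.le
    nlinarith
  · have mv1 : Blk t ∅ n ((a + h) * n) ((b + h) * n) n1 (l * n1) (m * n1) := by
      apply Blk.move t hnle
      · rw [hn1r]
        have e1 : (a + h) * (n:ℝ) ≤ (l + α * H) * n := mul_le_mul_of_nonneg_right (by linarith) hn0
        have e2 : α * H ≤ l * H := mul_le_mul_of_nonneg_right (by linarith) hH0
        have e3 : (l + α * H) * (n:ℝ) ≤ (l + l * H) * n := mul_le_mul_of_nonneg_right (by linarith) hn0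
        linarith
      · rw [hn1r]
        have e1 : (b + h) * (n:ℝ) ≤ (m + α * H) * n := mul_le_mul_of_nonneg_right (by linarith) hn0
        have e2 : α * H ≤ m * H := mul_le_mul_of_nonneg_right (by linarith) hH0
        have e3 : (m + α * H) * (n:ℝ) ≤ (m + m * H) * n := mul_le_mul_of_nonneg_right (by linarith) hn0
        linarith
    have hn'0 : (0:ℝ) ≤ n' := by positivity
    have mv2 : Blk t ∅ n' ((l + s) * n') ((m + s) * n') n' ((a + h) * n') ((b + h) * n') :=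
      Blk.move t le_rfl (mul_le_mul_of_nonneg_right hl' hn'0) (mul_le_mul_of_nonneg_right hm' hn'0)
    refine ((mv1.comp B).comp mv2).mono ?_
    intro z hz
    simp [hz]

set_option maxHeartbeats 4000000 in
theorem lemE (t : Task) {α c a b h Cc : ℝ} (hα : 0 < α) (ha : α ≤ a) (hb : α ≤ b) (hh : 0 < h)
    (hc0 : 0 ≤ c) (hc : t.M * Real.exp (-c) ≤ t.θ) (g : ℕ) (hg : c ≤ α * g)
    (H : ℕ) (hH : h ≤ α * H) (c1 : ℕ) (hc1 : 3 * ((H : ℝ) + (g + t.L) + 2) ≤ 4 ^ c1)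
    (hCc0 : 0 < Cc)
    (hCc1 : 3 * h / α ≤ Cc) (hCc2 : 3 * h * (H + (g + t.L) + 2) / t.δ ≤ Cc)
    (K : ℕ) (Rmax : ℝ) (hK : Cc * Rmax ≤ 4 ^ K) :
    ∀ d k : ℕ, k + d = K → ∀ R : ℕ, 1 ≤ R → (4:ℝ) ^ k ≤ 4 * Cc * R →
      R * Real.exp (4 * Cc * c1 / 4 ^ k) ≤ Rmax →
      ∀ l m : ℝ, a ≤ l → l + h / 4 ^ k ≤ a + h → b ≤ m → m + h / 4 ^ k ≤ b + h →
      ∀ n : ℕ, (n:ℝ) ≤ 4 ^ R → ∃ n' R' : ℕ, (n' : ℝ) ≤ 4 ^ R' ∧ R ≤ R' ∧
        (R' : ℝ) ≤ R * Real.exp (4 * Cc * c1 / 4 ^ k) ∧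
        Blk t (Sq l m (h / 4 ^ k)) n ((a + h) * n) ((b + h) * n) n' ((a + h) * n') ((b + h) * n') := by
  -- the direct case
  have key : ∀ k R : ℕ, 1 ≤ R → (4:ℝ) ^ k ≤ 4 * Cc * R → Cc * R ≤ (4:ℝ) ^ k →
      ∀ l m : ℝ, a ≤ l → l + h / 4 ^ k ≤ a + h → b ≤ m → m + h / 4 ^ k ≤ b + h →
      ∀ n : ℕ, (n:ℝ) ≤ 4 ^ R → ∃ n' R' : ℕ, (n' : ℝ) ≤ 4 ^ R' ∧ R ≤ R' ∧
        (R' : ℝ) ≤ R * Real.exp (4 * Cc * c1 / 4 ^ k) ∧
        Blk t (Sq l m (h / 4 ^ k)) n ((a + h) * n) ((b + h) * n) n' ((a + h) * n') ((b + h) * n') := by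
    intro k R hR h1 h2 l m hl hl' hm hm' n hn
    have hR0 : (1:ℝ) ≤ R := by exact_mod_cast hR
    have h4k : (0:ℝ) < 4 ^ k := by positivity
    have hδ := t.hδ
    have hs : 0 ≤ h / 4 ^ k := by positivity
    have d1 : 3 * (R:ℝ) * (h / 4 ^ k) / α ≤ 1 := by
      have e1 : 3 * (R:ℝ) * (h / 4 ^ k) / α = (3 * h / α) * R / 4 ^ k := by field_simp
      rw [e1, div_le_one h4k]
      exact (mul_le_mul_of_nonneg_right hCc1 (by linarith)).trans h2
    have d2 : 3 * (h / 4 ^ k) * (H + (g + t.L) + 2) ≤ t.δ := by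
      have e1 : 3 * (h / 4 ^ k) * (H + (g + t.L) + 2) =
          (3 * h * (H + (g + t.L) + 2) / t.δ) / 4 ^ k * t.δ := by field_simp
      rw [e1]
      have e2 : (3 * h * (H + (g + t.L) + 2) / t.δ) / 4 ^ k ≤ 1 := by
        rw [div_le_one h4k]
        refine hCc2.trans (le_trans ?_ h2)
        nlinarith
      nlinarith
    obtain ⟨n', hn', B⟩ := direct t hα ha hb hh.le hc0 hc g hg H hH c1 hc1 R l m (h / 4 ^ k) n hn hs
      hl hl' hm hm' d1 d2
    refine ⟨n', R + c1, hn', by omega, ?_, B⟩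
    push_cast
    have e1 : (c1:ℝ) / R ≤ 4 * Cc * c1 / 4 ^ k := by
      rw [div_le_div_iff₀ (by linarith) h4k]
      have : (0:ℝ) ≤ c1 := by positivity
      nlinarith
    have e2 : (c1:ℝ) / R + 1 ≤ Real.exp (4 * Cc * c1 / 4 ^ k) := by
      refine le_trans ?_ (Real.add_one_le_exp _)
      linarith
    have e3 : (R:ℝ) + c1 = R * ((c1:ℝ) / R + 1) := by field_simp; ring
    rw [e3]
    exact mul_le_mul_of_nonneg_left e2 (by linarith)
  intro d
  induction d with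
  | zero =>
    intro k hk R hR h1 h2 l m hl hl' hm hm' n hn
    rw [add_zero] at hk
    subst hk
    apply key k R hR h1 _ l m hl hl' hm hm' n hn
    refine le_trans ?_ hK
    apply mul_le_mul_of_nonneg_left _ hCc0.le
    refine le_trans ?_ h2
    have hR0 : (1:ℝ) ≤ R := by exact_mod_cast hR
    have : 1 ≤ Real.exp (4 * Cc * c1 / 4 ^ k) := Real.one_le_exp (by positivity)
    nlinarith
  | succ d ih =>
    intro k hk R hR h1 h2 l m hl hl' hm hm' n hn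
    rcases le_or_gt (Cc * R) ((4:ℝ) ^ k) with hcase | hcase
    · exact key k R hR h1 hcase l m hl hl' hm hm' n hn
    · have hR0 : (1:ℝ) ≤ R := by exact_mod_cast hR
      set E := Real.exp (4 * Cc * c1 / 4 ^ (k + 1)) with hE
      have hE1 : 1 ≤ E := Real.one_le_exp (by positivity)
      have hE4 : Real.exp (4 * Cc * c1 / 4 ^ k) = E ^ 4 := by
        rw [hE, ← Real.exp_nat_mul]
        congr 1
        rw [pow_succ]; push_cast; field_simp
      rw [hE4] at h2 ⊢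
      have hs4 : h / 4 ^ (k + 1) = h / 4 ^ k / 4 := by rw [pow_succ]; field_simp
      set s := h / 4 ^ k with hs
      have hs0 : 0 < s := by positivity
      have hk' : k + 1 + d = K := by omega
      have e2 : (1:ℝ) ≤ E ^ 2 := one_le_pow₀ hE1
      have e3 : (1:ℝ) ≤ E ^ 3 := one_le_pow₀ hE1
      have step : ∀ R1 : ℕ, R ≤ R1 → (R1:ℝ) * E ≤ Rmax → ∀ l' m' : ℝ,
          a ≤ l' → l' + s / 4 ≤ a + h → b ≤ m' → m' + s / 4 ≤ b + h →
          ∀ n1 : ℕ, (n1:ℝ) ≤ 4 ^ R1 → ∃ n' R' : ℕ, (n' : ℝ) ≤ 4 ^ R' ∧ R1 ≤ R' ∧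
            (R' : ℝ) ≤ R1 * E ∧
            Blk t (Sq l' m' (s / 4)) n1 ((a + h) * n1) ((b + h) * n1) n' ((a + h) * n')
              ((b + h) * n') := by
        intro R1 hR1 hR1m l' m' q1 q2 q3 q4 n1 hn1
        have hRR : (R:ℝ) ≤ R1 := by exact_mod_cast hR1
        have := ih (k + 1) hk' R1 (hR.trans hR1) (by rw [pow_succ]; nlinarith) hR1m l' m' q1
          (by rw [hs4]; exact q2) q3 (by rw [hs4]; exact q4) n1 hn1
        rw [hs4] at this
        exact this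
      obtain ⟨n1, R1, a1, a2, a3, b1⟩ := step R le_rfl
        (by refine le_trans ?_ h2
            exact mul_le_mul_of_nonneg_left (le_self_pow₀ hE1 (by norm_num)) (by linarith))
          l m hl (by linarith) hm (by linarith) n hn
      obtain ⟨n2, R2, a4, a5, a6, b2⟩ := step R1 a2
        (by refine le_trans ?_ h2
            have h5 : (R1:ℝ) * E ≤ (R * E) * E := mul_le_mul_of_nonneg_right a3 (by linarith)
            have h6 : E ^ 2 ≤ E ^ 4 := pow_le_pow_right₀ hE1 (by norm_num)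
            have h7 : (R:ℝ) * E ^ 2 ≤ R * E ^ 4 := mul_le_mul_of_nonneg_left h6 (by linarith)
            have h8 : (R:ℝ) * E * E = R * E ^ 2 := by ring
            linarith) (l + 3 * s / 4) m (by linarith) (by linarith) hm (by linarith) n1 a1
      have a6' : (R2:ℝ) ≤ R * E ^ 2 := by
        have h5 : (R1:ℝ) * E ≤ (R * E) * E := mul_le_mul_of_nonneg_right a3 (by linarith)
        have h8 : (R:ℝ) * E * E = R * E ^ 2 := by ring
        linarith
      obtain ⟨n3, R3, a7, a8, a9, b3⟩ := step R2 (a2.trans a5)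
        (by refine le_trans ?_ h2
            have h5 : (R2:ℝ) * E ≤ (R * E ^ 2) * E := mul_le_mul_of_nonneg_right a6' (by linarith)
            have h6 : E ^ 3 ≤ E ^ 4 := pow_le_pow_right₀ hE1 (by norm_num)
            have h7 : (R:ℝ) * E ^ 3 ≤ R * E ^ 4 := mul_le_mul_of_nonneg_left h6 (by linarith)
            have h8 : (R:ℝ) * E ^ 2 * E = R * E ^ 3 := by ring
            linarith) l (m + 3 * s / 4) hl (by linarith) (by linarith) (by linarith) n2 a4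
      have a9' : (R3:ℝ) ≤ R * E ^ 3 := by
        have h5 : (R2:ℝ) * E ≤ (R * E ^ 2) * E := mul_le_mul_of_nonneg_right a6' (by linarith)
        have h8 : (R:ℝ) * E ^ 2 * E = R * E ^ 3 := by ring
        linarith
      obtain ⟨n4, R4, a10, a11, a12, b4⟩ := step R3 ((a2.trans a5).trans a8)
        (by refine le_trans ?_ h2
            have h5 : (R3:ℝ) * E ≤ (R * E ^ 3) * E := mul_le_mul_of_nonneg_right a9' (by linarith)
            have h8 : (R:ℝ) * E ^ 3 * E = R * E ^ 4 := by ring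
            linarith) (l + 3 * s / 4) (m + 3 * s / 4) (by linarith) (by linarith) (by linarith)
              (by linarith) n3 a7
      refine ⟨n4, R4, a10, by omega, ?_, ?_⟩
      · have h5 : (R3:ℝ) * E ≤ (R * E ^ 3) * E := mul_le_mul_of_nonneg_right a9' (by linarith)
        have h8 : (R:ℝ) * E ^ 3 * E = R * E ^ 4 := by ring
        linarith
      · refine (((b1.comp b2).comp b3).comp b4).mono ?_
        intro z hz
        have := Sq_split l m s hz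
        simp only [Set.mem_union] at this ⊢
        tauto

/-- One task can be achieved, from any starting time. -/
theorem oneTask (t : Task) {a b h : ℝ} (ha : 0 < a) (hb : 0 < b) (hh : 0 < h) (N : ℕ) :
    ∃ n' : ℕ, Blk t (Sq a b h) N ((a + h) * N) ((b + h) * N) n' ((a + h) * n') ((b + h) * n') := by
  set α := min a b with hα
  have hα0 : 0 < α := lt_min ha hb
  have hM := t.M_nonneg
  have hθ := t.hθ
  have hδ := t.hδ
  obtain ⟨c, hc0, hc⟩ : ∃ c : ℝ, 0 ≤ c ∧ t.M * Real.exp (-c) ≤ t.θ := by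
    refine ⟨t.M / t.θ, by positivity, ?_⟩
    have h1 : t.M / t.θ + 1 ≤ Real.exp (t.M / t.θ) := Real.add_one_le_exp _
    rw [Real.exp_neg, ← div_eq_mul_inv, div_le_iff₀ (Real.exp_pos _)]
    have h2 : t.θ * (t.M / t.θ) = t.M := by field_simp
    nlinarith
  obtain ⟨g, hg⟩ : ∃ g : ℕ, c ≤ α * g := by
    obtain ⟨g, hg⟩ := exists_nat_ge (c / α)
    exact ⟨g, by rwa [div_le_iff₀' hα0] at hg⟩
  obtain ⟨H, hH⟩ : ∃ H : ℕ, h ≤ α * H := by
    obtain ⟨H, hH⟩ := exists_nat_ge (h / α)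
    exact ⟨H, by rwa [div_le_iff₀' hα0] at hH⟩
  obtain ⟨c1, hc1⟩ : ∃ c1 : ℕ, 3 * ((H : ℝ) + (g + t.L) + 2) ≤ 4 ^ c1 := by
    obtain ⟨c1, hc1⟩ := pow_unbounded_of_one_lt (3 * ((H : ℝ) + (g + t.L) + 2)) (show (1:ℝ) < 4 by norm_num)
    exact ⟨c1, hc1.le⟩
  set Cc := max 1 (max (3 * h / α) (3 * h * (H + (g + t.L) + 2) / t.δ)) with hCc
  have hCc1 : 1 ≤ Cc := le_max_left _ _
  obtain ⟨R, hR1, hR2⟩ : ∃ R : ℕ, 1 ≤ R ∧ (N : ℝ) ≤ 4 ^ R := by
    obtain ⟨R, hR⟩ := pow_unbounded_of_one_lt (N : ℝ) (show (1:ℝ) < 4 by norm_num)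
    refine ⟨R + 1, by omega, ?_⟩
    rw [pow_succ]
    have : (0:ℝ) < 4 ^ R := by positivity
    linarith
  set Rmax := (R:ℝ) * Real.exp (4 * Cc * c1 / 4 ^ 0) with hRmax
  obtain ⟨K, hK⟩ := pow_unbounded_of_one_lt (Cc * Rmax) (show (1:ℝ) < 4 by norm_num)
  have hR0 : (1:ℝ) ≤ R := by exact_mod_cast hR1
  obtain ⟨n', R', _, _, _, B⟩ := lemE t hα0 (min_le_left a b) (min_le_right a b) hh hc0 hc g hg H hH
    c1 hc1 (by linarith) ((le_max_left _ _).trans (le_max_right _ _))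
    ((le_max_right _ _).trans (le_max_right _ _)) K Rmax hK.le K 0 (by omega) R hR1
    (by rw [pow_zero]; nlinarith) le_rfl a b le_rfl (by simp) le_rfl (by simp) N hR2
  refine ⟨n', ?_⟩
  rw [pow_zero, div_one] at B
  exact B

end Pool.Agent.H740R3.Dust
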