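import Mathlib
import Pool.Agent.H740R3.Dust3

set_option autoImplicit false

open Filter Topology

namespace Pool.Agent.H740R3.Dust

noncomputable def seqOf (l : List (ℚ × ℚ)) (j : ℕ) : ℂ :=
  ((l.getD j 0).1 : ℂ) + ((l.getD j 0).2 : ℂ) * Complex.I

theorem seqOf_zero (l : List (ℚ × ℚ)) (j : ℕ) (h : l.length ≤ j) : seqOf l j = 0 := by
  unfold seqOf
  rw [List.getD_eq_default _ _ h]
  simp

/-- For finitely supported targets and every precision there is a task. -/
theorem exTask (l1 l2 : List (ℚ × ℚ)) (ε : ℝ) (hε : 0 < ε) (s : ℕ) :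
    ∃ t : Task, t.u = seqOf l1 ∧ t.v = seqOf l2 ∧ 2 * t.δ * t.M ≤ ε ∧
      t.θ * Real.exp t.δ ≤ ε ∧ t.θ ≤ 1 / ((s : ℝ) + 1) := by
  set L := max l1.length l2.length with hL
  set M := ∑ j ∈ Finset.range L, (‖seqOf l1 j‖ + ‖seqOf l2 j‖) with hM
  have hM0 : 0 ≤ M := Finset.sum_nonneg (fun _ _ => by positivity)
  have hs0 : (0:ℝ) < 1 / ((s : ℝ) + 1) := by positivity
  refine ⟨
    { u := seqOf l1
      v := seqOf l2
      L := L
      hu := fun j hj => seqOf_zero l1 j ((le_max_left _ _).trans hj)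
      hv := fun j hj => seqOf_zero l2 j ((le_max_right _ _).trans hj)
      M := M
      hMu := ?_
      hMv := ?_
      θ := min (ε / 3) (1 / ((s : ℝ) + 1))
      hθ := lt_min (by positivity) hs0
      δ := min 1 (ε / (2 * M + 1))
      hδ := lt_min one_pos (by positivity)
      hδ1 := min_le_left _ _ }, rfl, rfl, ?_, ?_, min_le_right _ _⟩
  · intro j
    rcases lt_or_ge j L with h | h
    · calc ‖seqOf l1 j‖ ≤ ‖seqOf l1 j‖ + ‖seqOf l2 j‖ := by have := norm_nonneg (seqOf l2 j); linarith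
        _ ≤ M := Finset.single_le_sum (f := fun j => ‖seqOf l1 j‖ + ‖seqOf l2 j‖)
            (fun _ _ => by positivity) (Finset.mem_range.2 h)
    · rw [seqOf_zero l1 j ((le_max_left _ _).trans h), norm_zero]; exact hM0
  · intro j
    rcases lt_or_ge j L with h | h
    · calc ‖seqOf l2 j‖ ≤ ‖seqOf l1 j‖ + ‖seqOf l2 j‖ := by have := norm_nonneg (seqOf l1 j); linarith
        _ ≤ M := Finset.single_le_sum (f := fun j => ‖seqOf l1 j‖ + ‖seqOf l2 j‖)
            (fun _ _ => by positivity) (Finset.mem_range.2 h)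
    · rw [seqOf_zero l2 j ((le_max_right _ _).trans h), norm_zero]; exact hM0
  · show 2 * min 1 (ε / (2 * M + 1)) * M ≤ ε
    have h1 : min 1 (ε / (2 * M + 1)) ≤ ε / (2 * M + 1) := min_le_right _ _
    have h2 : 2 * min 1 (ε / (2 * M + 1)) * M ≤ 2 * (ε / (2 * M + 1)) * M := by
      apply mul_le_mul_of_nonneg_right _ hM0
      linarith
    refine h2.trans ?_
    have h3 : 2 * (ε / (2 * M + 1)) * M = ε * (2 * M) / (2 * M + 1) := by ring
    rw [h3, div_le_iff₀ (by positivity)]
    nlinarith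
  · show min (ε / 3) (1 / ((s : ℝ) + 1)) * Real.exp (min 1 (ε / (2 * M + 1))) ≤ ε
    have h1 : Real.exp (min 1 (ε / (2 * M + 1))) ≤ 3 := by
      calc Real.exp (min 1 (ε / (2 * M + 1))) ≤ Real.exp 1 := Real.exp_le_exp.2 (min_le_left _ _)
        _ ≤ 3 := by have := Real.exp_one_lt_d9; linarith
    calc min (ε / 3) (1 / ((s : ℝ) + 1)) * Real.exp (min 1 (ε / (2 * M + 1)))
        ≤ (ε / 3) * 3 := by
          apply mul_le_mul (min_le_left _ _) h1 (Real.exp_pos _).le (by positivity)
      _ = ε := by ring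

/-- approximation of null sequences by finite rational ones -/
theorem approx (u : ℕ → ℂ) (hu : Tendsto u atTop (𝓝 0)) (ε : ℝ) (hε : 0 < ε) :
    ∃ l : List (ℚ × ℚ), ∀ j, ‖seqOf l j - u j‖ ≤ ε := by
  have h1 : ∀ᶠ j in atTop, ‖u j‖ < ε := by
    have := hu.norm
    rw [norm_zero] at this
    exact this.eventually (gt_mem_nhds hε)
  obtain ⟨L, hL⟩ := eventually_atTop.1 h1
  have h2 : ∀ w : ℂ, ∃ q : ℚ × ℚ, ‖((q.1 : ℂ) + (q.2 : ℂ) * Complex.I) - w‖ ≤ ε := by
    intro w
    obtain ⟨q1, hq1⟩ := exists_rat_btwn (show w.re < w.re + ε / 2 by linarith)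
    obtain ⟨q2, hq2⟩ := exists_rat_btwn (show w.im < w.im + ε / 2 by linarith)
    refine ⟨(q1, q2), ?_⟩
    refine (Complex.norm_le_abs_re_add_abs_im _).trans ?_
    simp only [Complex.sub_re, Complex.add_re, Complex.ratCast_re, Complex.mul_re, Complex.I_re,
      mul_zero, Complex.ratCast_im, Complex.I_im, mul_one, sub_self, add_zero, Complex.sub_im,
      Complex.add_im, Complex.mul_im, zero_add]
    rw [abs_of_pos (by linarith [hq1.1]), abs_of_pos (by linarith [hq2.1])]
    linarith [hq1.2, hq2.2]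
  choose Q hQ using h2
  refine ⟨(List.range L).map (fun j => Q (u j)), ?_⟩
  intro j
  rcases lt_or_ge j L with h | h
  · have : ((List.range L).map (fun j => Q (u j))).getD j 0 = Q (u j) := by
      rw [List.getD_eq_getElem _ _ (by simpa using h)]
      simp
    unfold seqOf
    rw [this]
    exact hQ (u j)
  · rw [seqOf_zero _ _ (by simpa using h), zero_sub, norm_neg]
    exact (hL j h).le

theorem main (a b h : ℝ) (ha : 0 < a) (hb : 0 < b) (hh : 0 < h) :
      ∃ x y : ℕ → ℂ, Tendsto x atTop (𝓝 0) ∧ Tendsto y atTop (𝓝 0) ∧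
        ∀ lam mu : ℝ, (∃ z ∈ K, lam = a + h * z) → (∃ z ∈ K, mu = b + h * z) →
          ∀ u v : ℕ → ℂ, Tendsto u atTop (𝓝 0) → Tendsto v atTop (𝓝 0) →
            ∀ η : ℝ, 0 < η → ∃ k : ℕ, ∀ n : ℕ,
              ‖((Real.exp ((k : ℝ) * lam) : ℝ) : ℂ) * x (n + k) - u n‖ < η ∧
              ‖((Real.exp ((k : ℝ) * mu) : ℝ) : ℂ) * y (n + k) - v n‖ < η := by
  obtain ⟨f, hf⟩ := exists_surjective_nat (List (ℚ × ℚ) × List (ℚ × ℚ) × ℕ)
  set g : ℕ → List (ℚ × ℚ) × List (ℚ × ℚ) × ℕ := fun s => f (Nat.unpair s).1 with hg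
  have hex : ∀ s : ℕ, ∃ t : Task, t.u = seqOf (g s).1 ∧ t.v = seqOf (g s).2.1 ∧
      2 * t.δ * t.M ≤ 1 / ((g s).2.2 + 1) ∧
      t.θ * Real.exp t.δ ≤ 1 / ((g s).2.2 + 1) ∧ t.θ ≤ 1 / ((s : ℝ) + 1) :=
    fun s => exTask _ _ _ (by positivity) s
  choose t ht1 ht2 ht3 ht4 ht5 using hex
  have hone : ∀ (s N : ℕ), ∃ n' : ℕ, Blk (t s) (Sq a b h) N ((a + h) * N) ((b + h) * N) n'
      ((a + h) * n') ((b + h) * n') := fun s N => oneTask (t s) ha hb hh N
  choose F hF using hone
  set T : ℕ → ℕ := fun s => Nat.rec 0 (fun s N => F s N) s with hT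
  have hTs : ∀ s, T (s + 1) = F s (T s) := fun s => rfl
  have hblk : ∀ s, Blk (t s) (Sq a b h) (T s) ((a + h) * T s) ((b + h) * T s) (T (s + 1))
      ((a + h) * T (s + 1)) ((b + h) * T (s + 1)) := by
    intro s
    rw [hTs]
    exact hF s (T s)
  choose hT1 hT2 hT3 X Y hXY1 hXY2 hXY3 using hblk
  have hmono : Monotone T := monotone_nat_of_le_succ hT1
  set x : ℕ → ℂ := fun m => ∑' s, X s m with hx
  set y : ℕ → ℂ := fun m => ∑' s, Y s m with hy
  have hzero : ∀ s s' m, T s ≤ m → m < T (s + 1) → s' ≠ s → X s' m = 0 ∧ Y s' m = 0 := by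
    intro s s' m h1 h2 hne
    rcases lt_or_gt_of_ne hne with h3 | h3
    · exact hXY1 s' m (Or.inr ((hmono h3).trans h1))
    · exact hXY1 s' m (Or.inl (lt_of_lt_of_le h2 (hmono h3)))
  have hxin : ∀ s m, T s ≤ m → m < T (s + 1) → x m = X s m ∧ y m = Y s m := by
    intro s m h1 h2
    constructor
    · exact tsum_eq_single s (fun s' hs' => (hzero s s' m h1 h2 hs').1)
    · exact tsum_eq_single s (fun s' hs' => (hzero s s' m h1 h2 hs').2)
  -- bound for late indices
  have hbound : ∀ s m, T s ≤ m →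
      ‖x m‖ ≤ 1 / ((s:ℝ) + 1) * Real.exp (-((a + h) * T s)) ∧
      ‖y m‖ ≤ 1 / ((s:ℝ) + 1) * Real.exp (-((b + h) * T s)) := by
    intro s m h1
    by_cases hin : ∃ s', T s' ≤ m ∧ m < T (s' + 1)
    · obtain ⟨s', h2, h3⟩ := hin
      have hss : s ≤ s' := by
        by_contra hcon
        push Not at hcon
        have hc' : T (s' + 1) ≤ T s := hmono hcon
        omega
      obtain ⟨e1, e2⟩ := hxin s' m h2 h3
      obtain ⟨b1, b2⟩ := hXY2 s' m
      have hθ : (t s').θ ≤ 1 / ((s:ℝ) + 1) := by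
        refine (ht5 s').trans ?_
        apply one_div_le_one_div_of_le (by positivity)
        have : (s:ℝ) ≤ s' := by exact_mod_cast hss
        linarith
      have hTT : (T s : ℝ) ≤ T s' := by exact_mod_cast hmono hss
      have hθ0 := (t s').hθ
      rw [e1, e2]
      constructor
      · refine b1.trans ?_
        apply mul_le_mul hθ _ (Real.exp_pos _).le (by positivity)
        apply Real.exp_le_exp.2
        have : (a + h) * (T s : ℝ) ≤ (a + h) * T s' := mul_le_mul_of_nonneg_left hTT (by linarith)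
        linarith
      · refine b2.trans ?_
        apply mul_le_mul hθ _ (Real.exp_pos _).le (by positivity)
        apply Real.exp_le_exp.2
        have : (b + h) * (T s : ℝ) ≤ (b + h) * T s' := mul_le_mul_of_nonneg_left hTT (by linarith)
        linarith
    · push Not at hin
      have hall : ∀ s', X s' m = 0 ∧ Y s' m = 0 := by
        intro s'
        apply hXY1 s' m
        by_contra hcon
        push Not at hcon
        exact absurd (hin s' hcon.1) (not_le.2 hcon.2)
      have ex : x m = 0 := by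
        rw [hx]; simp only; simp [fun s' => (hall s').1]
      have ey : y m = 0 := by
        rw [hy]; simp only; simp [fun s' => (hall s').2]
      rw [ex, ey, norm_zero]
      constructor <;> positivity
  have hexp1 : ∀ (c : ℝ) (s : ℕ), 0 ≤ c → 1 / ((s:ℝ) + 1) * Real.exp (-(c * T s)) ≤ 1 / ((s:ℝ) + 1) := by
    intro c s hc
    have : Real.exp (-(c * T s)) ≤ 1 := by
      rw [Real.exp_le_one_iff]
      have : 0 ≤ c * (T s : ℝ) := by positivity
      linarith
    have h2 : (0:ℝ) < 1 / ((s:ℝ) + 1) := by positivity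
    nlinarith
  refine ⟨x, y, ?_, ?_, ?_⟩
  · rw [tendsto_zero_iff_norm_tendsto_zero, Metric.tendsto_atTop]
    intro ε hε
    obtain ⟨s, hs⟩ := exists_nat_one_div_lt hε
    refine ⟨T s, fun m hm => ?_⟩
    rw [Real.dist_eq, sub_zero, abs_of_nonneg (norm_nonneg _)]
    exact lt_of_le_of_lt ((hbound s m hm).1.trans (hexp1 _ s (by linarith))) hs
  · rw [tendsto_zero_iff_norm_tendsto_zero, Metric.tendsto_atTop]
    intro ε hε
    obtain ⟨s, hs⟩ := exists_nat_one_div_lt hε
    refine ⟨T s, fun m hm => ?_⟩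
    rw [Real.dist_eq, sub_zero, abs_of_nonneg (norm_nonneg _)]
    exact lt_of_le_of_lt ((hbound s m hm).2.trans (hexp1 _ s (by linarith))) hs
  · rintro lam mu ⟨z1, hz1, rfl⟩ ⟨z2, hz2, rfl⟩ u v hu hv η hη
    obtain ⟨l1, hl1⟩ := approx u hu (η / 4) (by positivity)
    obtain ⟨l2, hl2⟩ := approx v hv (η / 4) (by positivity)
    obtain ⟨m0, hm0⟩ := exists_nat_one_div_lt (show 0 < η / 4 by positivity)
    obtain ⟨i, hi⟩ := hf (l1, l2, m0)
    set s := Nat.pair i m0 with hs
    have hgs : g s = (l1, l2, m0) := by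
      rw [hg]; simp only; rw [hs, Nat.unpair_pair]; exact hi
    have hsm : m0 ≤ s := Nat.right_le_pair i m0
    have hs1 : 1 / ((s:ℝ) + 1) < η / 4 := by
      refine lt_of_le_of_lt ?_ hm0
      apply one_div_le_one_div_of_le (by positivity)
      have : (m0:ℝ) ≤ s := by exact_mod_cast hsm
      linarith
    have hu' : (t s).u = seqOf l1 := by rw [ht1, hgs]
    have hv' : (t s).v = seqOf l2 := by rw [ht2, hgs]
    have h3 : 2 * (t s).δ * (t s).M < η / 4 := by
      refine lt_of_le_of_lt (ht3 s) ?_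
      rw [hgs]; exact hm0
    have h4 : (t s).θ * Real.exp (t s).δ < η / 4 := by
      refine lt_of_le_of_lt (ht4 s) ?_
      rw [hgs]; exact hm0
    obtain ⟨k, k1, k2, _, _, k5, k6⟩ := hXY3 s (a + h * z1, b + h * z2) ⟨z1, hz1, z2, hz2, rfl⟩
    simp only at k5 k6
    have hz1' := K_bd hz1
    have hz2' := K_bd hz2
    have hkT : k ≤ T (s + 1) := by omega
    have hkTr : (k:ℝ) ≤ T (s + 1) := by exact_mod_cast hkT
    have hk0 : (0:ℝ) ≤ k := by positivity
    have hla : (k:ℝ) * (a + h * z1) ≤ (a + h) * T (s + 1) := by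
      rw [mul_comm]
      apply mul_le_mul _ hkTr hk0 (by linarith)
      nlinarith
    have hmu : (k:ℝ) * (b + h * z2) ≤ (b + h) * T (s + 1) := by
      rw [mul_comm]
      apply mul_le_mul _ hkTr hk0 (by linarith)
      nlinarith
    refine ⟨k, fun n => ?_⟩
    have main1 : ‖((Real.exp ((k : ℝ) * (a + h * z1)) : ℝ) : ℂ) * x (n + k) - (t s).u n‖ < η / 4 ∧
        ‖((Real.exp ((k : ℝ) * (b + h * z2)) : ℝ) : ℂ) * y (n + k) - (t s).v n‖ < η / 4 := by
      rcases lt_or_ge n (t s).L with hn | hn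
      · obtain ⟨e1, e2⟩ := hxin s (n + k) (by omega) (by omega)
        rw [e1, e2]
        obtain ⟨f1, f2⟩ := k5 n hn
        exact ⟨lt_of_le_of_lt f1 h3, lt_of_le_of_lt f2 h3⟩
      · rw [(t s).hu n hn, (t s).hv n hn, sub_zero, sub_zero]
        rcases lt_or_ge (n + k) (T (s + 1)) with hnk | hnk
        · obtain ⟨e1, e2⟩ := hxin s (n + k) (by omega) hnk
          rw [e1, e2]
          obtain ⟨f1, f2⟩ := k6 n hn
          exact ⟨lt_of_le_of_lt f1 h4, lt_of_le_of_lt f2 h4⟩
        · obtain ⟨f1, f2⟩ := hbound (s + 1) (n + k) hnk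
          have hs2 : 1 / (((s + 1 : ℕ):ℝ) + 1) < η / 4 := by
            refine lt_of_le_of_lt ?_ hs1
            apply one_div_le_one_div_of_le (by positivity)
            push_cast
            linarith
          rw [norm_exp_mul, norm_exp_mul]
          constructor
          · calc Real.exp (k * (a + h * z1)) * ‖x (n + k)‖
                ≤ Real.exp ((a + h) * T (s + 1)) *
                  (1 / (((s + 1 : ℕ):ℝ) + 1) * Real.exp (-((a + h) * T (s + 1)))) := by
                  apply mul_le_mul (Real.exp_le_exp.2 hla) f1 (norm_nonneg _) (Real.exp_pos _).le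
              _ = 1 / (((s + 1 : ℕ):ℝ) + 1) := by
                  rw [Real.exp_neg]
                  field_simp
              _ < η / 4 := hs2
          · calc Real.exp (k * (b + h * z2)) * ‖y (n + k)‖
                ≤ Real.exp ((b + h) * T (s + 1)) *
                  (1 / (((s + 1 : ℕ):ℝ) + 1) * Real.exp (-((b + h) * T (s + 1)))) := by
                  apply mul_le_mul (Real.exp_le_exp.2 hmu) f2 (norm_nonneg _) (Real.exp_pos _).le
              _ = 1 / (((s + 1 : ℕ):ℝ) + 1) := by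
                  rw [Real.exp_neg]
                  field_simp
              _ < η / 4 := hs2
    rw [hu', hv'] at main1
    constructor
    · have e : ((Real.exp ((k : ℝ) * (a + h * z1)) : ℝ) : ℂ) * x (n + k) - u n =
        (((Real.exp ((k : ℝ) * (a + h * z1)) : ℝ) : ℂ) * x (n + k) - seqOf l1 n) +
          (seqOf l1 n - u n) := by ring
      rw [e]
      refine lt_of_le_of_lt (norm_add_le _ _) ?_
      have := hl1 n
      linarith [main1.1]
    · have e : ((Real.exp ((k : ℝ) * (b + h * z2)) : ℝ) : ℂ) * y (n + k) - v n =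
        (((Real.exp ((k : ℝ) * (b + h * z2)) : ℝ) : ℂ) * y (n + k) - seqOf l2 n) +
          (seqOf l2 n - v n) := by ring
      rw [e]
      refine lt_of_le_of_lt (norm_add_le _ _) ?_
      have := hl2 n
      linarith [main1.2]

end Pool.Agent.H740R3.Dust
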