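import Mathlib

set_option autoImplicit false

open Filter Topology
open scoped ENNReal

namespace Pool.Agent.H740R3.FRec

/-- frequently recurrent vectors (as in the frozen statement, for a normed space) -/
def FR {X : Type} [NormedAddCommGroup X] [NormedSpace ℝ X] (T : X →L[ℝ] X) : Set X :=
  {x : X | ∀ U ∈ nhds x, ∃ δ : ℝ, 0 < δ ∧ ∃ N : ℕ, ∀ n : ℕ, N ≤ n →
          δ * (n : ℝ) ≤ ((Set.ncard {k : ℕ | k < n ∧ (T ^ k) x ∈ U} : ℕ) : ℝ)}

theorem count_bad {X : Type} [NormedAddCommGroup X] [NormedSpace ℝ X] (T : X →L[ℝ] X)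
    {C : ℝ} (hC : ∀ (x : X) (N : ℕ), ∑ n ∈ Finset.range N, ‖(T ^ n) x‖ ≤ C * N * ‖x‖)
    (x : X) {ε : ℝ} (hε : 0 < ε) (N : ℕ) :
    (((Finset.range N).filter (fun n => ε ≤ ‖(T ^ n) x‖)).card : ℝ) * ε ≤ C * N * ‖x‖ := by
  refine le_trans ?_ (hC x N)
  calc (((Finset.range N).filter (fun n => ε ≤ ‖(T ^ n) x‖)).card : ℝ) * ε
      = ∑ n ∈ (Finset.range N).filter (fun n => ε ≤ ‖(T ^ n) x‖), ε := by
        rw [Finset.sum_const, nsmul_eq_mul]
    _ ≤ ∑ n ∈ (Finset.range N).filter (fun n => ε ≤ ‖(T ^ n) x‖), ‖(T ^ n) x‖ := by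
        apply Finset.sum_le_sum
        intro n hn
        exact (Finset.mem_filter.1 hn).2
    _ ≤ ∑ n ∈ Finset.range N, ‖(T ^ n) x‖ := by
        apply Finset.sum_le_sum_of_subset_of_nonneg (Finset.filter_subset _ _)
        intros; positivity

theorem pow_mul_fix {X : Type} [NormedAddCommGroup X] [NormedSpace ℝ X] (T : X →L[ℝ] X)
    {x : X} {D : ℕ} (h : (T ^ D) x = x) (q : ℕ) : (T ^ (q * D)) x = x := by
  induction q with
  | zero => simp
  | succ q ih =>
    rw [Nat.succ_mul, pow_add, mul_apply_eq_comp, h, ih]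

/-- An absolutely Cesàro bounded operator with dense set of periodic vectors has a residual set of
frequently recurrent vectors. -/
theorem residual_FR {X : Type} [NormedAddCommGroup X] [NormedSpace ℝ X]
    (T : X →L[ℝ] X) {C : ℝ} (hC1 : 1 ≤ C)
    (hC : ∀ (x : X) (N : ℕ), ∑ n ∈ Finset.range N, ‖(T ^ n) x‖ ≤ C * N * ‖x‖)
    (hper : Dense {x : X | ∃ D : ℕ, 0 < D ∧ (T ^ D) x = x}) :
    FR T ∈ residual X := by
  set O : ℕ → Set X := fun m => ⋃ (p : {p : X × ℕ // 0 < p.2 ∧ (T ^ p.2) p.1 = p.1}),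
    Metric.ball p.1.1 (1 / (8 * C * p.1.2 * (m + 1))) with hO
  have hopen : ∀ m, IsOpen (O m) := fun m => isOpen_iUnion fun p => Metric.isOpen_ball
  have hdense : ∀ m, Dense (O m) := by
    intro m
    apply hper.mono
    rintro x ⟨D, hD, hx⟩
    rw [hO]
    simp only [Set.mem_iUnion]
    refine ⟨⟨(x, D), hD, hx⟩, ?_⟩
    apply Metric.mem_ball_self
    have : (0:ℝ) < D := by exact_mod_cast hD
    positivity
  have hres : (⋂ m, O m) ∈ residual X := by
    rw [countable_iInter_mem]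
    intro m
    exact residual_of_dense_open (hopen m) (hdense m)
  refine Filter.mem_of_superset hres ?_
  intro x hx U hU
  obtain ⟨η, hη, hηU⟩ := Metric.mem_nhds_iff.1 hU
  obtain ⟨m, hm⟩ := exists_nat_one_div_lt (show 0 < η / 3 by positivity)
  have hxm := Set.mem_iInter.1 hx m
  rw [hO] at hxm
  simp only [Set.mem_iUnion] at hxm
  obtain ⟨⟨⟨x0, D⟩, hD, hx0⟩, hball⟩ := hxm
  simp only at hD hx0 hball
  set y := x - x0 with hy
  have hDr : (0:ℝ) < D := by exact_mod_cast hD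
  have hm0 : (0:ℝ) < (m:ℝ) + 1 := by positivity
  have hynorm : ‖y‖ < 1 / (8 * C * D * (m + 1)) := by
    rw [Metric.mem_ball, dist_eq_norm] at hball
    exact hball
  have hD1 : (1:ℝ) ≤ D := by exact_mod_cast hD
  have hysmall : ‖y‖ < 1 / ((m:ℝ) + 1) := by
    refine lt_of_lt_of_le hynorm ?_
    apply one_div_le_one_div_of_le hm0
    nlinarith [mul_le_mul hC1 hD1 (by norm_num) (by linarith)]
  refine ⟨1 / (2 * D), by positivity, 8 * D, ?_⟩
  intro n hn
  have hn' : (8:ℝ) * D ≤ n := by exact_mod_cast hn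
  classical
  -- good set
  set A : Finset ℕ := (Finset.range (n / D)).image (fun q => q * D) with hA
  set B : Finset ℕ := (Finset.range n).filter (fun k => 1 / ((m:ℝ) + 1) ≤ ‖(T ^ k) y‖) with hB
  have hAcard : (A.card : ℝ) ≥ n / D - 1 := by
    rw [hA, Finset.card_image_of_injective _ (fun a b h => Nat.eq_of_mul_eq_mul_right hD h), Finset.card_range]
    have h1 : n < (n / D + 1) * D := by
      have h2 := Nat.div_add_mod n D
      have h3 := Nat.mod_lt n hD
      nlinarith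
    have h1' : (n:ℝ) < (((n / D : ℕ) : ℝ) + 1) * D := by exact_mod_cast h1
    have h4 : (n:ℝ) / D < ((n / D : ℕ) : ℝ) + 1 := by
      rw [div_lt_iff₀ hDr]; exact h1'
    linarith
  have hBcard : (B.card : ℝ) ≤ n / (8 * D) := by
    have h1 := count_bad T hC y (show 0 < 1 / ((m:ℝ) + 1) by positivity) n
    rw [← hB] at h1
    have h2 : C * n * ‖y‖ ≤ C * n * (1 / (8 * C * D * (m + 1))) := by
      apply mul_le_mul_of_nonneg_left hynorm.le
      positivity
    have h3 : C * n * (1 / (8 * C * D * (m + 1))) = (n / (8 * D)) * (1 / ((m:ℝ) + 1)) := by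
      have : C ≠ 0 := by linarith
      field_simp
    have h4 : (B.card : ℝ) * (1 / ((m:ℝ) + 1)) ≤ (n / (8 * D)) * (1 / ((m:ℝ) + 1)) := by
      rw [← h3]; exact h1.trans h2
    exact le_of_mul_le_mul_right h4 (by positivity)
  have hsub : ((A \ B : Finset ℕ) : Set ℕ) ⊆ {k : ℕ | k < n ∧ (T ^ k) x ∈ U} := by
    intro k hk
    rw [Finset.coe_sdiff] at hk
    obtain ⟨hkA, hkB⟩ := hk
    rw [hA] at hkA
    simp only [Finset.coe_image, Set.mem_image, Finset.coe_range, Set.mem_Iio] at hkA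
    obtain ⟨q, hq, rfl⟩ := hkA
    have hlt : q * D < n := by
      have h1 : (q + 1) * D ≤ n := by
        calc (q + 1) * D ≤ (n / D) * D := Nat.mul_le_mul_right _ hq
          _ ≤ n := Nat.div_mul_le_self n D
      nlinarith
    refine ⟨hlt, ?_⟩
    apply hηU
    have hkB' : ‖(T ^ (q * D)) y‖ < 1 / ((m:ℝ) + 1) := by
      by_contra hcon
      apply hkB
      rw [hB]
      simp only [Finset.coe_filter, Finset.mem_range, Set.mem_ofPred_eq]
      exact ⟨hlt, not_lt.1 hcon⟩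
    rw [Metric.mem_ball, dist_eq_norm]
    have hxe : x = x0 + y := by rw [hy]; abel
    have h5 : (T ^ (q * D)) x - x = (T ^ (q * D)) y - y := by
      rw [hxe, map_add, pow_mul_fix T hx0 q]
      abel
    rw [h5]
    calc ‖(T ^ (q * D)) y - y‖ ≤ ‖(T ^ (q * D)) y‖ + ‖y‖ := norm_sub_le _ _
      _ < η := by linarith
  have hfin : ({k : ℕ | k < n ∧ (T ^ k) x ∈ U}).Finite :=
    (Set.finite_lt_nat n).subset (fun k hk => hk.1)
  have hcard : ((A \ B).card : ℝ) ≤ ((Set.ncard {k : ℕ | k < n ∧ (T ^ k) x ∈ U} : ℕ) : ℝ) := by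
    have := Set.ncard_le_ncard hsub hfin
    rw [Set.ncard_coe_finset] at this
    exact_mod_cast this
  have hsd : (A.card : ℝ) - B.card ≤ (A \ B).card := by
    have h1 : A.card ≤ (A \ B).card + B.card := by
      have := Finset.le_card_sdiff B A
      omega
    have h2 : (A.card : ℝ) ≤ (A \ B).card + B.card := by exact_mod_cast h1
    linarith
  have h6 : 1 / (2 * (D:ℝ)) * n ≤ n / D - 1 - n / (8 * D) := by
    have h7 : (n:ℝ) / D ≥ 8 := by
      rw [ge_iff_le, le_div_iff₀ hDr]; exact hn'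
    have h8 : 1 / (2 * (D:ℝ)) * n = (n / D) / 2 := by field_simp
    have h9 : (n:ℝ) / (8 * D) = (n / D) / 8 := by field_simp
    rw [h8, h9]
    linarith
  linarith

end Pool.Agent.H740R3.FRec
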