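import Mathlib

set_option autoImplicit false

open Filter Topology
open scoped ENNReal

namespace Pool.Agent.H740R3.FRec

abbrev L1 (ι : Type) := lp (fun _ : ι => ℝ) 1

theorem norm_eq {ι : Type} (f : L1 ι) : ‖f‖ = ∑' i, |f i| := by
  rw [lp.norm_eq_tsum_rpow (by simp)]; simp

theorem summ {ι : Type} (f : L1 ι) : Summable (fun i => |f i|) := by
  have := lp.memℓp f
  have := (memℓp_gen_iff (by simp)).1 this
  simpa using this

structure Data (ι : Type) where
  s : ι ≃ ι
  w : ι → ℝ
  wpos : ∀ j, 0 < w j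
  wle : ∀ j, w j ≤ 2 * w (s j)
  C : ℝ
  hC1 : 1 ≤ C
  ces : ∀ j N, ∑ n ∈ Finset.range N, w ((s.symm)^[n] j) ≤ C * N * w j

variable {ι : Type} (D : Data ι)

theorem ratio_le (j : ι) : |D.w j / D.w (D.s j)| ≤ 2 := by
  rw [abs_of_nonneg (div_nonneg (D.wpos _).le (D.wpos _).le), div_le_iff₀ (D.wpos _)]
  exact D.wle j

theorem memT (f : L1 ι) : Memℓp (fun j => D.w j / D.w (D.s j) * f (D.s j)) 1 := by
  apply memℓp_gen
  simp only [ENNReal.toReal_one, Real.rpow_one, Real.norm_eq_abs]
  have h1 : Summable (fun j => |f (D.s j)|) := (D.s.summable_iff (f := fun j => |f j|)).2 (summ f)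
  refine Summable.of_nonneg_of_le (fun _ => abs_nonneg _) ?_ (h1.mul_left 2)
  intro j
  rw [abs_mul]
  exact mul_le_mul_of_nonneg_right (ratio_le D j) (abs_nonneg _)

/-- the weighted permutation operator -/
noncomputable def T : L1 ι →L[ℝ] L1 ι :=
  LinearMap.mkContinuous
    { toFun := fun f => ⟨fun j => D.w j / D.w (D.s j) * f (D.s j), memT D f⟩
      map_add' := by
        intro f g
        ext j
        exact mul_add _ _ _
      map_smul' := by
        intro c f
        ext j
        simp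
        ring } 2 (by
      intro f
      rw [norm_eq, norm_eq, ← tsum_mul_left]
      rw [← D.s.tsum_eq (fun j => 2 * |f j|)]
      apply Summable.tsum_le_tsum
      · intro j
        simp only [LinearMap.coe_mk, AddHom.coe_mk, abs_mul]
        exact mul_le_mul_of_nonneg_right (ratio_le D j) (abs_nonneg _)
      · exact summ (⟨fun j => D.w j / D.w (D.s j) * f (D.s j), memT D f⟩ : L1 ι)
      · exact ((D.s.summable_iff (f := fun j => 2 * |f j|)).2 ((summ f).mul_left 2)))

theorem T_apply (f : L1 ι) (j : ι) : T D f j = D.w j / D.w (D.s j) * f (D.s j) := rfl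

theorem Tpow_apply (n : ℕ) (f : L1 ι) (j : ι) :
    (T D ^ n) f j = D.w j / D.w (D.s^[n] j) * f (D.s^[n] j) := by
  induction n generalizing f with
  | zero => simp [div_self (D.wpos j).ne']
  | succ n ih =>
    rw [pow_succ, mul_apply_eq_comp, ih, T_apply, Function.iterate_succ_apply']
    have h1 := (D.wpos (D.s^[n] j)).ne'
    have h2 := (D.wpos (D.s (D.s^[n] j))).ne'
    field_simp

theorem symm_iter (n : ℕ) (j : ι) : D.s^[n] ((D.s.symm)^[n] j) = j := by
  have : Function.LeftInverse (D.s^[n]) ((D.s.symm)^[n]) :=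
    Function.LeftInverse.iterate D.s.apply_symm_apply n
  exact this j

/-- iterate as an equiv -/
def sn (n : ℕ) : ι ≃ ι := ⟨(D.s.symm)^[n], D.s^[n],
  Function.LeftInverse.iterate D.s.apply_symm_apply n,
  Function.LeftInverse.iterate D.s.symm_apply_apply n⟩

theorem norm_Tpow (n : ℕ) (f : L1 ι) :
    ‖(T D ^ n) f‖ = ∑' j, D.w ((D.s.symm)^[n] j) / D.w j * |f j| := by
  rw [norm_eq, ← (sn D n).tsum_eq (fun j => |(T D ^ n) f j|)]
  apply tsum_congr
  intro j
  rw [Tpow_apply]
  have : D.s^[n] ((sn D n) j) = j := symm_iter D n j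
  rw [this, abs_mul, abs_of_nonneg (div_nonneg (D.wpos _).le (D.wpos _).le)]
  rfl

theorem summ_Tpow (n : ℕ) (f : L1 ι) :
    Summable (fun j => D.w ((D.s.symm)^[n] j) / D.w j * |f j|) := by
  have h := (sn D n).summable_iff (f := fun j => |(T D ^ n) f j|)
  have h2 := h.2 (summ ((T D ^ n) f))
  refine h2.congr ?_
  intro j
  simp only [Function.comp]
  rw [Tpow_apply]
  have : D.s^[n] ((sn D n) j) = j := symm_iter D n j
  rw [this, abs_mul, abs_of_nonneg (div_nonneg (D.wpos _).le (D.wpos _).le)]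
  rfl

theorem cesaro (f : L1 ι) (N : ℕ) :
    ∑ n ∈ Finset.range N, ‖(T D ^ n) f‖ ≤ D.C * N * ‖f‖ := by
  have h1 : ∑ n ∈ Finset.range N, ‖(T D ^ n) f‖ =
      ∑' j, ∑ n ∈ Finset.range N, D.w ((D.s.symm)^[n] j) / D.w j * |f j| := by
    rw [Summable.tsum_finsetSum (fun n _ => summ_Tpow D n f)]
    exact Finset.sum_congr rfl (fun n _ => norm_Tpow D n f)
  rw [h1, norm_eq, ← tsum_mul_left]
  apply Summable.tsum_le_tsum
  · intro j
    rw [← Finset.sum_mul, ← Finset.sum_div]
    apply mul_le_mul_of_nonneg_right _ (abs_nonneg _)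
    rw [div_le_iff₀ (D.wpos j)]
    exact D.ces j N
  · exact summable_sum (fun n _ => summ_Tpow D n f)
  · exact (summ f).mul_left _

end Pool.Agent.H740R3.FRec
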