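import Mathlib
import Pool.Agent.H740R3.FRec
import Pool.Agent.H740R3.FRec2

set_option autoImplicit false

open Filter Topology
open scoped ENNReal

namespace Pool.Agent.H740R3.FRec

noncomputable def g (a : ℕ) : ℝ := 1 / Real.sqrt (a + 1)

theorem g_pos (a : ℕ) : 0 < g a := by unfold g; positivity

theorem g_anti {a b : ℕ} (h : a ≤ b) : g b ≤ g a := by
  unfold g
  apply one_div_le_one_div_of_le (by positivity)
  apply Real.sqrt_le_sqrt
  have : (a:ℝ) ≤ b := by exact_mod_cast h
  linarith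

theorem g_succ (a : ℕ) : g a ≤ 2 * g (a + 1) := by
  unfold g
  rw [mul_one_div, div_le_div_iff₀ (by positivity) (by positivity), one_mul]
  have h1 : (2:ℝ) * Real.sqrt (a + 1) = Real.sqrt (4 * (a + 1)) := by
    rw [Real.sqrt_mul (by norm_num), show (4:ℝ) = 2 ^ 2 by norm_num,
      Real.sqrt_sq (by norm_num)]
  rw [h1]
  apply Real.sqrt_le_sqrt
  push_cast
  have : (0:ℝ) ≤ a := by positivity
  linarith

theorem sum_g (N : ℕ) : ∑ a ∈ Finset.range N, g a ≤ 2 * Real.sqrt N := by
  induction N with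
  | zero => simp
  | succ N ih =>
    rw [Finset.sum_range_succ]
    have h1 : (0:ℝ) ≤ N := by positivity
    have h2 : 0 < Real.sqrt ((N:ℝ) + 1) := by positivity
    have h3 : 0 ≤ Real.sqrt (N:ℝ) := by positivity
    have h4 : Real.sqrt ((N:ℝ) + 1) ^ 2 = N + 1 := Real.sq_sqrt (by positivity)
    have h5 : Real.sqrt (N:ℝ) ^ 2 = N := Real.sq_sqrt h1
    have h6 : g N ≤ 2 * (Real.sqrt ((N:ℝ) + 1) - Real.sqrt N) := by
      unfold g
      rw [div_le_iff₀ h2]
      nlinarith [sq_nonneg (Real.sqrt ((N:ℝ) + 1) - Real.sqrt N)]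
    push_cast
    linarith

abbrev I := Σ i : ℕ, ZMod (2 ^ i)

instance (i : ℕ) : NeZero (2 ^ i) := ⟨by positivity⟩

def shift : I ≃ I := Equiv.sigmaCongrRight (fun i => Equiv.addRight (1 : ZMod (2 ^ i)))

theorem shift_apply (i : ℕ) (k : ZMod (2 ^ i)) : shift ⟨i, k⟩ = ⟨i, k + 1⟩ := rfl

theorem shift_symm_apply (i : ℕ) (k : ZMod (2 ^ i)) : shift.symm ⟨i, k⟩ = ⟨i, k - 1⟩ := by
  rw [Equiv.symm_apply_eq, shift_apply]
  simp

theorem shift_iter (n i : ℕ) (k : ZMod (2 ^ i)) : shift^[n] ⟨i, k⟩ = ⟨i, k + n⟩ := by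
  induction n with
  | zero => simp
  | succ n ih =>
    rw [Function.iterate_succ_apply', ih, shift_apply]
    push_cast
    rw [add_assoc]

theorem shift_symm_iter (n i : ℕ) (k : ZMod (2 ^ i)) : shift.symm^[n] ⟨i, k⟩ = ⟨i, k - n⟩ := by
  induction n with
  | zero => simp
  | succ n ih =>
    rw [Function.iterate_succ_apply', ih, shift_symm_apply]
    push_cast
    rw [sub_sub]

noncomputable def wt (j : I) : ℝ := g j.2.val

theorem wt_le (j : I) : wt j ≤ 2 * wt (shift j) := by
  obtain ⟨i, k⟩ := j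
  rw [shift_apply]
  unfold wt
  simp only
  have h1 : (k + 1).val ≤ k.val + 1 := by
    rw [ZMod.val_add]
    refine (Nat.mod_le _ _).trans ?_
    have : (1 : ZMod (2 ^ i)).val ≤ 1 := by
      have h := ZMod.val_natCast (2 ^ i) 1
      rw [Nat.cast_one] at h
      rw [h]
      exact Nat.mod_le _ _
    omega
  calc g k.val ≤ 2 * g (k.val + 1) := g_succ _
    _ ≤ 2 * g (k + 1).val := by
      have := g_anti h1
      linarith

/-- Sum over at most one period. -/
theorem sum_short (i N : ℕ) (hN : N ≤ 2 ^ i) (k : ZMod (2 ^ i)) :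
    ∑ n ∈ Finset.range N, g (k - (n : ZMod (2 ^ i))).val ≤ 3 * Real.sqrt N := by
  classical
  rcases Nat.eq_zero_or_pos N with h0 | hNpos
  · subst h0; simp
  have hinj : Set.InjOn (fun n : ℕ => (k - (n : ZMod (2 ^ i))).val) (Finset.range N : Set ℕ) := by
    intro a ha b hb hab
    simp only [Finset.coe_range, Set.mem_Iio] at ha hb
    have h1 := ZMod.val_injective _ hab
    have h2 : (a : ZMod (2 ^ i)) = b := by
      have := sub_right_injective h1
      exact this
    have h3 := (ZMod.natCast_eq_natCast_iff' a b (2 ^ i)).1 h2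
    rwa [Nat.mod_eq_of_lt (by omega), Nat.mod_eq_of_lt (by omega)] at h3
  have hpt : ∀ n ∈ Finset.range N, g (k - (n : ZMod (2 ^ i))).val ≤
      1 / Real.sqrt N + (if (k - (n : ZMod (2 ^ i))).val < N then g (k - (n : ZMod (2 ^ i))).val else 0) := by
    intro n _
    split_ifs with h
    · have : 0 ≤ 1 / Real.sqrt N := by positivity
      linarith
    · rw [add_zero]
      have h4 : N ≤ (k - (n : ZMod (2 ^ i))).val := not_lt.1 h
      unfold g
      apply one_div_le_one_div_of_le (by positivity)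
      apply Real.sqrt_le_sqrt
      have : (N:ℝ) ≤ (k - (n : ZMod (2 ^ i))).val := by exact_mod_cast h4
      linarith
  refine (Finset.sum_le_sum hpt).trans ?_
  rw [Finset.sum_add_distrib, Finset.sum_const, Finset.card_range, nsmul_eq_mul]
  have h5 : (N:ℝ) * (1 / Real.sqrt N) = Real.sqrt N := by
    have : (0:ℝ) < N := by exact_mod_cast hNpos
    rw [mul_one_div, Real.div_sqrt]
  have h6 : ∑ n ∈ Finset.range N, (if (k - (n : ZMod (2 ^ i))).val < N then
      g (k - (n : ZMod (2 ^ i))).val else 0) ≤ ∑ a ∈ Finset.range N, g a := by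
    rw [← Finset.sum_filter]
    have h7 : ∑ a ∈ (Finset.range N).filter (fun n : ℕ => (k - (n : ZMod (2 ^ i))).val < N),
        g (k - ((a : ℕ) : ZMod (2 ^ i))).val =
        ∑ a ∈ ((Finset.range N).filter (fun n : ℕ => (k - (n : ZMod (2 ^ i))).val < N)).image
          (fun n : ℕ => (k - (n : ZMod (2 ^ i))).val), g a := by
      rw [Finset.sum_image]
      intro a ha b hb hab
      exact hinj (Finset.coe_subset.2 (Finset.filter_subset _ _) ha)
        (Finset.coe_subset.2 (Finset.filter_subset _ _) hb) hab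
    rw [h7]
    apply Finset.sum_le_sum_of_subset_of_nonneg
    · intro a ha
      rw [Finset.mem_image] at ha
      obtain ⟨b, hb, rfl⟩ := ha
      exact Finset.mem_range.2 (Finset.mem_filter.1 hb).2
    · intros; exact (g_pos _).le
  have h8 := sum_g N
  rw [h5]
  linarith

theorem sum_long (i : ℕ) : ∀ (N : ℕ) (k : ZMod (2 ^ i)),
    ∑ n ∈ Finset.range N, g (k - (n : ZMod (2 ^ i))).val ≤
      3 * Real.sqrt ((2:ℝ) ^ i) * (N / (2:ℝ) ^ i + 1) := by
  intro N
  induction N using Nat.strong_induction_on with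
  | _ N ih =>
    intro k
    have hd : (0:ℝ) < (2:ℝ) ^ i := by positivity
    rcases le_or_gt N (2 ^ i) with h | h
    · refine (sum_short i N h k).trans ?_
      have h1 : Real.sqrt N ≤ Real.sqrt ((2:ℝ) ^ i) := by
        apply Real.sqrt_le_sqrt
        exact_mod_cast h
      have h2 : (0:ℝ) ≤ N / (2:ℝ) ^ i := by positivity
      have h3 : 0 ≤ Real.sqrt ((2:ℝ) ^ i) := by positivity
      nlinarith
    · obtain ⟨M, rfl⟩ : ∃ M, N = 2 ^ i + M := ⟨N - 2 ^ i, by omega⟩
      rw [Finset.sum_range_add]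
      have h1 := sum_short i (2 ^ i) le_rfl k
      have h2 := ih M (by have : 0 < 2 ^ i := by positivity
                          omega) k
      have h3 : ∑ x ∈ Finset.range M, g (k - ((2 ^ i + x : ℕ) : ZMod (2 ^ i))).val =
          ∑ n ∈ Finset.range M, g (k - (n : ZMod (2 ^ i))).val := by
        apply Finset.sum_congr rfl
        intro x _
        congr 2
        rw [Nat.cast_add, ZMod.natCast_self, zero_add]
      rw [h3]
      push_cast at h1 ⊢
      have h4 : ((2:ℝ) ^ i + M) / (2:ℝ) ^ i + 1 = (M / (2:ℝ) ^ i + 1) + 1 := by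
        field_simp
        ring
      rw [h4]
      linarith

theorem ces_wt (j : I) (N : ℕ) :
    ∑ n ∈ Finset.range N, wt ((shift.symm)^[n] j) ≤ 6 * N * wt j := by
  obtain ⟨i, k⟩ := j
  simp only [shift_symm_iter]
  unfold wt
  simp only
  rcases Nat.eq_zero_or_pos N with h0 | hNpos
  · subst h0; simp
  have hNr : (0:ℝ) < N := by exact_mod_cast hNpos
  have hk : k.val < 2 ^ i := ZMod.val_lt k
  have hkr : (k.val : ℝ) + 1 ≤ (2:ℝ) ^ i := by exact_mod_cast hk
  set m := k.val with hm
  have hmr : (0:ℝ) ≤ m := by positivity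
  rcases le_or_gt N (2 ^ i) with h | h
  · rcases le_or_gt (2 * N) (m + 1) with h2 | h2
    · -- each term bounded
      have hterm : ∀ n ∈ Finset.range N, g (k - (n : ZMod (2 ^ i))).val ≤ 6 * g m := by
        intro n hn
        rw [Finset.mem_range] at hn
        have h3 : (k - (n : ZMod (2 ^ i))).val = m - n := by
          have h4 : (n : ZMod (2 ^ i)).val = n := ZMod.val_natCast_of_lt (by omega)
          rw [ZMod.val_sub (by rw [h4]; omega), h4]
        rw [h3]
        unfold g
        rw [mul_one_div, div_le_div_iff₀ (by positivity) (by positivity), one_mul]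
        have h5 : ((m - n : ℕ) : ℝ) = (m:ℝ) - n := by
          rw [Nat.cast_sub (by omega)]
        have h6 : (2:ℝ) * n ≤ m + 1 := by
          have : 2 * n ≤ m + 1 := by omega
          exact_mod_cast this
        have h7 : Real.sqrt ((m:ℝ) + 1) ≤ Real.sqrt (36 * (((m - n : ℕ) : ℝ) + 1)) := by
          apply Real.sqrt_le_sqrt
          rw [h5]
          linarith
        rw [Real.sqrt_mul (by norm_num), show (36:ℝ) = 6 ^ 2 by norm_num,
          Real.sqrt_sq (by norm_num)] at h7
        exact h7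
      refine (Finset.sum_le_sum hterm).trans ?_
      rw [Finset.sum_const, Finset.card_range, nsmul_eq_mul]
      exact le_of_eq (by ring)
    · refine (sum_short i N h k).trans ?_
      have h3 : (m:ℝ) + 1 ≤ 2 * N := by exact_mod_cast h2.le
      have h4 : Real.sqrt ((m:ℝ) + 1) ≤ Real.sqrt (4 * N) := by
        apply Real.sqrt_le_sqrt; linarith
      rw [Real.sqrt_mul (by norm_num), show (4:ℝ) = 2 ^ 2 by norm_num,
          Real.sqrt_sq (by norm_num)] at h4
      unfold g
      rw [mul_one_div, le_div_iff₀ (by positivity)]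
      have h5 : Real.sqrt N * Real.sqrt N = N := Real.mul_self_sqrt hNr.le
      have h6 : 0 ≤ Real.sqrt N := by positivity
      nlinarith [mul_le_mul_of_nonneg_left h4 h6]
  · refine (sum_long i N k).trans ?_
    have hd : (0:ℝ) < (2:ℝ) ^ i := by positivity
    have h1 : (2:ℝ) ^ i ≤ N := by exact_mod_cast h.le
    have h2 : (1:ℝ) ≤ N / (2:ℝ) ^ i := by rwa [le_div_iff₀ hd, one_mul]
    have h3 : 3 * Real.sqrt ((2:ℝ) ^ i) * (N / (2:ℝ) ^ i + 1) ≤
        6 * (Real.sqrt ((2:ℝ) ^ i) * (N / (2:ℝ) ^ i)) := by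
      have : 0 ≤ Real.sqrt ((2:ℝ) ^ i) := by positivity
      nlinarith
    refine h3.trans ?_
    rw [mul_assoc]
    apply mul_le_mul_of_nonneg_left _ (by norm_num)
    unfold g
    rw [mul_one_div, le_div_iff₀ (by positivity)]
    have h4 : Real.sqrt ((m:ℝ) + 1) ≤ Real.sqrt ((2:ℝ) ^ i) := Real.sqrt_le_sqrt hkr
    have h5 : Real.sqrt ((2:ℝ) ^ i) * Real.sqrt ((2:ℝ) ^ i) = (2:ℝ) ^ i :=
      Real.mul_self_sqrt hd.le
    calc Real.sqrt ((2:ℝ) ^ i) * (N / (2:ℝ) ^ i) * Real.sqrt ((m:ℝ) + 1)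
        ≤ Real.sqrt ((2:ℝ) ^ i) * (N / (2:ℝ) ^ i) * Real.sqrt ((2:ℝ) ^ i) := by
          apply mul_le_mul_of_nonneg_left h4
          positivity
      _ = (Real.sqrt ((2:ℝ) ^ i) * Real.sqrt ((2:ℝ) ^ i)) * (N / (2:ℝ) ^ i) := by ring
      _ = N := by rw [h5]; field_simp

noncomputable def D0 : Data I where
  s := shift
  w := wt
  wpos := fun j => g_pos _
  wle := wt_le
  C := 6
  hC1 := by norm_num
  ces := ces_wt

end Pool.Agent.H740R3.FRec
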