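import Mathlib
import Pool.Agent.H740R3.AQ4
import Pool.Agent.H740R3.AQTExp
import Pool.Agent.H462R5.AQTransport
import Pool.Agent.H468R3.AQ.Noncyc
import Pool.Agent.H992R3.AQ.PathT
import Pool.Agent.H581R3.AQSpec
import Pool.Agent.H644R3.AQ.VW
import Pool.Agent.H269R3.AQFinal

set_option autoImplicit false

open Filter Topology
open Pool.Agent.H740R3.AQ

namespace Pool.Agent.H740R3.HilbertAdm

/-- `T` is hypercyclic: some orbit is dense -/
def Hypercyclic {X : Type} [NormedAddCommGroup X] [NormedSpace ℂ X] (T : X →L[ℂ] X) : Prop :=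
  ∃ x : X, Dense (Set.range (fun n : ℕ => (T ^ n) x))

/-- `T` is cyclic: the linear span of some orbit is dense -/
def Cyclic {X : Type} [NormedAddCommGroup X] [NormedSpace ℂ X] (T : X →L[ℂ] X) : Prop :=
  ∃ x : X, Dense ((Submodule.span ℂ (Set.range (fun n : ℕ => (T ^ n) x)) : Submodule ℂ X) : Set X)

/-- `T` is admissible: hypercyclic, with non-cyclic direct square, and spectrum `{1}` -/
def Admissible {X : Type} [NormedAddCommGroup X] [NormedSpace ℂ X] (T : X →L[ℂ] X) : Prop :=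
  Hypercyclic T ∧ ¬ Cyclic (T.prodMap T) ∧ spectrum ℂ T = {1}

theorem sepH : TopologicalSpace.SeparableSpace H := by
  have h1 : TopologicalSpace.IsSeparable (Set.range e) := (Set.countable_range e).isSeparable
  have h2 := (h1.span (R := ℂ)).closure
  have h3 : closure (Submodule.span ℂ (Set.range e) : Set H) = Set.univ := by
    apply Set.eq_univ_of_forall
    intro x
    refine mem_closure_of_tendsto (tendsto_Pi x) ?_
    filter_upwards with N
    rw [Pi_eq]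
    apply Submodule.sum_mem
    intro i _
    exact Submodule.smul_mem _ _ (Submodule.subset_span ⟨i, rfl⟩)
  rw [h3] at h2
  exact TopologicalSpace.isSeparable_univ_iff.1 h2

theorem exists_targets : ∃ d : ℕ → H, ∀ v : H, ∀ δ : ℝ, 0 < δ → ∀ k0 : ℕ, ∃ k, k0 ≤ k ∧
    ‖d k - v‖ < δ := by
  have := sepH
  refine ⟨fun k => TopologicalSpace.denseSeq H (Nat.unpair k).1, fun v δ hδ k0 => ?_⟩
  obtain ⟨m, hm⟩ : ∃ m, ‖TopologicalSpace.denseSeq H m - v‖ < δ := by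
    obtain ⟨y, hy, ⟨m, rfl⟩⟩ := (TopologicalSpace.denseRange_denseSeq H).inter_open_nonempty
      (Metric.ball v δ) Metric.isOpen_ball ⟨v, Metric.mem_ball_self hδ⟩
    exact ⟨m, by rwa [Metric.mem_ball, dist_eq_norm] at hy⟩
  refine ⟨Nat.pair m k0, Nat.right_le_pair m k0, ?_⟩
  dsimp only
  rw [Nat.unpair_pair]
  exact hm

/-- states of the construction -/
structure St where
  N : ℕ
  A : H →L[ℂ] H
  x : H
  ε : ℝ
  L : ℕ
  im : IsIm N A
  hx : Pi N x = x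
  hε : 0 < ε
  hε1 : ε ≤ 1

theorem next (d : ℕ → H) (k : ℕ) (s : St) : ∃ s' : St,
    ‖s'.x - s.x‖ < s.ε ∧
    (∃ n : ℕ, n ≤ s'.L ∧ ‖NormedSpace.exp ((n : ℂ) • s'.A) s'.x - d k‖ < s.ε) ∧
    (∀ f : H, Pi s.L f = f → ‖s'.A f - s.A f‖ ≤ s.ε * ‖f‖) ∧
    (∀ m : ℕ, m ≤ s.L → ‖s'.A ^ m‖ < ‖s.A ^ m‖ + s.ε) ∧
    (∀ j : ℕ, j ≤ s.L → ‖NormedSpace.exp ((j : ℂ) • s'.A) s'.x -
      NormedSpace.exp ((j : ℂ) • s.A) s.x‖ < s.ε) ∧
    (∃ m : ℕ, 1 ≤ m ∧ m ≤ s'.L ∧ ‖s'.A ^ m‖ < s.ε ^ m ∧ s'.ε ≤ s.ε ^ m / 2) ∧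
    s'.ε ≤ s.ε / 2 ∧ s.L < s'.L := by
  obtain ⟨N', A', x', h1, h2, h3, ⟨n, h4⟩, h5, h6, h7, ⟨m, hm1, h8⟩⟩ :=
    step Pool.Agent.H462R5.AQT.taskTransport taskExp Pool.Agent.H644R3.AQ.taskVW
      (taskDil Pool.Agent.H992R3.AQ.taskPath) s.N s.A s.im s.x s.hx (d k) s.ε s.hε s.L
  have hp : 0 < s.ε ^ m := pow_pos s.hε m
  have hle : s.ε ^ m ≤ s.ε := by
    calc s.ε ^ m ≤ s.ε ^ 1 := pow_le_pow_of_le_one s.hε.le s.hε1 hm1
      _ = s.ε := pow_one _
  have hs1 := s.hε1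
  refine ⟨⟨N', A', x', s.ε ^ m / 2, s.L + n + m + 1, h1, h2, by positivity, by linarith⟩,
    h3, ⟨n, by dsimp only; omega, h4⟩, h5, h6, h7, ⟨m, hm1, by dsimp only; omega, h8, le_rfl⟩, ?_, ?_⟩
  · dsimp only; linarith
  · dsimp only; omega

theorem isIm_zero : IsIm 0 0 := by
  refine ⟨Empty, inferInstance, inferInstance, fun i => i.elim, fun i => i.elim,
    ⟨fun i => i.elim, fun i => i.elim, fun f => ?_, fun f => ?_⟩, fun i => i.elim⟩
  · simp [Pi_eq]
  · simp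

/-- The Hilbert space `ℓ²` carries an admissible operator. -/
theorem result : ∃ T : lp (fun _ : ℕ => ℂ) 2 →L[ℂ] lp (fun _ : ℕ => ℂ) 2, Admissible T := by
  obtain ⟨d, hd⟩ := exists_targets
  choose nx hnx using next d
  let s0 : St := ⟨0, 0, 0, 1, 1, isIm_zero, by simp, one_pos, le_rfl⟩
  let S : ℕ → St := fun k => Nat.rec s0 (fun k s => nx k s) k
  have hS : ∀ k, S (k + 1) = nx k (S k) := fun _ => rfl
  have hfin := taskFinal taskExp (fun k => (S k).A) (fun k => (S k).x) (fun k => (S k).ε)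
    (fun k => (S k).L) d hd (fun k => (S k).hε) (S 0).hε1
    (fun k => by have := (hnx k (S k)).2.2.2.2.2.2.1; rw [hS]; exact this)
    (fun k => by have := (hnx k (S k)).2.2.2.2.2.2.2; rw [hS]; exact this)
    (fun k => by have := (hnx k (S k)).1; rw [hS]; exact this)
    (fun k => by have := (hnx k (S k)).2.1; rw [hS]; exact this)
    (fun k => by have := (hnx k (S k)).2.2.1; rw [hS]; exact this)
    (fun k => by have := (hnx k (S k)).2.2.2.1; rw [hS]; exact this)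
    (le_refl 1)
    (fun k => by have := (hnx k (S k)).2.2.2.2.1; rw [hS]; exact this)
    (fun k => by have := (hnx k (S k)).2.2.2.2.2.1; rw [hS]; exact this)
    (fun k f g => by
      obtain ⟨ι, i1, i2, u, α, hD, _⟩ := (S k).im
      exact hD.bsymm f g)
  obtain ⟨A, hsym, hq, x, hx⟩ := hfin
  refine ⟨NormedSpace.exp A, ⟨x, ?_⟩, Pool.Agent.H468R3.AQ.taskNoncyc A hsym,
    Pool.Agent.H581R3.AQSpec.taskSpec A hq⟩
  have e1 : ∀ n : ℕ, (NormedSpace.exp A) ^ n = NormedSpace.exp ((n : ℂ) • A) := by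
    intro n
    let _ : NormedAlgebra ℚ (H →L[ℂ] H) := NormedAlgebra.restrictScalars ℚ ℂ _
    rw [← NormedSpace.exp_nsmul, Nat.cast_smul_eq_nsmul]
  simp_rw [e1]
  exact hx

end Pool.Agent.H740R3.HilbertAdm
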