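import Mathlib

set_option autoImplicit false

namespace Pool.Agent.H740R3.QN

open Filter Topology Metric

theorem ef_aux (g : ℂ → ℂ) (hg : Differentiable ℂ g) (h0 : ∀ z, g z ≠ 0)
    (hb : ∀ ε : ℝ, 0 < ε → ∃ C : ℝ, ∀ z, ‖g z‖ ≤ C * Real.exp (ε * ‖z‖)) (z : ℂ) : g z = g 0 := by
  -- logarithm
  have hd : Differentiable ℂ (fun w => deriv g w / g w) :=
    (hg.deriv).div hg h0
  obtain ⟨h, hh⟩ := hd.isExactOn_univ
  have hh' : ∀ w, HasDerivAt h (deriv g w / g w) w := fun w => hh w (Set.mem_univ w)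
  have hhd : Differentiable ℂ h := fun w => (hh' w).differentiableAt
  have hconst : ∀ w, g w * Complex.exp (-h w) = g 0 * Complex.exp (-h 0) := by
    have hF : ∀ w, HasDerivAt (fun w => g w * Complex.exp (-h w)) 0 w := by
      intro w
      have a1 := (hg w).hasDerivAt
      have a2 := ((hh' w).neg).cexp
      have a3 := a1.mul a2
      have e : deriv g w * Complex.exp (-h w) +
          g w * (Complex.exp (-h w) * -(deriv g w / g w)) = 0 := by
        have := h0 w
        field_simp
        ring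
      have a4 : HasDerivAt (fun w => g w * Complex.exp (-h w))
        (deriv g w * Complex.exp (-h w) + g w * (Complex.exp (-h w) * -(deriv g w / g w))) w := a3
      rw [e] at a4
      exact a4
    intro w
    exact is_const_of_deriv_eq_zero (fun w => (hF w).differentiableAt) (fun w => (hF w).deriv) w 0
  set f : ℂ → ℂ := fun w => h w - h 0 with hf
  have hgf : ∀ w, g w = g 0 * Complex.exp (f w) := by
    intro w
    have e := hconst w
    have e2 : Complex.exp (f w) = Complex.exp (h w) * Complex.exp (-h 0) := by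
      rw [← Complex.exp_add]; simp [hf, sub_eq_add_neg]
    have e3 : Complex.exp (-h w) * Complex.exp (h w) = 1 := by
      rw [← Complex.exp_add]; simp
    calc g w = g w * (Complex.exp (-h w) * Complex.exp (h w)) := by rw [e3, mul_one]
      _ = (g w * Complex.exp (-h w)) * Complex.exp (h w) := by ring
      _ = g 0 * Complex.exp (f w) := by rw [e, e2]; ring
  have hf0 : f 0 = 0 := by simp [hf]
  have hfd : Differentiable ℂ f := hhd.sub_const _
  have hg0 : 0 < ‖g 0‖ := norm_pos_iff.2 (h0 0)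
  -- bound
  have key : ∀ ε : ℝ, 0 < ε → ‖f z‖ ≤ 2 * ε * ‖z‖ := by
    intro ε hε
    obtain ⟨C, hC⟩ := hb ε hε
    have hCpos : 0 < C := by
      have := hC 0
      simp at this
      linarith
    set c : ℝ := |Real.log (C / ‖g 0‖)| + 1 with hc
    have hc0 : 0 < c := by positivity
    have hre : ∀ w, (f w).re ≤ ε * ‖w‖ + c := by
      intro w
      have e1 := hC w
      rw [hgf w, norm_mul, Complex.norm_exp] at e1
      have e2 : Real.exp (f w).re ≤ C / ‖g 0‖ * Real.exp (ε * ‖w‖) := by
        rw [div_mul_eq_mul_div, le_div_iff₀ hg0]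
        linarith
      have e3 : (f w).re ≤ Real.log (C / ‖g 0‖) + ε * ‖w‖ := by
        have := Real.log_le_log (Real.exp_pos _) e2
        rwa [Real.log_exp, Real.log_mul (by positivity) (by positivity), Real.log_exp] at this
      have := le_abs_self (Real.log (C / ‖g 0‖))
      linarith
    have hR : ∀ R : ℝ, ‖z‖ < R → ‖f z‖ ≤ 2 * (ε * R + c) * ‖z‖ / (R - ‖z‖) := by
      intro R hzR
      have hRpos : 0 < R := lt_of_le_of_lt (norm_nonneg z) hzR
      refine Complex.borelCaratheodory_zero (by positivity) hfd.differentiableOn ?_ hRpos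
        (mem_ball_zero_iff.2 hzR) hf0
      intro w hw
      have hw' : ‖w‖ < R := mem_ball_zero_iff.1 hw
      have := hre w
      have h3 : ε * ‖w‖ ≤ ε * R := mul_le_mul_of_nonneg_left hw'.le hε.le
      change (f w).re ≤ ε * R + c
      linarith
    have hlim : Tendsto (fun R : ℝ => 2 * (ε * R + c) * ‖z‖ / (R - ‖z‖)) atTop
        (𝓝 (2 * ε * ‖z‖)) := by
      have e : ∀ᶠ R : ℝ in atTop, 2 * ε * ‖z‖ + (2 * c * ‖z‖ + 2 * ε * ‖z‖ ^ 2) * (R - ‖z‖)⁻¹ =
          2 * (ε * R + c) * ‖z‖ / (R - ‖z‖) := by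
        filter_upwards [eventually_gt_atTop ‖z‖] with R hR
        have : R - ‖z‖ ≠ 0 := by linarith
        field_simp
        ring
      refine Tendsto.congr' e ?_
      have t1 : Tendsto (fun R : ℝ => (R - ‖z‖)⁻¹) atTop (𝓝 0) :=
        tendsto_inv_atTop_zero.comp (tendsto_atTop_add_const_right atTop (-‖z‖) tendsto_id)
      have t2 := (t1.const_mul (2 * c * ‖z‖ + 2 * ε * ‖z‖ ^ 2)).const_add (2 * ε * ‖z‖)
      rwa [mul_zero, add_zero] at t2
    refine ge_of_tendsto hlim ?_
    filter_upwards [eventually_gt_atTop ‖z‖] with R hR'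
    exact hR R hR'
  have hfz : f z = 0 := by
    rw [← norm_le_zero_iff]
    refine le_of_forall_pos_le_add fun δ hδ => ?_
    have hp : 0 < 2 * (‖z‖ + 1) := by positivity
    have := key (δ / (2 * (‖z‖ + 1))) (by positivity)
    refine this.trans ?_
    rw [zero_add]
    have e : 2 * (δ / (2 * (‖z‖ + 1))) * ‖z‖ = δ * (‖z‖ / (‖z‖ + 1)) := by field_simp
    rw [e]
    have h1 : ‖z‖ / (‖z‖ + 1) ≤ 1 := by
      rw [div_le_one (by positivity)]; linarith
    nlinarith
  rw [hgf z, hfz, Complex.exp_zero, mul_one]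

end Pool.Agent.H740R3.QN
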